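import Mathlib

set_option autoImplicit false

namespace CH134

open Real

/-- Link `i` of the configuration `p` is the segment from joint `p i` to joint `p (i+1)`.
An `n`-link configuration is simple if two distinct links meet only when they are consecutive,
and then only at their shared joint. -/
def Simple (n : ℕ) (p : ℕ → ℂ) : Prop :=
  ∀ i j : ℕ, i < j → j < n → ∀ z : ℂ, z ∈ segment ℝ (p i) (p (i + 1)) →
    z ∈ segment ℝ (p j) (p (j + 1)) → j = i + 1 ∧ z = p j

/-- The configuration `p` (joints `p 0, ..., p n` in the plane `ℂ`) has link lengths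
`l 0, ..., l (n-1)`. -/
def HasLengths (n : ℕ) (l : ℕ → ℝ) (p : ℕ → ℂ) : Prop :=
  ∀ i < n, dist (p i) (p (i + 1)) = l i

/-- `t ∈ (0, 2π)` is the counterclockwise angle from the vector `u` to the vector `v`. -/
def IsAngle (u v : ℂ) (t : ℝ) : Prop :=
  0 < t ∧ t < 2 * π ∧ v * (‖u‖ : ℂ) = u * (‖v‖ : ℂ) * Complex.exp (t * Complex.I)

/-- `t` is the joint angle at the inner joint `p (i+1)`. -/
def JointAngle (p : ℕ → ℂ) (i : ℕ) (t : ℝ) : Prop :=
  IsAngle (p i - p (i + 1)) (p (i + 2) - p (i + 1)) t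

/-- A motion during the time interval `[0, T]`: a continuous path of simple configurations
with the prescribed link lengths. -/
def IsMotion (n : ℕ) (l : ℕ → ℝ) (T : ℝ) (p : ℝ → ℕ → ℂ) : Prop :=
  (∀ i ≤ n, ContinuousOn (fun t => p t i) (Set.Icc 0 T)) ∧
  ∀ t ∈ Set.Icc (0 : ℝ) T, HasLengths n l (p t) ∧ Simple n (p t)

/-- `[0, T]` is cut into `k` consecutive pieces, and on each piece every joint angle is an
affine function of time: the motion is a concatenation of `k` moves. -/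
def PLMoves (n : ℕ) (T : ℝ) (p : ℝ → ℕ → ℂ) (k : ℕ) : Prop :=
  ∃ τ : ℕ → ℝ, τ 0 = 0 ∧ τ k = T ∧ (∀ j < k, τ j ≤ τ (j + 1)) ∧
    ∀ j < k, ∀ i : ℕ, i + 1 < n → ∃ α β : ℝ, ∀ t ∈ Set.Icc (τ j) (τ (j + 1)),
      JointAngle (p t) i (α + β * t)

/-- Every joint angle equals `π`. -/
def Straight (n : ℕ) (p : ℕ → ℂ) : Prop := ∀ i : ℕ, i + 1 < n → JointAngle p i π

/-- The chain with lengths `l` can be straightened from the configuration `q` by a motion
that is a concatenation of `k` moves. -/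
def StraightenedBy (n : ℕ) (l : ℕ → ℝ) (q : ℕ → ℂ) (k : ℕ) : Prop :=
  ∃ (T : ℝ) (p : ℝ → ℕ → ℂ), 0 ≤ T ∧ IsMotion n l T p ∧ (∀ i ≤ n, p 0 i = q i) ∧
    PLMoves n T p k ∧ Straight n (p T)

end CH134
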