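import Mathlib

set_option autoImplicit false

namespace CH134

open Real

/-- x-coordinate of the joint p4 in the frame p1 = 0, p0 on the positive real axis -/
noncomputable def X4 (m a c b : ℝ) : ℝ := cos a - (1 + m) * cos c + (1 + m) * cos b
noncomputable def Y4 (m a c b : ℝ) : ℝ := sin a - (1 + m) * sin c + (1 + m) * sin b
noncomputable def G (m a c b : ℝ) : ℝ := X4 m a c b - (1 - m)
noncomputable def X5 (m a c b e : ℝ) : ℝ := X4 m a c b - (1 - m) * cos e
noncomputable def Y5 (m a c b e : ℝ) : ℝ := Y4 m a c b - (1 - m) * sin e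

/-- the trap function -/
noncomputable def F (m a c b e : ℝ) : ℝ :=
  min (1/4 - (a - c)) (min (1/4 - b) (min (1/4 + b) (min (1/4 + e)
  (min ((1 + m) * sin (c - b) - sin (a - b)) (min (Y5 m a c b e)
  (min (X5 m a c b e * sin a - Y5 m a c b e * cos a)
  (min (cos e * Y4 m a c b - G m a c b * sin e) (G m a c b * sin b - Y4 m a c b * cos b))))))))

noncomputable def z2 (a : ℝ) : ℂ := Complex.exp (a * Complex.I)
noncomputable def z3 (m a c : ℝ) : ℂ := z2 a - (1 + m) * Complex.exp (c * Complex.I)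
noncomputable def z4 (m a c b : ℝ) : ℂ := z3 m a c + (1 + m) * Complex.exp (b * Complex.I)
noncomputable def z5 (m a c b e : ℝ) : ℂ := z4 m a c b - (1 - m) * Complex.exp (e * Complex.I)

/-- non-crossing facts in the normalised frame -/
def NC (m a c b e : ℝ) : Prop :=
  (0 : ℂ) ∉ segment ℝ (z3 m a c) (z4 m a c b) ∧
  z5 m a c b e ∉ segment ℝ ((1 - m : ℝ) : ℂ) 0 ∧
  z5 m a c b e ∉ segment ℝ (0 : ℂ) (z2 a) ∧
  ((1 - m : ℝ) : ℂ) ∉ segment ℝ (z4 m a c b) (z5 m a c b e) ∧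
  ((1 - m : ℝ) : ℂ) ∉ segment ℝ (z3 m a c) (z4 m a c b)

theorem core_ac (m a b c : ℝ) (hm : 0 < m) (hm' : m ≤ 1/1000) (ha : 0 < a) (ha1 : a ≤ 1)
    (hac : c < a) (hac' : a - c ≤ 1/4) (hb : b ≤ 1/4) (hb' : -(1/4) ≤ b)
    (h5 : 0 ≤ (1 + m) * sin (c - b) - sin (a - b)) : a - c ≤ 4 * m := by
  have h1 : sin (a - b) - sin (c - b) = 2 * sin ((a - c) / 2) * cos ((a + c) / 2 - b) := by
    rw [Real.sin_sub_sin]
    congr 2
    · congr 1
      ring
    · ring
  have h2 : sin (c - b) ≤ 1 := Real.sin_le_one _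
  have h3 : sin (a - b) - sin (c - b) ≤ m := by nlinarith
  have h4 : (0.29 : ℝ) ≤ cos ((a + c) / 2 - b) := by
    have h6 : |(a + c) / 2 - b| ≤ 5 / 4 := by
      rw [abs_le]
      constructor <;> linarith
    rw [← Real.cos_abs ((a + c) / 2 - b)]
    have h7 : cos (5 / 4) ≤ cos |(a + c) / 2 - b| :=
      Real.cos_le_cos_of_nonneg_of_le_pi (abs_nonneg _) (by linarith [Real.pi_gt_three]) h6
    have h8 : cos (5 / 4) = 2 * cos (5 / 8) ^ 2 - 1 := by
      rw [← Real.cos_two_mul]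
      norm_num
    have h9 : 1 - (5 / 8 : ℝ) ^ 2 / 2 ≤ cos (5 / 8) := Real.one_sub_sq_div_two_le_cos
    norm_num at h9
    nlinarith
  have h10 : (a - c) / 2 - ((a - c) / 2) ^ 3 / 6 < sin ((a - c) / 2) :=
    Real.sin_gt_sub_cube (by linarith)
  have h11 : 0.99 * ((a - c) / 2) ≤ sin ((a - c) / 2) := by
    have h12 : 0 < (a - c) / 2 := by linarith
    have h13 : (a - c) / 2 ≤ 1 / 8 := by linarith
    generalize (a - c) / 2 = x at h10 h12 h13 ⊢
    have h14 : x ^ 3 ≤ x * (1 / 64) := by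
      have : x ^ 2 ≤ 1 / 64 := by nlinarith
      nlinarith
    linarith
  rw [h1] at h3
  have h15 : 0 < (a - c) / 2 := by linarith
  have h16 : 0.99 * ((a - c) / 2) * 0.29 ≤ sin ((a - c) / 2) * cos ((a + c) / 2 - b) :=
    mul_le_mul h11 h4 (by norm_num) (by linarith)
  linarith

theorem core_g (m a b c e : ℝ) (hm : 0 < m) (hm' : m ≤ 1/1000) (hac : c < a) (hac' : a - c ≤ 4 * m)
    (hb : b ≤ 1/4) (hb' : -(1/4) ≤ b) (he : -(1/4) ≤ e) (heb : e < b)
    (h8 : 0 ≤ cos e * Y4 m a c b - G m a c b * sin e)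
    (h9 : 0 ≤ G m a c b * sin b - Y4 m a c b * cos b) : 0 ≤ G m a c b ∧ G m a c b ≤ 7 * m := by
  have hpi : (3 : ℝ) < π := Real.pi_gt_three
  constructor
  · have cb : 0 < cos b := Real.cos_pos_of_mem_Ioo ⟨by linarith, by linarith⟩
    have ce : 0 < cos e := Real.cos_pos_of_mem_Ioo ⟨by linarith, by linarith⟩
    have hs : 0 < sin (b - e) := Real.sin_pos_of_pos_of_lt_pi (by linarith) (by linarith)
    have h1 : 0 ≤ G m a c b * sin (b - e) := by
      have h2 := mul_nonneg cb.le h8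
      have h3 := mul_nonneg ce.le h9
      rw [Real.sin_sub]
      nlinarith [h2, h3]
    by_contra hneg
    push Not at hneg
    have := mul_neg_of_neg_of_pos hneg hs
    linarith
  · have h1 : cos a - cos c ≤ 4 * m := by
      rw [Real.cos_sub_cos]
      have h2 : |sin ((a - c) / 2)| ≤ |(a - c) / 2| := Real.abs_sin_le_abs
      have h3 : |sin ((a + c) / 2)| ≤ 1 := Real.abs_sin_le_one _
      have h4 : |(a - c) / 2| = (a - c) / 2 := abs_of_pos (by linarith)
      have h5 : |sin ((a + c) / 2) * sin ((a - c) / 2)| ≤ 1 * ((a - c) / 2) := by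
        rw [abs_mul]
        exact mul_le_mul h3 (h2.trans h4.le) (abs_nonneg _) zero_le_one
      have h6 := (abs_le.1 h5).1
      nlinarith [h6]
    have h2 : cos b ≤ 1 := Real.cos_le_one b
    have h3 : -1 ≤ cos c := Real.neg_one_le_cos c
    unfold G X4
    nlinarith [mul_nonneg hm.le (sub_nonneg.2 h2), mul_nonneg hm.le (by linarith : (0:ℝ) ≤ cos c + 1)]

theorem core_e (m a b c e : ℝ) (hm : 0 < m) (hm' : m ≤ 1/1000) (ha : 0 < a) (ha1 : a ≤ 1)
    (hb : b ≤ 1/4) (he : -(1/4) ≤ e) (heb : e < b)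
    (hg0 : 0 ≤ G m a c b) (hg : G m a c b ≤ 7 * m)
    (h7 : 0 ≤ X5 m a c b e * sin a - Y5 m a c b e * cos a)
    (h8 : 0 ≤ cos e * Y4 m a c b - G m a c b * sin e) : -(20 * m) ≤ e := by
  by_contra hcon
  push Not at hcon
  obtain ⟨s, hs⟩ : ∃ s, s = -e := ⟨_, rfl⟩
  have hs1 : 20 * m < s := by linarith
  have hs2 : s ≤ 1 / 4 := by linarith
  have hs0 : 0 < s := by linarith
  have he' : e = -s := by linarith
  have h1 : sin s ≤ s := (sin_lt hs0).le
  have h2 : s - s ^ 3 / 6 < sin s := sin_gt_sub_cube hs0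
  have h3 : 1 - s ^ 2 / 2 ≤ cos s := one_sub_sq_div_two_le_cos
  have h4 : cos s ≤ 1 := cos_le_one s
  have h5 : 1 - a ^ 2 / 2 ≤ cos a := one_sub_sq_div_two_le_cos
  have h6 : sin a ≤ 1 := sin_le_one a
  have ha5 : 1 / 2 ≤ cos a := by
    have : a ^ 2 ≤ 1 := pow_le_one₀ ha.le ha1
    linarith
  have hss : s ^ 2 ≤ 1 / 4 * s := by
    rw [sq]; exact mul_le_mul_of_nonneg_right hs2 hs0.le
  have hsss : s ^ 3 ≤ 1 / 16 * s := by
    have e : s ^ 3 = s ^ 2 * s := by ring
    rw [e]; exact mul_le_mul_of_nonneg_right (by linarith) hs0.le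
  have hc : 31 / 32 ≤ cos s := by linarith
  have hsin : 49 / 50 * s ≤ sin s := by linarith
  have hsin0 : 0 < sin s := by linarith
  rw [he', cos_neg, sin_neg] at h8
  obtain ⟨Y, hY⟩ : ∃ Y, Y = Y4 m a c b := ⟨_, rfl⟩
  obtain ⟨g, hgd⟩ : ∃ g, g = G m a c b := ⟨_, rfl⟩
  rw [← hY, ← hgd] at h8
  rw [← hgd] at hg hg0
  have hms : 0 < m * s := mul_pos hm hs0
  have hYl : -(8 * m * s) ≤ Y := by
    by_contra hlt
    push Not at hlt
    have hY0 : Y ≤ 0 := by linarith
    have e0 : cos s * Y ≤ 31 / 32 * Y := mul_le_mul_of_nonpos_right hc hY0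
    have e2 : g * sin s ≤ (7 * m) * s := mul_le_mul hg h1 hsin0.le (by linarith)
    linarith
  have hY5 : 24 / 25 * s ≤ Y5 m a c b e := by
    unfold Y5
    rw [← hY, he', sin_neg]
    have k1 : (999 / 1000) * (49 / 50 * s) ≤ (1 - m) * sin s :=
      mul_le_mul (by linarith) hsin (by positivity) (by linarith)
    have k2 : m * s ≤ 1 / 1000 * s := mul_le_mul_of_nonneg_right hm' hs0.le
    linarith
  have hX5 : X5 m a c b e = g + (1 - m) * (1 - cos s) := by
    unfold X5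
    rw [he', cos_neg, hgd]
    unfold G
    ring
  have hcs : 0 ≤ 1 - cos s := by linarith
  have k3 : (1 - m) * (1 - cos s) ≤ 1 * (1 - cos s) :=
    mul_le_mul_of_nonneg_right (by linarith) hcs
  have hX5u : X5 m a c b e ≤ 7 * m + s / 8 := by
    rw [hX5]
    linarith
  have hX50 : 0 ≤ X5 m a c b e := by
    rw [hX5]
    have : 0 ≤ (1 - m) * (1 - cos s) := mul_nonneg (by linarith) hcs
    linarith
  have k4 : X5 m a c b e * sin a ≤ X5 m a c b e * 1 := mul_le_mul_of_nonneg_left h6 hX50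
  have e3 : Y5 m a c b e * cos a ≤ X5 m a c b e := by linarith
  have e4 : 24 / 25 * s * (1 / 2) ≤ Y5 m a c b e * cos a :=
    mul_le_mul hY5 ha5 (by norm_num) (by linarith [show 0 ≤ 24 / 25 * s by positivity])
  linarith

theorem core_b (m a b c e : ℝ) (hm : 0 < m) (hm' : m ≤ 1/1000) (ha : 0 < a) (ha1 : a ≤ 1)
    (hac : c < a) (hac' : a - c ≤ 4 * m)
    (hb : b ≤ 1/4) (hb' : -(1/4) ≤ b)
    (hg0 : 0 ≤ G m a c b) (hg : G m a c b ≤ 7 * m)
    (h9 : 0 ≤ G m a c b * sin b - Y4 m a c b * cos b) : b ≤ 10 * m := by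
  by_contra hcon
  push Not at hcon
  have hb0 : 0 < b := by linarith
  have hS0 : 0 < sin b := sin_pos_of_pos_of_lt_pi hb0 (by linarith [Real.pi_gt_three])
  have hC : 1 - b ^ 2 / 2 ≤ cos b := Real.one_sub_sq_div_two_le_cos
  have hb2 : b ^ 2 ≤ 1 / 16 := by nlinarith
  have hC' : 0.96 ≤ cos b := by norm_num; linarith
  have hC1 : cos b ≤ 1 := cos_le_one b
  have hS : b - b ^ 3 / 6 < sin b := Real.sin_gt_sub_cube hb0
  have hS' : 0.98 * b ≤ sin b := by
    have : b ^ 3 ≤ b * (1 / 16) := by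
      have : b ^ 3 = b * b ^ 2 := by ring
      rw [this]
      exact mul_le_mul_of_nonneg_left hb2 hb0.le
    norm_num
    linarith
  have hlip : |sin a - sin c| ≤ |a - c| := by
    have := Real.lipschitzWith_sin.dist_le_mul a c
    rw [Real.dist_eq, Real.dist_eq] at this
    simpa using this
  rw [abs_of_pos (by linarith : 0 < a - c)] at hlip
  have h1 := (abs_le.1 hlip).1
  have hsc : sin c ≤ 1 := sin_le_one c
  have hY : sin b - 5 * m ≤ Y4 m a c b := by
    unfold Y4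
    nlinarith [mul_le_mul_of_nonneg_left hsc hm.le, mul_pos hm hS0]
  have h2 : (sin b - 5 * m) * cos b ≤ Y4 m a c b * cos b :=
    mul_le_mul_of_nonneg_right hY (by linarith)
  have h3 : G m a c b * sin b ≤ 7 * m * sin b := mul_le_mul_of_nonneg_right hg hS0.le
  have h4 : sin b * (cos b - 7 * m) ≤ 5 * m := by nlinarith
  have h5 : sin b * 0.95 ≤ sin b * (cos b - 7 * m) := by
    apply mul_le_mul_of_nonneg_left _ hS0.le
    norm_num at hC' ⊢
    linarith
  norm_num at h5 hS'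
  linarith

theorem core_y (m a b c e : ℝ) (hm : 0 < m) (hm' : m ≤ 1/1000)
    (hb : b ≤ 10 * m) (he : -(20 * m) ≤ e) (heb : e < b)
    (hg0 : 0 ≤ G m a c b) (hg : G m a c b ≤ 7 * m)
    (h8 : 0 ≤ cos e * Y4 m a c b - G m a c b * sin e)
    (h9 : 0 ≤ G m a c b * sin b - Y4 m a c b * cos b) : |Y4 m a c b| ≤ 200 * m ^ 2 := by
  have hb1 : |b| ≤ 20 * m := by rw [abs_le]; constructor <;> linarith
  have he1 : |e| ≤ 20 * m := by rw [abs_le]; constructor <;> linarith
  have hsin : ∀ x : ℝ, |x| ≤ 20 * m → -(20 * m) ≤ sin x ∧ sin x ≤ 20 * m := by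
    intro x hx
    have h1 : |sin x| ≤ |x| := Real.abs_sin_le_abs
    exact abs_le.1 (h1.trans hx)
  have hcos : ∀ x : ℝ, |x| ≤ 20 * m → 9 / 10 ≤ cos x := by
    intro x hx
    have h1 := Real.one_sub_sq_div_two_le_cos (x := x)
    have h2 : x ^ 2 ≤ (20 * m) ^ 2 := by
      rw [← sq_abs]
      exact pow_le_pow_left₀ (abs_nonneg _) hx 2
    nlinarith
  obtain ⟨hsb1, hsb2⟩ := hsin b hb1
  obtain ⟨hse1, hse2⟩ := hsin e he1
  have hcb := hcos b hb1
  have hce := hcos e he1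
  obtain ⟨Y, hY⟩ : ∃ Y, Y = Y4 m a c b := ⟨_, rfl⟩
  obtain ⟨g, hgd⟩ : ∃ g, g = G m a c b := ⟨_, rfl⟩
  rw [← hY] at h8 h9 ⊢
  rw [← hgd] at h8 h9 hg hg0
  rw [abs_le]
  have hA : g * sin b ≤ 140 * m ^ 2 := by nlinarith
  have hB : -(140 * m ^ 2) ≤ g * sin e := by nlinarith
  constructor
  · by_contra hc
    push Not at hc
    have h1 : cos e * Y ≤ (9 / 10) * Y := by nlinarith [sq_nonneg m]
    nlinarith [sq_nonneg m]
  · by_contra hc
    push Not at hc
    have h1 : (9 / 10) * Y ≤ cos b * Y := by nlinarith [sq_nonneg m]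
    nlinarith [sq_nonneg m]

/-- bounds in the trap -/
theorem trap_bounds (m a c b e : ℝ) (hm : 0 < m) (hm' : m ≤ 1/1000) (ha : 0 < a) (ha1 : a ≤ 1)
    (hca : c < a) (_hbc : b < c) (heb : e < b) (hF : 0 ≤ F m a c b e) :
    a - c ≤ 4 * m ∧ |b| ≤ 20 * m ∧ |e| ≤ 20 * m ∧ |Y4 m a c b| ≤ 200 * m ^ 2 ∧
    0 ≤ G m a c b ∧ G m a c b ≤ 7 * m := by
  unfold F at hF
  simp only [le_min_iff] at hF
  obtain ⟨f1, f2, f3, f4, f5, f6, f7, f8, f9⟩ := hF
  have g1 : a - c ≤ 4 * m := core_ac m a b c hm hm' ha ha1 hca (by linarith) (by linarith) (by linarith) f5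
  obtain ⟨g2, g3⟩ := core_g m a b c e hm hm' hca g1 (by linarith) (by linarith) (by linarith) heb f8 f9
  have g4 : -(20 * m) ≤ e := core_e m a b c e hm hm' ha ha1 (by linarith) (by linarith) heb g2 g3 f7 f8
  have g5 : b ≤ 10 * m := core_b m a b c e hm hm' ha ha1 hca g1 (by linarith) (by linarith) g2 g3 f9
  have g6 := core_y m a b c e hm hm' g5 g4 heb g2 g3 f8 f9
  refine ⟨g1, ?_, ?_, g6, g2, g3⟩
  · rw [abs_le]; constructor <;> linarith
  · rw [abs_le]; constructor <;> linarith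

theorem strict5 (m a c b : ℝ) (hm : 0 < m) (hm' : m ≤ 1/1000) (ha : 0 < a) (ha1 : a ≤ 1)
    (hca : c < a) (hbc : b < c) (hb' : -(1/4) ≤ b)
    (h : (1 + m) * sin (c - b) - sin (a - b) = 0) : (0 : ℂ) ∈ segment ℝ (z3 m a c) (z4 m a c b) := by
  have pi3 := Real.pi_gt_three
  have h1 : cos (a - b) ≤ cos (c - b) :=
    Real.cos_le_cos_of_nonneg_of_le_pi (by linarith) (by linarith) (by linarith)
  have h2 : 0 ≤ cos (a - b) := Real.cos_nonneg_of_mem_Icc ⟨by linarith, by linarith⟩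
  have h3 : cos (c - b) ≤ 1 := Real.cos_le_one _
  have hz3 : z3 m a c = ((-((1 + m) * cos (c - b) - cos (a - b)) : ℝ) : ℂ) *
      Complex.exp (b * Complex.I) := by
    have e1 : Complex.exp (a * Complex.I) = Complex.exp (((a - b : ℝ) : ℂ) * Complex.I) *
        Complex.exp (b * Complex.I) := by
      rw [← Complex.exp_add]
      congr 1
      push_cast
      ring
    have e2 : Complex.exp (c * Complex.I) = Complex.exp (((c - b : ℝ) : ℂ) * Complex.I) *
        Complex.exp (b * Complex.I) := by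
      rw [← Complex.exp_add]
      congr 1
      push_cast
      ring
    unfold z3 z2
    rw [e1, e2, ← mul_assoc, ← sub_mul]
    congr 1
    rw [Complex.exp_mul_I, Complex.exp_mul_I, ← Complex.ofReal_cos, ← Complex.ofReal_sin,
      ← Complex.ofReal_cos, ← Complex.ofReal_sin]
    have h' : ((((1 + m) * sin (c - b) - sin (a - b) : ℝ)) : ℂ) = 0 := by rw [h]; simp
    push_cast at h' ⊢
    linear_combination (-Complex.I) * h'
  have hz4 : z4 m a c b = (((1 + m) - ((1 + m) * cos (c - b) - cos (a - b)) : ℝ) : ℂ) *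
      Complex.exp (b * Complex.I) := by
    unfold z4
    rw [hz3]
    push_cast
    ring
  have ht0 : 0 ≤ (1 + m) * cos (c - b) - cos (a - b) := by nlinarith
  have ht1 : (1 + m) * cos (c - b) - cos (a - b) ≤ 1 + m := by nlinarith
  rw [hz3, hz4]
  generalize (1 + m) * cos (c - b) - cos (a - b) = t at *
  have hm1 : 0 < 1 + m := by linarith
  refine ⟨1 - t / (1 + m), t / (1 + m), ?_, by positivity, by ring, ?_⟩
  · rw [sub_nonneg, div_le_one hm1]
    exact ht1
  · rw [Complex.real_smul, Complex.real_smul, ← mul_assoc, ← mul_assoc, ← add_mul,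
      ← Complex.ofReal_mul, ← Complex.ofReal_mul, ← Complex.ofReal_add]
    have : (1 - t / (1 + m)) * (-t) + t / (1 + m) * (1 + m - t) = 0 := by
      field_simp
      ring
    rw [this]
    simp

theorem strict6 (m a c b e : ℝ) (hm : 0 < m) (hm' : m ≤ 1/1000)
    (hg0 : 0 ≤ G m a c b) (hg : G m a c b ≤ 7 * m) (he : |e| ≤ 20 * m)
    (h : Y5 m a c b e = 0) : z5 m a c b e ∈ segment ℝ ((1 - m : ℝ) : ℂ) 0 := by
  have hre : (z5 m a c b e).re = X5 m a c b e := by
    simp [z5, z4, z3, z2, X5, X4, Complex.exp_ofReal_mul_I_re, Complex.exp_ofReal_mul_I_im]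
  have him : (z5 m a c b e).im = Y5 m a c b e := by
    simp [z5, z4, z3, z2, Y5, Y4, Complex.exp_ofReal_mul_I_re, Complex.exp_ofReal_mul_I_im]
  have hz : z5 m a c b e = ((X5 m a c b e : ℝ) : ℂ) := by
    apply Complex.ext
    · rw [hre, Complex.ofReal_re]
    · rw [him, h, Complex.ofReal_im]
  have hc1 : cos e ≤ 1 := cos_le_one e
  have hc2 : 1 - e ^ 2 / 2 ≤ cos e := one_sub_sq_div_two_le_cos
  have he2 : e ^ 2 ≤ (20 * m) ^ 2 := by
    rw [← sq_abs e]
    exact pow_le_pow_left₀ (abs_nonneg e) he 2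
  have hX : X5 m a c b e = G m a c b + (1 - m) * (1 - cos e) := by
    unfold X5 G; ring
  have h1m : 0 < 1 - m := by linarith
  have hX0 : 0 ≤ X5 m a c b e := by
    rw [hX]
    have : 0 ≤ (1 - m) * (1 - cos e) := mul_nonneg h1m.le (by linarith)
    linarith
  have hX1 : X5 m a c b e ≤ 1 - m := by
    rw [hX]
    have h2 : (1 - m) * (1 - cos e) ≤ 1 * (200 * m ^ 2) := by
      apply mul_le_mul (by linarith) (by nlinarith) (by linarith) (by norm_num)
    nlinarith
  set r : ℝ := X5 m a c b e / (1 - m) with hr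
  have hr0 : 0 ≤ r := div_nonneg hX0 h1m.le
  have hr1 : r ≤ 1 := (div_le_one h1m).mpr hX1
  refine ⟨r, 1 - r, hr0, by linarith, by ring, ?_⟩
  rw [hz, smul_zero, add_zero]
  have : r * (1 - m) = X5 m a c b e := by
    rw [hr]; field_simp
  rw [Complex.real_smul, ← Complex.ofReal_mul, this]

theorem strict7_z5 (m a c b e : ℝ) :
    z5 m a c b e = (X5 m a c b e : ℂ) + (Y5 m a c b e : ℂ) * Complex.I := by
  simp only [z5, z4, z3, z2, X5, X4, Y5, Y4, Complex.exp_mul_I, Complex.ofReal_sub,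
    Complex.ofReal_add, Complex.ofReal_mul, Complex.ofReal_cos, Complex.ofReal_sin,
    Complex.ofReal_one]
  ring

theorem strict7 (m a c b e : ℝ) (hm : 0 < m) (hm' : m ≤ 1/1000) (ha : 0 < a) (ha1 : a ≤ 1)
    (hg0 : 0 ≤ G m a c b) (hg : G m a c b ≤ 7 * m) (he : |e| ≤ 20 * m) (hy : |Y4 m a c b| ≤ 200 * m ^ 2)
    (hY : 0 ≤ Y5 m a c b e)
    (h : X5 m a c b e * sin a - Y5 m a c b e * cos a = 0) : z5 m a c b e ∈ segment ℝ (0 : ℂ) (z2 a) := by
  have hpi : (3 : ℝ) < Real.pi := Real.pi_gt_three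
  have hcos : 0 ≤ cos a := Real.cos_nonneg_of_mem_Icc ⟨by linarith, by linarith⟩
  have hsin : 0 ≤ sin a := Real.sin_nonneg_of_nonneg_of_le_pi ha.le (by linarith)
  have hsc : sin a ^ 2 + cos a ^ 2 = 1 := Real.sin_sq_add_cos_sq a
  have hX : X5 m a c b e = G m a c b + (1 - m) * (1 - cos e) := by
    simp only [X5, G]; ring
  have hce : cos e ≤ 1 := Real.cos_le_one e
  have hce2 : 1 - e ^ 2 / 2 ≤ cos e := Real.one_sub_sq_div_two_le_cos
  have he2 : e ^ 2 ≤ (20 * m) ^ 2 := by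
    rw [← sq_abs e]
    exact pow_le_pow_left₀ (abs_nonneg _) he 2
  have hX0 : 0 ≤ X5 m a c b e := by
    rw [hX]
    have : 0 ≤ (1 - m) * (1 - cos e) := mul_nonneg (by linarith) (by linarith)
    linarith
  have hX1 : X5 m a c b e ≤ 1 / 10 := by
    rw [hX]
    have h1 : (1 - m) * (1 - cos e) ≤ 1 * (1 - cos e) :=
      mul_le_mul_of_nonneg_right (by linarith) (by linarith)
    nlinarith
  have hY1 : Y5 m a c b e ≤ 1 / 10 := by
    have h1 : Y4 m a c b ≤ 200 * m ^ 2 := (abs_le.mp hy).2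
    have h2 : |sin e| ≤ |e| := Real.abs_sin_le_abs
    have h3 : -(sin e) ≤ 20 * m := (neg_le_abs _).trans (h2.trans he)
    have h4 : Y5 m a c b e = Y4 m a c b + (1 - m) * (-(sin e)) := by
      simp only [Y5]; ring
    have h5 : (1 - m) * (-(sin e)) ≤ (1 - m) * (20 * m) :=
      mul_le_mul_of_nonneg_left h3 (by linarith)
    rw [h4]
    nlinarith
  set X := X5 m a c b e with hXd
  set Y := Y5 m a c b e with hYd
  set t : ℝ := X * cos a + Y * sin a with ht
  have ht0 : 0 ≤ t := by positivity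
  have ht1 : t ≤ 1 := by
    have h1 : X * cos a ≤ X * 1 := mul_le_mul_of_nonneg_left (Real.cos_le_one a) hX0
    have h2 : Y * sin a ≤ Y * 1 := mul_le_mul_of_nonneg_left (Real.sin_le_one a) hY
    rw [ht]
    linarith
  have e1 : X = t * cos a := by
    rw [ht]; linear_combination (-X) * hsc + sin a * h
  have e2 : Y = t * sin a := by
    rw [ht]; linear_combination (-Y) * hsc - cos a * h
  refine ⟨1 - t, t, by linarith, ht0, by ring, ?_⟩
  rw [strict7_z5, smul_zero, zero_add]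
  apply Complex.ext
  · simp only [z2, Complex.real_smul, Complex.mul_re, Complex.ofReal_re, Complex.ofReal_im,
      Complex.exp_ofReal_mul_I_re, Complex.exp_ofReal_mul_I_im, Complex.add_re, Complex.I_re,
      Complex.I_im]
    rw [← hXd, e1]
    ring
  · simp only [z2, Complex.real_smul, Complex.mul_im, Complex.ofReal_re, Complex.ofReal_im,
      Complex.exp_ofReal_mul_I_re, Complex.exp_ofReal_mul_I_im, Complex.add_im, Complex.I_re,
      Complex.I_im]
    rw [← hYd, e2]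
    ring

theorem cos_ge (m e : ℝ) (hm : 0 < m) (hm' : m ≤ 1/1000) (he : |e| ≤ 20 * m) :
    99 / 100 ≤ cos e := by
  have h1 := Real.one_sub_sq_div_two_le_cos (x := e)
  have h2 : e ^ 2 ≤ (20 * m) ^ 2 := by
    rw [← sq_abs e]
    exact pow_le_pow_left₀ (abs_nonneg e) he 2
  nlinarith

theorem z4_re (m a c b : ℝ) : (z4 m a c b).re = X4 m a c b := by
  unfold z4 z3 z2 X4
  simp [Complex.exp_ofReal_mul_I_re, Complex.exp_ofReal_mul_I_im]

theorem z4_im (m a c b : ℝ) : (z4 m a c b).im = Y4 m a c b := by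
  unfold z4 z3 z2 Y4
  simp [Complex.exp_ofReal_mul_I_re, Complex.exp_ofReal_mul_I_im]

theorem z5_re (m a c b e : ℝ) : (z5 m a c b e).re = X4 m a c b - (1 - m) * cos e := by
  unfold z5
  rw [Complex.sub_re, z4_re]
  simp [Complex.exp_ofReal_mul_I_re, Complex.exp_ofReal_mul_I_im]

theorem z5_im (m a c b e : ℝ) : (z5 m a c b e).im = Y4 m a c b - (1 - m) * sin e := by
  unfold z5
  rw [Complex.sub_im, z4_im]
  simp [Complex.exp_ofReal_mul_I_re, Complex.exp_ofReal_mul_I_im]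

theorem z3_re' (m a c b : ℝ) : (z3 m a c).re = X4 m a c b - (1 + m) * cos b := by
  unfold z3 z2 X4
  simp [Complex.exp_ofReal_mul_I_re, Complex.exp_ofReal_mul_I_im]

theorem z3_im' (m a c b : ℝ) : (z3 m a c).im = Y4 m a c b - (1 + m) * sin b := by
  unfold z3 z2 Y4
  simp [Complex.exp_ofReal_mul_I_re, Complex.exp_ofReal_mul_I_im]

theorem strict8 (m a c b e : ℝ) (hm : 0 < m) (hm' : m ≤ 1/1000)
    (hg0 : 0 ≤ G m a c b) (hg : G m a c b ≤ 7 * m) (he : |e| ≤ 20 * m)
    (h : cos e * Y4 m a c b - G m a c b * sin e = 0) :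
    ((1 - m : ℝ) : ℂ) ∈ segment ℝ (z4 m a c b) (z5 m a c b e) := by
  have hc := cos_ge m e hm hm' he
  have hc0 : 0 < cos e := by linarith
  obtain ⟨t, ht⟩ : ∃ t, t = G m a c b / cos e := ⟨_, rfl⟩
  have htG : t * cos e = G m a c b := by rw [ht]; field_simp
  have ht0 : 0 ≤ t := by rw [ht]; positivity
  have ht1 : t ≤ 1 - m := by nlinarith
  have hY : Y4 m a c b = t * sin e := by
    have : cos e * (Y4 m a c b - t * sin e) = 0 := by
      rw [← htG] at h; linarith
    rcases mul_eq_zero.1 this with h1 | h1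
    · exact absurd h1 hc0.ne'
    · linarith
  have h1m : 0 < 1 - m := by linarith
  have hX : X4 m a c b = 1 - m + t * cos e := by
    rw [htG]; unfold G; ring
  refine ⟨1 - t / (1 - m), t / (1 - m), ?_, by positivity, by ring, ?_⟩
  · rw [sub_nonneg, div_le_one h1m]; exact ht1
  · have e1 : (t / (1 - m)) * (1 - m) = t := by field_simp
    apply Complex.ext
    · simp only [Complex.add_re, Complex.real_smul, Complex.mul_re, Complex.ofReal_re,
        Complex.ofReal_im, z5_re, z4_re, zero_mul, sub_zero]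
      rw [hX]
      linear_combination (-cos e) * e1
    · simp only [Complex.add_im, Complex.real_smul, Complex.mul_im, Complex.ofReal_re,
        Complex.ofReal_im, z5_im, z4_im, zero_mul, add_zero]
      rw [hY]
      linear_combination (-sin e) * e1

theorem strict9 (m a c b : ℝ) (hm : 0 < m) (hm' : m ≤ 1/1000)
    (hg0 : 0 ≤ G m a c b) (hg : G m a c b ≤ 7 * m) (hb : |b| ≤ 20 * m)
    (h : G m a c b * sin b - Y4 m a c b * cos b = 0) :
    ((1 - m : ℝ) : ℂ) ∈ segment ℝ (z3 m a c) (z4 m a c b) := by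
  have hc := cos_ge m b hm hm' hb
  have hc0 : 0 < cos b := by linarith
  obtain ⟨t, ht⟩ : ∃ t, t = G m a c b / cos b := ⟨_, rfl⟩
  have htG : t * cos b = G m a c b := by rw [ht]; field_simp
  have ht0 : 0 ≤ t := by rw [ht]; positivity
  have ht1 : t ≤ 1 + m := by nlinarith
  have hY : Y4 m a c b = t * sin b := by
    have : cos b * (Y4 m a c b - t * sin b) = 0 := by
      rw [← htG] at h; linarith
    rcases mul_eq_zero.1 this with h1 | h1
    · exact absurd h1 hc0.ne'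
    · linarith
  have h1m : 0 < 1 + m := by linarith
  have hX : X4 m a c b = 1 - m + t * cos b := by
    rw [htG]; unfold G; ring
  refine ⟨t / (1 + m), 1 - t / (1 + m), by positivity, ?_, by ring, ?_⟩
  · rw [sub_nonneg, div_le_one h1m]; exact ht1
  · have e1 : (t / (1 + m)) * (1 + m) = t := by field_simp
    apply Complex.ext
    · simp only [Complex.add_re, Complex.real_smul, Complex.mul_re, Complex.ofReal_re,
        Complex.ofReal_im, z3_re' m a c b, z4_re, zero_mul, sub_zero]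
      rw [hX]
      linear_combination (-cos b) * e1
    · simp only [Complex.add_im, Complex.real_smul, Complex.mul_im, Complex.ofReal_re,
        Complex.ofReal_im, z3_im' m a c b, z4_im, zero_mul, add_zero]
      rw [hY]
      linear_combination (-sin b) * e1

/-- in the trap nothing can become tight -/
theorem trap_strict (m a c b e : ℝ) (hm : 0 < m) (hm' : m ≤ 1/1000) (ha : 0 < a) (ha1 : a ≤ 1)
    (hca : c < a) (hbc : b < c) (heb : e < b) (hF : 0 ≤ F m a c b e) (hN : NC m a c b e) :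
    0 < F m a c b e := by
  obtain ⟨g1, g2, g3, g4, g5, g6⟩ := trap_bounds m a c b e hm hm' ha ha1 hca hbc heb hF
  have b1 := (abs_le.mp g2).1
  have b2 := (abs_le.mp g2).2
  have e1 := (abs_le.mp g3).1
  have hF' := hF
  unfold F at hF'
  simp only [le_min_iff] at hF'
  obtain ⟨f1, f2, f3, f4, f5, f6, f7, f8, f9⟩ := hF'
  obtain ⟨n1, n2, n3, n4, n5⟩ := hN
  unfold F
  simp only [lt_min_iff]
  refine ⟨by linarith, by linarith, by linarith, by linarith, ?_, ?_, ?_, ?_, ?_⟩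
  · exact lt_of_le_of_ne f5 (fun h => n1 (strict5 m a c b hm hm' ha ha1 hca hbc (by linarith) h.symm))
  · exact lt_of_le_of_ne f6 (fun h => n2 (strict6 m a c b e hm hm' g5 g6 g3 h.symm))
  · exact lt_of_le_of_ne f7 (fun h => n3 (strict7 m a c b e hm hm' ha ha1 g5 g6 g3 g4 f6 h.symm))
  · exact lt_of_le_of_ne f8 (fun h => n4 (strict8 m a c b e hm hm' g5 g6 g3 h.symm))
  · exact lt_of_le_of_ne f9 (fun h => n5 (strict9 m a c b hm hm' g5 g6 g2 h.symm))

theorem curvA (m a c b : ℝ) (hm : 0 < m) (hm' : m ≤ 1/1000) (hac : 0 ≤ a - c) (hac' : a - c ≤ 4 * m)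
    (hb : |b| ≤ 20 * m) (hy : |Y4 m a c b| ≤ 200 * m ^ 2) :
    |(1 + m) / m * (a - c) * cos a - sin a + (1 + m) / m * b| ≤ 220 * m := by
  obtain ⟨d, hd⟩ : ∃ d, d = a - c := ⟨_, rfl⟩
  rw [← hd] at hac hac' ⊢
  have hc : c = a - d := by rw [hd]; ring
  have hd1 : d ≤ 1 := by linarith
  have hcos1 : 1 - d ^ 2 / 2 ≤ cos d := one_sub_sq_div_two_le_cos
  have hcos2 : cos d ≤ 1 := cos_le_one d
  have hsin1 : sin d ≤ d := sin_le hac
  have hsin2 : d - d ^ 3 / 4 ≤ sin d := by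
    rcases hac.eq_or_lt with h | h
    · rw [← h]
      simp
    · have := sin_gt_sub_cube h
      have h0 : 0 ≤ d ^ 3 := by positivity
      linarith
  have hE1 : |sin c - sin a + d * cos a| ≤ 9 * m ^ 2 := by
    have e : sin c - sin a + d * cos a = -sin a * (1 - cos d) + cos a * (d - sin d) := by
      rw [hc, sin_sub]
      ring
    rw [e]
    have h1 : |-sin a * (1 - cos d)| ≤ 1 - cos d := by
      rw [abs_mul, abs_neg, abs_of_nonneg (by linarith : 0 ≤ 1 - cos d)]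
      have := abs_sin_le_one a
      nlinarith [abs_nonneg (sin a)]
    have h2 : |cos a * (d - sin d)| ≤ d - sin d := by
      rw [abs_mul, abs_of_nonneg (by linarith : 0 ≤ d - sin d)]
      have := abs_cos_le_one a
      nlinarith [abs_nonneg (cos a)]
    have h3 : d ^ 2 ≤ 16 * m ^ 2 := by nlinarith
    have h4 : d ^ 3 ≤ 64 * m ^ 3 := by
      have : d ^ 3 ≤ (4 * m) ^ 3 := pow_le_pow_left₀ hac hac' 3
      nlinarith
    have h5 : m ^ 3 ≤ m ^ 2 / 1000 := by nlinarith [sq_nonneg m]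
    refine (abs_add_le _ _).trans ?_
    linarith
  have hE2 : |sin b - b| ≤ 2 * m ^ 2 := by
    have key : ∀ x : ℝ, 0 ≤ x → x ≤ 20 * m → |sin x - x| ≤ 2 * m ^ 2 := by
      intro x hx0 hx
      have h1 : sin x ≤ x := sin_le hx0
      have h2 : x - x ^ 3 / 4 ≤ sin x := by
        rcases hx0.eq_or_lt with h | h
        · rw [← h]
          simp
        · have := sin_gt_sub_cube h
          have h0 : 0 ≤ x ^ 3 := by positivity
          linarith
      have h4 : x ^ 3 ≤ 8000 * m ^ 3 := by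
        have : x ^ 3 ≤ (20 * m) ^ 3 := pow_le_pow_left₀ hx0 hx 3
        nlinarith
      have h5 : m ^ 3 ≤ m ^ 2 / 1000 := by nlinarith [sq_nonneg m]
      rw [abs_le]
      constructor <;> nlinarith [sq_nonneg m]
    rcases le_total 0 b with h | h
    · exact key b h (by rwa [abs_of_nonneg h] at hb)
    · have := key (-b) (by linarith) (by rwa [abs_of_nonpos h] at hb)
      rw [sin_neg] at this
      have e : -sin b - -b = -(sin b - b) := by ring
      rwa [e, abs_neg] at this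
  have hm0 : m ≠ 0 := hm.ne'
  have hkey : (1 + m) / m * d * cos a - sin a + (1 + m) / m * b =
      (Y4 m a c b + (1 + m) * (sin c - sin a + d * cos a) - (1 + m) * (sin b - b)) / m := by
    rw [Y4]
    field_simp
    ring
  rw [hkey, abs_div, abs_of_pos hm, div_le_iff₀ hm]
  have h1 : |(1 + m) * (sin c - sin a + d * cos a)| ≤ (1 + m) * (9 * m ^ 2) := by
    rw [abs_mul, abs_of_pos (by linarith : 0 < 1 + m)]
    exact mul_le_mul_of_nonneg_left hE1 (by linarith)
  have h2 : |(1 + m) * (sin b - b)| ≤ (1 + m) * (2 * m ^ 2) := by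
    rw [abs_mul, abs_of_pos (by linarith : 0 < 1 + m)]
    exact mul_le_mul_of_nonneg_left hE2 (by linarith)
  have h3 := abs_sub (Y4 m a c b + (1 + m) * (sin c - sin a + d * cos a)) ((1 + m) * (sin b - b))
  have h4 := abs_add_le (Y4 m a c b) ((1 + m) * (sin c - sin a + d * cos a))
  have h5 : m ^ 3 ≤ m ^ 2 / 1000 := by nlinarith [sq_nonneg m]
  nlinarith [sq_nonneg m]

lemma h399_mul_le {a b B : ℝ} (ha : |a| ≤ B) (hb : |b| ≤ 1) : |a * b| ≤ B := by
  rw [abs_mul]
  calc |a| * |b| ≤ B * 1 := mul_le_mul ha hb (abs_nonneg _) ((abs_nonneg _).trans ha)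
    _ = B := mul_one _

lemma h399_alg (c s C S L K x1 X1 X2 X3 G1 G2 G3 η : ℝ) (hcs : c ^ 2 + s ^ 2 = 1)
    (hCS : S ^ 2 = 1 - C ^ 2) (hc : |c| ≤ 1) (hA : |c * C + s * S| ≤ 1) (hC : |C| ≤ 1)
    (hL : L = 2 - 2 * C) (hL0 : 0 ≤ L) (hK : K = L - 2 * x1 * S)
    (hX1 : X1 = X2 - x1) (hX3 : X3 = X2 + x1)
    (hG1 : G1 = L * X1 * (c * C + s * S) - K * (s * C - c * S))
    (hG2 : G2 = L * X2 * c - K * s)
    (hG3 : G3 = L * X3 * (c * C - s * S) - K * (s * C + c * S))
    (b1 : |G1| ≤ 4 * η) (b2 : |G2| ≤ 4 * η) (b3 : |G3| ≤ 4 * η)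
    (hs : 46 / 100 ≤ s) (hS0 : 0 < S) (hS1 : S ≤ 1 / 16) :
    L * S ^ 2 ≤ 53 * η := by
  have hA1 : G1 + G3 - 2 * (C * G2) = -2 * (L * x1 * S * s) := by
    rw [hG1, hG2, hG3, hX1, hX3]; ring
  have hη : 0 ≤ η := by linarith [abs_nonneg G1]
  have hCG : |C * G2| ≤ 4 * η := by rw [mul_comm]; exact h399_mul_le b2 hC
  have h2 : |L * x1 * S * s| ≤ 8 * η := by
    have h3 : |L * x1 * S * s| = |G1 + G3 - 2 * (C * G2)| / 2 := by
      rw [hA1, abs_mul]
      norm_num
    rw [h3]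
    rw [abs_le] at b1 b3 hCG
    have : |G1 + G3 - 2 * (C * G2)| ≤ 16 * η := by
      rw [abs_le]
      constructor <;> linarith [b1.1, b1.2, b3.1, b3.2, hCG.1, hCG.2]
    linarith
  have hs0 : 0 < s := by linarith
  have h4 : L * |x1| * S * s ≤ 8 * η := by
    have : |L * x1 * S * s| = L * |x1| * S * s := by
      rw [abs_mul, abs_mul, abs_mul, abs_of_nonneg hL0, abs_of_pos hS0, abs_of_pos hs0]
    rw [← this]; exact h2
  have hx1 : 0 ≤ L * |x1| * S := by positivity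
  have h5 : L * |x1| * S ≤ 175 / 10 * η := by nlinarith
  have hB : L * S = G1 * c - G2 * (c * C + s * S) + L * x1 * (c * (c * C + s * S) + 1 + C) := by
    have e1 : G1 * c - G2 * (c * C + s * S) =
        -(L * x1 * (c * (c * C + s * S))) + K * S * (c ^ 2 + s ^ 2) := by
      rw [hG1, hG2, hX1]; ring
    rw [e1, hcs, mul_one, hK]
    have e2 : 2 * S ^ 2 = L * (1 + C) := by rw [hL, hCS]; ring
    linear_combination x1 * e2
  have c1 : |G1 * c| ≤ 4 * η := h399_mul_le b1 hc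
  have c2 : |G2 * (c * C + s * S)| ≤ 4 * η := h399_mul_le b2 hA
  have c3 : |c * (c * C + s * S)| ≤ 1 := h399_mul_le hc hA
  have c4 : L * x1 * (c * (c * C + s * S) + 1 + C) ≤ 3 * (L * |x1|) := by
    have h6 : |c * (c * C + s * S) + 1 + C| ≤ 3 := by
      rw [abs_le] at c3 hC ⊢
      constructor <;> linarith [c3.1, c3.2, hC.1, hC.2]
    calc L * x1 * (c * (c * C + s * S) + 1 + C) ≤ |L * x1 * (c * (c * C + s * S) + 1 + C)| :=
          le_abs_self _
      _ = L * |x1| * |c * (c * C + s * S) + 1 + C| := by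
          rw [abs_mul, abs_mul, abs_of_nonneg hL0]
      _ ≤ L * |x1| * 3 := mul_le_mul_of_nonneg_left h6 (by positivity)
      _ = 3 * (L * |x1|) := by ring
  have h7 : L * S ≤ 8 * η + 3 * (L * |x1|) := by
    rw [hB]
    rw [abs_le] at c1 c2
    linarith [c1.2, c2.1]
  have h8 : L * S ^ 2 ≤ 8 * η * S + 3 * (L * |x1| * S) := by
    have := mul_le_mul_of_nonneg_right h7 hS0.le
    calc L * S ^ 2 = L * S * S := by ring
      _ ≤ (8 * η + 3 * (L * |x1|)) * S := this
      _ = _ := by ring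
  have h9 : 8 * η * S ≤ 8 * η * (1 / 16) := mul_le_mul_of_nonneg_left hS1 (by positivity)
  linarith

lemma h399_second {F0 F1 F2 G η : ℝ} (f0 : |F0| ≤ η) (f1 : |F1| ≤ η) (f2 : |F2| ≤ η)
    (hG : G = -(F2 - 2 * F1 + F0)) : |G| ≤ 4 * η := by
  rw [abs_le] at *
  rw [hG]
  constructor <;> linarith [f0.1, f0.2, f1.1, f1.2, f2.1, f2.2]

lemma h399_cos2 (a h : ℝ) : cos (a + h) = cos a * cos h - sin a * sin h := cos_add a h

lemma h399_trig (c s C S x0 x1 y0 y1 η : ℝ) (hcs : c ^ 2 + s ^ 2 = 1)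
    (hCS : S ^ 2 = 1 - C ^ 2) (hc : |c| ≤ 1) (hA : |c * C + s * S| ≤ 1) (hC : |C| ≤ 1)
    (hs : 46 / 100 ≤ s) (hS0 : 0 < S) (hS1 : S ≤ 1 / 16)
    (f0 : |x0 * ((c * C + s * S) * C + (s * C - c * S) * S) -
      ((s * C - c * S) * C - (c * C + s * S) * S) + y0| ≤ η)
    (f1 : |(x0 + x1) * (c * C + s * S) - (s * C - c * S) + (y0 + y1)| ≤ η)
    (f2 : |(x0 + 2 * x1) * c - s + (y0 + 2 * y1)| ≤ η)
    (f3 : |(x0 + 3 * x1) * (c * C - s * S) - (s * C + c * S) + (y0 + 3 * y1)| ≤ η)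
    (f4 : |(x0 + 4 * x1) * ((c * C - s * S) * C - (s * C + c * S) * S) -
      ((s * C + c * S) * C + (c * C - s * S) * S) + (y0 + 4 * y1)| ≤ η) :
    (2 - 2 * C) * S ^ 2 ≤ 53 * η := by
  have hL0 : 0 ≤ 2 - 2 * C := by
    rw [abs_le] at hC
    linarith [hC.2]
  refine h399_alg c s C S (2 - 2 * C) (2 - 2 * C - 2 * x1 * S) x1 (x0 + x1) (x0 + 2 * x1)
    (x0 + 3 * x1) _ _ _ η hcs hCS hc hA hC rfl hL0 rfl (by ring) (by ring) rfl rfl rfl
    (h399_second f0 f1 f2 ?_) (h399_second f1 f2 f3 ?_) (h399_second f2 f3 f4 ?_) hs hS0 hS1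
  · have e2 : c = (c * C + s * S) * C - (s * C - c * S) * S := by
      linear_combination (-c) * hCS
    have e2' : s = (s * C - c * S) * C + (c * C + s * S) * S := by
      linear_combination (-s) * hCS
    linear_combination (x0 + 2 * x1) * e2 - e2'
  · ring
  · have e2 : c = (c * C - s * S) * C + (s * C + c * S) * S := by
      linear_combination (-c) * hCS
    have e2' : s = (s * C + c * S) * C - (c * C - s * S) * S := by
      linear_combination (-s) * hCS
    linear_combination (x0 + 2 * x1) * e2 - e2'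

lemma h399_lower {h C S : ℝ} (hh : 0 < h) (hh16 : h ≤ 1 / 16) (hC : C = cos h) (hS : S = sin h) :
    99 / 100 * h ^ 4 ≤ (2 - 2 * C) * S ^ 2 := by
  have hL0 : 0 ≤ 2 - 2 * C := by
    have : C ≤ 1 := by rw [hC]; exact cos_le_one h
    linarith
  have hSl : h - h ^ 3 / 6 < S := by rw [hS]; exact sin_gt_sub_cube hh
  have hCl : C ≤ 1 - h ^ 2 / 2 + h ^ 4 * (5 / 96) := by
    have h1 := cos_bound (x := h) (by rw [abs_of_pos hh]; linarith)
    rw [← hC, abs_of_pos hh, abs_le] at h1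
    linarith [h1.2]
  have hh2 : h ^ 2 ≤ 1 / 256 := by nlinarith
  have hS2 : (999 / 1000 * h) ≤ S := by nlinarith
  have hLl : 999 / 1000 * h ^ 2 ≤ 2 - 2 * C := by
    have : h ^ 4 = h ^ 2 * h ^ 2 := by ring
    nlinarith [sq_nonneg h]
  have hS3 : (999 / 1000 * h) ^ 2 ≤ S ^ 2 := pow_le_pow_left₀ (by positivity) hS2 2
  have h10 : 999 / 1000 * h ^ 2 * (999 / 1000 * h) ^ 2 ≤ (2 - 2 * C) * S ^ 2 :=
    mul_le_mul hLl hS3 (by positivity) hL0
  have h11 : 999 / 1000 * h ^ 2 * (999 / 1000 * h) ^ 2 = (999 / 1000) ^ 3 * h ^ 4 := by ring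
  have h12 := pow_pos hh 4
  rw [h11] at h10
  norm_num at h10 ⊢
  linarith

theorem curvB (α h x0 x1 y0 y1 η : ℝ) (hα : 1/2 ≤ α) (hh : 0 < h) (hh' : α + 4 * h ≤ 3/4)
    (f0 : |x0 * cos α - sin α + y0| ≤ η)
    (f1 : |(x0 + x1) * cos (α + h) - sin (α + h) + (y0 + y1)| ≤ η)
    (f2 : |(x0 + 2 * x1) * cos (α + 2 * h) - sin (α + 2 * h) + (y0 + 2 * y1)| ≤ η)
    (f3 : |(x0 + 3 * x1) * cos (α + 3 * h) - sin (α + 3 * h) + (y0 + 3 * y1)| ≤ η)
    (f4 : |(x0 + 4 * x1) * cos (α + 4 * h) - sin (α + 4 * h) + (y0 + 4 * y1)| ≤ η) :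
    h ^ 4 ≤ 60 * η := by
  have hh16 : h ≤ 1 / 16 := by linarith
  obtain ⟨β, hβ⟩ : ∃ β, β = α + 2 * h := ⟨_, rfl⟩
  have k0 : α = β - h - h := by linarith
  have k1 : α + h = β - h := by linarith
  have k3 : α + 3 * h = β + h := by linarith
  have k4 : α + 4 * h = β + h + h := by linarith
  have hβ1 : 1 / 2 ≤ β := by linarith
  have hβ2 : β ≤ 3 / 4 := by linarith
  have hS0 : 0 < sin h := sin_pos_of_pos_of_lt_pi hh (by linarith [pi_gt_three])
  have hSh : sin h ≤ h := (sin_lt hh).le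
  have hs46 : 46 / 100 ≤ sin β := by
    have h1 := sin_gt_sub_cube (x := β) (by linarith)
    have h2 : 0 ≤ (β - 1 / 2) * (1 - (β ^ 2 + β / 2 + 1 / 4) / 6) := by
      refine mul_nonneg (by linarith) ?_
      nlinarith
    nlinarith
  rw [k0, cos_sub (β - h) h, sin_sub (β - h) h, cos_sub β h, sin_sub β h] at f0
  rw [k1, cos_sub, sin_sub] at f1
  rw [← hβ] at f2
  rw [k3, cos_add, sin_add] at f3
  rw [k4, cos_add (β + h) h, sin_add (β + h) h, cos_add β h, sin_add β h] at f4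
  have hA : |cos β * cos h + sin β * sin h| ≤ 1 := by rw [← cos_sub]; exact abs_cos_le_one _
  have main := h399_trig (cos β) (sin β) (cos h) (sin h) x0 x1 y0 y1 η (cos_sq_add_sin_sq β)
    (sin_sq h) (abs_cos_le_one β) hA (abs_cos_le_one h) hs46 hS0 (hSh.trans hh16)
    f0 f1 f2 f3 f4
  have low := h399_lower hh hh16 rfl rfl
  have hη : 0 ≤ η := (abs_nonneg _).trans f2
  linarith

theorem curvature (m α D c0 c1 b0 b1 : ℝ) (hm : 0 < m) (hm' : m ≤ 1/1000)
    (hα : 1/2 ≤ α) (hD : 0 < D) (hD' : α + D ≤ 3/4)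
    (H : ∀ s : ℝ, 0 ≤ s → s ≤ 1 → 0 ≤ (α + D * s) - (c0 + c1 * s) ∧ (α + D * s) - (c0 + c1 * s) ≤ 4 * m ∧
      |b0 + b1 * s| ≤ 20 * m ∧ |Y4 m (α + D * s) (c0 + c1 * s) (b0 + b1 * s)| ≤ 200 * m ^ 2) :
    (D / 4) ^ 4 ≤ 13200 * m := by
  have K : ∀ s : ℝ, 0 ≤ s → s ≤ 1 →
      |(1 + m) / m * ((α + D * s) - (c0 + c1 * s)) * cos (α + D * s) - sin (α + D * s)
        + (1 + m) / m * (b0 + b1 * s)| ≤ 220 * m := by
    intro s h0 h1
    obtain ⟨k1, k2, k3, k4⟩ := H s h0 h1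
    exact curvA m (α + D * s) (c0 + c1 * s) (b0 + b1 * s) hm hm' k1 k2 k3 k4
  have key := curvB α (D / 4) ((1 + m) / m * (α - c0)) ((1 + m) / m * ((D - c1) / 4)) ((1 + m) / m * b0)
    ((1 + m) / m * (b1 / 4)) (220 * m) hα (by linarith) (by linarith) ?_ ?_ ?_ ?_ ?_
  · linarith
  · have := K 0 (by norm_num) (by norm_num)
    simpa using this
  · have := K (1/4) (by norm_num) (by norm_num)
    convert this using 2
    have e1 : α + D / 4 = α + D * (1/4) := by ring
    rw [e1]; ring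
  · have := K (1/2) (by norm_num) (by norm_num)
    convert this using 2
    have e1 : α + 2 * (D / 4) = α + D * (1/2) := by ring
    rw [e1]; ring
  · have := K (3/4) (by norm_num) (by norm_num)
    convert this using 2
    have e1 : α + 3 * (D / 4) = α + D * (3/4) := by ring
    rw [e1]; ring
  · have := K 1 (by norm_num) (by norm_num)
    convert this using 2
    have e1 : α + 4 * (D / 4) = α + D * 1 := by ring
    rw [e1]; ring

end CH134
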