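import Pool.Agent.Helper134.ChainDefs
import Pool.Agent.Helper134.ChainTrap

set_option autoImplicit false

namespace CH134

open Real

/-- the four joint angles of a five-link configuration, written through the directions
`a, c, b, e` of the links in the frame of the first link -/
def St (q : ℕ → ℂ) (a c b e : ℝ) : Prop :=
  JointAngle q 0 a ∧ JointAngle q 1 (2 * π + c - a) ∧ JointAngle q 2 (2 * π + b - c) ∧
    JointAngle q 3 (2 * π + e - b)

/-- the link lengths `1 - m, 1, 1 + m, 1 + m, 1 - m` -/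
noncomputable def lm (m : ℝ) : ℕ → ℝ
  | 0 => 1 - m
  | 1 => 1
  | 2 => 1 + m
  | 3 => 1 + m
  | _ => 1 - m

/-- the configuration in the frame p1 = 0, p0 = 1 - m -/
noncomputable def zq (m a c b e : ℝ) : ℕ → ℂ
  | 0 => ((1 - m : ℝ) : ℂ)
  | 1 => 0
  | 2 => z2 a
  | 3 => z3 m a c
  | 4 => z4 m a c b
  | _ => z5 m a c b e

theorem st_frame_exp (x y : ℝ) :
    Complex.exp ((x : ℂ) * Complex.I) * Complex.exp (((2 * π + y - x : ℝ) : ℂ) * Complex.I) =
      Complex.exp ((y : ℂ) * Complex.I) := by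
  rw [← Complex.exp_add]
  have : (x : ℂ) * Complex.I + ((2 * π + y - x : ℝ) : ℂ) * Complex.I =
      (y : ℂ) * Complex.I + 2 * π * Complex.I := by
    push_cast
    ring
  rw [this, Complex.exp_add, Complex.exp_two_pi_mul_I, mul_one]

theorem st_frame (m : ℝ) (hm : 0 < m) (hm' : m ≤ 1/1000) (q : ℕ → ℂ) (a c b e : ℝ)
    (hl : HasLengths 5 (lm m) q) (h : St q a c b e) :
    ∃ ω : ℂ, ω ≠ 0 ∧ ∀ i ≤ 5, q i = q 1 + ω * zq m a c b e i := by
  have l0 : ‖q 0 - q 1‖ = 1 - m := by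
    have := hl 0 (by norm_num)
    rwa [dist_eq_norm] at this
  have l1 : ‖q 1 - q 2‖ = 1 := by
    have := hl 1 (by norm_num)
    rwa [dist_eq_norm] at this
  have l2 : ‖q 2 - q 3‖ = 1 + m := by
    have := hl 2 (by norm_num)
    rwa [dist_eq_norm] at this
  have l3 : ‖q 3 - q 4‖ = 1 + m := by
    have := hl 3 (by norm_num)
    rwa [dist_eq_norm] at this
  have l4 : ‖q 4 - q 5‖ = 1 - m := by
    have := hl 4 (by norm_num)
    rwa [dist_eq_norm] at this
  obtain ⟨⟨-, -, h0⟩, ⟨-, -, h1⟩, ⟨-, -, h2⟩, ⟨-, -, h3⟩⟩ := h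
  simp only [zero_add, show (1 + 1 : ℕ) = 2 from rfl, show (1 + 2 : ℕ) = 3 from rfl,
    show (2 + 1 : ℕ) = 3 from rfl, show (2 + 2 : ℕ) = 4 from rfl,
    show (3 + 1 : ℕ) = 4 from rfl, show (3 + 2 : ℕ) = 5 from rfl] at h0 h1 h2 h3
  rw [l0, norm_sub_rev, l1] at h0
  rw [l1, norm_sub_rev, l2] at h1
  rw [l2, norm_sub_rev, l3] at h2
  rw [l3, norm_sub_rev, l4] at h3
  have hm1 : (1 : ℂ) - m ≠ 0 := by
    have : (1 : ℝ) - m ≠ 0 := by linarith
    exact_mod_cast this
  have hm2 : (1 : ℂ) + m ≠ 0 := by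
    have : (1 : ℝ) + m ≠ 0 := by linarith
    exact_mod_cast this
  push_cast at h0 h1 h2 h3
  obtain ⟨ω, hω⟩ : ∃ ω, ω = (q 0 - q 1) / (1 - m) := ⟨_, rfl⟩
  have hω0 : q 0 - q 1 = ω * (1 - m) := by
    rw [hω, div_mul_cancel₀ _ hm1]
  have ex := fun x y : ℝ => st_frame_exp x y
  push_cast at ex
  have k0 : q 2 - q 1 = ω * Complex.exp (a * Complex.I) := by
    apply mul_right_cancel₀ hm1
    rw [h0, hω0]
    ring
  have k1 : q 3 - q 2 = -((1 + m) * ω * Complex.exp (c * Complex.I)) := by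
    have e1 : q 1 - q 2 = -(ω * Complex.exp (a * Complex.I)) := by rw [← k0]; ring
    rw [mul_one, e1] at h1
    rw [h1, ← ex a c]
    ring
  have k2 : q 4 - q 3 = (1 + m) * ω * Complex.exp (b * Complex.I) := by
    have e1 : q 2 - q 3 = (1 + m) * ω * Complex.exp (c * Complex.I) := by
      rw [← neg_sub, k1, neg_neg]
    rw [e1] at h2
    apply mul_right_cancel₀ hm2
    rw [h2, ← ex c b]
    ring
  have k3 : q 5 - q 4 = -((1 - m) * ω * Complex.exp (e * Complex.I)) := by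
    have e1 : q 3 - q 4 = -((1 + m) * ω * Complex.exp (b * Complex.I)) := by
      rw [← neg_sub, k2]
    rw [e1] at h3
    apply mul_right_cancel₀ hm2
    rw [h3, ← ex b e]
    ring
  refine ⟨ω, ?_, ?_⟩
  · intro h0'
    rw [h0', zero_mul] at hω0
    rw [hω0, norm_zero] at l0
    linarith
  · intro i hi
    have hm3 : ((1 - m : ℝ) : ℂ) = 1 - m := by push_cast; ring
    interval_cases i
    · show q 0 = q 1 + ω * ((1 - m : ℝ) : ℂ)
      rw [hm3]
      linear_combination hω0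
    · show q 1 = q 1 + ω * 0
      ring
    · show q 2 = q 1 + ω * z2 a
      unfold z2
      linear_combination k0
    · show q 3 = q 1 + ω * z3 m a c
      unfold z3 z2
      linear_combination k0 + k1
    · show q 4 = q 1 + ω * z4 m a c b
      unfold z4 z3 z2
      linear_combination k0 + k1 + k2
    · show q 5 = q 1 + ω * z5 m a c b e
      unfold z5 z4 z3 z2
      linear_combination k0 + k1 + k2 + k3

theorem frame_nc (m : ℝ) (hm : 0 < m) (hm' : m ≤ 1/1000) (q : ℕ → ℂ) (a c b e : ℝ)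
    (hs : Simple 5 q) (ω : ℂ) (hω : ω ≠ 0) (h : ∀ i ≤ 5, q i = q 1 + ω * zq m a c b e i) : NC m a c b e := by
  have tr : ∀ z u v : ℂ, z ∈ segment ℝ u v → q 1 + ω * z ∈ segment ℝ (q 1 + ω * u) (q 1 + ω * v) := by
    rintro z u v ⟨x, y, hx, hy, hxy, rfl⟩
    refine ⟨x, y, hx, hy, hxy, ?_⟩
    have hc : (x : ℂ) + (y : ℂ) = 1 := by exact_mod_cast hxy
    simp only [Complex.real_smul]
    linear_combination (q 1) * hc
  have h0 : q 0 = q 1 + ω * ((1 - m : ℝ) : ℂ) := h 0 (by norm_num)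
  have h1 : q 1 = q 1 + ω * 0 := by ring
  have h2 : q 2 = q 1 + ω * z2 a := h 2 (by norm_num)
  have h3 : q 3 = q 1 + ω * z3 m a c := h 3 (by norm_num)
  have h4 : q 4 = q 1 + ω * z4 m a c b := h 4 (by norm_num)
  have h5 : q 5 = q 1 + ω * z5 m a c b e := h 5 (by norm_num)
  refine ⟨fun hz => ?_, fun hz => ?_, fun hz => ?_, fun hz => ?_, fun hz => ?_⟩
  · have k := tr _ _ _ hz
    rw [← h1, ← h3, ← h4] at k
    have := (hs 0 3 (by norm_num) (by norm_num) _ (right_mem_segment ℝ (q 0) (q 1)) k).1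
    omega
  · have k := tr _ _ _ hz
    rw [← h5, ← h0, ← h1] at k
    have := (hs 0 4 (by norm_num) (by norm_num) _ k (right_mem_segment ℝ (q 4) (q 5))).1
    omega
  · have k := tr _ _ _ hz
    rw [← h5, ← h1, ← h2] at k
    have := (hs 1 4 (by norm_num) (by norm_num) _ k (right_mem_segment ℝ (q 4) (q 5))).1
    omega
  · have k := tr _ _ _ hz
    rw [← h0, ← h4, ← h5] at k
    have := (hs 0 4 (by norm_num) (by norm_num) _ (left_mem_segment ℝ (q 0) (q 1)) k).1
    omega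
  · have k := tr _ _ _ hz
    rw [← h0, ← h3, ← h4] at k
    have := (hs 0 3 (by norm_num) (by norm_num) _ (left_mem_segment ℝ (q 0) (q 1)) k).1
    omega

theorem angle_unique (u v : ℂ) (t t' : ℝ) (hu : u ≠ 0) (hv : v ≠ 0) (h : IsAngle u v t) (h' : IsAngle u v t') :
    t = t' := by
  obtain ⟨h1, h2, h3⟩ := h
  obtain ⟨h1', h2', h3'⟩ := h'
  have hvn : (‖v‖ : ℂ) ≠ 0 := by
    simpa using hv
  have he : Complex.exp (t * Complex.I) = Complex.exp (t' * Complex.I) := by
    have h4 : u * (‖v‖ : ℂ) * Complex.exp (t * Complex.I) =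
        u * (‖v‖ : ℂ) * Complex.exp (t' * Complex.I) := by rw [← h3, ← h3']
    exact mul_left_cancel₀ (mul_ne_zero hu hvn) h4
  rw [Complex.exp_eq_exp_iff_exists_int] at he
  obtain ⟨n, hn⟩ := he
  have h5 : (t : ℂ) = t' + n * (2 * π) := by
    have h6 : ((t : ℂ) - (t' + n * (2 * π))) * Complex.I = 0 := by
      linear_combination hn
    rcases mul_eq_zero.mp h6 with h7 | h7
    · linear_combination h7
    · exact absurd h7 Complex.I_ne_zero
  have h8 : t = t' + n * (2 * π) := by exact_mod_cast h5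
  have hpi := Real.pi_pos
  have hn0 : n = 0 := by
    have a1 : (n : ℝ) < 1 := by
      by_contra hcon
      push Not at hcon
      nlinarith
    have a2 : (-1 : ℝ) < (n : ℝ) := by
      by_contra hcon
      push Not at hcon
      nlinarith
    have a3 : n < 1 := by exact_mod_cast a1
    have a4 : -1 < n := by exact_mod_cast a2
    omega
  rw [hn0] at h8
  simpa using h8

theorem st_nc (m : ℝ) (hm : 0 < m) (hm' : m ≤ 1/1000) (q : ℕ → ℂ) (a c b e : ℝ)
    (hl : HasLengths 5 (lm m) q) (hs : Simple 5 q) (h : St q a c b e) : NC m a c b e := by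
  obtain ⟨ω, h1, h2⟩ := st_frame m hm hm' q a c b e hl h
  exact frame_nc m hm hm' q a c b e hs ω h1 h2

end CH134
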