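import Pool.Agent.Helper134.ChainFrame

set_option autoImplicit false

namespace CH134

open Real

noncomputable def gam (m : ℝ) : ℝ := arcsin (sin (1/4) / (1 + m))

theorem zq_nrm (r t : ℝ) (hr : 0 ≤ r) : ‖((r : ℝ) : ℂ) * Complex.exp (t * Complex.I)‖ = r := by
  rw [norm_mul, Complex.norm_exp_ofReal_mul_I, mul_one, Complex.norm_real, Real.norm_of_nonneg hr]

theorem zq_nrm' (s : ℂ) (hs : ‖s‖ = 1) (r t : ℝ) (hr : 0 ≤ r) :
    ‖s * (((r : ℝ) : ℂ) * Complex.exp (t * Complex.I))‖ = r := by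
  rw [norm_mul, hs, one_mul, zq_nrm r t hr]

theorem zq_angle (s : ℂ) (hs : ‖s‖ = 1) (r1 r2 x y : ℝ) (h1 : 0 ≤ r1) (h2 : 0 ≤ r2) (hyx : y < x)
    (hxy : x - y < 2 * π) :
    IsAngle (s * (((r1 : ℝ) : ℂ) * Complex.exp (x * Complex.I)))
      (s * (((r2 : ℝ) : ℂ) * Complex.exp (y * Complex.I))) (2 * π + y - x) := by
  refine ⟨by linarith, by linarith, ?_⟩
  rw [zq_nrm' s hs r1 x h1, zq_nrm' s hs r2 y h2]
  have e1 : Complex.exp (x * Complex.I) * Complex.exp (((2 * π + y - x : ℝ) : ℂ) * Complex.I) =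
      Complex.exp (y * Complex.I) := by
    rw [← Complex.exp_add]
    have e2 : (x : ℂ) * Complex.I + ((2 * π + y - x : ℝ) : ℂ) * Complex.I =
        (y : ℂ) * Complex.I + 2 * π * Complex.I := by push_cast; ring
    rw [e2, Complex.exp_add, Complex.exp_two_pi_mul_I, mul_one]
  rw [← e1]
  ring

theorem zq_lengths (m a c b e : ℝ) (hm : 0 < m) (hm' : m ≤ 1/1000) : HasLengths 5 (lm m) (zq m a c b e) := by
  intro i hi
  have h1 : (0 : ℝ) ≤ 1 - m := by linarith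
  have h2 : (0 : ℝ) ≤ 1 + m := by linarith
  rw [dist_eq_norm]
  interval_cases i
  · show ‖((1 - m : ℝ) : ℂ) - 0‖ = 1 - m
    rw [sub_zero, Complex.norm_real, Real.norm_of_nonneg h1]
  · show ‖(0 : ℂ) - z2 a‖ = 1
    unfold z2
    rw [zero_sub, norm_neg, Complex.norm_exp_ofReal_mul_I]
  · show ‖z2 a - z3 m a c‖ = 1 + m
    have : z2 a - z3 m a c = ((1 + m : ℝ) : ℂ) * Complex.exp (c * Complex.I) := by
      unfold z3; push_cast; ring
    rw [this, zq_nrm _ _ h2]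
  · show ‖z3 m a c - z4 m a c b‖ = 1 + m
    have : z3 m a c - z4 m a c b = -(((1 + m : ℝ) : ℂ) * Complex.exp (b * Complex.I)) := by
      unfold z4; push_cast; ring
    rw [this, norm_neg, zq_nrm _ _ h2]
  · show ‖z4 m a c b - z5 m a c b e‖ = 1 - m
    have : z4 m a c b - z5 m a c b e = ((1 - m : ℝ) : ℂ) * Complex.exp (e * Complex.I) := by
      unfold z5; push_cast; ring
    rw [this, zq_nrm _ _ h1]

theorem zq_st (m a c b e : ℝ) (hm : 0 < m) (hm' : m ≤ 1/1000) (ha : 0 < a) (ha1 : a < 1)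
    (hca : c < a) (hc : 0 < c) (hbc : b < c) (hb : -1 < b) (heb : e < b) (he : -1 < e) :
    St (zq m a c b e) a c b e := by
  have hpi := Real.pi_gt_three
  have h1 : (0 : ℝ) ≤ 1 - m := by linarith
  have h2 : (0 : ℝ) ≤ 1 + m := by linarith
  have hn1 : ‖(-1 : ℂ)‖ = 1 := by simp
  have hn2 : ‖(1 : ℂ)‖ = 1 := by simp
  refine ⟨?_, ?_, ?_, ?_⟩
  · show IsAngle (((1 - m : ℝ) : ℂ) - 0) (z2 a - 0) a
    refine ⟨ha, by linarith, ?_⟩
    unfold z2
    rw [sub_zero, sub_zero, Complex.norm_exp_ofReal_mul_I, Complex.norm_real,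
      Real.norm_of_nonneg h1]
    push_cast
    ring
  · show IsAngle (0 - z2 a) (z3 m a c - z2 a) (2 * π + c - a)
    have e1 : 0 - z2 a = (-1) * (((1 : ℝ) : ℂ) * Complex.exp (a * Complex.I)) := by
      unfold z2; push_cast; ring
    have e2 : z3 m a c - z2 a = (-1) * (((1 + m : ℝ) : ℂ) * Complex.exp (c * Complex.I)) := by
      unfold z3; push_cast; ring
    rw [e1, e2]
    exact zq_angle (-1) hn1 1 (1 + m) a c (by norm_num) h2 hca (by linarith)
  · show IsAngle (z2 a - z3 m a c) (z4 m a c b - z3 m a c) (2 * π + b - c)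
    have e1 : z2 a - z3 m a c = 1 * (((1 + m : ℝ) : ℂ) * Complex.exp (c * Complex.I)) := by
      unfold z3; push_cast; ring
    have e2 : z4 m a c b - z3 m a c = 1 * (((1 + m : ℝ) : ℂ) * Complex.exp (b * Complex.I)) := by
      unfold z4; push_cast; ring
    rw [e1, e2]
    exact zq_angle 1 hn2 (1 + m) (1 + m) c b h2 h2 hbc (by linarith)
  · show IsAngle (z3 m a c - z4 m a c b) (z5 m a c b e - z4 m a c b) (2 * π + e - b)
    have e1 : z3 m a c - z4 m a c b = (-1) * (((1 + m : ℝ) : ℂ) * Complex.exp (b * Complex.I)) := by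
      unfold z4; push_cast; ring
    have e2 : z5 m a c b e - z4 m a c b =
        (-1) * (((1 - m : ℝ) : ℂ) * Complex.exp (e * Complex.I)) := by
      unfold z5; push_cast; ring
    rw [e1, e2]
    exact zq_angle (-1) hn1 (1 + m) (1 - m) b e h2 h1 heb (by linarith)

theorem gam_facts (m : ℝ) (hm : 0 < m) (hm' : m ≤ 1/1000) :
    (1 + m) * sin (gam m) = sin (1/4) ∧ 1/5 < gam m ∧ gam m < 1/4 := by
  have h14 : 0 < sin (1/4 : ℝ) := sin_pos_of_pos_of_lt_pi (by norm_num) (by linarith [pi_gt_three])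
  have h14' : sin (1/4 : ℝ) ≤ 1/4 := (sin_lt (by norm_num)).le
  have h14l : (1/4 : ℝ) - (1/4) ^ 3 / 6 < sin (1/4) := sin_gt_sub_cube (by norm_num)
  have h15 : sin (1/5 : ℝ) < 1/5 := sin_lt (by norm_num)
  have hx0 : 0 < sin (1/4 : ℝ) / (1 + m) := by positivity
  have hx1 : sin (1/4 : ℝ) / (1 + m) < sin (1/4 : ℝ) := by
    rw [div_lt_iff₀ (by linarith)]
    nlinarith
  have hx2 : (1/5 : ℝ) < sin (1/4 : ℝ) / (1 + m) := by
    rw [lt_div_iff₀ (by linarith)]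
    nlinarith
  have hs : sin (gam m) = sin (1/4 : ℝ) / (1 + m) := by
    unfold gam
    exact sin_arcsin (by linarith) (by linarith)
  refine ⟨?_, ?_, ?_⟩
  · rw [hs]
    field_simp
  · unfold gam
    rw [lt_arcsin_iff_sin_lt' ⟨by linarith [pi_gt_three], by linarith [pi_gt_three]⟩]
    linarith
  · unfold gam
    rw [arcsin_lt_iff_lt_sin' ⟨by linarith [pi_gt_three], by linarith [pi_gt_three]⟩]
    exact hx1

theorem kite_z4 (m g : ℝ) (h : (1 + m) * sin g = sin (1/4)) :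
    X4 m (1/2) (1/4 + g) (1/4 - g) = 1 ∧ Y4 m (1/2) (1/4 + g) (1/4 - g) = 0 ∧
    z4 m (1/2) (1/4 + g) (1/4 - g) = 1 := by
  have h2 : cos (1/2 : ℝ) = 1 - 2 * sin (1/4) ^ 2 := by
    have : (1/2 : ℝ) = 2 * (1/4) := by norm_num
    rw [this, cos_two_mul]
    have := sin_sq_add_cos_sq (1/4 : ℝ)
    linarith
  have h3 : sin (1/2 : ℝ) = 2 * sin (1/4) * cos (1/4) := by
    have : (1/2 : ℝ) = 2 * (1/4) := by norm_num
    rw [this, sin_two_mul]
  have hX : X4 m (1/2) (1/4 + g) (1/4 - g) = 1 := by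
    unfold X4
    rw [cos_add, cos_sub, h2]
    have : (1 + m) * (cos (1/4) * cos g + sin (1/4) * sin g) -
        (1 + m) * (cos (1/4) * cos g - sin (1/4) * sin g) = 2 * sin (1/4) * ((1 + m) * sin g) := by
      ring
    rw [h] at this
    linarith
  have hY : Y4 m (1/2) (1/4 + g) (1/4 - g) = 0 := by
    unfold Y4
    rw [sin_add, sin_sub, h3]
    have : (1 + m) * (sin (1/4) * cos g - cos (1/4) * sin g) -
        (1 + m) * (sin (1/4) * cos g + cos (1/4) * sin g) = -2 * cos (1/4) * ((1 + m) * sin g) := by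
      ring
    rw [h] at this
    linarith
  refine ⟨hX, hY, ?_⟩
  have hre : (z4 m (1/2) (1/4 + g) (1/4 - g)).re = X4 m (1/2) (1/4 + g) (1/4 - g) := by
    unfold z4 z3 z2 X4
    have e1 : ((1 : ℂ) + m) = ((1 + m : ℝ) : ℂ) := by push_cast; ring
    rw [e1]
    simp only [Complex.add_re, Complex.sub_re, Complex.re_ofReal_mul,
      Complex.exp_ofReal_mul_I_re]
  have him : (z4 m (1/2) (1/4 + g) (1/4 - g)).im = Y4 m (1/2) (1/4 + g) (1/4 - g) := by
    unfold z4 z3 z2 Y4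
    have e1 : ((1 : ℂ) + m) = ((1 + m : ℝ) : ℂ) := by push_cast; ring
    rw [e1]
    simp only [Complex.add_im, Complex.sub_im, Complex.im_ofReal_mul,
      Complex.exp_ofReal_mul_I_im]
  apply Complex.ext
  · rw [hre, hX, Complex.one_re]
  · rw [him, hY, Complex.one_im]

theorem kite_F (m g : ℝ) (hm : 0 < m) (hm' : m ≤ 1/1000) (h : (1 + m) * sin g = sin (1/4)) (hg : 1/5 < g) (hg' : g < 1/4) :
    0 < F m (1/2) (1/4 + g) (1/4 - g) (-(m/4)) := by
  obtain ⟨hX, hY, -⟩ := kite_z4 m g h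
  have hsg : 0 < sin (1/4 - g) := sin_pos_of_pos_of_lt_pi (by linarith) (by linarith [pi_gt_three])
  have hsm : 0 < sin (m/4) := sin_pos_of_pos_of_lt_pi (by linarith) (by linarith [pi_gt_three])
  unfold F X5 Y5 G
  rw [hX, hY]
  refine lt_min ?_ (lt_min ?_ (lt_min ?_ (lt_min ?_ (lt_min ?_ (lt_min ?_ (lt_min ?_
    (lt_min ?_ ?_)))))))
  · linarith
  · linarith
  · linarith
  · linarith
  · have e1 : (1/4 + g - (1/4 - g) : ℝ) = 2 * g := by ring
    have e2 : (1/2 - (1/4 - g) : ℝ) = 1/4 + g := by ring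
    rw [e1, e2, sin_two_mul, sin_add]
    rw [sin_sub] at hsg
    have : (1 + m) * (2 * sin g * cos g) = 2 * cos g * ((1 + m) * sin g) := by ring
    rw [this, h]
    linarith
  · rw [sin_neg]
    nlinarith
  · have h1 : (1 - (1 - m) * cos (-(m/4))) * sin (1/2) - (0 - (1 - m) * sin (-(m/4))) * cos (1/2) =
        sin (1/2) - (1 - m) * sin (1/2 + m/4) := by
      rw [sin_add, cos_neg, sin_neg]; ring
    rw [h1]
    have h2 : sin (1/2 + m/4) ≤ sin (1/2) + m/4 := by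
      rw [sin_add]
      have h3 : sin (m/4) ≤ m/4 := (sin_lt (by linarith)).le
      have h4 : cos (m/4) ≤ 1 := cos_le_one _
      have h5 : cos (1/2 : ℝ) ≤ 1 := cos_le_one _
      have h6 : 0 < sin (1/2 : ℝ) := sin_pos_of_pos_of_lt_pi (by norm_num) (by linarith [pi_gt_three])
      have h7 : 0 < cos (1/2 : ℝ) := cos_pos_of_mem_Ioo ⟨by linarith [pi_gt_three], by linarith [pi_gt_three]⟩
      nlinarith
    have h8 : (1/2 : ℝ) - (1/2) ^ 3 / 6 < sin (1/2) := sin_gt_sub_cube (by norm_num)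
    nlinarith
  · rw [sin_neg]
    nlinarith
  · nlinarith

theorem two_lines {x y r s : ℝ} (hxy : sin (y - x) ≠ 0)
    (h : (r : ℂ) * Complex.exp (x * Complex.I) = (s : ℂ) * Complex.exp (y * Complex.I)) : s = 0 := by
  have hre := congrArg Complex.re h
  have him := congrArg Complex.im h
  rw [Complex.re_ofReal_mul, Complex.re_ofReal_mul, Complex.exp_ofReal_mul_I_re,
    Complex.exp_ofReal_mul_I_re] at hre
  rw [Complex.im_ofReal_mul, Complex.im_ofReal_mul, Complex.exp_ofReal_mul_I_im,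
    Complex.exp_ofReal_mul_I_im] at him
  have h3 : s * sin (y - x) = 0 := by
    rw [sin_sub]
    linear_combination (-cos x) * him + (sin x) * hre
  exact (mul_eq_zero.mp h3).resolve_right hxy

theorem two_seg {P z : ℂ} {x y a b : ℝ} (hxy : sin (y - x) ≠ 0)
    (h1 : z ∈ segment ℝ P (P + (a : ℂ) * Complex.exp (x * Complex.I)))
    (h2 : z ∈ segment ℝ P (P + (b : ℂ) * Complex.exp (y * Complex.I))) : z = P := by
  rw [segment_eq_image'] at h1 h2
  obtain ⟨r, -, hr⟩ := h1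
  obtain ⟨s, -, hs⟩ := h2
  simp only [add_sub_cancel_left, Complex.real_smul] at hr hs
  have h3 : ((r * a : ℝ) : ℂ) * Complex.exp (x * Complex.I)
      = ((s * b : ℝ) : ℂ) * Complex.exp (y * Complex.I) := by
    push_cast
    linear_combination hr - hs
  have h4 := two_lines hxy h3
  have h5 : ((s : ℂ) * (b : ℂ)) = 0 := by exact_mod_cast h4
  rw [← hs, ← mul_assoc, h5, zero_mul, add_zero]

theorem kite01 (m g : ℝ) (hm : 0 < m) (hm' : m ≤ 1/1000) (z : ℂ)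
    (h1 : z ∈ segment ℝ ((1 - m : ℝ) : ℂ) 0) (h2 : z ∈ segment ℝ (0 : ℂ) (z2 (1/2))) : z = 0 := by
  rw [segment_symm] at h1
  refine two_seg (P := 0) (x := 0) (y := 1/2) (a := 1 - m) (b := 1) ?_ ?_ ?_
  · have : 0 < sin (1/2 - 0) := sin_pos_of_pos_of_lt_pi (by norm_num) (by linarith [pi_gt_three])
    exact this.ne'
  · simpa using h1
  · rw [z2] at h2; simpa using h2

theorem kite12 (m g : ℝ) (hm : 0 < m) (hm' : m ≤ 1/1000) (hg : 1/5 < g) (hg' : g < 1/4) (z : ℂ)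
    (h1 : z ∈ segment ℝ (0 : ℂ) (z2 (1/2))) (h2 : z ∈ segment ℝ (z2 (1/2)) (z3 m (1/2) (1/4 + g))) :
    z = z2 (1/2) := by
  rw [segment_symm] at h1
  refine two_seg (P := z2 (1/2)) (x := 1/2) (y := 1/4 + g) (a := -1) (b := -(1+m)) ?_ ?_ ?_
  · have : 0 < sin (-(1/4 + g - 1/2)) :=
      sin_pos_of_pos_of_lt_pi (by linarith) (by linarith [pi_gt_three])
    rw [sin_neg] at this
    linarith
  · have e : z2 (1/2) + ((-1 : ℝ) : ℂ) * Complex.exp (((1/2 : ℝ) : ℂ) * Complex.I) = 0 := by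
      rw [z2]; push_cast; ring
    rw [e]; exact h1
  · have e : z2 (1/2) + ((-(1+m) : ℝ) : ℂ) * Complex.exp (((1/4 + g : ℝ) : ℂ) * Complex.I)
        = z3 m (1/2) (1/4 + g) := by
      rw [z3]; push_cast; ring
    rw [e]; exact h2

theorem kite23 (m g : ℝ) (hm : 0 < m) (hm' : m ≤ 1/1000) (hg : 1/5 < g) (hg' : g < 1/4) (z : ℂ)
    (h1 : z ∈ segment ℝ (z2 (1/2)) (z3 m (1/2) (1/4 + g)))
    (h2 : z ∈ segment ℝ (z3 m (1/2) (1/4 + g)) (z4 m (1/2) (1/4 + g) (1/4 - g))) :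
    z = z3 m (1/2) (1/4 + g) := by
  rw [segment_symm] at h1
  refine two_seg (P := z3 m (1/2) (1/4 + g)) (x := 1/4 + g) (y := 1/4 - g) (a := 1+m)
    (b := 1+m) ?_ ?_ ?_
  · have : 0 < sin (-((1/4 - g) - (1/4 + g))) :=
      sin_pos_of_pos_of_lt_pi (by linarith) (by linarith [pi_gt_three])
    rw [sin_neg] at this
    linarith
  · have e : z3 m (1/2) (1/4 + g) + ((1+m : ℝ) : ℂ) *
        Complex.exp (((1/4 + g : ℝ) : ℂ) * Complex.I) = z2 (1/2) := by
      rw [z3]; push_cast; ring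
    rw [e]; exact h1
  · have e : z3 m (1/2) (1/4 + g) + ((1+m : ℝ) : ℂ) *
        Complex.exp (((1/4 - g : ℝ) : ℂ) * Complex.I) = z4 m (1/2) (1/4 + g) (1/4 - g) := by
      rw [z4]; push_cast; ring
    rw [e]; exact h2

theorem kite34 (m g : ℝ) (hm : 0 < m) (hm' : m ≤ 1/1000) (hg : 1/5 < g) (hg' : g < 1/4) (z : ℂ)
    (h1 : z ∈ segment ℝ (z3 m (1/2) (1/4 + g)) (z4 m (1/2) (1/4 + g) (1/4 - g)))
    (h2 : z ∈ segment ℝ (z4 m (1/2) (1/4 + g) (1/4 - g)) (z5 m (1/2) (1/4 + g) (1/4 - g) (-(m/4)))) :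
    z = z4 m (1/2) (1/4 + g) (1/4 - g) := by
  rw [segment_symm] at h1
  refine two_seg (P := z4 m (1/2) (1/4 + g) (1/4 - g)) (x := 1/4 - g) (y := -(m/4)) (a := -(1+m))
    (b := -(1-m)) ?_ ?_ ?_
  · have : 0 < sin (-(-(m/4) - (1/4 - g))) :=
      sin_pos_of_pos_of_lt_pi (by linarith) (by linarith [pi_gt_three])
    rw [sin_neg] at this
    linarith
  · have e : z4 m (1/2) (1/4 + g) (1/4 - g) + ((-(1+m) : ℝ) : ℂ) *
        Complex.exp (((1/4 - g : ℝ) : ℂ) * Complex.I) = z3 m (1/2) (1/4 + g) := by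
      rw [z4]; push_cast; ring
    rw [e]; exact h1
  · have e : z4 m (1/2) (1/4 + g) (1/4 - g) + ((-(1-m) : ℝ) : ℂ) *
        Complex.exp (((-(m/4) : ℝ) : ℂ) * Complex.I)
          = z5 m (1/2) (1/4 + g) (1/4 - g) (-(m/4)) := by
      rw [z5]; push_cast; ring
    rw [e]; exact h2

theorem k_seg_first {m : ℝ} {z : ℂ} (h1 : z ∈ segment ℝ ((1 - m : ℝ) : ℂ) 0) :
    z.im = 0 ∧ ∃ s : ℝ, 0 ≤ s ∧ s ≤ 1 ∧ z.re = s * (1 - m) := by
  obtain ⟨s, t, hs, ht, hst, rfl⟩ := h1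
  refine ⟨?_, s, hs, by linarith, ?_⟩
  · simp
  · simp

theorem k_z2_re (a : ℝ) : (z2 a).re = cos a := Complex.exp_ofReal_mul_I_re a
theorem k_z2_im (a : ℝ) : (z2 a).im = sin a := Complex.exp_ofReal_mul_I_im a

theorem k_mulexp_re (r x : ℝ) : ((r : ℂ) * Complex.exp (x * Complex.I)).re = r * cos x := by
  rw [Complex.re_ofReal_mul, Complex.exp_ofReal_mul_I_re]
theorem k_mulexp_im (r x : ℝ) : ((r : ℂ) * Complex.exp (x * Complex.I)).im = r * sin x := by
  rw [Complex.im_ofReal_mul, Complex.exp_ofReal_mul_I_im]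

theorem k_z3_re (m a c : ℝ) : (z3 m a c).re = cos a - (1 + m) * cos c := by
  have h : (1 + (m : ℂ)) = ((1 + m : ℝ) : ℂ) := by push_cast; rfl
  rw [z3, h, Complex.sub_re, k_mulexp_re, k_z2_re]
theorem k_z3_im (m a c : ℝ) : (z3 m a c).im = sin a - (1 + m) * sin c := by
  have h : (1 + (m : ℂ)) = ((1 + m : ℝ) : ℂ) := by push_cast; rfl
  rw [z3, h, Complex.sub_im, k_mulexp_im, k_z2_im]
theorem k_z4_re (m a c b : ℝ) : (z4 m a c b).re = (z3 m a c).re + (1 + m) * cos b := by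
  have h : (1 + (m : ℂ)) = ((1 + m : ℝ) : ℂ) := by push_cast; rfl
  rw [z4, h, Complex.add_re, k_mulexp_re]
theorem k_z4_im (m a c b : ℝ) : (z4 m a c b).im = (z3 m a c).im + (1 + m) * sin b := by
  have h : (1 + (m : ℂ)) = ((1 + m : ℝ) : ℂ) := by push_cast; rfl
  rw [z4, h, Complex.add_im, k_mulexp_im]
theorem k_z5_re (m a c b e : ℝ) : (z5 m a c b e).re = (z4 m a c b).re - (1 - m) * cos e := by
  have h : (1 - (m : ℂ)) = ((1 - m : ℝ) : ℂ) := by push_cast; rfl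
  rw [z5, h, Complex.sub_re, k_mulexp_re]
theorem k_z5_im (m a c b e : ℝ) : (z5 m a c b e).im = (z4 m a c b).im - (1 - m) * sin e := by
  have h : (1 - (m : ℂ)) = ((1 - m : ℝ) : ℂ) := by push_cast; rfl
  rw [z5, h, Complex.sub_im, k_mulexp_im]

theorem kite02 (m g : ℝ) (hm : 0 < m) (hm' : m ≤ 1/1000) (h : (1 + m) * sin g = sin (1/4)) (hg : 1/5 < g) (hg' : g < 1/4)
    (z : ℂ) (h1 : z ∈ segment ℝ ((1 - m : ℝ) : ℂ) 0) (h2 : z ∈ segment ℝ (z2 (1/2)) (z3 m (1/2) (1/4 + g))) :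
    False := by
  obtain ⟨him, r, hr0, hr1, hre⟩ := k_seg_first h1
  obtain ⟨s, t, hs, ht, hst, rfl⟩ := h2
  have e1 : (s • z2 (1/2) + t • z3 m (1/2) (1/4 + g)).re = s * cos (1/2) + t * (cos (1/2) - (1 + m) * cos (1/4 + g)) := by
    rw [Complex.add_re, Complex.smul_re, Complex.smul_re, k_z2_re, k_z3_re]; rfl
  have e2 : (s • z2 (1/2) + t • z3 m (1/2) (1/4 + g)).im = s * sin (1/2) + t * (sin (1/2) - (1 + m) * sin (1/4 + g)) := by
    rw [Complex.add_im, Complex.smul_im, Complex.smul_im, k_z2_im, k_z3_im]; rfl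
  rw [e1] at hre
  rw [e2] at him
  have hpi := Real.pi_gt_three
  have hc : 0 < sin (1/4 + g) := Real.sin_pos_of_pos_of_lt_pi (by linarith) (by linarith)
  have hd : 0 < sin (1/4 - g) := Real.sin_pos_of_pos_of_lt_pi (by linarith) (by linarith)
  have he : sin (1/4 - g) = sin (1/2) * cos (1/4 + g) - cos (1/2) * sin (1/4 + g) := by
    rw [← Real.sin_sub]; congr 1; ring
  have hL : (s * sin (1/2) + t * (sin (1/2) - (1 + m) * sin (1/4 + g))) * cos (1/4 + g)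
      - (s * cos (1/2) + t * (cos (1/2) - (1 + m) * cos (1/4 + g))) * sin (1/4 + g) = sin (1/4 - g) := by
    rw [he]
    have : s = 1 - t := by linarith
    rw [this]; ring
  rw [him, hre] at hL
  have : 0 ≤ r * (1 - m) * sin (1/4 + g) := mul_nonneg (mul_nonneg hr0 (by linarith)) hc.le
  linarith

theorem kite03 (m g : ℝ) (hm : 0 < m) (hm' : m ≤ 1/1000) (h : (1 + m) * sin g = sin (1/4)) (hg : 1/5 < g) (hg' : g < 1/4)
    (z : ℂ) (h1 : z ∈ segment ℝ ((1 - m : ℝ) : ℂ) 0)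
    (h2 : z ∈ segment ℝ (z3 m (1/2) (1/4 + g)) 1) (h4 : z4 m (1/2) (1/4 + g) (1/4 - g) = 1) :
    False := by
  obtain ⟨him, r, hr0, hr1, hre⟩ := k_seg_first h1
  obtain ⟨s, t, hs, ht, hst, rfl⟩ := h2
  have k1 := k_z4_re m (1/2) (1/4 + g) (1/4 - g)
  have k2 := k_z4_im m (1/2) (1/4 + g) (1/4 - g)
  rw [h4, Complex.one_re] at k1
  rw [h4, Complex.one_im] at k2
  rw [Complex.add_re, Complex.smul_re, Complex.smul_re, Complex.one_re] at hre
  rw [Complex.add_im, Complex.smul_im, Complex.smul_im, Complex.one_im] at him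
  simp only [smul_eq_mul, mul_one, mul_zero, add_zero] at hre him
  have hpi := Real.pi_gt_three
  have hd : 0 < sin (1/4 - g) := Real.sin_pos_of_pos_of_lt_pi (by linarith) (by linarith)
  have h5 : (z3 m (1/2) (1/4 + g)).re = 1 - (1 + m) * cos (1/4 - g) := by linarith
  have h6 : (z3 m (1/2) (1/4 + g)).im = - (1 + m) * sin (1/4 - g) := by linarith
  rw [h5] at hre
  rw [h6] at him
  have hL : (s * (- (1 + m) * sin (1/4 - g))) * cos (1/4 - g) - (s * (1 - (1 + m) * cos (1/4 - g)) + t) * sin (1/4 - g)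
      = - sin (1/4 - g) := by
    have : t = 1 - s := by linarith
    rw [this]; ring
  rw [him, hre] at hL
  have h7 : r * (1 - m) < 1 := by nlinarith
  nlinarith

theorem kite04 (m g : ℝ) (hm : 0 < m) (hm' : m ≤ 1/1000) (h : (1 + m) * sin g = sin (1/4)) (hg : 1/5 < g) (hg' : g < 1/4)
    (z : ℂ) (h1 : z ∈ segment ℝ ((1 - m : ℝ) : ℂ) 0)
    (h2 : z ∈ segment ℝ (1 : ℂ) (z5 m (1/2) (1/4 + g) (1/4 - g) (-(m/4)))) (h4 : z4 m (1/2) (1/4 + g) (1/4 - g) = 1) :
    False := by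
  obtain ⟨him, r, hr0, hr1, hre⟩ := k_seg_first h1
  obtain ⟨s, t, hs, ht, hst, rfl⟩ := h2
  rw [Complex.add_re, Complex.smul_re, Complex.smul_re, k_z5_re, h4, Complex.one_re] at hre
  rw [Complex.add_im, Complex.smul_im, Complex.smul_im, k_z5_im, h4, Complex.one_im, Real.sin_neg] at him
  simp only [smul_eq_mul, mul_one, mul_zero, zero_add, zero_sub] at hre him
  have hpi := Real.pi_gt_three
  have hd : 0 < sin (m/4) := Real.sin_pos_of_pos_of_lt_pi (by linarith) (by linarith)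
  have ht0 : t = 0 := by
    have h8 : t * ((1 - m) * sin (m/4)) = 0 := by linarith
    exact (mul_eq_zero.mp h8).resolve_right (mul_pos (by linarith) hd).ne'
  rw [ht0] at hre hst
  nlinarith

theorem kite_seg {u v z : ℂ} (h : z ∈ segment ℝ u v) (x : ℝ) : ∃ t : ℝ, 0 ≤ t ∧ t ≤ 1 ∧
    z.im * cos x - z.re * sin x = (1 - t) * (u.im * cos x - u.re * sin x) +
      t * (v.im * cos x - v.re * sin x) := by
  rw [segment_eq_image] at h
  obtain ⟨t, ht, rfl⟩ := h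
  refine ⟨t, ht.1, ht.2, ?_⟩
  simp only [Complex.add_im, Complex.add_re, Complex.smul_re, Complex.smul_im, smul_eq_mul]
  ring

theorem kite_z2 (a x : ℝ) : (z2 a).im * cos x - (z2 a).re * sin x = sin (a - x) := by
  unfold z2
  rw [Complex.exp_ofReal_mul_I_re, Complex.exp_ofReal_mul_I_im, sin_sub]

theorem kite_p (w : ℂ) (m c x : ℝ) : (w - (1 + (m : ℂ)) * Complex.exp (c * Complex.I)).im * cos x -
    (w - (1 + (m : ℂ)) * Complex.exp (c * Complex.I)).re * sin x =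
    w.im * cos x - w.re * sin x - (1 + m) * sin (c - x) := by
  simp only [Complex.sub_im, Complex.sub_re, Complex.mul_re, Complex.mul_im, Complex.add_re,
    Complex.add_im, Complex.one_re, Complex.one_im, Complex.ofReal_re, Complex.ofReal_im,
    Complex.exp_ofReal_mul_I_re, Complex.exp_ofReal_mul_I_im, sin_sub]
  ring

theorem kite_n (w : ℂ) (m c x : ℝ) : (w - (1 - (m : ℂ)) * Complex.exp (c * Complex.I)).im * cos x -
    (w - (1 - (m : ℂ)) * Complex.exp (c * Complex.I)).re * sin x =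
    w.im * cos x - w.re * sin x - (1 - m) * sin (c - x) := by
  simp only [Complex.sub_im, Complex.sub_re, Complex.mul_re, Complex.mul_im,
    Complex.one_re, Complex.one_im, Complex.ofReal_re, Complex.ofReal_im,
    Complex.exp_ofReal_mul_I_re, Complex.exp_ofReal_mul_I_im, sin_sub]
  ring

theorem kite_one (x : ℝ) : (1 : ℂ).im * cos x - (1 : ℂ).re * sin x = -sin x := by
  rw [Complex.one_im, Complex.one_re]
  ring

/-- the estimate `(1-m) sin (c + m/4) < sin c` -/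
theorem kite_est (m c : ℝ) (hm : 0 < m) (hm' : m ≤ 1 / 1000) (hc : 9 / 20 ≤ c) (hc' : c ≤ 1 / 2) :
    0 < sin (c + m / 4) ∧ (1 - m) * sin (c + m / 4) < sin c ∧ 1 / 4 < sin c := by
  have h1 := Real.sin_gt_sub_cube (x := c) (by linarith)
  have h2 : c ^ 3 ≤ (1 / 2) ^ 3 := pow_le_pow_left₀ (by linarith) hc' 3
  have h3 : 1 / 4 < sin c := by norm_num at h2 ⊢; linarith
  have hpi := Real.pi_gt_three
  have h4 : 0 < sin (m / 4) := sin_pos_of_pos_of_lt_pi (by linarith) (by linarith)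
  have h5 : sin (m / 4) ≤ m / 4 := sin_le (by linarith)
  have h6 := cos_le_one (m / 4)
  have h7 := cos_le_one c
  have h8 : sin (c + m / 4) ≤ sin c + m / 4 := by
    rw [sin_add]
    have h9 : sin c * cos (m / 4) ≤ sin c := mul_le_of_le_one_right (by linarith) h6
    have h10 : cos c * sin (m / 4) ≤ sin (m / 4) := mul_le_of_le_one_left h4.le h7
    linarith
  have h9 : 0 < sin (c + m / 4) := sin_pos_of_pos_of_lt_pi (by linarith) (by linarith)
  refine ⟨h9, ?_, h3⟩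
  have h10 : (1 - m) * sin (c + m / 4) ≤ (1 - m) * (sin c + m / 4) :=
    mul_le_mul_of_nonneg_left h8 (by linarith)
  have h11 : m * (1 / 4) < m * sin c := mul_lt_mul_of_pos_left h3 hm
  nlinarith [mul_pos hm hm]

/-- the functional on the last link -/
theorem kite_last (m c : ℝ) (hm : 0 < m) (hm' : m ≤ 1 / 1000) (hc : 9 / 20 ≤ c) (hc' : c ≤ 1 / 2)
    (a' c' b' : ℝ) (z : ℂ) (h2 : z ∈ segment ℝ (1 : ℂ) (z5 m a' c' b' (-(m / 4))))
    (h4 : z4 m a' c' b' = 1) : z.im * cos c - z.re * sin c < 0 := by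
  obtain ⟨t, ht0, ht1, ht⟩ := kite_seg h2 c
  have h5 : z5 m a' c' b' (-(m / 4)) = 1 - (1 - (m : ℂ)) * Complex.exp (((-(m / 4) : ℝ) : ℂ) * Complex.I) := by
    unfold z5
    rw [h4]
  rw [ht, h5, kite_n, kite_one]
  obtain ⟨e1, e2, e3⟩ := kite_est m c hm hm' hc hc'
  have h6 : sin (-(m / 4) - c) = -sin (c + m / 4) := by
    rw [← sin_neg]; congr 1; ring
  rw [h6]
  have h7 : t * ((1 - m) * sin (c + m / 4)) ≤ (1 - m) * sin (c + m / 4) :=
    mul_le_of_le_one_left (mul_nonneg (by linarith) e1.le) ht1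
  nlinarith

theorem kite13 (m g : ℝ) (hm : 0 < m) (hm' : m ≤ 1/1000) (h : (1 + m) * sin g = sin (1/4)) (hg : 1/5 < g) (hg' : g < 1/4)
    (z : ℂ) (h1 : z ∈ segment ℝ (0 : ℂ) (z2 (1/2)))
    (h2 : z ∈ segment ℝ (z3 m (1/2) (1/4 + g)) 1) (h4 : z4 m (1/2) (1/4 + g) (1/4 - g) = 1) :
    False := by
  have hpi := Real.pi_gt_three
  obtain ⟨s, hs0, hs1, hs⟩ := kite_seg h1 (1 / 4 - g)
  obtain ⟨t, ht0, ht1, ht⟩ := kite_seg h2 (1 / 4 - g)
  have h3 : z3 m (1/2) (1/4 + g) = 1 - (1 + (m : ℂ)) * Complex.exp (((1 / 4 - g : ℝ) : ℂ) * Complex.I) := by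
    unfold z4 at h4
    linear_combination h4
  rw [h3, kite_p, kite_one, sub_self, sin_zero] at ht
  rw [kite_z2] at hs
  have e1 : 0 < sin (1 / 4 - g) := sin_pos_of_pos_of_lt_pi (by linarith) (by linarith)
  have e2 : 0 < sin (1 / 2 - (1 / 4 - g)) := sin_pos_of_pos_of_lt_pi (by linarith) (by linarith)
  have e3 : 0 ≤ s * sin (1 / 2 - (1 / 4 - g)) := mul_nonneg hs0 e2.le
  simp only [Complex.zero_im, Complex.zero_re, zero_mul, sub_zero, mul_zero, zero_add] at hs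
  rw [hs] at ht
  nlinarith

theorem kite14 (m g : ℝ) (hm : 0 < m) (hm' : m ≤ 1/1000) (h : (1 + m) * sin g = sin (1/4)) (hg : 1/5 < g) (hg' : g < 1/4)
    (z : ℂ) (h1 : z ∈ segment ℝ (0 : ℂ) (z2 (1/2)))
    (h2 : z ∈ segment ℝ (1 : ℂ) (z5 m (1/2) (1/4 + g) (1/4 - g) (-(m/4)))) (h4 : z4 m (1/2) (1/4 + g) (1/4 - g) = 1) :
    False := by
  have h5 := kite_last m (1 / 2) hm hm' (by norm_num) le_rfl _ _ _ z h2 h4
  obtain ⟨s, hs0, hs1, hs⟩ := kite_seg h1 (1 / 2)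
  rw [kite_z2, sub_self, sin_zero] at hs
  simp only [Complex.zero_im, Complex.zero_re, zero_mul, sub_zero, mul_zero, add_zero] at hs
  linarith

theorem kite24 (m g : ℝ) (hm : 0 < m) (hm' : m ≤ 1/1000) (h : (1 + m) * sin g = sin (1/4)) (hg : 1/5 < g) (hg' : g < 1/4)
    (z : ℂ) (h1 : z ∈ segment ℝ (z2 (1/2)) (z3 m (1/2) (1/4 + g)))
    (h2 : z ∈ segment ℝ (1 : ℂ) (z5 m (1/2) (1/4 + g) (1/4 - g) (-(m/4)))) (h4 : z4 m (1/2) (1/4 + g) (1/4 - g) = 1) :
    False := by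
  have hpi := Real.pi_gt_three
  have h5 := kite_last m (1 / 4 + g) hm hm' (by linarith) (by linarith) _ _ _ z h2 h4
  obtain ⟨s, hs0, hs1, hs⟩ := kite_seg h1 (1 / 4 + g)
  unfold z3 at hs
  rw [kite_p, kite_z2, sub_self, sin_zero] at hs
  have e1 : 0 < sin (1 / 2 - (1 / 4 + g)) := sin_pos_of_pos_of_lt_pi (by linarith) (by linarith)
  nlinarith

theorem kite_simple (m g : ℝ) (hm : 0 < m) (hm' : m ≤ 1/1000) (h : (1 + m) * sin g = sin (1/4))
    (hg : 1/5 < g) (hg' : g < 1/4) :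
    Simple 5 (zq m (1/2) (1/4 + g) (1/4 - g) (-(m/4))) := by
  have h4 : z4 m (1/2) (1/4 + g) (1/4 - g) = 1 := (kite_z4 m g h).2.2
  intro i j hij hj z h1 h2
  have hj' : j ≤ 4 := by omega
  have hi' : i ≤ 3 := by omega
  interval_cases i <;> interval_cases j <;> first
    | (exfalso; omega)
    | skip
  all_goals simp only [zq, Nat.reduceAdd] at h1 h2
  · exact ⟨rfl, kite01 m g hm hm' z h1 h2⟩
  · exact (kite02 m g hm hm' h hg hg' z h1 h2).elim
  · rw [h4] at h2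
    exact (kite03 m g hm hm' h hg hg' z h1 h2 h4).elim
  · rw [h4] at h2
    exact (kite04 m g hm hm' h hg hg' z h1 h2 h4).elim
  · exact ⟨rfl, kite12 m g hm hm' hg hg' z h1 h2⟩
  · rw [h4] at h2
    exact (kite13 m g hm hm' h hg hg' z h1 h2 h4).elim
  · rw [h4] at h2
    exact (kite14 m g hm hm' h hg hg' z h1 h2 h4).elim
  · exact ⟨rfl, kite23 m g hm hm' hg hg' z h1 h2⟩
  · rw [h4] at h2
    exact (kite24 m g hm hm' h hg hg' z h1 h2 h4).elim
  · exact ⟨rfl, kite34 m g hm hm' hg hg' z h1 h2⟩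

theorem init_exists (m : ℝ) (hm : 0 < m) (hm' : m ≤ 1/1000) :
    ∃ (q : ℕ → ℂ) (a c b e : ℝ), HasLengths 5 (lm m) q ∧ Simple 5 q ∧ St q a c b e ∧ a = 1/2 ∧
      0 < F m a c b e := by
  obtain ⟨h, hg, hg'⟩ := gam_facts m hm hm'
  refine ⟨zq m (1/2) (1/4 + gam m) (1/4 - gam m) (-(m/4)), 1/2, 1/4 + gam m, 1/4 - gam m, -(m/4),
    zq_lengths m _ _ _ _ hm hm', kite_simple m (gam m) hm hm' h hg hg', ?_, rfl,
    kite_F m (gam m) hm hm' h hg hg'⟩
  exact zq_st m _ _ _ _ hm hm' (by norm_num) (by norm_num) (by linarith) (by linarith) (by linarith)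
    (by linarith) (by linarith) (by linarith)

end CH134
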