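import Pool.Agent.Helper134.ChainKite

set_option autoImplicit false

namespace CH134

open Real

theorem F_continuous (m : ℝ) {A C B E : ℝ → ℝ} {S : Set ℝ} (hA : ContinuousOn A S)
    (hC : ContinuousOn C S) (hB : ContinuousOn B S) (hE : ContinuousOn E S) :
    ContinuousOn (fun t => F m (A t) (C t) (B t) (E t)) S := by
  unfold F G X5 Y5 X4 Y4
  fun_prop

/-- elementary consequences of the joint angles being in (0, 2π) -/
theorem St_order {q : ℕ → ℂ} {a c b e : ℝ} (h : St q a c b e) : 0 < a ∧ c < a ∧ b < c ∧ e < b := by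
  obtain ⟨h0, h1, h2, h3⟩ := h
  refine ⟨h0.1, ?_, ?_, ?_⟩
  · have := h1.2.1; linarith
  · have := h2.2.1; linarith
  · have := h3.2.1; linarith

theorem ja_unique (m : ℝ) (hm : 0 < m) (hm' : m ≤ 1/1000) (q : ℕ → ℂ) (hl : HasLengths 5 (lm m) q)
    (i : ℕ) (hi : i + 1 < 5) (t t' : ℝ) (h : JointAngle q i t) (h' : JointAngle q i t') : t = t' := by
  have hpos : ∀ j < 5, 0 < lm m j := by
    intro j hj
    interval_cases j <;> simp [lm] <;> linarith
  have hne : ∀ j < 5, q j - q (j + 1) ≠ 0 := by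
    intro j hj h0
    have h1 := hl j hj
    rw [dist_eq_norm, h0, norm_zero] at h1
    have := hpos j hj
    linarith
  refine angle_unique _ _ t t' (hne i (by omega)) ?_ h h'
  intro h0
  apply hne (i + 1) hi
  have : q (i + 1) - q (i + 1 + 1) = -(q (i + 2) - q (i + 1)) := by ring_nf
  rw [this, h0, neg_zero]

theorem St_unique (m : ℝ) (hm : 0 < m) (hm' : m ≤ 1/1000) (q : ℕ → ℂ) (hl : HasLengths 5 (lm m) q)
    (a c b e a' c' b' e' : ℝ) (h : St q a c b e) (h' : St q a' c' b' e') :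
    a = a' ∧ c = c' ∧ b = b' ∧ e = e' := by
  obtain ⟨h0, h1, h2, h3⟩ := h
  obtain ⟨k0, k1, k2, k3⟩ := h'
  have e0 := ja_unique m hm hm' q hl 0 (by norm_num) _ _ h0 k0
  have e1 := ja_unique m hm hm' q hl 1 (by norm_num) _ _ h1 k1
  have e2 := ja_unique m hm hm' q hl 2 (by norm_num) _ _ h2 k2
  have e3 := ja_unique m hm hm' q hl 3 (by norm_num) _ _ h3 k3
  refine ⟨e0, ?_, ?_, ?_⟩ <;> linarith

/-- the trap persists along a path on which `a` stays at most 1 -/
theorem persist (m : ℝ) (hm : 0 < m) (hm' : m ≤ 1/1000) (p : ℝ → ℕ → ℂ) (s0 s1 : ℝ)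
    (hl : ∀ t ∈ Set.Icc s0 s1, HasLengths 5 (lm m) (p t)) (hs : ∀ t ∈ Set.Icc s0 s1, Simple 5 (p t))
    (A C B E : ℝ → ℝ) (hA : ContinuousOn A (Set.Icc s0 s1)) (hC : ContinuousOn C (Set.Icc s0 s1))
    (hB : ContinuousOn B (Set.Icc s0 s1)) (hE : ContinuousOn E (Set.Icc s0 s1))
    (hst : ∀ t ∈ Set.Icc s0 s1, St (p t) (A t) (C t) (B t) (E t))
    (h1 : ∀ t ∈ Set.Icc s0 s1, A t ≤ 1) (h0 : 0 < F m (A s0) (C s0) (B s0) (E s0)) :
    ∀ t ∈ Set.Icc s0 s1, 0 < F m (A t) (C t) (B t) (E t) := by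
  intro t ht
  by_contra hcon
  push Not at hcon
  have hsub : Set.Icc s0 t ⊆ Set.Icc s0 s1 := Set.Icc_subset_Icc le_rfl ht.2
  have hcont : ContinuousOn (fun t => F m (A t) (C t) (B t) (E t)) (Set.Icc s0 t) :=
    (F_continuous m hA hC hB hE).mono hsub
  have hmem : (0 : ℝ) ∈ Set.Icc (F m (A t) (C t) (B t) (E t)) (F m (A s0) (C s0) (B s0) (E s0)) :=
    ⟨hcon, h0.le⟩
  obtain ⟨r, hr, hr0⟩ := intermediate_value_Icc' ht.1 hcont hmem
  have hr' := hsub hr
  have hst' := hst r hr'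
  obtain ⟨o1, o2, o3, o4⟩ := St_order hst'
  have hr0' : F m (A r) (C r) (B r) (E r) = 0 := hr0
  have := trap_strict m (A r) (C r) (B r) (E r) hm hm' o1 (h1 r hr') o2 o3 o4 hr0'.ge
    (st_nc m hm hm' (p r) _ _ _ _ (hl r hr') (hs r hr') hst')
  linarith

/-- one move increases `a` by less than the threshold `Δ` -/
theorem one_move (m Δ : ℝ) (hm : 0 < m) (hm' : m ≤ 1/1000) (hΔ : 0 < Δ)
    (hbig : 13200 * m < (Δ / 4) ^ 4) (p : ℝ → ℕ → ℂ) (s0 s1 : ℝ) (h01 : s0 ≤ s1)
    (hl : ∀ t ∈ Set.Icc s0 s1, HasLengths 5 (lm m) (p t)) (hs : ∀ t ∈ Set.Icc s0 s1, Simple 5 (p t))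
    (hang : ∀ i : ℕ, i + 1 < 5 → ∃ α β : ℝ, ∀ t ∈ Set.Icc s0 s1, JointAngle (p t) i (α + β * t))
    (a c b e : ℝ) (h0 : St (p s0) a c b e) (hF : 0 < F m a c b e) (M : ℝ) (hM : 1/2 ≤ M) (haM : a ≤ M)
    (hM' : M + Δ ≤ 3/4) :
    ∃ a' c' b' e' : ℝ, St (p s1) a' c' b' e' ∧ 0 < F m a' c' b' e' ∧ a' ≤ M + Δ := by
  obtain ⟨α0, β0, g0⟩ := hang 0 (by norm_num)
  obtain ⟨α1, β1, g1⟩ := hang 1 (by norm_num)
  obtain ⟨α2, β2, g2⟩ := hang 2 (by norm_num)
  obtain ⟨α3, β3, g3⟩ := hang 3 (by norm_num)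
  -- affine directions
  set A : ℝ → ℝ := fun t => α0 + β0 * t with hAdef
  set C : ℝ → ℝ := fun t => (α0 + α1 - 2 * π) + (β0 + β1) * t with hCdef
  set B : ℝ → ℝ := fun t => (α0 + α1 + α2 - 4 * π) + (β0 + β1 + β2) * t with hBdef
  set E : ℝ → ℝ := fun t => (α0 + α1 + α2 + α3 - 6 * π) + (β0 + β1 + β2 + β3) * t with hEdef
  have hst : ∀ t ∈ Set.Icc s0 s1, St (p t) (A t) (C t) (B t) (E t) := by
    intro t ht
    refine ⟨g0 t ht, ?_, ?_, ?_⟩
    · have : 2 * π + C t - A t = α1 + β1 * t := by simp only [hAdef, hCdef]; ring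
      rw [this]; exact g1 t ht
    · have : 2 * π + B t - C t = α2 + β2 * t := by simp only [hBdef, hCdef]; ring
      rw [this]; exact g2 t ht
    · have : 2 * π + E t - B t = α3 + β3 * t := by simp only [hBdef, hEdef]; ring
      rw [this]; exact g3 t ht
  have hcA : Continuous A := by simp only [hAdef]; fun_prop
  have hcC : Continuous C := by simp only [hCdef]; fun_prop
  have hcB : Continuous B := by simp only [hBdef]; fun_prop
  have hcE : Continuous E := by simp only [hEdef]; fun_prop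
  have hs0 : s0 ∈ Set.Icc s0 s1 := ⟨le_rfl, h01⟩
  have hs1 : s1 ∈ Set.Icc s0 s1 := ⟨h01, le_rfl⟩
  obtain ⟨ea, ec, eb, ee⟩ := St_unique m hm hm' (p s0) (hl s0 hs0) _ _ _ _ _ _ _ _ (hst s0 hs0) h0
  have hF0 : 0 < F m (A s0) (C s0) (B s0) (E s0) := by rw [ea, ec, eb, ee]; exact hF
  by_cases hend : A s1 ≤ M + Δ
  · -- `a` stays below `M + Δ ≤ 1`
    have hle : ∀ t ∈ Set.Icc s0 s1, A t ≤ 1 := by
      intro t ht
      have hA0 : A s0 ≤ M := by rw [ea]; exact haM
      have : A t ≤ M + Δ := by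
        simp only [hAdef] at hA0 hend ⊢
        rcases le_or_gt 0 β0 with hb | hb
        · nlinarith [ht.2]
        · nlinarith [ht.1]
      linarith
    have := persist m hm hm' p s0 s1 hl hs A C B E hcA.continuousOn hcC.continuousOn hcB.continuousOn
      hcE.continuousOn hst hle hF0 s1 hs1
    exact ⟨A s1, C s1, B s1, E s1, hst s1 hs1, this, hend⟩
  · exfalso
    push Not at hend
    have hA0 : A s0 ≤ M := by rw [ea]; exact haM
    have hβ : 0 < β0 := by
      by_contra hcon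
      push Not at hcon
      simp only [hAdef] at hA0 hend
      nlinarith
    -- times t1 < t2 where `a` takes the values `M` and `M + Δ`
    obtain ⟨t1, ht1⟩ : ∃ t1, t1 = (M - α0) / β0 := ⟨_, rfl⟩
    obtain ⟨t2, ht2⟩ : ∃ t2, t2 = (M + Δ - α0) / β0 := ⟨_, rfl⟩
    have hAt1 : A t1 = M := by
      simp only [hAdef]; rw [ht1]; field_simp; ring
    have hAt2 : A t2 = M + Δ := by
      simp only [hAdef]; rw [ht2]; field_simp; ring
    have h12 : t1 < t2 := by
      rw [ht1, ht2]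
      apply div_lt_div_of_pos_right _ hβ
      linarith
    have h1s : s0 ≤ t1 := by
      by_contra hcon
      push Not at hcon
      have : A t1 < A s0 := by simp only [hAdef]; nlinarith
      linarith
    have h2s : t2 ≤ s1 := by
      by_contra hcon
      push Not at hcon
      have : A s1 < A t2 := by simp only [hAdef]; nlinarith
      linarith
    have hsub : Set.Icc s0 t2 ⊆ Set.Icc s0 s1 := Set.Icc_subset_Icc le_rfl h2s
    have hle : ∀ t ∈ Set.Icc s0 t2, A t ≤ 1 := by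
      intro t ht
      have : A t ≤ A t2 := by simp only [hAdef]; nlinarith [ht.2]
      linarith
    have hpers := persist m hm hm' p s0 t2 (fun t ht => hl t (hsub ht)) (fun t ht => hs t (hsub ht))
      A C B E hcA.continuousOn hcC.continuousOn hcB.continuousOn
      hcE.continuousOn (fun t ht => hst t (hsub ht)) hle hF0
    have hcurv := curvature m M Δ (C t1) (C t2 - C t1) (B t1) (B t2 - B t1) hm hm' hM hΔ hM' ?_
    · linarith
    · intro s hs0' hs1'
      set t : ℝ := t1 + (t2 - t1) * s with htdef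
      have htm : t ∈ Set.Icc s0 t2 := by
        constructor
        · have : 0 ≤ (t2 - t1) * s := mul_nonneg (by linarith) hs0'
          linarith
        · have : (t2 - t1) * s ≤ (t2 - t1) * 1 := mul_le_mul_of_nonneg_left hs1' (by linarith)
          linarith
      have eA : M + Δ * s = A t := by
        have h1 : A t = A t1 + (A t2 - A t1) * s := by simp only [hAdef, htdef]; ring
        rw [h1, hAt1, hAt2]; ring
      have eC : C t1 + (C t2 - C t1) * s = C t := by simp only [hCdef, htdef]; ring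
      have eB : B t1 + (B t2 - B t1) * s = B t := by simp only [hBdef, htdef]; ring
      rw [eA, eC, eB]
      obtain ⟨o1, o2, o3, o4⟩ := St_order (hst t (hsub htm))
      obtain ⟨k1, k2, k3, k4, k5, k6⟩ := trap_bounds m (A t) (C t) (B t) (E t) hm hm' o1 (hle t htm)
        o2 o3 o4 (hpers t htm).le
      exact ⟨by linarith, k1, k2, k4⟩

/-- lower bound for the number of moves -/
theorem moves_gt (N : ℕ) (m : ℝ) (hm : 0 < m) (hm' : m ≤ 1/1000)
    (hbig : 13200 * m < (1 / (4 * ((N : ℝ) + 1)) / 4) ^ 4) (q : ℕ → ℂ) (a c b e : ℝ)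
    (hq : St q a c b e) (ha : a = 1/2) (hF : 0 < F m a c b e) (k : ℕ)
    (hk : StraightenedBy 5 (lm m) q k) : N < k := by
  by_contra hcon
  push Not at hcon
  obtain ⟨T, p, hT, ⟨hcont, hconf⟩, hp0, ⟨τ, hτ0, hτk, hmono, hmoves⟩, hstr⟩ := hk
  have hN1 : (0 : ℝ) < (N : ℝ) + 1 := by positivity
  -- monotonicity of the breakpoints
  have hmon : ∀ j ≤ k, ∀ i ≤ j, τ i ≤ τ j := by
    intro j
    induction j with
    | zero => intro _ i hi; rw [Nat.le_zero.mp hi]
    | succ j ih =>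
      intro hj i hi
      rcases Nat.lt_or_ge i (j + 1) with h | h
      · exact (ih (by omega) i (by omega)).trans (hmono j (by omega))
      · rw [le_antisymm hi h]
  have hin : ∀ j ≤ k, τ j ∈ Set.Icc (0 : ℝ) T := by
    intro j hj
    constructor
    · rw [← hτ0]; exact hmon j hj 0 (Nat.zero_le _)
    · rw [← hτk]; exact hmon k le_rfl j hj
  have hJ : ∀ i : ℕ, i + 2 ≤ 5 → ∀ t : ℝ, JointAngle q i t → JointAngle (p 0) i t := by
    intro i hi t h
    unfold JointAngle at *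
    rw [hp0 i (by omega), hp0 (i + 1) (by omega), hp0 (i + 2) hi]
    exact h
  have hSt0 : St (p 0) a c b e :=
    ⟨hJ 0 (by norm_num) _ hq.1, hJ 1 (by norm_num) _ hq.2.1, hJ 2 (by norm_num) _ hq.2.2.1,
      hJ 3 (by norm_num) _ hq.2.2.2⟩
  have key : ∀ j ≤ k, ∃ a' c' b' e' : ℝ, St (p (τ j)) a' c' b' e' ∧ 0 < F m a' c' b' e' ∧
      a' ≤ 1/2 + (j : ℝ) * (1 / (4 * ((N : ℝ) + 1))) := by
    intro j
    induction j with
    | zero =>
      intro _
      refine ⟨a, c, b, e, ?_, hF, ?_⟩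
      · rw [hτ0]; exact hSt0
      · rw [ha]; simp
    | succ j ih =>
      intro hj
      obtain ⟨a', c', b', e', h1, h2, h3⟩ := ih (by omega)
      have hjN : ((j : ℝ) + 1) ≤ (N : ℝ) := by
        have : j + 1 ≤ N := by omega
        exact_mod_cast this
      have hbd : 1/2 + (j : ℝ) * (1 / (4 * ((N : ℝ) + 1))) + 1 / (4 * ((N : ℝ) + 1)) ≤ 3/4 := by
        have : (j : ℝ) * (1 / (4 * ((N : ℝ) + 1))) + 1 / (4 * ((N : ℝ) + 1)) ≤ 1/4 := by
          have e1 : (j : ℝ) * (1 / (4 * ((N : ℝ) + 1))) + 1 / (4 * ((N : ℝ) + 1))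
              = ((j : ℝ) + 1) / (4 * ((N : ℝ) + 1)) := by ring
          rw [e1, div_le_iff₀ (by positivity)]
          linarith
        linarith
      have hsubI : Set.Icc (τ j) (τ (j + 1)) ⊆ Set.Icc (0 : ℝ) T :=
        Set.Icc_subset_Icc (hin j (by omega)).1 (hin (j + 1) hj).2
      obtain ⟨a2, c2, b2, e2, k1, k2, k3⟩ := one_move m (1 / (4 * ((N : ℝ) + 1))) hm hm' (by positivity)
        hbig p (τ j) (τ (j + 1)) (hmono j (by omega)) (fun t ht => (hconf t (hsubI ht)).1)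
        (fun t ht => (hconf t (hsubI ht)).2) (hmoves j (by omega)) a' c' b' e' h1 h2
        (1/2 + (j : ℝ) * (1 / (4 * ((N : ℝ) + 1)))) (by
          have : 0 ≤ (j : ℝ) * (1 / (4 * ((N : ℝ) + 1))) := by positivity
          linarith) h3 hbd
      refine ⟨a2, c2, b2, e2, k1, k2, ?_⟩
      push_cast
      linarith
  obtain ⟨a', c', b', e', h1, h2, h3⟩ := key k le_rfl
  have hpi : a' = π := by
    have hs := hstr 0 (by norm_num)
    rw [← hτk] at hs
    exact ja_unique m hm hm' (p (τ k)) (hconf (τ k) (hin k le_rfl)).1 0 (by norm_num) _ _ h1.1 hs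
  have hkN : (k : ℝ) ≤ (N : ℝ) := by exact_mod_cast hcon
  have hlast : (k : ℝ) * (1 / (4 * ((N : ℝ) + 1))) ≤ 1/4 := by
    have e1 : (k : ℝ) * (1 / (4 * ((N : ℝ) + 1))) = (k : ℝ) / (4 * ((N : ℝ) + 1)) := by ring
    rw [e1, div_le_iff₀ (by positivity)]
    linarith
  have := Real.pi_gt_three
  linarith

end CH134
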