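import Pool.Agent.Helper134.ChainDefs

set_option autoImplicit false

namespace CH134

open Real

theorem two_links_angle (q : ℕ → ℂ) (hu : q 0 - q 1 ≠ 0) (hv : q 2 - q 1 ≠ 0)
    (hs : Simple 2 q) : ∃ θ : ℝ, IsAngle (q 0 - q 1) (q 2 - q 1) θ := by
  obtain ⟨u, hud⟩ : ∃ u, u = q 0 - q 1 := ⟨_, rfl⟩
  obtain ⟨v, hvd⟩ : ∃ v, v = q 2 - q 1 := ⟨_, rfl⟩
  rw [← hud] at hu ⊢
  rw [← hvd] at hv ⊢
  have hun : 0 < ‖u‖ := norm_pos_iff.2 hu
  have hvn : 0 < ‖v‖ := norm_pos_iff.2 hv
  have hun' : (‖u‖ : ℂ) ≠ 0 := by exact_mod_cast hun.ne'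
  have key : v * (‖u‖ : ℂ) = u * (‖v‖ : ℂ) * Complex.exp (Complex.arg (v / u) * Complex.I) := by
    have h1 := Complex.norm_mul_exp_arg_mul_I (v / u)
    rw [norm_div, Complex.ofReal_div] at h1
    have h2 : v = u * (v / u) := by field_simp
    calc v * (‖u‖ : ℂ) = u * (v / u) * (‖u‖ : ℂ) := by rw [← h2]
      _ = u * ((‖v‖ : ℂ) / (‖u‖ : ℂ) * Complex.exp (Complex.arg (v / u) * Complex.I)) * (‖u‖ : ℂ) := by
          rw [h1]
      _ = u * (‖v‖ : ℂ) * Complex.exp (Complex.arg (v / u) * Complex.I) := by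
          field_simp
  have hne : Complex.arg (v / u) ≠ 0 := by
    intro h0
    rw [h0] at key
    simp only [Complex.ofReal_zero, zero_mul, Complex.exp_zero, mul_one] at key
    have hsum : 0 < ‖u‖ + ‖v‖ := by positivity
    have hsum' : ((‖u‖ : ℂ) + (‖v‖ : ℂ)) ≠ 0 := by exact_mod_cast hsum.ne'
    obtain ⟨z, hz⟩ : ∃ z : ℂ, z = q 1 + ((‖v‖ / (‖u‖ + ‖v‖) : ℝ) : ℂ) * u := ⟨_, rfl⟩
    have hz2 : z = q 1 + ((‖u‖ / (‖u‖ + ‖v‖) : ℝ) : ℂ) * v := by
      rw [hz]
      congr 1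
      push_cast
      field_simp
      linear_combination -key
    have hSR : ((‖v‖ / (‖u‖ + ‖v‖) : ℝ) : ℂ) + ((‖u‖ / (‖u‖ + ‖v‖) : ℝ) : ℂ) = 1 := by
      rw [← Complex.ofReal_add]
      have : ‖v‖ / (‖u‖ + ‖v‖) + ‖u‖ / (‖u‖ + ‖v‖) = 1 := by
        rw [← add_div, add_comm ‖v‖, div_self hsum.ne']
      rw [this, Complex.ofReal_one]
    have hSR' : ‖v‖ / (‖u‖ + ‖v‖) + ‖u‖ / (‖u‖ + ‖v‖) = 1 := by
      rw [← add_div, add_comm ‖v‖, div_self hsum.ne']
    have h3 := hs 0 1 (by norm_num) (by norm_num) z (by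
      refine ⟨‖v‖ / (‖u‖ + ‖v‖), ‖u‖ / (‖u‖ + ‖v‖), by positivity, by positivity, hSR', ?_⟩
      rw [hz, Complex.real_smul, Complex.real_smul, show (0:ℕ) + 1 = 1 from rfl]
      linear_combination q 1 * hSR - ((‖v‖ / (‖u‖ + ‖v‖) : ℝ) : ℂ) * hud) (by
      refine ⟨‖v‖ / (‖u‖ + ‖v‖), ‖u‖ / (‖u‖ + ‖v‖), by positivity, by positivity, hSR', ?_⟩
      rw [hz2, Complex.real_smul, Complex.real_smul, show (1:ℕ) + 1 = 2 from rfl]
      linear_combination q 1 * hSR - ((‖u‖ / (‖u‖ + ‖v‖) : ℝ) : ℂ) * hvd)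
    have h4 := h3.2
    rw [hz] at h4
    have h5 : ((‖v‖ / (‖u‖ + ‖v‖) : ℝ) : ℂ) * u = 0 := by
      have := congrArg (fun x => x - q 1) h4
      simpa using this
    rcases mul_eq_zero.1 h5 with h6 | h6
    · have : ‖v‖ / (‖u‖ + ‖v‖) = 0 := by exact_mod_cast h6
      have h7 : 0 < ‖v‖ / (‖u‖ + ‖v‖) := by positivity
      linarith
    · exact hu h6
  rcases lt_or_gt_of_ne hne with hlt | hgt
  · refine ⟨Complex.arg (v / u) + 2 * π, ?_, ?_, ?_⟩
    · have := Complex.neg_pi_lt_arg (v / u)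
      linarith [Real.pi_pos]
    · linarith
    · rw [key]
      congr 1
      push_cast
      rw [add_mul, Complex.exp_add, Complex.exp_two_pi_mul_I, mul_one]
  · refine ⟨Complex.arg (v / u), hgt, ?_, key⟩
    have := Complex.arg_le_pi (v / u)
    linarith [Real.pi_pos]

theorem two_links_simple (a b ρ ψ : ℝ) (ha : 0 ≤ a) (hb : 0 ≤ b) (hρ : 0 < ρ) (h0 : 0 < ψ)
    (h1 : ψ < 2 * π) (h : (a : ℂ) = b * (ρ * Complex.exp (ψ * Complex.I))) : b = 0 := by
  by_contra hb0
  have hbp : 0 < b := lt_of_le_of_ne hb (Ne.symm hb0)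
  have hsc := Real.sin_sq_add_cos_sq ψ
  have hceq := (Real.cos_eq_one_iff_of_lt_of_lt (x := ψ) (by linarith [Real.pi_pos]) h1).1
  rw [Complex.exp_mul_I, ← Complex.ofReal_cos, ← Complex.ofReal_sin] at h
  generalize Real.cos ψ = c at h hsc hceq
  generalize Real.sin ψ = d at h hsc
  have hre := congrArg Complex.re h
  have him := congrArg Complex.im h
  simp at hre him
  have hbr : 0 < b * ρ := by positivity
  have hsin : d = 0 := by
    rcases him with him | him | him
    · linarith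
    · linarith
    · exact him
  have hcos : 0 ≤ c := by
    by_contra hc
    push Not at hc
    have : b * (ρ * c) < 0 := by
      rw [← mul_assoc]
      exact mul_neg_of_pos_of_neg hbr hc
    linarith
  rw [hsin] at hsc
  have hc1 : c = 1 := by nlinarith
  have := hceq hc1
  linarith

theorem two_links (l : ℕ → ℝ) (q : ℕ → ℂ) (hl : ∀ i < 2, 0 < l i) (h : HasLengths 2 l q)
    (hs : Simple 2 q) : StraightenedBy 2 l q 1 := by
  have hl0 := h 0 (by norm_num)
  have hl1 := h 1 (by norm_num)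
  have hu : q 0 - q 1 ≠ 0 := by
    intro h0
    rw [sub_eq_zero.1 h0] at hl0
    simp at hl0
    have := hl 0 (by norm_num)
    linarith
  have hv : q 2 - q 1 ≠ 0 := by
    intro h0
    rw [show (1 : ℕ) + 1 = 2 from rfl, sub_eq_zero.1 h0] at hl1
    simp at hl1
    have := hl 1 (by norm_num)
    linarith
  obtain ⟨θ, hθ0, hθ1, hθ⟩ := two_links_angle q hu hv hs
  obtain ⟨u, hud⟩ : ∃ u, u = q 0 - q 1 := ⟨_, rfl⟩
  obtain ⟨v, hvd⟩ : ∃ v, v = q 2 - q 1 := ⟨_, rfl⟩
  rw [← hud] at hu hθ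
  rw [← hvd] at hv hθ
  have hun : 0 < ‖u‖ := norm_pos_iff.2 hu
  have hvn : 0 < ‖v‖ := norm_pos_iff.2 hv
  have hun' : (‖u‖ : ℂ) ≠ 0 := by exact_mod_cast hun.ne'
  obtain ⟨P, hP⟩ : ∃ P : ℝ → ℂ, ∀ t, P t = u * ((‖v‖ : ℂ) / (‖u‖ : ℂ) *
    Complex.exp (((θ + (π - θ) * t : ℝ) : ℂ) * Complex.I)) := ⟨_, fun _ => rfl⟩
  have hPc : Continuous P := by
    have : P = fun t => u * ((‖v‖ : ℂ) / (‖u‖ : ℂ) *
      Complex.exp (((θ + (π - θ) * t : ℝ) : ℂ) * Complex.I)) := funext hP
    rw [this]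
    fun_prop
  have hPn : ∀ t, ‖P t‖ = ‖v‖ := by
    intro t
    rw [hP, norm_mul, norm_mul, Complex.norm_exp_ofReal_mul_I, mul_one, norm_div, Complex.norm_real,
      Complex.norm_real, norm_norm, norm_norm]
    field_simp
  have hP0 : P 0 = v := by
    rw [hP]
    have h1 : θ + (π - θ) * 0 = θ := by ring
    rw [h1]
    have h2 : v = (u * (‖v‖ : ℂ) * Complex.exp (θ * Complex.I)) / (‖u‖ : ℂ) := by
      rw [← hθ]
      field_simp
    conv_rhs => rw [h2]
    field_simp
  have hang : ∀ t ∈ Set.Icc (0:ℝ) 1, 0 < θ + (π - θ) * t ∧ θ + (π - θ) * t < 2 * π := by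
    intro t ht
    obtain ⟨ht0, ht1⟩ := ht
    have hpi := Real.pi_pos
    constructor
    · nlinarith
    · nlinarith
  have hJ : ∀ t ∈ Set.Icc (0:ℝ) 1, IsAngle u (P t) (θ + (π - θ) * t) := by
    intro t ht
    refine ⟨(hang t ht).1, (hang t ht).2, ?_⟩
    rw [hPn, hP]
    field_simp
  refine ⟨1, fun t i => if i = 2 then q 1 + P t else q i, by norm_num, ⟨?_, ?_⟩, ?_, ?_, ?_⟩
  · intro i hi
    by_cases h2 : i = 2
    · simp only [h2, if_true]
      exact (continuous_const.add hPc).continuousOn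
    · simp only [h2, if_false]
      exact continuousOn_const
  · intro t ht
    constructor
    · intro i hi
      interval_cases i
      · simpa using hl0
      · simp only [show (1:ℕ) ≠ 2 by norm_num, show (1:ℕ) + 1 = 2 by norm_num, if_true, if_false]
        rw [dist_eq_norm]
        have : q 1 - (q 1 + P t) = -P t := by ring
        rw [this, norm_neg, hPn, ← hl1, hvd, dist_comm, dist_eq_norm]
    · intro i j hij hj z hz1 hz2
      have hj1 : j = 1 := by omega
      have hi0 : i = 0 := by omega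
      subst hj1
      subst hi0
      simp only [show (1:ℕ) ≠ 2 by norm_num, show (0:ℕ) ≠ 2 by norm_num,
        show (0:ℕ) + 1 ≠ 2 by norm_num, show (1:ℕ) + 1 = 2 by norm_num, if_true, if_false] at hz1 hz2 ⊢
      refine ⟨trivial, ?_⟩
      obtain ⟨a, b, ha, hb, hab, hz1⟩ := hz1
      obtain ⟨a', b', ha', hb', hab', hz2⟩ := hz2
      have e1 : z = q 1 + (a : ℂ) * u := by
        rw [← hz1, hud, Complex.real_smul, Complex.real_smul]
        have : (b : ℂ) = 1 - a := by
          rw [eq_sub_iff_add_eq, add_comm]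
          exact_mod_cast hab
        rw [this]
        norm_num
        ring
      have e2 : z = q 1 + (b' : ℂ) * P t := by
        rw [← hz2, Complex.real_smul, Complex.real_smul]
        have : (a' : ℂ) = 1 - b' := by
          rw [eq_sub_iff_add_eq]
          exact_mod_cast hab'
        rw [this]
        ring
      have e3 : (a : ℂ) * u = (b' : ℂ) * P t := by
        have := e1.symm.trans e2
        exact add_left_cancel this
      have e4 : (a : ℂ) = b' * (((‖v‖ / ‖u‖ : ℝ) : ℂ) *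
          Complex.exp (((θ + (π - θ) * t : ℝ) : ℂ) * Complex.I)) := by
        apply mul_right_cancel₀ hu
        rw [e3, hP]
        push_cast
        ring
      have e5 := two_links_simple a b' (‖v‖ / ‖u‖) _ ha hb' (by positivity) (hang t ht).1
        (hang t ht).2 e4
      rw [e2, e5]
      simp
  · intro i hi
    by_cases h2 : i = 2
    · simp only [h2, if_true]
      rw [hP0, hvd]
      ring
    · simp only [h2, if_false]
  · refine ⟨fun j => (j : ℝ), by simp, by simp, ?_, ?_⟩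
    · intro j _
      push_cast
      linarith
    · intro j hj i hi
      have hj0 : j = 0 := by omega
      have hi0 : i = 0 := by omega
      subst hj0
      subst hi0
      refine ⟨θ, π - θ, ?_⟩
      intro t ht
      have ht' : t ∈ Set.Icc (0:ℝ) 1 := by simpa using ht
      have := hJ t ht'
      unfold JointAngle
      simp only [show (0:ℕ) ≠ 2 by norm_num,
        show (0:ℕ) + 1 ≠ 2 by norm_num, show (0:ℕ) + 2 = 2 by norm_num, if_true, if_false]
      have e1 : q 1 + P t - q 1 = P t := by ring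
      rw [show (0:ℕ) + 1 = 1 from rfl, e1, ← hud]
      exact this
  · intro i hi
    have hi0 : i = 0 := by omega
    subst hi0
    have := hJ 1 (by simp)
    unfold JointAngle
    simp only [show (0:ℕ) ≠ 2 by norm_num,
        show (0:ℕ) + 1 ≠ 2 by norm_num, show (0:ℕ) + 2 = 2 by norm_num, if_true, if_false]
    have e1 : q 1 + P 1 - q 1 = P 1 := by ring
    rw [show (0:ℕ) + 1 = 1 from rfl, e1, ← hud]
    have e2 : θ + (π - θ) * 1 = π := by ring
    rw [e2] at this
    exact this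

end CH134
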