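import Mathlib

set_option autoImplicit false
set_option linter.unusedSectionVars false

namespace Pool.Agent.Helper134

namespace PL

/-- Glue two order automorphisms of the line agreeing at `y`. -/
noncomputable def glueFun (f g : ℝ ≃o ℝ) (y : ℝ) : ℝ → ℝ := fun z => if z ≤ y then f z else g z

lemma glue_strictMono (f g : ℝ ≃o ℝ) (y : ℝ) (h : f y = g y) : StrictMono (glueFun f g y) := by
  intro z w hzw
  unfold glueFun
  split_ifs with h1 h2 h2
  · exact f.strictMono hzw
  · push Not at h2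
    calc f z ≤ f y := f.monotone h1
      _ = g y := h
      _ < g w := g.strictMono h2
  · exact absurd (hzw.le.trans h2) h1
  · exact g.strictMono hzw

/-- The glued order automorphism. -/
noncomputable def glue (f g : ℝ ≃o ℝ) (y : ℝ) (h : f y = g y) : ℝ ≃o ℝ :=
  (glue_strictMono f g y h).orderIsoOfRightInverse (glueFun f g y)
    (fun w => if w ≤ f y then f.symm w else g.symm w) (by
      intro w
      show glueFun f g y _ = w
      unfold glueFun
      by_cases hw : w ≤ f y
      · have : f.symm w ≤ y := by rw [← f.le_iff_le, f.apply_symm_apply]; exact hw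
        simp [hw, this]
      · have : ¬ g.symm w ≤ y := by
          rw [← g.le_iff_le, g.apply_symm_apply, ← h]; exact hw
        simp [hw, this])

lemma glue_le {f g : ℝ ≃o ℝ} {y : ℝ} (h : f y = g y) {z : ℝ} (hz : z ≤ y) :
    glue f g y h z = f z := by
  show glueFun f g y z = f z
  simp [glueFun, hz]

lemma glue_ge {f g : ℝ ≃o ℝ} {y : ℝ} (h : f y = g y) {z : ℝ} (hz : y ≤ z) :
    glue f g y h z = g z := by
  show glueFun f g y z = g z
  unfold glueFun
  split_ifs with h1
  · have : z = y := le_antisymm h1 hz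
    rw [this, h]
  · rfl

/-- Affine maps of slope `2 ^ n`. -/
noncomputable def aff (n : ℤ) (c : ℝ) : ℝ ≃o ℝ :=
  (show StrictMono (fun z : ℝ => (2 : ℝ) ^ n * z + c) by
    intro z w h
    have : (0 : ℝ) < 2 ^ n := by positivity
    show (2 : ℝ) ^ n * z + c < 2 ^ n * w + c
    nlinarith).orderIsoOfRightInverse (fun z : ℝ => (2 : ℝ) ^ n * z + c)
      (fun w => (w - c) / 2 ^ n) (by
        intro w
        have : (2 : ℝ) ^ n ≠ 0 := by positivity
        show (2 : ℝ) ^ n * ((w - c) / 2 ^ n) + c = w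
        field_simp
        ring)

lemma aff_apply (n : ℤ) (c z : ℝ) : aff n c z = 2 ^ n * z + c := rfl

/-- The basic bump, supported in `[1, 2]`. -/
noncomputable def bump : ℝ ≃o ℝ :=
  glue (glue (glue 1 (aff 1 (-1)) 1 (by rw [aff_apply]; norm_num))
    (aff (-1) 1) (4 / 3) (by
      rw [glue_ge _ (by norm_num), aff_apply, aff_apply]; norm_num))
    1 2 (by rw [glue_ge _ (by norm_num), aff_apply]; norm_num)

lemma bump_low {z : ℝ} (hz : z ≤ 1) : bump z = z := by
  unfold bump
  rw [glue_le _ (by linarith), glue_le _ (by linarith), glue_le _ hz]; rfl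

lemma bump_high {z : ℝ} (hz : 2 ≤ z) : bump z = z := by
  unfold bump
  rw [glue_ge _ hz]; rfl

lemma bump_gt {z : ℝ} (h1 : 1 < z) (h2 : z < 2) : z < bump z := by
  unfold bump
  rw [glue_le _ h2.le]
  rcases le_total z (4 / 3) with h | h
  · rw [glue_le _ h, glue_ge _ h1.le, aff_apply]; norm_num; linarith
  · rw [glue_ge _ h, aff_apply]; norm_num; linarith

lemma zpow_fix {f : ℝ ≃o ℝ} {z : ℝ} (h : f z = z) (n : ℤ) : (f ^ n) z = z := by
  have hinv : f⁻¹ z = z := by
    conv_lhs => rw [← h]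
    exact f.symm_apply_apply z
  have hnat : ∀ n : ℕ, (f ^ n) z = z := by
    intro n
    induction n with
    | zero => rfl
    | succ n ih => rw [pow_succ, RelIso.mul_apply, h, ih]
  have hnat' : ∀ n : ℕ, (f⁻¹ ^ n) z = z := by
    intro n
    induction n with
    | zero => rfl
    | succ n ih => rw [pow_succ, RelIso.mul_apply, hinv, ih]
  rcases n with n | n
  · rw [Int.ofNat_eq_natCast, zpow_natCast]; exact hnat n
  · rw [zpow_negSucc, ← inv_pow]; exact hnat' _

lemma bump_zpow_one (n : ℤ) : (bump ^ n) 1 = 1 := zpow_fix (bump_low le_rfl) n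
lemma bump_zpow_two (n : ℤ) : (bump ^ n) 2 = 2 := zpow_fix (bump_high le_rfl) n

lemma bump_zpow_mem (n : ℤ) {t : ℝ} (h : 1 ≤ t ∧ t ≤ 2) :
    1 ≤ (bump ^ n) t ∧ (bump ^ n) t ≤ 2 := by
  constructor
  · have := (bump ^ n).monotone h.1; rwa [bump_zpow_one] at this
  · have := (bump ^ n).monotone h.2; rwa [bump_zpow_two] at this

lemma bump_zpow_mem_lt (n : ℤ) {t : ℝ} (h : 1 ≤ t ∧ t < 2) :
    1 ≤ (bump ^ n) t ∧ (bump ^ n) t < 2 := by
  constructor
  · have := (bump ^ n).monotone h.1; rwa [bump_zpow_one] at this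
  · have := (bump ^ n).strictMono h.2; rwa [bump_zpow_two] at this

lemma bump_pow_gt (n : ℕ) {t : ℝ} (h1 : 1 < t) (h2 : t < 2) : t < (bump ^ (n + 1)) t := by
  induction n generalizing t with
  | zero => rw [zero_add, pow_one]; exact bump_gt h1 h2
  | succ n ih =>
    rw [pow_succ, RelIso.mul_apply]
    have h3 := bump_gt h1 h2
    have h4 : bump t < 2 := by
      have := bump.strictMono h2; rwa [bump_high le_rfl] at this
    exact h3.trans (ih (h1.trans h3) h4)

lemma bump_zpow_ne {n : ℤ} (hn : n ≠ 0) : (bump ^ n) (4 / 3) ≠ 4 / 3 := by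
  intro h
  have key : ∀ m : ℕ, (bump ^ (m + 1)) (4 / 3 : ℝ) ≠ 4 / 3 := fun m =>
    (bump_pow_gt m (by norm_num) (by norm_num)).ne'
  rcases n with n | n
  · rcases n with _ | n
    · exact hn rfl
    · rw [Int.ofNat_eq_natCast, zpow_natCast] at h
      exact key n h
  · rw [zpow_negSucc] at h
    apply key n
    have h2 : (bump ^ (n + 1)) (((bump ^ (n + 1))⁻¹ : ℝ ≃o ℝ) (4 / 3)) = 4 / 3 :=
      (bump ^ (n + 1)).apply_symm_apply _
    rw [h] at h2
    exact h2

end PL

end Pool.Agent.Helper134
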