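import Mathlib
import Pool.Agent.Helper134.PL1

set_option autoImplicit false
set_option linter.unusedSectionVars false

namespace Pool.Agent.Helper134

/-- The semidirect product of the additive group of a ring by the powers of a unit. -/
@[ext] structure Gm {A : Type} [CommRing A] (x : Aˣ) where
  a : A
  m : ℤ

namespace Gm

variable {A : Type} [CommRing A] {x : Aˣ}

instance : Mul (Gm x) := ⟨fun g h => ⟨↑(x ^ (-h.m)) * g.a + h.a, g.m + h.m⟩⟩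
instance : One (Gm x) := ⟨⟨0, 0⟩⟩
instance : Inv (Gm x) := ⟨fun g => ⟨-(↑(x ^ g.m) * g.a), -g.m⟩⟩

lemma mul_def (g h : Gm x) : g * h = ⟨↑(x ^ (-h.m)) * g.a + h.a, g.m + h.m⟩ := rfl
lemma one_def : (1 : Gm x) = ⟨0, 0⟩ := rfl
lemma inv_def (g : Gm x) : g⁻¹ = ⟨-(↑(x ^ g.m) * g.a), -g.m⟩ := rfl

instance : Group (Gm x) := Group.ofLeftAxioms
  (by
    intro a b c
    simp only [mul_def, Gm.mk.injEq]
    refine ⟨?_, by ring⟩
    have : (x ^ (-(b.m + c.m))) = x ^ (-c.m) * x ^ (-b.m) := by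
      rw [← zpow_add]; congr 1; ring
    rw [this, Units.val_mul]; ring)
  (by
    intro a
    simp only [mul_def, one_def, mul_zero, zero_add])
  (by
    intro a
    simp only [mul_def, one_def, inv_def, Gm.mk.injEq]
    refine ⟨?_, by ring⟩
    have : (↑(x ^ (-a.m)) : A) * ↑(x ^ a.m) = 1 := by
      rw [← Units.val_mul, ← zpow_add]; simp
    rw [mul_neg, ← mul_assoc, this]; ring)

end Gm

/-- A unit of a ring together with an additive functional. -/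
structure Dat (A : Type) [CommRing A] where
  x : Aˣ
  τ : A →+ ℤ
  tail : ∀ (a : A) (K0 : ℤ), (∀ k, K0 ≤ k → τ (↑(x ^ k) * a) = 0) → a = 0

namespace PL

variable {A : Type} [CommRing A] (d : Dat A)

/-- The integer sequence attached to an element. -/
def sq (a : A) (k : ℤ) : ℤ := d.τ (↑(d.x ^ k) * a)

lemma sq_zero (k : ℤ) : sq d 0 k = 0 := by simp [sq]

lemma sq_add (a b : A) (k : ℤ) : sq d (a + b) k = sq d a k + sq d b k := by
  simp [sq, mul_add]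

lemma sq_neg (a : A) (k : ℤ) : sq d (-a) k = -sq d a k := by
  simp [sq]

lemma sq_shift (a : A) (j k : ℤ) : sq d (↑(d.x ^ j) * a) k = sq d a (k + j) := by
  unfold sq
  rw [← mul_assoc, ← Units.val_mul, ← zpow_add]

/-- `γ` describes the right germ of `f` at `y`. -/
def RG (f : ℝ ≃o ℝ) (y : ℝ) (γ : Gm d.x) : Prop :=
  ∃ K0 : ℤ, ∀ k : ℤ, K0 ≤ k → ∀ t : ℝ, 1 ≤ t → t ≤ 2 →
    f (y + 2 ^ (-k) * t) = f y + 2 ^ (γ.m - k) * (bump ^ (sq d γ.a k)) t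

/-- `2 ^ m` is the left derivative of `f` at `y`, and `f` is affine on the left of `y`. -/
def LG (f : ℝ ≃o ℝ) (y : ℝ) (m : ℤ) : Prop :=
  ∃ ε : ℝ, 0 < ε ∧ ∀ t : ℝ, 0 ≤ t → t ≤ ε → f (y - t) = f y - 2 ^ m * t

variable {d}

lemma RG.mul {f g : ℝ ≃o ℝ} {y : ℝ} {γ γ' : Gm d.x} (h : RG d f y γ) (h' : RG d g (f y) γ') :
    RG d (g * f) y (γ' * γ) := by
  obtain ⟨K0, h⟩ := h
  obtain ⟨K1, h'⟩ := h'
  refine ⟨max K0 (K1 + γ.m), fun k hk t h1 h2 => ?_⟩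
  have hk0 : K0 ≤ k := (le_max_left _ _).trans hk
  have hk1 : K1 ≤ k - γ.m := by
    have := (le_max_right K0 (K1 + γ.m)).trans hk
    linarith
  obtain ⟨h3, h4⟩ := bump_zpow_mem (sq d γ.a k) ⟨h1, h2⟩
  have e1 := h k hk0 t h1 h2
  have e2 := h' (k - γ.m) hk1 _ h3 h4
  rw [RelIso.mul_apply, RelIso.mul_apply, e1]
  have e3 : γ.m - k = -(k - γ.m) := by ring
  rw [e3, e2, Gm.mul_def]
  simp only
  rw [sq_add, sq_shift, zpow_add, RelIso.mul_apply]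
  have e4 : γ'.m - (k - γ.m) = γ'.m + γ.m - k := by ring
  have e5 : k + -γ.m = k - γ.m := by ring
  rw [e4, e5]

lemma RG.inv {f : ℝ ≃o ℝ} {y : ℝ} {γ : Gm d.x} (h : RG d f y γ) : RG d f⁻¹ (f y) γ⁻¹ := by
  obtain ⟨K0, h⟩ := h
  refine ⟨K0 - γ.m, fun k hk t h1 h2 => ?_⟩
  rw [RelIso.inv_apply_self, Gm.inv_def]
  simp only
  have hk0 : K0 ≤ k + γ.m := by linarith
  rw [sq_neg, sq_shift]
  obtain ⟨h3, h4⟩ := bump_zpow_mem (-sq d γ.a (k + γ.m)) ⟨h1, h2⟩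
  have e1 := h (k + γ.m) hk0 _ h3 h4
  have e2 : (bump ^ sq d γ.a (k + γ.m)) ((bump ^ (-sq d γ.a (k + γ.m))) t) = t := by
    rw [← RelIso.mul_apply, ← zpow_add, add_neg_cancel, zpow_zero]; rfl
  rw [e2] at e1
  have e3 : γ.m - (k + γ.m) = -k := by ring
  rw [e3] at e1
  rw [← e1, RelIso.inv_apply_self]
  have e4 : -γ.m - k = -(k + γ.m) := by ring
  rw [e4]

lemma RG.unique {f : ℝ ≃o ℝ} {y : ℝ} {γ γ' : Gm d.x} (h : RG d f y γ) (h' : RG d f y γ') :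
    γ = γ' := by
  obtain ⟨K0, h⟩ := h
  obtain ⟨K1, h'⟩ := h'
  have hm : γ.m = γ'.m := by
    have e1 := h (max K0 K1) (le_max_left _ _) 1 le_rfl (by norm_num)
    have e2 := h' (max K0 K1) (le_max_right _ _) 1 le_rfl (by norm_num)
    rw [e1, bump_zpow_one, bump_zpow_one, mul_one, mul_one] at e2
    have e3 : (2 : ℝ) ^ (γ.m - max K0 K1) = 2 ^ (γ'.m - max K0 K1) := by linarith
    have e4 := zpow_right_injective₀ (show (0 : ℝ) < 2 by norm_num) (by norm_num) e3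
    linarith
  refine Gm.ext ?_ hm
  have : γ.a - γ'.a = 0 := by
    apply d.tail _ (max K0 K1)
    intro k hk
    have e1 := h k ((le_max_left _ _).trans hk) (4 / 3) (by norm_num) (by norm_num)
    have e2 := h' k ((le_max_right _ _).trans hk) (4 / 3) (by norm_num) (by norm_num)
    rw [e1, hm] at e2
    have e3 : (bump ^ sq d γ.a k) (4 / 3 : ℝ) = (bump ^ sq d γ'.a k) (4 / 3) := by
      have h5 : (2 : ℝ) ^ (γ'.m - k) ≠ 0 := by positivity
      have h6 := add_left_cancel e2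
      exact mul_left_cancel₀ h5 h6
    have e4 : (bump ^ (sq d γ.a k - sq d γ'.a k)) (4 / 3 : ℝ) = 4 / 3 := by
      have : sq d γ.a k - sq d γ'.a k = -sq d γ'.a k + sq d γ.a k := by ring
      rw [this, zpow_add, RelIso.mul_apply, e3, ← RelIso.mul_apply, ← zpow_add, neg_add_cancel,
        zpow_zero]; rfl
    have e5 : sq d γ.a k - sq d γ'.a k = 0 := by
      by_contra hne
      exact bump_zpow_ne hne e4
    have e6 := sq_add d γ.a (-γ'.a) k
    rw [sq_neg, ← sub_eq_add_neg, ← sub_eq_add_neg, e5] at e6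
    exact e6
  exact sub_eq_zero.mp this

/-- Locality of right germs. -/
lemma RG.congr {f g : ℝ ≃o ℝ} {y y' : ℝ} {γ : Gm d.x} (h : RG d f y γ) (hy : y < y')
    (hfg : ∀ z, y ≤ z → z < y' → g z = f z) : RG d g y γ := by
  obtain ⟨K0, h⟩ := h
  obtain ⟨n, hn⟩ := exists_nat_gt (2 / (y' - y))
  refine ⟨max K0 n, fun k hk t h1 h2 => ?_⟩
  have hk0 : K0 ≤ k := (le_max_left _ _).trans hk
  have hk1 : (n : ℤ) ≤ k := (le_max_right _ _).trans hk
  have hpos : (0 : ℝ) < 2 ^ (-k) := by positivity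
  have h3 : (2 : ℝ) ^ (-k) * t < y' - y := by
    have h4 : (2 : ℝ) ^ (-k) * t ≤ 2 ^ (-k) * 2 := by nlinarith
    have h5 : (2 : ℝ) ^ (-k) ≤ 2 ^ (-(n : ℤ)) := zpow_le_zpow_right₀ (by norm_num) (by linarith)
    have h6 : (2 : ℝ) ^ (-(n : ℤ)) * 2 < y' - y := by
      rw [zpow_neg, zpow_natCast]
      have h7 : (n : ℝ) < 2 ^ n := by exact_mod_cast Nat.lt_two_pow_self
      have h8 : 0 < y' - y := by linarith
      rw [div_lt_iff₀ h8] at hn
      rw [inv_mul_lt_iff₀ (by positivity)]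
      nlinarith
    linarith
  rw [hfg y le_rfl hy, hfg _ (by nlinarith) (by linarith)]
  exact h k hk0 t h1 h2

lemma RG.one (y : ℝ) : RG d 1 y 1 := by
  refine ⟨0, fun k _ t _ _ => ?_⟩
  rw [Gm.one_def]
  simp only
  rw [sq_zero, zpow_zero, zero_sub]
  rfl

lemma RG.aff (n : ℤ) (c y : ℝ) : RG d (aff n c) y ⟨0, n⟩ := by
  refine ⟨0, fun k _ t _ _ => ?_⟩
  simp only
  rw [sq_zero, zpow_zero, aff_apply, aff_apply, RelIso.one_apply, zpow_sub₀ (by norm_num), zpow_neg]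
  ring

lemma LG.mul {f g : ℝ ≃o ℝ} {y : ℝ} {m m' : ℤ} (h : LG f y m) (h' : LG g (f y) m') :
    LG (g * f) y (m' + m) := by
  obtain ⟨ε, hε, h⟩ := h
  obtain ⟨ε', hε', h'⟩ := h'
  have hpos : (0 : ℝ) < 2 ^ m := by positivity
  refine ⟨min ε (ε' / 2 ^ m), lt_min hε (by positivity), fun t h1 h2 => ?_⟩
  have h3 : t ≤ ε := h2.trans (min_le_left _ _)
  have h4 : 2 ^ m * t ≤ ε' := by
    have := h2.trans (min_le_right _ _)
    rw [le_div_iff₀ hpos] at this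
    linarith
  rw [RelIso.mul_apply, RelIso.mul_apply, h t h1 h3, h' _ (by positivity) h4,
    zpow_add₀ (by norm_num)]
  ring

lemma LG.inv {f : ℝ ≃o ℝ} {y : ℝ} {m : ℤ} (h : LG f y m) : LG f⁻¹ (f y) (-m) := by
  obtain ⟨ε, hε, h⟩ := h
  have hpos : (0 : ℝ) < 2 ^ m := by positivity
  refine ⟨2 ^ m * ε, by positivity, fun t h1 h2 => ?_⟩
  have h3 : 2 ^ (-m) * t ≤ ε := by
    rw [zpow_neg, inv_mul_le_iff₀ hpos]; exact h2
  have e1 := h (2 ^ (-m) * t) (by positivity) h3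
  have e2 : (2 : ℝ) ^ m * (2 ^ (-m) * t) = t := by
    rw [← mul_assoc, ← zpow_add₀ (by norm_num), add_neg_cancel, zpow_zero, one_mul]
  rw [e2] at e1
  rw [RelIso.inv_apply_self, ← e1, RelIso.inv_apply_self]

lemma LG.unique {f : ℝ ≃o ℝ} {y : ℝ} {m m' : ℤ} (h : LG f y m) (h' : LG f y m') : m = m' := by
  obtain ⟨ε, hε, h⟩ := h
  obtain ⟨ε', hε', h'⟩ := h'
  have hpos : 0 < min ε ε' := lt_min hε hε'
  have e1 := h _ hpos.le (min_le_left _ _)
  have e2 := h' _ hpos.le (min_le_right _ _)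
  rw [e1] at e2
  have e3 : (2 : ℝ) ^ m * min ε ε' = 2 ^ m' * min ε ε' := by linarith
  have e4 := mul_right_cancel₀ hpos.ne' e3
  exact zpow_right_injective₀ (show (0 : ℝ) < 2 by norm_num) (by norm_num) e4

lemma LG.congr {f g : ℝ ≃o ℝ} {y y' : ℝ} {m : ℤ} (h : LG f y m) (hy : y' < y)
    (hfg : ∀ z, y' < z → z ≤ y → g z = f z) : LG g y m := by
  obtain ⟨ε, hε, h⟩ := h
  refine ⟨min ε ((y - y') / 2), lt_min hε (by linarith), fun t h1 h2 => ?_⟩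
  have h3 := h2.trans (min_le_right _ _)
  rw [hfg y hy le_rfl, hfg _ (by linarith) (by linarith)]
  exact h t h1 (h2.trans (min_le_left _ _))

lemma LG.one (y : ℝ) : LG 1 y 0 :=
  ⟨1, one_pos, fun t _ _ => by simp⟩

lemma LG.aff (n : ℤ) (c y : ℝ) : LG (aff n c) y n :=
  ⟨1, one_pos, fun t _ _ => by rw [aff_apply, aff_apply]; ring⟩

/-- Locally controlled order automorphisms. -/
def Kloc (d : Dat A) : Subgroup (ℝ ≃o ℝ) where
  carrier := {f | ∀ y, (∃ γ, RG d f y γ) ∧ (∃ m, LG f y m)}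
  mul_mem' := by
    intro g f hg hf y
    obtain ⟨⟨γ, h1⟩, ⟨m, h2⟩⟩ := hf y
    obtain ⟨⟨γ', h1'⟩, ⟨m', h2'⟩⟩ := hg (f y)
    exact ⟨⟨_, h1.mul h1'⟩, ⟨_, h2.mul h2'⟩⟩
  one_mem' := fun y => ⟨⟨_, RG.one y⟩, ⟨_, LG.one y⟩⟩
  inv_mem' := by
    intro f hf y
    obtain ⟨⟨γ, h1⟩, ⟨m, h2⟩⟩ := hf (f⁻¹ y)
    have e := RelIso.apply_inv_self f y
    have h1' := h1.inv
    have h2' := h2.inv
    rw [e] at h1' h2'
    exact ⟨⟨_, h1'⟩, ⟨_, h2'⟩⟩

lemma aff_mem (n : ℤ) (c : ℝ) : aff n c ∈ Kloc d := fun y => ⟨⟨_, RG.aff n c y⟩, ⟨_, LG.aff n c y⟩⟩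

lemma glue_mem {f g : ℝ ≃o ℝ} {y : ℝ} (h : f y = g y) (hf : f ∈ Kloc d) (hg : g ∈ Kloc d) :
    glue f g y h ∈ Kloc d := by
  intro z
  constructor
  · rcases lt_or_ge z y with hz | hz
    · obtain ⟨γ, h1⟩ := (hf z).1
      exact ⟨γ, h1.congr hz (fun w _ hw => glue_le h hw.le)⟩
    · obtain ⟨γ, h1⟩ := (hg z).1
      exact ⟨γ, h1.congr (show z < z + 1 by linarith) (fun w hw _ => glue_ge h (hz.trans hw))⟩
  · rcases le_or_gt z y with hz | hz
    · obtain ⟨m, h1⟩ := (hf z).2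
      exact ⟨m, h1.congr (show z - 1 < z by linarith) (fun w _ hw => glue_le h (hw.trans hz))⟩
    · obtain ⟨m, h1⟩ := (hg z).2
      exact ⟨m, h1.congr hz (fun w hw _ => glue_ge h hw.le)⟩

lemma bump_mem : bump ∈ Kloc d := by
  unfold bump
  exact glue_mem _ (glue_mem _ (glue_mem _ (one_mem _) (aff_mem _ _)) (aff_mem _ _)) (one_mem _)

end PL

end Pool.Agent.Helper134
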