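import Mathlib

set_option autoImplicit false

open scoped commutatorElement

namespace Pool.Agent.Helper134

/-- A group `K` acting on a chain `Ω` by order automorphisms with bounded support,
closed under gluing and transitive on intervals. -/
structure Sys (K Ω : Type) [Group K] [LinearOrder Ω] where
  act : K → Ω → Ω
  act_one : ∀ x, act 1 x = x
  act_mul : ∀ f g x, act (f * g) x = act f (act g x)
  act_lt : ∀ f {x y}, x < y → act f x < act f y
  faithful : ∀ f, (∀ x, act f x = x) → f = 1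
  bdd : ∀ f, ∃ a b, a < b ∧ (∀ z, z ≤ a → act f z = z) ∧ (∀ z, b ≤ z → act f z = z)
  glue : ∀ f g x, act f x = act g x →
    ∃ k, (∀ z, z ≤ x → act k z = act f z) ∧ (∀ z, x ≤ z → act k z = act g z)
  trans : ∀ a b a' b', a < b → a' < b' → ∃ k, act k a = a' ∧ act k b = b'

namespace Sys

variable {K Ω : Type} [Group K] [LinearOrder Ω]

/-- The same group acting on the reversed chain. -/
def dual (S : Sys K Ω) : Sys K Ωᵒᵈ where
  act := S.act
  act_one := S.act_one
  act_mul := S.act_mul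
  act_lt := fun f _ _ h => S.act_lt f h
  faithful := S.faithful
  bdd := fun f => by
    obtain ⟨a, b, hab, h1, h2⟩ := S.bdd f
    exact ⟨b, a, hab, h2, h1⟩
  glue := fun f g x h => by
    obtain ⟨k, h1, h2⟩ := S.glue g f x h.symm
    exact ⟨k, h2, h1⟩
  trans := fun a b a' b' h h' => by
    obtain ⟨k, h1, h2⟩ := S.trans b a b' a' h h'
    exact ⟨k, h2, h1⟩

variable (S : Sys K Ω)

lemma act_inv_act (f : K) (x : Ω) : S.act f⁻¹ (S.act f x) = x := by
  rw [← S.act_mul, inv_mul_cancel, S.act_one]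

lemma act_act_inv (f : K) (x : Ω) : S.act f (S.act f⁻¹ x) = x := by
  rw [← S.act_mul, mul_inv_cancel, S.act_one]

lemma act_inj (f : K) {x y : Ω} (h : S.act f x = S.act f y) : x = y := by
  rw [← S.act_inv_act f x, h, S.act_inv_act]

lemma act_lt_iff (f : K) {x y : Ω} : S.act f x < S.act f y ↔ x < y := by
  constructor
  · intro h
    have := S.act_lt f⁻¹ h
    rwa [act_inv_act, act_inv_act] at this
  · exact fun h => S.act_lt f h

lemma act_le (f : K) {x y : Ω} (h : x ≤ y) : S.act f x ≤ S.act f y := by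
  rcases h.lt_or_eq with h | h
  · exact (S.act_lt f h).le
  · rw [h]

lemma act_le_iff (f : K) {x y : Ω} : S.act f x ≤ S.act f y ↔ x ≤ y := by
  constructor
  · intro h
    have := S.act_le f⁻¹ h
    rwa [act_inv_act, act_inv_act] at this
  · exact fun h => S.act_le f h

lemma ext {f g : K} (h : ∀ x, S.act f x = S.act g x) : f = g := by
  have : f⁻¹ * g = 1 := by
    apply S.faithful
    intro x
    rw [S.act_mul, ← h x, S.act_inv_act]
  exact (inv_mul_eq_one.mp this)

/-- `e` is supported in the interval `[a, b]`. -/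
def Supp (e : K) (a b : Ω) : Prop :=
  (∀ z, z ≤ a → S.act e z = z) ∧ (∀ z, b ≤ z → S.act e z = z)

variable {S}

lemma Supp.mono {e : K} {a b a' b' : Ω} (h : S.Supp e a b) (ha : a' ≤ a) (hb : b ≤ b') :
    S.Supp e a' b' :=
  ⟨fun z hz => h.1 z (hz.trans ha), fun z hz => h.2 z (hb.trans hz)⟩

lemma Supp.inter {e : K} {a b a' b' : Ω} (h : S.Supp e a b) (h' : S.Supp e a' b') :
    S.Supp e (max a a') (min b b') := by
  refine ⟨fun z hz => ?_, fun z hz => ?_⟩
  · rcases le_max_iff.mp hz with h1 | h1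
    · exact h.1 z h1
    · exact h'.1 z h1
  · rcases min_le_iff.mp hz with h1 | h1
    · exact h.2 z h1
    · exact h'.2 z h1

lemma Supp.inv {e : K} {a b : Ω} (h : S.Supp e a b) : S.Supp e⁻¹ a b := by
  refine ⟨fun z hz => ?_, fun z hz => ?_⟩
  · conv_lhs => rw [← h.1 z hz, S.act_inv_act]
  · conv_lhs => rw [← h.2 z hz, S.act_inv_act]

lemma Supp.mul {e f : K} {a b : Ω} (h : S.Supp e a b) (h' : S.Supp f a b) :
    S.Supp (e * f) a b := by
  refine ⟨fun z hz => ?_, fun z hz => ?_⟩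
  · rw [S.act_mul, h'.1 z hz, h.1 z hz]
  · rw [S.act_mul, h'.2 z hz, h.2 z hz]

lemma Supp.conj {e : K} {a b : Ω} (h : S.Supp e a b) (k : K) :
    S.Supp (k * e * k⁻¹) (S.act k a) (S.act k b) := by
  refine ⟨fun z hz => ?_, fun z hz => ?_⟩
  · rw [S.act_mul, S.act_mul, h.1, S.act_act_inv]
    rw [← S.act_le_iff k, S.act_act_inv]; exact hz
  · rw [S.act_mul, S.act_mul, h.2, S.act_act_inv]
    rw [← S.act_le_iff k, S.act_act_inv]; exact hz

lemma Supp.one (a b : Ω) : S.Supp 1 a b := ⟨fun z _ => S.act_one z, fun z _ => S.act_one z⟩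

lemma Supp.pow {e : K} {a b : Ω} (h : S.Supp e a b) (n : ℕ) : S.Supp (e ^ n) a b := by
  induction n with
  | zero => rw [pow_zero]; exact Supp.one a b
  | succ n ih => rw [pow_succ]; exact ih.mul h

/-- An element fixing `[a, b]` pointwise commutes with an element supported in `[a, b]`. -/
lemma Supp.commute_of_fix {e h : K} {a b : Ω} (hab : a ≤ b) (he : S.Supp e a b)
    (hh : ∀ z, a ≤ z → z ≤ b → S.act h z = z) : h * e = e * h := by
  apply S.ext
  intro z
  rw [S.act_mul, S.act_mul]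
  have hha := hh a le_rfl hab
  have hhb := hh b hab le_rfl
  have hea := he.1 a le_rfl
  have heb := he.2 b le_rfl
  by_cases h1 : z ≤ a
  · have : S.act h z ≤ a := by
      have := S.act_le h h1; rwa [hha] at this
    rw [he.1 z h1, he.1 _ this]
  · by_cases h2 : b ≤ z
    · have : b ≤ S.act h z := by
        have := S.act_le h h2; rwa [hhb] at this
      rw [he.2 z h2, he.2 _ this]
    · push Not at h1 h2
      rw [hh z h1.le h2.le]
      apply hh
      · have := S.act_le e h1.le; rwa [hea] at this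
      · have := S.act_le e h2.le; rwa [heb] at this

lemma Supp.commute {e f : K} {a b c d : Ω} (hab : a ≤ b) (he : S.Supp e a b)
    (hf : S.Supp f c d) (hbc : b ≤ c) : f * e = e * f :=
  he.commute_of_fix hab (fun z _ hz => hf.1 z (hz.trans hbc))

variable (S)

/-- Local approximation by elements of the commutator subgroup. -/
lemma approx_le [NoMaxOrder Ω] (k : K) (d : Ω) :
    ∃ k' ∈ commutator K, ∀ z, z ≤ d → S.act k' z = S.act k z := by
  obtain ⟨a, b, hab, h1, h2⟩ := S.bdd k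
  obtain ⟨b1, hb1⟩ := exists_gt (max b d)
  have hlt : a < max b d := lt_of_lt_of_le hab (le_max_left _ _)
  obtain ⟨t, ht1, ht2⟩ := S.trans a (max b d) (max b d) b1 hlt hb1
  refine ⟨k * (t * k⁻¹ * t⁻¹), ?_, ?_⟩
  · have : k * (t * k⁻¹ * t⁻¹) = ⁅k, t⁆ := by rw [commutatorElement_def]; group
    rw [this, commutator_def]
    exact Subgroup.commutator_mem_commutator (Subgroup.mem_top _) (Subgroup.mem_top _)
  · intro z hz'
    rw [S.act_mul, S.act_mul, S.act_mul]
    have hz2 : S.act t⁻¹ z ≤ a := by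
      rw [← S.act_le_iff t, S.act_act_inv, ht1]
      exact hz'.trans (le_max_right _ _)
    have h3 : S.act k⁻¹ (S.act t⁻¹ z) = S.act t⁻¹ z := by
      conv_lhs => rw [← h1 _ hz2, S.act_inv_act]
    rw [h3, S.act_act_inv]

lemma approx [NoMaxOrder Ω] (k : K) (c d : Ω) :
    ∃ k' ∈ commutator K, ∀ z, c ≤ z → z ≤ d → S.act k' z = S.act k z := by
  obtain ⟨k', h1, h2⟩ := S.approx_le k d
  exact ⟨k', h1, fun z _ hz => h2 z hz⟩

include S in
/-- Conjugation by an element of `K` agrees with conjugation by an element of the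
commutator subgroup. -/
lemma conj_approx [NoMaxOrder Ω] (k g : K) :
    ∃ k' ∈ commutator K, k' * g * k'⁻¹ = k * g * k⁻¹ := by
  obtain ⟨a, b, hab, h1, h2⟩ := S.bdd g
  obtain ⟨k', hk', h3⟩ := S.approx k a b
  refine ⟨k', hk', ?_⟩
  have hg : S.Supp g a b := ⟨h1, h2⟩
  have hc : (k⁻¹ * k') * g = g * (k⁻¹ * k') := by
    apply hg.commute_of_fix hab.le
    intro z hz hz'
    rw [S.act_mul, h3 z hz hz', S.act_inv_act]
  have : k' * g = k * (g * (k⁻¹ * k')) := by rw [← hc]; group
  rw [this]; group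

/-- Pair homogeneity. -/
lemma pair_conj {e h h' : K} {a b : Ω} (hab : a < b) (he : S.Supp e a b)
    (h1 : b < S.act h a) (h2 : b < S.act h' a) :
    ∃ k, k * e * k⁻¹ = e ∧ k * (h * e * h⁻¹) * k⁻¹ = h' * e * h'⁻¹ := by
  obtain ⟨q, hq1, hq2⟩ := S.trans b (S.act h a) b (S.act h' a) h1 h2
  obtain ⟨k1, hk1, hk1'⟩ := S.glue 1 q b (by rw [S.act_one, hq1])
  obtain ⟨k, hk, hk'⟩ := S.glue k1 (h' * h⁻¹) (S.act h a) (by
    rw [hk1' _ h1.le, hq2, S.act_mul, S.act_inv_act])
  refine ⟨k, ?_, ?_⟩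
  · have : k * e = e * k := by
      apply he.commute_of_fix hab.le
      intro z _ hz
      rw [hk z (hz.trans h1.le), hk1 z hz, S.act_one]
    rw [this]; group
  · have : (h'⁻¹ * k * h) * e = e * (h'⁻¹ * k * h) := by
      apply he.commute_of_fix hab.le
      intro z hz _
      rw [S.act_mul, S.act_mul, hk' _ (S.act_le h hz), ← S.act_mul, ← S.act_mul]
      have : h'⁻¹ * (h' * h⁻¹) * h = 1 := by group
      rw [this, S.act_one]
    have h3 : k * (h * e * h⁻¹) * k⁻¹ = h' * ((h'⁻¹ * k * h) * e) * (h⁻¹ * k⁻¹) := by group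
    rw [h3, this]; group

/-- Homogeneity for an element left of another one. -/
lemma pair_conj_left {e v k k' : K} {a b c d : Ω} (hab : a < b) (hcd : c < d)
    (he : S.Supp e a b) (hv : S.Supp v c d)
    (h1 : S.act k b < c) (h2 : S.act k' b < c) :
    ∃ l, l * v * l⁻¹ = v ∧ l * (k * e * k⁻¹) * l⁻¹ = k' * e * k'⁻¹ := by
  obtain ⟨q, hq1, hq2⟩ := S.trans (S.act k b) c (S.act k' b) c h1 h2
  obtain ⟨k1, hk1, hk1'⟩ := S.glue q 1 c (by rw [S.act_one, hq2])
  obtain ⟨l, hl, hl'⟩ := S.glue (k' * k⁻¹) k1 (S.act k b) (by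
    rw [hk1 _ h1.le, hq1, S.act_mul, S.act_inv_act])
  refine ⟨l, ?_, ?_⟩
  · have : l * v = v * l := by
      apply hv.commute_of_fix hcd.le
      intro z hz _
      rw [hl' z (h1.le.trans hz), hk1' z hz, S.act_one]
    rw [this]; group
  · have : (k'⁻¹ * l * k) * e = e * (k'⁻¹ * l * k) := by
      apply he.commute_of_fix hab.le
      intro z _ hz
      rw [S.act_mul, S.act_mul, hl _ (S.act_le k hz), ← S.act_mul, ← S.act_mul]
      have : k'⁻¹ * (k' * k⁻¹) * k = 1 := by group
      rw [this, S.act_one]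
    have h3 : l * (k * e * k⁻¹) * l⁻¹ = k' * ((k'⁻¹ * l * k) * e) * (k⁻¹ * l⁻¹) := by group
    rw [h3, this]; group

lemma exists_far [NoMaxOrder Ω] (a b c : Ω) (hab : a < b) : ∃ h, c < S.act h a := by
  obtain ⟨c1, hc1⟩ := exists_gt c
  obtain ⟨c2, hc2⟩ := exists_gt c1
  obtain ⟨h, h1, _⟩ := S.trans a b c1 c2 hab hc2
  exact ⟨h, by rw [h1]; exact hc1⟩

lemma exists_far' [NoMinOrder Ω] (a b c : Ω) (hab : a < b) : ∃ h, S.act h b < c := by
  obtain ⟨c1, hc1⟩ := exists_lt c
  obtain ⟨c2, hc2⟩ := exists_lt c1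
  obtain ⟨h, _, h1⟩ := S.trans a b c2 c1 hab hc2
  exact ⟨h, by rw [h1]; exact hc1⟩

end Sys

end Pool.Agent.Helper134
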