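import Mathlib
import Pool.Agent.Helper134.Rigid

set_option autoImplicit false
set_option linter.unusedSectionVars false

open scoped commutatorElement

namespace Pool.Agent.Helper134

section OrderedGroup

variable {K : Type} [Group K] [PartialOrder K] [MulLeftMono K] [MulRightMono K]

lemma conj_le {x y : K} (k : K) (h : x ≤ y) : k * x * k⁻¹ ≤ k * y * k⁻¹ :=
  mul_le_mul_left (mul_le_mul_right h k) _

lemma conj_lt {x y : K} (k : K) (h : x < y) : k * x * k⁻¹ < k * y * k⁻¹ := by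
  refine lt_of_le_of_ne (conj_le k h.le) ?_
  intro h2
  apply h.ne
  have := congrArg (fun z => k⁻¹ * z * k) h2
  simpa [mul_assoc] using this

lemma conj_pow' (k x : K) (n : ℕ) : (k * x * k⁻¹) ^ n = k * x ^ n * k⁻¹ := by
  induction n with
  | zero => simp
  | succ n ih => rw [pow_succ, ih, pow_succ]; group

/-- The order is total on the commutator subgroup, and its positive cone lies there. -/
structure TotOn (K : Type) [Group K] [PartialOrder K] : Prop where
  pos : ∀ g : K, 1 < g → g ∈ commutator K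
  tot : ∀ g ∈ commutator K, g = 1 ∨ 1 < g ∨ g < 1

lemma TotOn.total (T : TotOn K) {x y : K} (hx : x ∈ commutator K) (hy : y ∈ commutator K) :
    x < y ∨ x = y ∨ y < x := by
  rcases T.tot (x⁻¹ * y) (mul_mem (inv_mem hx) hy) with h | h | h
  · right; left; exact inv_mul_eq_one.mp h
  · left
    have := mul_lt_mul_right h x
    simpa using this
  · right; right
    have := mul_lt_mul_right h x
    simpa using this

lemma TotOn.lt_of_pow (T : TotOn K) {x y : K} (hx : x ∈ commutator K) (hy : y ∈ commutator K)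
    {n : ℕ} (h : x ^ n < y ^ n) : x < y := by
  rcases T.total hx hy with h1 | h1 | h1
  · exact h1
  · rw [h1] at h; exact absurd h (lt_irrefl _)
  · exact absurd h (not_lt_of_ge (pow_le_pow_left' h1.le n))

lemma exists_pow_gt {m n N : ℕ} (hmn : m < n) : ∃ j : ℕ, N * m ^ j < n ^ j := by
  have hn : (0 : ℝ) < n := by exact_mod_cast (lt_of_le_of_lt (Nat.zero_le _) hmn)
  have h1 : (m : ℝ) / n < 1 := by
    rw [div_lt_one hn]; exact_mod_cast hmn
  obtain ⟨j, hj⟩ := exists_pow_lt_of_lt_one (show (0 : ℝ) < 1 / (N + 1) by positivity) h1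
  refine ⟨j, ?_⟩
  have h2 : ((m : ℝ) ^ j) * (N + 1) < n ^ j := by
    rw [div_pow, div_lt_div_iff₀ (by positivity) (by positivity)] at hj
    linarith
  have h3 : ((N * m ^ j : ℕ) : ℝ) < ((n ^ j : ℕ) : ℝ) := by
    push_cast
    have : (0 : ℝ) ≤ (m : ℝ) ^ j := by positivity
    nlinarith
  exact_mod_cast h3

end OrderedGroup

namespace Sys

variable {K Ω : Type} [Group K] [LinearOrder Ω] [DenselyOrdered Ω] [NoMaxOrder Ω] [NoMinOrder Ω]
  [PartialOrder K] [MulLeftMono K] [MulRightMono K] {S : Sys K Ω}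

lemma Supp.lt {e : K} {a b : Ω} (he : S.Supp e a b) (h1 : e ≠ 1) : a < b := by
  by_contra h
  push Not at h
  apply h1
  apply S.faithful
  intro x
  rcases le_total x a with hx | hx
  · exact he.1 x hx
  · exact he.2 x (h.trans hx)

lemma pair_conj' {e h h' : K} {a b a' b' : Ω} (h1 : e ≠ 1) (he : S.Supp e a b)
    (he' : S.Supp e a' b') (hb : b < S.act h a) (hb' : b' < S.act h' a') :
    ∃ k, k * e * k⁻¹ = e ∧ k * (h * e * h⁻¹) * k⁻¹ = h' * e * h'⁻¹ := by
  have h3 := he.inter he'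
  apply S.pair_conj (h3.lt h1) h3
  · exact lt_of_le_of_lt (min_le_left _ _) (lt_of_lt_of_le hb (S.act_le h (le_max_left _ _)))
  · exact lt_of_le_of_lt (min_le_right _ _) (lt_of_lt_of_le hb' (S.act_le h' (le_max_right _ _)))

variable (S)

/-- `e` dominates all its disjoint right translates. -/
def LT (e : K) : Prop := ∀ (a b : Ω) (h : K), S.Supp e a b → b < S.act h a →
  ∀ N : ℕ, (h * e * h⁻¹) ^ N < e

/-- `e` is dominated by all its disjoint right translates. -/
def RT (e : K) : Prop := ∀ (a b : Ω) (h : K), S.Supp e a b → b < S.act h a →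
  ∀ N : ℕ, e ^ N < h * e * h⁻¹

/-- `e` is equivalent to all its disjoint right translates. -/
def MT (e : K) : Prop := ∀ (a b : Ω) (h : K), S.Supp e a b → b < S.act h a →
  ∀ n m : ℕ, (m < n → (h * e * h⁻¹) ^ m < e ^ n) ∧ (n < m → e ^ n < (h * e * h⁻¹) ^ m)

variable {S}

lemma far_pow {h : K} {a b : Ω} (hab : a < b) (hb : b < S.act h a) :
    ∀ j : ℕ, b < S.act (h ^ (j + 1)) a := by
  intro j
  induction j with
  | zero => simpa using hb
  | succ j ih =>
    rw [pow_succ', S.act_mul]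
    exact hb.trans (S.act_lt h (hab.trans ih))

lemma chain_le {e h : K} {n m : ℕ} (H : e ^ n ≤ (h * e * h⁻¹) ^ m) :
    ∀ j : ℕ, e ^ (n ^ j) ≤ (h ^ j * e * (h ^ j)⁻¹) ^ (m ^ j) := by
  intro j
  induction j with
  | zero => simp
  | succ j ih =>
    calc e ^ (n ^ (j + 1)) = (e ^ (n ^ j)) ^ n := by rw [← pow_mul, pow_succ]
      _ ≤ ((h ^ j * e * (h ^ j)⁻¹) ^ (m ^ j)) ^ n := pow_le_pow_left' ih n
      _ = (h ^ j * e ^ n * (h ^ j)⁻¹) ^ (m ^ j) := by
          rw [← conj_pow' (h ^ j) e n, ← pow_mul, ← pow_mul, mul_comm]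
      _ ≤ (h ^ j * (h * e * h⁻¹) ^ m * (h ^ j)⁻¹) ^ (m ^ j) :=
          pow_le_pow_left' (conj_le _ H) _
      _ = (h ^ (j + 1) * e * (h ^ (j + 1))⁻¹) ^ (m ^ (j + 1)) := by
          rw [← conj_pow', ← pow_mul, pow_succ' m j]
          congr 1
          rw [pow_succ]; group

lemma chain_ge {e h : K} {n m : ℕ} (H : (h * e * h⁻¹) ^ m ≤ e ^ n) :
    ∀ j : ℕ, (h ^ j * e * (h ^ j)⁻¹) ^ (m ^ j) ≤ e ^ (n ^ j) := by
  intro j
  induction j with
  | zero => simp
  | succ j ih =>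
    calc (h ^ (j + 1) * e * (h ^ (j + 1))⁻¹) ^ (m ^ (j + 1))
        = (h ^ j * (h * e * h⁻¹) ^ m * (h ^ j)⁻¹) ^ (m ^ j) := by
          rw [← conj_pow', ← pow_mul, pow_succ' m j]
          congr 1
          rw [pow_succ]; group
      _ ≤ (h ^ j * e ^ n * (h ^ j)⁻¹) ^ (m ^ j) := pow_le_pow_left' (conj_le _ H) _
      _ = ((h ^ j * e * (h ^ j)⁻¹) ^ (m ^ j)) ^ n := by
          rw [← conj_pow' (h ^ j) e n, ← pow_mul, ← pow_mul, mul_comm]
      _ ≤ (e ^ (n ^ j)) ^ n := pow_le_pow_left' ih n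
      _ = e ^ (n ^ (j + 1)) := by rw [← pow_mul, pow_succ]

lemma ne_one_of_pos {e : K} (he : 1 < e) : e ≠ 1 := he.ne'

/-- Transfer of inequalities between disjoint right translates. -/
lemma transfer_lt {e h h' : K} {a b a' b' : Ω} (h1 : e ≠ 1) (he : S.Supp e a b)
    (he' : S.Supp e a' b') (hb : b < S.act h a) (hb' : b' < S.act h' a') {n m : ℕ}
    (H : e ^ n < (h * e * h⁻¹) ^ m) : e ^ n < (h' * e * h'⁻¹) ^ m := by
  obtain ⟨k, hk1, hk2⟩ := pair_conj' h1 he he' hb hb'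
  have := conj_lt k H
  rwa [← conj_pow', ← conj_pow', hk1, hk2] at this

lemma transfer_gt {e h h' : K} {a b a' b' : Ω} (h1 : e ≠ 1) (he : S.Supp e a b)
    (he' : S.Supp e a' b') (hb : b < S.act h a) (hb' : b' < S.act h' a') {n m : ℕ}
    (H : (h * e * h⁻¹) ^ m < e ^ n) : (h' * e * h'⁻¹) ^ m < e ^ n := by
  obtain ⟨k, hk1, hk2⟩ := pair_conj' h1 he he' hb hb'
  have := conj_lt k H
  rwa [← conj_pow', ← conj_pow', hk1, hk2] at this

lemma transfer_le {e h h' : K} {a b a' b' : Ω} (h1 : e ≠ 1) (he : S.Supp e a b)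
    (he' : S.Supp e a' b') (hb : b < S.act h a) (hb' : b' < S.act h' a') {n m : ℕ}
    (H : e ^ n ≤ (h * e * h⁻¹) ^ m) : e ^ n ≤ (h' * e * h'⁻¹) ^ m := by
  obtain ⟨k, hk1, hk2⟩ := pair_conj' h1 he he' hb hb'
  have := conj_le k H
  rwa [← conj_pow', ← conj_pow', hk1, hk2] at this

lemma transfer_ge {e h h' : K} {a b a' b' : Ω} (h1 : e ≠ 1) (he : S.Supp e a b)
    (he' : S.Supp e a' b') (hb : b < S.act h a) (hb' : b' < S.act h' a') {n m : ℕ}
    (H : (h * e * h⁻¹) ^ m ≤ e ^ n) : (h' * e * h'⁻¹) ^ m ≤ e ^ n := by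
  obtain ⟨k, hk1, hk2⟩ := pair_conj' h1 he he' hb hb'
  have := conj_le k H
  rwa [← conj_pow', ← conj_pow', hk1, hk2] at this

lemma conj_mem {e : K} (k : K) (he : e ∈ commutator K) : k * e * k⁻¹ ∈ commutator K :=
  (inferInstance : (commutator K).Normal).conj_mem e he k

/-- The trichotomy of types. -/
lemma trichotomy (S : Sys K Ω) (T : TotOn K) {e : K} (he : 1 < e) : S.LT e ∨ S.RT e ∨ S.MT e := by
  have heC := T.pos e he
  by_cases hR : ∃ (a b : Ω) (h : K) (n m : ℕ), S.Supp e a b ∧ b < S.act h a ∧ m < n ∧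
      e ^ n ≤ (h * e * h⁻¹) ^ m
  · right; left
    obtain ⟨a, b, h, n, m, hs, hb, hmn, H⟩ := hR
    intro a' b' h' hs' hb' N
    obtain ⟨j, hj⟩ := exists_pow_gt (N := N) hmn
    have h1 := chain_le H j
    have hj0 : j ≠ 0 ∨ j = 0 := by tauto
    rcases j with _ | j
    · simp at hj
      subst hj
      rw [pow_zero]
      have := conj_lt h' he
      simpa using this
    · have h2 := far_pow (hs.lt he.ne') hb j
      have h3 : e ^ (N * m ^ (j + 1)) < e ^ (n ^ (j + 1)) :=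
        pow_lt_pow_right' he hj
      have h4 := lt_of_lt_of_le h3 h1
      rw [pow_mul] at h4
      have h5 : (e ^ N) < h ^ (j + 1) * e * (h ^ (j + 1))⁻¹ :=
        T.lt_of_pow (pow_mem heC N) (conj_mem _ heC) h4
      have h6 : e ^ N < (h ^ (j + 1) * e * (h ^ (j + 1))⁻¹) ^ 1 := by rwa [pow_one]
      have h7 := transfer_lt he.ne' hs hs' h2 hb' h6
      rwa [pow_one] at h7
  by_cases hL : ∃ (a b : Ω) (h : K) (n m : ℕ), S.Supp e a b ∧ b < S.act h a ∧ n < m ∧
      (h * e * h⁻¹) ^ m ≤ e ^ n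
  · left
    obtain ⟨a, b, h, n, m, hs, hb, hmn, H⟩ := hL
    intro a' b' h' hs' hb' N
    obtain ⟨j, hj⟩ := exists_pow_gt (N := N) hmn
    have h1 := chain_ge H j
    rcases j with _ | j
    · simp at hj
      subst hj
      rw [pow_zero]
      exact he
    · have h2 := far_pow (hs.lt he.ne') hb j
      have hpos : 1 < h ^ (j + 1) * e * (h ^ (j + 1))⁻¹ := by
        have := conj_lt (h ^ (j + 1)) he
        simpa using this
      have h3 : (h ^ (j + 1) * e * (h ^ (j + 1))⁻¹) ^ (N * n ^ (j + 1)) <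
          (h ^ (j + 1) * e * (h ^ (j + 1))⁻¹) ^ (m ^ (j + 1)) :=
        pow_lt_pow_right' hpos hj
      have h4 := lt_of_lt_of_le h3 h1
      rw [pow_mul] at h4
      have h5 : (h ^ (j + 1) * e * (h ^ (j + 1))⁻¹) ^ N < e :=
        T.lt_of_pow (pow_mem (conj_mem _ heC) N) heC h4
      have h6 : (h ^ (j + 1) * e * (h ^ (j + 1))⁻¹) ^ N < e ^ 1 := by rwa [pow_one]
      have h7 := transfer_gt he.ne' hs hs' h2 hb' h6
      rwa [pow_one] at h7
  · right; right
    intro a b h hs hb n m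
    constructor
    · intro hmn
      rcases T.total (pow_mem (conj_mem h heC) m) (pow_mem heC n) with h1 | h1 | h1
      · exact h1
      · exact absurd ⟨a, b, h, n, m, hs, hb, hmn, h1.ge⟩ hR
      · exact absurd ⟨a, b, h, n, m, hs, hb, hmn, h1.le⟩ hR
    · intro hmn
      rcases T.total (pow_mem (conj_mem h heC) m) (pow_mem heC n) with h1 | h1 | h1
      · exact absurd ⟨a, b, h, n, m, hs, hb, hmn, h1.le⟩ hL
      · exact absurd ⟨a, b, h, n, m, hs, hb, hmn, h1.le⟩ hL
      · exact h1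

end Sys

end Pool.Agent.Helper134
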