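import Mathlib
import Pool.Agent.Helper134.Rigid2

set_option autoImplicit false
set_option linter.unusedSectionVars false

open scoped commutatorElement

namespace Pool.Agent.Helper134

namespace Sys

variable {K Ω : Type} [Group K] [LinearOrder Ω] [DenselyOrdered Ω] [NoMaxOrder Ω] [NoMinOrder Ω]
  [PartialOrder K] [MulLeftMono K] [MulRightMono K] {S : Sys K Ω}

/-- Elements infinitesimal with respect to `e`. -/
def Inf (e : K) : Set K :=
  {x | x ∈ commutator K ∧ ∀ N : ℕ, x ^ N < e ∧ (x⁻¹) ^ N < e}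

lemma inf_one {e : K} (he : 1 < e) : (1 : K) ∈ Inf e :=
  ⟨one_mem _, fun N => by simpa using he⟩

lemma inf_inv {e x : K} (h : x ∈ Inf e) : x⁻¹ ∈ Inf e :=
  ⟨inv_mem h.1, fun N => ⟨(h.2 N).2, by rw [inv_inv]; exact (h.2 N).1⟩⟩

lemma mul_pow_lt (T : TotOn K) {e x y : K} (he : 1 < e) (hx : x ∈ commutator K)
    (hy : y ∈ commutator K)
    (h1 : ∀ N : ℕ, x ^ N < e) (h2 : ∀ N : ℕ, y ^ N < e) (N : ℕ) : (x * y) ^ N < e := by
  have key : ∃ z : K, x ≤ z ∧ y ≤ z ∧ ∀ N : ℕ, z ^ N < e := by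
    rcases T.total hx hy with h | h | h
    · exact ⟨y, h.le, le_rfl, h2⟩
    · exact ⟨y, h.le, le_rfl, h2⟩
    · exact ⟨x, le_rfl, h.le, h1⟩
  obtain ⟨z, hz1, hz2, hz3⟩ := key
  calc (x * y) ^ N ≤ (z * z) ^ N := pow_le_pow_left' (mul_le_mul' hz1 hz2) N
    _ = z ^ (2 * N) := by rw [← pow_two, ← pow_mul]
    _ < e := hz3 _

lemma inf_mul (T : TotOn K) {e x y : K} (he : 1 < e) (h : x ∈ Inf e) (h' : y ∈ Inf e) :
    x * y ∈ Inf e := by
  refine ⟨mul_mem h.1 h'.1, fun N => ⟨?_, ?_⟩⟩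
  · exact mul_pow_lt T he h.1 h'.1 (fun N => (h.2 N).1) (fun N => (h'.2 N).1) N
  · rw [mul_inv_rev]
    exact mul_pow_lt T he (inv_mem h'.1) (inv_mem h.1) (fun N => (h'.2 N).2)
      (fun N => (h.2 N).2) N

/-- In type M all conjugates of `e` are below `e ^ 4`. -/
lemma mt_conj_lt {e : K} (he : 1 < e) (hM : S.MT e) (k : K) : k * e * k⁻¹ < e ^ 4 := by
  obtain ⟨a, b, hab, hs⟩ := S.bdd e
  obtain ⟨h, hh⟩ := S.exists_far a b (max b (S.act k b)) hab
  have hb1 : b < S.act h a := lt_of_le_of_lt (le_max_left _ _) hh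
  have hb2 : S.act k b < S.act h a := lt_of_le_of_lt (le_max_right _ _) hh
  have hb3 : b < S.act (k⁻¹ * h) a := by
    rw [S.act_mul, ← S.act_lt_iff k, S.act_act_inv]; exact hb2
  have h1 := (hM a b h hs hb1 2 1).1 (by norm_num)
  have h2 := (hM a b (k⁻¹ * h) hs hb3 1 2).2 (by norm_num)
  have h3 := conj_lt k h2
  have h4 : k * (k⁻¹ * h * e * (k⁻¹ * h)⁻¹) ^ 2 * k⁻¹ = (h * e * h⁻¹) ^ 2 := by
    rw [← conj_pow']; congr 1; group
  rw [h4, pow_one] at h3
  rw [pow_one] at h1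
  calc k * e * k⁻¹ < (h * e * h⁻¹) ^ 2 := h3
    _ ≤ (e ^ 2) ^ 2 := pow_le_pow_left' h1.le 2
    _ = e ^ 4 := by rw [← pow_mul]

lemma inf_conj (T : TotOn K) {e x : K} (he : 1 < e) (hM : S.MT e) (k : K) (hx : x ∈ Inf e) :
    k * x * k⁻¹ ∈ Inf e := by
  have heC := T.pos e he
  have key : ∀ y : K, y ∈ commutator K → (∀ N : ℕ, y ^ N < e) → ∀ N : ℕ,
      (k * y * k⁻¹) ^ N < e := by
    intro y hy hy2 N
    have h1 := conj_lt k (hy2 (N * 4))
    rw [← conj_pow', pow_mul] at h1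
    exact T.lt_of_pow (pow_mem (conj_mem k hy) N) heC (h1.trans (mt_conj_lt he hM k))
  refine ⟨conj_mem k hx.1, fun N => ⟨key x hx.1 (fun N => (hx.2 N).1) N, ?_⟩⟩
  have : (k * x * k⁻¹)⁻¹ = k * x⁻¹ * k⁻¹ := by group
  rw [this]
  exact key _ (inv_mem hx.1) (fun N => (hx.2 N).2) N

lemma mt_far (T : TotOn K) {e : K} (he : 1 < e) (hM : S.MT e) {a b : Ω} {h : K}
    (hs : S.Supp e a b) (hb : b < S.act h a) : e * (h * e * h⁻¹)⁻¹ ∈ Inf e := by
  have heC := T.pos e he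
  have hc : (h * e * h⁻¹) * e = e * (h * e * h⁻¹) :=
    hs.commute (hs.lt he.ne').le (hs.conj h) hb.le
  have hcc : Commute e (h * e * h⁻¹) := hc.symm
  refine ⟨mul_mem heC (inv_mem (conj_mem h heC)), fun N => ⟨?_, ?_⟩⟩
  · rw [hcc.inv_right.mul_pow, inv_pow]
    have h1 : e ^ N < e * (h * e * h⁻¹) ^ N := by
      rcases N with _ | N
      · simpa using he
      · have h2 := (hM a b h hs hb N (N + 1)).2 (Nat.lt_succ_self N)
        have h3 := mul_lt_mul_right h2 e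
        rwa [← pow_succ'] at h3
    have := mul_lt_mul_left h1 ((h * e * h⁻¹) ^ N)⁻¹
    simpa [mul_assoc] using this
  · rw [mul_inv_rev, inv_inv, (hcc.symm.inv_right).mul_pow, inv_pow]
    have h2 := (hM a b h hs hb (N + 1) N).1 (Nat.lt_succ_self N)
    have := mul_lt_mul_left h2 (e ^ N)⁻¹
    rw [pow_succ'] at this
    simpa [mul_assoc] using this

lemma mt_conj (T : TotOn K) {e : K} (he : 1 < e) (hM : S.MT e) (k : K) :
    (k * e * k⁻¹) * e⁻¹ ∈ Inf e := by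
  obtain ⟨a, b, hab, hs⟩ := S.bdd e
  have hs : S.Supp e a b := hs
  obtain ⟨h, hh⟩ := S.exists_far a b (max b (S.act k b)) hab
  have hb1 : b < S.act h a := lt_of_le_of_lt (le_max_left _ _) hh
  have hb2 : S.act k b < S.act h a := lt_of_le_of_lt (le_max_right _ _) hh
  have hb3 : b < S.act (k⁻¹ * h) a := by
    rw [S.act_mul, ← S.act_lt_iff k, S.act_act_inv]; exact hb2
  have h1 := mt_far T he hM hs hb1
  have h2 := inf_conj T he hM k (mt_far T he hM hs hb3)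
  have h3 := inf_mul T he h2 (inf_inv h1)
  have h4 : k * (e * (k⁻¹ * h * e * (k⁻¹ * h)⁻¹)⁻¹) * k⁻¹ * (e * (h * e * h⁻¹)⁻¹)⁻¹
      = (k * e * k⁻¹) * e⁻¹ := by group
  rwa [h4] at h3

/-- A nontrivial element moves some interval, inside any interval around a moved point,
off itself. -/
lemma exists_moved {e : K} {z l r : Ω} (hlz : l < z) (hzr : z < r) (hz : S.act e z ≠ z) :
    ∃ u w, l < u ∧ u < w ∧ w < r ∧ (w < S.act e u ∨ S.act e w < u) := by
  rcases lt_or_gt_of_ne hz with h | h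
  · obtain ⟨u, hu1, hu2⟩ := exists_between (max_lt h hlz)
    exact ⟨u, z, lt_of_le_of_lt (le_max_right _ _) hu1, hu2, hzr,
      Or.inr (lt_of_le_of_lt (le_max_left _ _) hu1)⟩
  · obtain ⟨w, hw1, hw2⟩ := exists_between (lt_min h hzr)
    exact ⟨z, w, hlz, hw1, lt_of_lt_of_le hw2 (min_le_right _ _),
      Or.inl (lt_of_lt_of_le hw2 (min_le_left _ _))⟩

lemma exists_moved_pt {e : K} (he : e ≠ 1) : ∃ z, S.act e z ≠ z := by
  by_contra h
  push Not at h
  exact he (S.faithful e h)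

lemma not_mt (T : TotOn K) {e : K} (he : 1 < e) : ¬ S.MT e := by
  intro hM
  obtain ⟨z, hz⟩ := exists_moved_pt (S := S) he.ne'
  obtain ⟨l, hl⟩ := exists_lt z
  obtain ⟨r, hr⟩ := exists_gt z
  obtain ⟨u, w, _, huw, _, hmv⟩ := exists_moved hl hr hz
  -- all commutators are infinitesimal
  have hcomm : ∀ p q : K, ⁅p, q⁆ ∈ Inf e := by
    intro p q
    obtain ⟨a1, b1, hab1, hp⟩ := S.bdd p
    obtain ⟨a2, b2, hab2, hq⟩ := S.bdd q
    have hp : S.Supp p a1 b1 := hp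
    have hq : S.Supp q a2 b2 := hq
    have hp' := hp.mono (min_le_left a1 a2) (le_max_left b1 b2)
    have hq' := hq.mono (min_le_right a1 a2) (le_max_right b1 b2)
    have hlt : min a1 a2 < max b1 b2 :=
      lt_of_le_of_lt (min_le_left _ _) (lt_of_lt_of_le hab1 (le_max_left _ _))
    obtain ⟨k, hk1, hk2⟩ := S.trans _ _ u w hlt huw
    have hP := hp'.conj k
    have hQ := hq'.conj k
    rw [hk1, hk2] at hP hQ
    set p' := k * p * k⁻¹ with hp'def
    set q' := k * q * k⁻¹ with hq'def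
    have hE : S.Supp (e * p'⁻¹ * e⁻¹) (S.act e u) (S.act e w) := hP.inv.conj e
    have hcq : (e * p'⁻¹ * e⁻¹) * q' = q' * (e * p'⁻¹ * e⁻¹) := by
      rcases hmv with h | h
      · exact hQ.commute huw.le hE h.le
      · exact (hE.commute (S.act_lt e huw).le hQ h.le).symm
    have hw1 : p' * (e * p'⁻¹ * e⁻¹) ∈ Inf e := by
      have := mt_conj T he hM p'
      have h2 : p' * e * p'⁻¹ * e⁻¹ = p' * (e * p'⁻¹ * e⁻¹) := by group
      rwa [h2] at this
    have h1 : ⁅p', q'⁆ = (p' * (e * p'⁻¹ * e⁻¹)) *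
        (q' * (p' * (e * p'⁻¹ * e⁻¹))⁻¹ * q'⁻¹) := by
      have h2 : q' * (p' * (e * p'⁻¹ * e⁻¹))⁻¹ * q'⁻¹
          = (q' * (e * p'⁻¹ * e⁻¹)⁻¹) * (p'⁻¹ * q'⁻¹) := by group
      have h3 : q' * (e * p'⁻¹ * e⁻¹)⁻¹ = (e * p'⁻¹ * e⁻¹)⁻¹ * q' := by
        have h4 : Commute (e * p'⁻¹ * e⁻¹) q' := hcq
        exact (h4.inv_left).eq.symm
      rw [h2, h3, commutatorElement_def]
      group
    have h5 : ⁅p', q'⁆ ∈ Inf e := by
      rw [h1]
      exact inf_mul T he hw1 (inf_conj T he hM q' (inf_inv hw1))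
    have h6 := inf_conj T he hM k⁻¹ h5
    have h7 : k⁻¹ * ⁅p', q'⁆ * k⁻¹⁻¹ = ⁅p, q⁆ := by
      rw [hp'def, hq'def, commutatorElement_def, commutatorElement_def]; group
    rwa [h7] at h6
  have hall : commutator K ≤
      { carrier := Inf e
        mul_mem' := fun h h' => inf_mul T he h h'
        one_mem' := inf_one he
        inv_mem' := fun h => inf_inv h : Subgroup K } := by
    rw [commutator_def, Subgroup.commutator_le]
    intro p _ q _
    exact hcomm p q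
  have := (hall (T.pos e he)).2 1
  simp at this

lemma LT_or_RT (T : TotOn K) {e : K} (he : 1 < e) : S.LT e ∨ S.RT e := by
  rcases S.trichotomy T he with h | h | h
  · exact Or.inl h
  · exact Or.inr h
  · exact absurd h (not_mt T he)

end Sys

end Pool.Agent.Helper134
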