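import Mathlib
import Pool.Agent.Helper134.Rigid3

set_option autoImplicit false
set_option linter.unusedSectionVars false

open scoped commutatorElement

namespace Pool.Agent.Helper134

namespace Sys

variable {K Ω : Type} [Group K] [LinearOrder Ω] [DenselyOrdered Ω] [NoMaxOrder Ω] [NoMinOrder Ω]
  [PartialOrder K] [MulLeftMono K] [MulRightMono K] {S : Sys K Ω}

lemma conj_pos {g : K} (k : K) (hg : 1 < g) : 1 < k * g * k⁻¹ := by
  have := conj_lt k hg
  simpa using this

/-- If `p > 1` is supported in an interval moved off itself by `g > 1` then `p < g ^ 2`. -/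
lemma moved_lt_sq (S : Sys K Ω) (T : TotOn K) {g p : K} {u w : Ω} (hg : 1 < g) (hp : 1 < p)
    (hs : S.Supp p u w) (hmv : w < S.act g u ∨ S.act g w < u) : p < g ^ 2 := by
  have huw := hs.lt hp.ne'
  have hy : 1 < g * p * g⁻¹ := conj_pos g hp
  have hsy := hs.conj g
  have hc : Commute p (g * p * g⁻¹) := by
    rcases hmv with h | h
    · exact (hs.commute huw.le hsy h.le).symm
    · exact hsy.commute (S.act_lt g huw).le hs h.le
  have key : (g * p * g⁻¹) ^ 2 < p ∨ p ^ 2 < g * p * g⁻¹ := by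
    rcases hmv with h | h
    · rcases LT_or_RT (S := S) T hp with h1 | h1
      · exact Or.inl (h1 u w g hs h 2)
      · exact Or.inr (h1 u w g hs h 2)
    · have hb : S.act g w < S.act g⁻¹ (S.act g u) := by rw [S.act_inv_act]; exact h
      have e1 : g⁻¹ * (g * p * g⁻¹) * g⁻¹⁻¹ = p := by group
      rcases LT_or_RT (S := S) T hy with h1 | h1
      · have := h1 _ _ g⁻¹ hsy hb 2
        rw [e1] at this
        exact Or.inr this
      · have := h1 _ _ g⁻¹ hsy hb 2
        rw [e1] at this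
        exact Or.inl this
  rcases key with h | h
  · have h1 : p < (p * (g * p * g⁻¹)⁻¹) ^ 2 := by
      rw [hc.inv_right.mul_pow, inv_pow]
      have h2 := mul_lt_mul_right h p
      have h3 := mul_lt_mul_left h2 ((g * p * g⁻¹) ^ 2)⁻¹
      rw [← pow_two] at h3
      simpa [mul_assoc] using h3
    have h2 : p * (g * p * g⁻¹)⁻¹ ≤ p * g * p⁻¹ := by
      have h3 : p * (g * p * g⁻¹)⁻¹ = (p * g * p⁻¹) * g⁻¹ := by group
      rw [h3]
      have h4 : g⁻¹ ≤ 1 := Left.inv_le_one_iff.mpr hg.le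
      have := mul_le_mul_right h4 (p * g * p⁻¹)
      simpa using this
    have h3 : p < p * g ^ 2 * p⁻¹ := by
      rw [← conj_pow']
      exact lt_of_lt_of_le h1 (pow_le_pow_left' h2 2)
    have h4 := conj_lt p⁻¹ h3
    have e1 : p⁻¹ * p * p⁻¹⁻¹ = p := by group
    have e2 : p⁻¹ * (p * g ^ 2 * p⁻¹) * p⁻¹⁻¹ = g ^ 2 := by group
    rwa [e1, e2] at h4
  · have h1 : g * p * g⁻¹ < ((g * p * g⁻¹) * p⁻¹) ^ 2 := by
      rw [(hc.symm.inv_right).mul_pow, inv_pow]
      have h2 := mul_lt_mul_right h (g * p * g⁻¹)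
      have h3 := mul_lt_mul_left h2 (p ^ 2)⁻¹
      rw [← pow_two] at h3
      rw [mul_assoc, mul_inv_cancel, mul_one] at h3
      exact h3
    have h2 : (g * p * g⁻¹) * p⁻¹ ≤ g := by
      have h3 : (g * p * g⁻¹) * p⁻¹ = g * (p * g⁻¹ * p⁻¹) := by group
      rw [h3]
      have h4 : g⁻¹ ≤ 1 := Left.inv_le_one_iff.mpr hg.le
      have h5 := conj_le p h4
      have h6 : p * g⁻¹ * p⁻¹ ≤ 1 := by simpa using h5
      have := mul_le_mul_right h6 g
      simpa using this
    have h3 : g * p * g⁻¹ < g ^ 2 := lt_of_lt_of_le h1 (pow_le_pow_left' h2 2)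
    have h4 : p < g * p * g⁻¹ := by
      have h5 : p ^ 1 ≤ p ^ 2 := pow_le_pow_right' hp.le (by norm_num)
      rw [pow_one] at h5
      exact lt_of_le_of_lt h5 h
    exact h4.trans h3

lemma conj_inv_lt {x y k : K} (h : k * x * k⁻¹ < y) : x < k⁻¹ * y * k := by
  have := conj_lt k⁻¹ h
  have e1 : k⁻¹ * (k * x * k⁻¹) * k⁻¹⁻¹ = x := by group
  have e2 : k⁻¹ * y * k⁻¹⁻¹ = k⁻¹ * y * k := by group
  rwa [e1, e2] at this

lemma lt_conj_inv {x y k : K} (h : y < k * x * k⁻¹) : k⁻¹ * y * k < x := by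
  have := conj_lt k⁻¹ h
  have e1 : k⁻¹ * (k * x * k⁻¹) * k⁻¹⁻¹ = x := by group
  have e2 : k⁻¹ * y * k⁻¹⁻¹ = k⁻¹ * y * k := by group
  rwa [e1, e2] at this

lemma left_ne {e v k : K} {a b c d : Ω} (hv1 : v ≠ 1)
    (he : S.Supp e a b) (hv : S.Supp v c d)
    (h1 : S.act k b < c) : k * e * k⁻¹ ≠ v := by
  intro h
  have h2 := he.conj k
  rw [h] at h2
  have h3 := (h2.inter hv).lt hv1
  have h4 : min (S.act k b) d ≤ S.act k b := min_le_left _ _
  have h5 : c ≤ max (S.act k a) c := le_max_right _ _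
  exact absurd (lt_of_le_of_lt h5 (lt_of_lt_of_le h3 h4)) (not_lt_of_gt h1)

/-- Dichotomy for comparing an element with another one to its right. -/
lemma left_dich (T : TotOn K) {e v : K} {a b c d : Ω} (he1 : 1 < e) (hv1 : 1 < v)
    (he : S.Supp e a b) (hv : S.Supp v c d) :
    (∀ k, S.act k b < c → k * e * k⁻¹ < v) ∨ (∀ k, S.act k b < c → v < k * e * k⁻¹) := by
  by_cases h : ∃ k, S.act k b < c ∧ k * e * k⁻¹ < v
  · left
    obtain ⟨k, hk, hk2⟩ := h
    intro k' hk'
    obtain ⟨l, hl1, hl2⟩ := S.pair_conj_left (he.lt he1.ne') (hv.lt hv1.ne') he hv hk hk'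
    have := conj_lt l hk2
    rwa [hl1, hl2] at this
  · right
    intro k hk
    push Not at h
    rcases T.total (conj_mem k (T.pos e he1)) (T.pos v hv1) with h1 | h1 | h1
    · exact absurd h1 (h k hk)
    · exact absurd h1 (left_ne hv1.ne' he hv hk)
    · exact h1

/-- All positive elements have the same type. -/
lemma not_LT_RT (S : Sys K Ω) (T : TotOn K) {e v : K} (he1 : 1 < e) (hv1 : 1 < v)
    (hL : S.LT e) (hR : S.RT v) : False := by
  obtain ⟨a, b, hab, hs⟩ := S.bdd e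
  have he : S.Supp e a b := hs
  obtain ⟨c, d, hcd, hs'⟩ := S.bdd v
  have hv : S.Supp v c d := hs'
  clear hs hs'
  rcases left_dich T he1 hv1 he hv with hα | hα <;>
  rcases left_dich T hv1 he1 hv he with hβ | hβ
  · -- e left of v smaller, v left of e smaller
    obtain ⟨k, hk⟩ := S.exists_far' a b c hab
    obtain ⟨l, hl⟩ := S.exists_far' c d a hcd
    have h1 := hα k hk
    have h2 := conj_inv_lt (hβ l hl)
    have h3 := h1.trans h2
    have h4 := conj_inv_lt h3
    have hh : b < S.act (k⁻¹ * l⁻¹) a := by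
      rw [S.act_mul]
      have h5 : d < S.act l⁻¹ a := by
        rw [← S.act_lt_iff l, S.act_act_inv]; exact hl
      have h6 : b < S.act k⁻¹ c := by
        rw [← S.act_lt_iff k, S.act_act_inv]; exact hk
      exact h6.trans (S.act_lt _ (hcd.trans h5))
    have h5 := hL a b (k⁻¹ * l⁻¹) he hh 1
    rw [pow_one] at h5
    have e1 : k⁻¹ * (l⁻¹ * e * l) * k = k⁻¹ * l⁻¹ * e * (k⁻¹ * l⁻¹)⁻¹ := by group
    rw [e1] at h4
    exact absurd h5 (not_lt_of_gt h4)
  · -- e < v in both positions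
    obtain ⟨z, hz⟩ := exists_moved_pt (S := S) he1.ne'
    have hza : a < z := by
      by_contra h; push Not at h; exact hz (he.1 z h)
    have hzb : z < b := by
      by_contra h; push Not at h; exact hz (he.2 z h)
    obtain ⟨u, w, hau, huw, hwb, hmv⟩ := exists_moved hza hzb hz
    obtain ⟨k', hk1, hk2⟩ := S.trans c d u w hcd huw
    have hv' := hv.conj k'
    rw [hk1, hk2] at hv'
    have h1 := S.moved_lt_sq T he1 (conj_pos k' hv1) hv' hmv
    obtain ⟨h, hh⟩ := S.exists_far' a b a hab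
    have hh' : b < S.act h⁻¹ a := by
      rw [← S.act_lt_iff h, S.act_act_inv]; exact hh
    have h2 := hL a b h⁻¹ he hh' 2
    have h3 : e ^ 2 < h * e * h⁻¹ := by
      have := conj_lt h h2
      rw [← conj_pow'] at this
      have e1 : h * (h⁻¹ * e * h⁻¹⁻¹) * h⁻¹ = e := by group
      rwa [e1] at this
    have h4 : S.act (k'⁻¹ * h) b < c := by
      rw [S.act_mul, ← S.act_lt_iff k', S.act_act_inv, hk1]
      exact hh.trans hau
    have h5 := hα _ h4
    have h6 := conj_lt k' h5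
    have e1 : k' * (k'⁻¹ * h * e * (k'⁻¹ * h)⁻¹) * k'⁻¹ = h * e * h⁻¹ := by group
    rw [e1] at h6
    exact absurd (h1.trans h3) (not_lt_of_gt h6)
  · -- v < e in both positions
    obtain ⟨z, hz⟩ := exists_moved_pt (S := S) hv1.ne'
    have hza : c < z := by
      by_contra h; push Not at h; exact hz (hv.1 z h)
    have hzb : z < d := by
      by_contra h; push Not at h; exact hz (hv.2 z h)
    obtain ⟨u, w, hau, huw, hwb, hmv⟩ := exists_moved hza hzb hz
    obtain ⟨k', hk1, hk2⟩ := S.trans a b u w hab huw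
    have he' := he.conj k'
    rw [hk1, hk2] at he'
    have h1 := S.moved_lt_sq T hv1 (conj_pos k' he1) he' hmv
    obtain ⟨h, hh⟩ := S.exists_far c d d hcd
    have h2 := hR c d h hv hh 2
    have h4 : S.act (h⁻¹ * k') b < c := by
      rw [S.act_mul, ← S.act_lt_iff h, S.act_act_inv, hk2]
      exact hwb.trans hh
    have h5 := hα _ h4
    have h6 := conj_lt h h5
    have e1 : h * (h⁻¹ * k' * e * (h⁻¹ * k')⁻¹) * h⁻¹ = k' * e * k'⁻¹ := by group
    rw [e1] at h6
    exact absurd (h1.trans h2) (not_lt_of_gt h6)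
  · -- left one is bigger: v would be of type L
    obtain ⟨k, hk⟩ := S.exists_far' a b c hab
    obtain ⟨l, hl⟩ := S.exists_far' c d a hcd
    have h1 := lt_conj_inv (hα k hk)
    have h2 := hβ l hl
    have h3 := h1.trans h2
    have h4 := lt_conj_inv h3
    have hh : d < S.act (l⁻¹ * k⁻¹) c := by
      rw [S.act_mul]
      have h5 : d < S.act l⁻¹ a := by
        rw [← S.act_lt_iff l, S.act_act_inv]; exact hl
      have h6 : b < S.act k⁻¹ c := by
        rw [← S.act_lt_iff k, S.act_act_inv]; exact hk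
      exact h5.trans (S.act_lt _ (hab.trans h6))
    have h5 := hR c d (l⁻¹ * k⁻¹) hv hh 1
    rw [pow_one] at h5
    have e1 : l⁻¹ * (k⁻¹ * v * k) * l = l⁻¹ * k⁻¹ * v * (l⁻¹ * k⁻¹)⁻¹ := by group
    rw [e1] at h4
    exact absurd h5 (not_lt_of_gt h4)

lemma all_LT_or_all_RT (S : Sys K Ω) (T : TotOn K) :
    (∀ e : K, 1 < e → S.LT e) ∨ (∀ e : K, 1 < e → S.RT e) := by
  by_cases h : ∃ e : K, 1 < e ∧ S.RT e
  · right
    obtain ⟨v, hv1, hv⟩ := h
    intro e he
    rcases LT_or_RT (S := S) T he with h1 | h1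
    · exact absurd (S.not_LT_RT T he hv1 h1 hv) not_false
    · exact h1
  · left
    intro e he
    rcases LT_or_RT (S := S) T he with h1 | h1
    · exact h1
    · exact absurd ⟨e, he, h1⟩ h

/-- Domination in type L. -/
lemma domin (S : Sys K Ω) (T : TotOn K) (hall : ∀ e : K, 1 < e → S.LT e) {g v : K} {c d z : Ω}
    (hg : 1 < g) (hv : 1 < v) (hs : S.Supp v c d) (hz : S.act g z ≠ z) (hzc : z < c) :
    v < g := by
  obtain ⟨l, hl⟩ := exists_lt z
  obtain ⟨u, w, hlu, huw, hwc, hmv⟩ := exists_moved hl hzc hz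
  have hcd := hs.lt hv.ne'
  obtain ⟨k, hk1, hk2⟩ := S.trans c d u w hcd huw
  have hp := hs.conj k
  rw [hk1, hk2] at hp
  have hpos := conj_pos k hv
  have h1 := S.moved_lt_sq T hg hpos hp hmv
  have hc : w < S.act k⁻¹ u := by rw [← hk1, S.act_inv_act]; exact hwc
  have h2 := hall _ hpos u w k⁻¹ hp hc 2
  have e1 : k⁻¹ * (k * v * k⁻¹) * k⁻¹⁻¹ = v := by group
  rw [e1] at h2
  exact T.lt_of_pow (T.pos v hv) (T.pos g hg) (h2.trans h1)

end Sys

end Pool.Agent.Helper134
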