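import Mathlib
import Pool.Agent.Helper134.Rigid4

set_option autoImplicit false
set_option linter.unusedSectionVars false

open scoped commutatorElement

namespace Pool.Agent.Helper134

/-- Positive cones of two-sided orders. -/
structure IsCone {G : Type} [Group G] (P : Set G) : Prop where
  mul : ∀ {a b}, a ∈ P → b ∈ P → a * b ∈ P
  conj : ∀ {a} (c : G), a ∈ P → c * a * c⁻¹ ∈ P
  one : (1 : G) ∉ P
  total : ∀ a, a = 1 ∨ a ∈ P ∨ a⁻¹ ∈ P

/-- Right germs. -/
structure GermR {K Ω : Type} [Group K] [LinearOrder Ω] (S : Sys K Ω) (Γ : Type) [Group Γ] where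
  D : K → Ω → Γ
  D_mul : ∀ f g x, D (f * g) x = D f (S.act g x) * D g x
  D_one_of_fix : ∀ f x y, x < y → (∀ z, x ≤ z → z ≤ y → S.act f z = z) → D f x = 1
  fix_of_D_one : ∀ f x, S.act f x = x → D f x = 1 →
    ∃ y, x < y ∧ ∀ z, x ≤ z → z ≤ y → S.act f z = z
  D_surj : ∀ x γ, ∃ f, (∀ z, z ≤ x → S.act f z = z) ∧ D f x = γ
  D_trans : ∀ x x', ∃ h, S.act h x = x' ∧ D h x = 1
  leftend : ∀ f, f ≠ 1 → ∃ a, (∀ z, z ≤ a → S.act f z = z) ∧ D f a ≠ 1

namespace GermR

variable {K Ω Γ : Type} [Group K] [LinearOrder Ω] [DenselyOrdered Ω] [NoMaxOrder Ω] [NoMinOrder Ω]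
  [Group Γ] {S : Sys K Ω} (g : GermR S Γ)

lemma D_one (x : Ω) : g.D 1 x = 1 := by
  have h := g.D_mul 1 1 x
  rw [mul_one, S.act_one] at h
  exact (mul_eq_left.mp h.symm)

lemma D_inv (f : K) (x : Ω) : g.D f⁻¹ (S.act f x) = (g.D f x)⁻¹ := by
  have h := g.D_mul f⁻¹ f x
  rw [inv_mul_cancel, g.D_one] at h
  exact (eq_inv_of_mul_eq_one_left h.symm)

/-- The cone of the commutator subgroup defined by a cone of the germ group. -/
def coneL (Q : Set Γ) : Set (commutator K) :=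
  {f | ∃ a, (∀ z, z ≤ a → S.act (f : K) z = z) ∧ g.D (f : K) a ∈ Q}

lemma coneL_isCone {Q : Set Γ} (hQ : IsCone Q) : IsCone (g.coneL Q) where
  mul := by
    rintro f h ⟨a, ha, hDa⟩ ⟨b, hb, hDb⟩
    rcases lt_trichotomy a b with hab | hab | hab
    · refine ⟨a, fun z hz => ?_, ?_⟩
      · rw [Subgroup.coe_mul, S.act_mul, hb z (hz.trans hab.le), ha z hz]
      · rw [Subgroup.coe_mul, g.D_mul, hb a hab.le,
          g.D_one_of_fix (h : K) a b hab (fun z _ hz => hb z hz), mul_one]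
        exact hDa
    · subst hab
      refine ⟨a, fun z hz => ?_, ?_⟩
      · rw [Subgroup.coe_mul, S.act_mul, hb z hz, ha z hz]
      · rw [Subgroup.coe_mul, g.D_mul, hb a le_rfl]
        exact hQ.mul hDa hDb
    · refine ⟨b, fun z hz => ?_, ?_⟩
      · rw [Subgroup.coe_mul, S.act_mul, hb z hz, ha z (hz.trans hab.le)]
      · rw [Subgroup.coe_mul, g.D_mul, hb b le_rfl,
          g.D_one_of_fix (f : K) b a hab (fun z _ hz => ha z hz), one_mul]
        exact hDb
  conj := by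
    rintro f c ⟨a, ha, hDa⟩
    refine ⟨S.act (c : K) a, fun z hz => ?_, ?_⟩
    · rw [Subgroup.coe_mul, Subgroup.coe_mul, S.act_mul, S.act_mul, Subgroup.coe_inv, ha,
        S.act_act_inv]
      rw [← S.act_le_iff (c : K), S.act_act_inv]; exact hz
    · rw [Subgroup.coe_mul, Subgroup.coe_mul, Subgroup.coe_inv, g.D_mul, g.D_mul,
        S.act_inv_act, ha a le_rfl, g.D_inv]
      exact hQ.conj _ hDa
  one := by
    rintro ⟨a, _, hDa⟩
    rw [Subgroup.coe_one, g.D_one] at hDa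
    exact hQ.one hDa
  total := by
    intro f
    by_cases hf : f = 1
    · exact Or.inl hf
    · right
      have hf' : (f : K) ≠ 1 := fun h => hf (Subtype.ext h)
      obtain ⟨a, ha, hDa⟩ := g.leftend f hf'
      rcases hQ.total (g.D (f : K) a) with h | h | h
      · exact absurd h hDa
      · exact Or.inl ⟨a, ha, h⟩
      · right
        refine ⟨a, fun z hz => ?_, ?_⟩
        · rw [Subgroup.coe_inv]
          conv_lhs => rw [← ha z hz, S.act_inv_act]
        · rw [Subgroup.coe_inv]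
          have := g.D_inv (f : K) a
          rw [ha a le_rfl] at this
          rw [this]; exact h

/-- The left end is unique. -/
lemma leftend_unique {f : K} {a b : Ω} (ha : ∀ z, z ≤ a → S.act f z = z) (hDa : g.D f a ≠ 1)
    (hb : ∀ z, z ≤ b → S.act f z = z) (hDb : g.D f b ≠ 1) : a = b := by
  rcases lt_trichotomy a b with h | h | h
  · exact absurd (g.D_one_of_fix f a b h (fun z _ hz => hb z hz)) hDa
  · exact h
  · exact absurd (g.D_one_of_fix f b a h (fun z _ hz => ha z hz)) hDb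

lemma exists_comm (x : Ω) (γ : Γ) :
    ∃ f ∈ commutator K, (∀ z, z ≤ x → S.act f z = z) ∧ g.D f x = γ := by
  obtain ⟨f, hf1, hf2⟩ := g.D_surj x γ
  obtain ⟨y, hy⟩ := exists_gt x
  obtain ⟨k, hk, hk2⟩ := S.approx_le f y
  refine ⟨k, hk, fun z hz => ?_, ?_⟩
  · rw [hk2 z (hz.trans hy.le), hf1 z hz]
  · have h1 : g.D (f⁻¹ * k) x = 1 := by
      apply g.D_one_of_fix _ x y hy
      intro z _ hz
      rw [S.act_mul, hk2 z hz, S.act_inv_act]
    have h2 : k = f * (f⁻¹ * k) := by group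
    rw [h2, g.D_mul, h1, mul_one, S.act_mul, hk2 x hy.le, S.act_inv_act]
    exact hf2

lemma coneL_injective {Q Q' : Set Γ} (hQ : IsCone Q) (hQ' : IsCone Q') [Nonempty Ω]
    (h : g.coneL Q = g.coneL Q') : Q = Q' := by
  have key : ∀ {Q Q' : Set Γ}, IsCone Q → IsCone Q' → g.coneL Q = g.coneL Q' → Q ⊆ Q' := by
    intro Q Q' hQ hQ' h γ hγ
    obtain ⟨x⟩ := ‹Nonempty Ω›
    obtain ⟨f, hf, hf1, hf2⟩ := g.exists_comm x γ
    have h1 : (⟨f, hf⟩ : commutator K) ∈ g.coneL Q := ⟨x, hf1, by rw [hf2]; exact hγ⟩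
    rw [h] at h1
    obtain ⟨a, ha, hDa⟩ := h1
    have hne : g.D f a ≠ 1 := fun h2 => hQ'.one (by rw [← h2]; exact hDa)
    have hne2 : g.D f x ≠ 1 := fun h2 => hQ.one (by rw [← h2, hf2]; exact hγ)
    have := g.leftend_unique ha hne hf1 hne2
    rw [← hf2, ← this]; exact hDa
  exact Set.Subset.antisymm (key hQ hQ' h) (key hQ' hQ h.symm)

section Ordered

variable [PartialOrder K] [MulLeftMono K] [MulRightMono K]

/-- The cone of the germ group induced by an order of type L. -/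
def coneQ : Set Γ :=
  {γ | γ ≠ 1 ∧ ∃ f : K, 1 < f ∧ ∃ a, (∀ z, z ≤ a → S.act f z = z) ∧ g.D f a = γ}

/-- Positivity is determined by the germ at the left end. -/
lemma pos_of_same_germ (T : TotOn K) (hall : ∀ e : K, 1 < e → S.LT e) {f f' : K} {a : Ω}
    (hf : 1 < f) (hf' : f' ∈ commutator K) (ha : ∀ z, z ≤ a → S.act f z = z)
    (ha' : ∀ z, z ≤ a → S.act f' z = z) (hD : g.D f a = g.D f' a) (hD1 : g.D f a ≠ 1) :
    1 < f' := by
  have hv : ∀ z, z ≤ a → S.act (f⁻¹ * f') z = z := by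
    intro z hz
    rw [S.act_mul, ha' z hz]
    conv_lhs => rw [← ha z hz, S.act_inv_act]
  have hDv : g.D (f⁻¹ * f') a = 1 := by
    rw [g.D_mul, ha' a le_rfl]
    have := g.D_inv f a
    rw [ha a le_rfl] at this
    rw [this, hD, inv_mul_cancel]
  obtain ⟨y, hay, hy⟩ := g.fix_of_D_one _ a (hv a le_rfl) hDv
  have hmem : f⁻¹ * f' ∈ commutator K := mul_mem (inv_mem (T.pos f hf)) hf'
  obtain ⟨c, d, hcd, hc, hd⟩ := S.bdd (f⁻¹ * f')
  have hsupp : S.Supp (f⁻¹ * f') y d := by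
    refine ⟨fun z hz => ?_, hd⟩
    rcases le_total z a with h | h
    · exact hv z h
    · exact hy z h hz
  -- a moved point of `f` between `a` and `y`
  have hmoved : ∃ z, z < y ∧ S.act f z ≠ z := by
    by_contra h
    push Not at h
    obtain ⟨m, ham, hmy⟩ := exists_between hay
    exact hD1 (g.D_one_of_fix f a m ham (fun z _ hz => h z (lt_of_le_of_lt hz hmy)))
  obtain ⟨z, hzy, hz⟩ := hmoved
  rcases T.tot _ hmem with h | h | h
  · have : f' = f := by
      have := inv_mul_eq_one.mp h; exact this.symm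
    rw [this]; exact hf
  · have := mul_lt_mul_right h f
    have h2 : f < f' := by simpa using this
    exact hf.trans h2
  · have hinv : 1 < (f⁻¹ * f')⁻¹ := Left.one_lt_inv_iff.mpr h
    have h2 := S.domin T hall hf hinv hsupp.inv hz hzy
    have h3 := mul_lt_mul_left h2 (f⁻¹ * f')
    rw [inv_mul_cancel] at h3
    have h4 : f * (f⁻¹ * f') = f' := by group
    rwa [h4] at h3

lemma pos_of_mem_coneQ (T : TotOn K) (hall : ∀ e : K, 1 < e → S.LT e) {f : K} {a : Ω}
    (hf : f ∈ commutator K) (ha : ∀ z, z ≤ a → S.act f z = z) (hD : g.D f a ∈ g.coneQ) :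
    1 < f := by
  obtain ⟨h1, f0, hf0, b, hb, hDb⟩ := hD
  obtain ⟨h, hh1, hh2⟩ := g.D_trans b a
  have h2 : 1 < h * f0 * h⁻¹ := Sys.conj_pos h hf0
  refine g.pos_of_same_germ (a := a) T hall h2 hf (fun z hz => ?_) ha ?_ ?_
  · rw [S.act_mul, S.act_mul, hb, S.act_act_inv]
    rw [← S.act_le_iff h, S.act_act_inv, hh1]; exact hz
  · rw [← hh1, g.D_mul, g.D_mul, S.act_inv_act, hb b le_rfl, g.D_inv, hh2, hDb, hh1]
    group
  · rw [← hh1, g.D_mul, g.D_mul, S.act_inv_act, hb b le_rfl, g.D_inv, hh2, hDb]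
    rw [one_mul, inv_one, mul_one, ← hh1] 
    simpa [hh1] using h1

end Ordered

end GermR

end Pool.Agent.Helper134
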