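import Mathlib
import Pool.Agent.Helper134.Rigid5
import Pool.Agent.Helper134.PL2

set_option autoImplicit false
set_option linter.unusedSectionVars false

namespace Pool.Agent.Helper134

/-- Orders correspond to cones. -/
theorem encard_orders (G : Type) [Group G] :
    {r : G → G → Prop | IsLinearOrder G r ∧
      ∀ a b c d : G, r a b → r (c * a * d) (c * b * d)}.encard
      = {P : Set G | IsCone P}.encard := by
  let F : Set G → (G → G → Prop) := fun P a b => a = b ∨ a⁻¹ * b ∈ P
  have hF : Set.InjOn F {P : Set G | IsCone P} := by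
    intro P hP Q hQ h
    have key : ∀ {P Q : Set G}, IsCone P → IsCone Q → F P = F Q → P ⊆ Q := by
      intro P Q hP hQ h a ha
      have h1 : F P 1 a := Or.inr (by simpa using ha)
      rw [h] at h1
      rcases h1 with h1 | h1
      · exfalso; apply hP.one; rw [h1]; exact ha
      · simpa using h1
    exact Set.Subset.antisymm (key hP hQ h) (key hQ hP h.symm)
  rw [← hF.encard_image]
  congr 1
  ext r
  constructor
  · rintro ⟨hr, hinv⟩
    refine ⟨{a | a ≠ 1 ∧ r 1 a}, ?_, ?_⟩
    · refine ⟨?_, ?_, ?_, ?_⟩
      · rintro a b ⟨ha, ha'⟩ ⟨hb, hb'⟩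
        have h1 : r a (a * b) := by
          have := hinv 1 b a 1 hb'
          simpa using this
        have h2 : r 1 (a * b) := hr.trans _ _ _ ha' h1
        refine ⟨fun h => ?_, h2⟩
        rw [h] at h1
        exact ha (hr.antisymm _ _ h1 ha')
      · rintro a c ⟨ha, ha'⟩
        refine ⟨fun h => ha ?_, ?_⟩
        · have := congrArg (fun t => c⁻¹ * t * c) h
          simpa [mul_assoc] using this
        · have := hinv 1 a c c⁻¹ ha'
          simpa using this
      · exact fun h => h.1 rfl
      · intro a
        by_cases ha : a = 1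
        · exact Or.inl ha
        · right
          rcases hr.total 1 a with h | h
          · exact Or.inl ⟨ha, h⟩
          · refine Or.inr ⟨fun h => ha (inv_eq_one.mp h), ?_⟩
            have := hinv a 1 a⁻¹ 1 h
            simpa using this
    · funext a b
      apply propext
      constructor
      · rintro (h | ⟨_, h⟩)
        · rw [h]; exact hr.refl b
        · have := hinv _ _ a 1 h
          simpa using this
      · intro h
        by_cases hab : a = b
        · exact Or.inl hab
        · refine Or.inr ⟨fun h1 => hab (inv_mul_eq_one.mp h1), ?_⟩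
          have := hinv _ _ a⁻¹ 1 h
          simpa using this
  · rintro ⟨P, hP, rfl⟩
    have hP : IsCone P := hP
    refine ⟨{ refl := fun a => Or.inl rfl, trans := ?_, antisymm := ?_, total := ?_ }, ?_⟩
    · rintro a b c (h | h) (h' | h')
      · exact Or.inl (h.trans h')
      · rw [h]; exact Or.inr h'
      · rw [← h']; exact Or.inr h
      · right
        have := hP.mul h h'
        simpa [mul_assoc] using this
    · rintro a b (h | h) (h' | h')
      · exact h
      · exact h
      · exact h'.symm
      · exfalso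
        have := hP.mul h h'
        apply hP.one
        simpa [mul_assoc] using this
    · intro a b
      rcases hP.total (a⁻¹ * b) with h | h | h
      · exact Or.inl (Or.inl (inv_mul_eq_one.mp h))
      · exact Or.inl (Or.inr h)
      · right; right
        simpa using h
    · rintro a b c d (h | h)
      · exact Or.inl (by rw [h])
      · right
        have := hP.conj d⁻¹ h
        have e : d⁻¹ * (a⁻¹ * b) * d⁻¹⁻¹ = (c * a * d)⁻¹ * (c * b * d) := by group
        rwa [e] at this

/-- The integers have exactly two orders. -/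
theorem encard_int : {Q : Set (Multiplicative ℤ) | IsCone Q}.encard = 2 := by
  let P1 : Set (Multiplicative ℤ) := {a | 0 < Multiplicative.toAdd a}
  let P2 : Set (Multiplicative ℤ) := {a | Multiplicative.toAdd a < 0}
  have h1 : IsCone P1 := by
    refine ⟨?_, ?_, ?_, ?_⟩
    · intro a b ha hb
      show 0 < Multiplicative.toAdd (a * b)
      rw [toAdd_mul]; exact add_pos ha hb
    · intro a c ha
      show 0 < Multiplicative.toAdd (c * a * c⁻¹)
      have : c * a * c⁻¹ = a := by rw [mul_comm c a]; group
      rw [this]; exact ha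
    · show ¬ (0 < Multiplicative.toAdd (1 : Multiplicative ℤ))
      simp
    · intro a
      rcases lt_trichotomy (Multiplicative.toAdd a) 0 with h | h | h
      · right; right
        show 0 < Multiplicative.toAdd a⁻¹
        rw [toAdd_inv]; omega
      · left; exact h
      · right; left; exact h
  have h2 : IsCone P2 := by
    refine ⟨?_, ?_, ?_, ?_⟩
    · intro a b ha hb
      show Multiplicative.toAdd (a * b) < 0
      rw [toAdd_mul]; exact add_neg ha hb
    · intro a c ha
      show Multiplicative.toAdd (c * a * c⁻¹) < 0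
      have : c * a * c⁻¹ = a := by rw [mul_comm c a]; group
      rw [this]; exact ha
    · show ¬ (Multiplicative.toAdd (1 : Multiplicative ℤ) < 0)
      simp
    · intro a
      rcases lt_trichotomy (Multiplicative.toAdd a) 0 with h | h | h
      · right; left; exact h
      · left; exact h
      · right; right
        show Multiplicative.toAdd a⁻¹ < 0
        rw [toAdd_inv]; omega
  have hne : P1 ≠ P2 := by
    intro h
    have : Multiplicative.ofAdd (1 : ℤ) ∈ P1 := by show (0 : ℤ) < 1; norm_num
    rw [h] at this
    have h3 : (1 : ℤ) < 0 := this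
    omega
  have hset : {Q : Set (Multiplicative ℤ) | IsCone Q} = {P1, P2} := by
    ext Q
    constructor
    · intro hQ
      have hQ : IsCone Q := hQ
      have hpow : ∀ (a : Multiplicative ℤ), a ∈ Q → ∀ n : ℕ, 0 < n → a ^ n ∈ Q := by
        intro a ha n hn
        induction n with
        | zero => omega
        | succ n ih =>
          rcases Nat.eq_zero_or_pos n with h | h
          · subst h; simpa using ha
          · rw [pow_succ]; exact hQ.mul (ih h) ha
      have hone : Multiplicative.ofAdd (1 : ℤ) ≠ 1 := by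
        intro h
        have : (1 : ℤ) = 0 := h
        omega
      rcases hQ.total (Multiplicative.ofAdd (1 : ℤ)) with h | h | h
      · exact absurd h hone
      · left
        have hsub : P1 ⊆ Q := by
          intro a ha
          have ha : 0 < Multiplicative.toAdd a := ha
          have e : a = (Multiplicative.ofAdd (1 : ℤ)) ^ (Multiplicative.toAdd a).toNat := by
            rw [← ofAdd_nsmul]
            have : (Multiplicative.toAdd a).toNat • (1 : ℤ) = Multiplicative.toAdd a := by
              simp; omega
            rw [this]; rfl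
          rw [e]
          exact hpow _ h _ (by omega)
        apply Set.Subset.antisymm _ hsub
        intro a ha
        rcases h1.total a with h3 | h3 | h3
        · rw [h3] at ha; exact absurd ha hQ.one
        · exact h3
        · exfalso
          have := hQ.mul ha (hsub h3)
          rw [mul_inv_cancel] at this
          exact hQ.one this
      · right
        have hsub : P2 ⊆ Q := by
          intro a ha
          have ha : Multiplicative.toAdd a < 0 := ha
          have e : a = ((Multiplicative.ofAdd (1 : ℤ))⁻¹) ^ (-Multiplicative.toAdd a).toNat := by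
            rw [← ofAdd_neg, ← ofAdd_nsmul]
            have : (-Multiplicative.toAdd a).toNat • (-1 : ℤ) = Multiplicative.toAdd a := by
              simp; omega
            rw [this]; rfl
          rw [e]
          exact hpow _ h _ (by omega)
        apply Set.Subset.antisymm _ hsub
        intro a ha
        rcases h2.total a with h3 | h3 | h3
        · rw [h3] at ha; exact absurd ha hQ.one
        · exact h3
        · exfalso
          have := hQ.mul ha (hsub h3)
          rw [mul_inv_cancel] at this
          exact hQ.one this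
    · rintro (h | h)
      · rw [h]; exact h1
      · rw [h]; exact h2
  rw [hset, Set.encard_pair hne]

section Affine

variable {A : Type} [CommRing A] (x : Aˣ)

/-- Additive cones invariant under a unit. -/
structure IsACone (P : Set A) : Prop where
  add : ∀ {a b}, a ∈ P → b ∈ P → a + b ∈ P
  smul : ∀ {a}, a ∈ P → (x : A) * a ∈ P
  smul' : ∀ {a}, a ∈ P → ((x⁻¹ : Aˣ) : A) * a ∈ P
  zero : (0 : A) ∉ P
  total : ∀ a, a = 0 ∨ a ∈ P ∨ -a ∈ P

variable {x}

lemma IsACone.zpow {P : Set A} (hP : IsACone x P) (m : ℤ) {a : A} (ha : a ∈ P) :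
    ((x ^ m : Aˣ) : A) * a ∈ P := by
  have h1 : ∀ n : ℕ, ((x ^ n : Aˣ) : A) * a ∈ P := by
    intro n
    induction n with
    | zero => simpa using ha
    | succ n ih =>
      have := hP.smul ih
      rw [pow_succ', Units.val_mul, mul_assoc]; exact this
  have h2 : ∀ n : ℕ, ((x⁻¹ ^ n : Aˣ) : A) * a ∈ P := by
    intro n
    induction n with
    | zero => simpa using ha
    | succ n ih =>
      have := hP.smul' ih
      rw [pow_succ', Units.val_mul, mul_assoc]; exact this
  rcases m with m | m
  · rw [Int.ofNat_eq_natCast, zpow_natCast]; exact h1 m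
  · rw [zpow_negSucc, ← inv_pow]; exact h2 _

/-- The cone on the semidirect product. -/
def bigCone (x : Aˣ) (ε : ℤ) (P : Set A) : Set (Gm x) :=
  {g | (g.m = 0 ∧ g.a ∈ P) ∨ 0 < ε * g.m}

lemma bigCone_isCone {ε : ℤ} (hε : ε = 1 ∨ ε = -1) {P : Set A} (hP : IsACone x P) :
    IsCone (bigCone x ε P) := by
  refine ⟨?_, ?_, ?_, ?_⟩
  · rintro g h (⟨h1, h2⟩ | h1) (⟨h3, h4⟩ | h3)
    · left
      refine ⟨by simp [Gm.mul_def, h1, h3], ?_⟩
      rw [Gm.mul_def]
      exact hP.add (hP.zpow _ h2) h4
    · right; rw [Gm.mul_def]; simp only; rw [mul_add, h1, mul_zero, zero_add]; exact h3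
    · right; rw [Gm.mul_def]; simp only; rw [mul_add, h3, mul_zero, add_zero]; exact h1
    · right; rw [Gm.mul_def]; simp only; rw [mul_add]; exact add_pos h1 h3
  · rintro g c (⟨h1, h2⟩ | h1)
    · left
      rw [Gm.mul_def, Gm.mul_def, Gm.inv_def]
      refine ⟨by simp [h1], ?_⟩
      simp only
      rw [neg_neg]
      have e : (((x ^ c.m : Aˣ) : A) * (((x ^ (-g.m) : Aˣ) : A) * c.a + g.a) +
          -(((x ^ c.m : Aˣ) : A) * c.a)) = ((x ^ c.m : Aˣ) : A) * g.a := by
        rw [h1]; simp; ring
      rw [e]
      exact hP.zpow _ h2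
    · right
      rw [Gm.mul_def, Gm.mul_def, Gm.inv_def]
      simp only
      have : c.m + g.m + -c.m = g.m := by ring
      rw [this]; exact h1
  · rintro (⟨_, h2⟩ | h1)
    · exact hP.zero h2
    · rw [Gm.one_def] at h1; simp at h1
  · intro g
    rcases lt_trichotomy (ε * g.m) 0 with h | h | h
    · right; right; right
      rw [Gm.inv_def]; simp only; rw [mul_neg]; omega
    · have hm : g.m = 0 := by
        rcases hε with h1 | h1 <;> rw [h1] at h <;> omega
      rcases hP.total g.a with h1 | h1 | h1
      · left; exact Gm.ext h1 hm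
      · right; left; left; exact ⟨hm, h1⟩
      · right; right; left
        rw [Gm.inv_def]
        refine ⟨by simp [hm], ?_⟩
        simp only
        rw [hm, zpow_zero, Units.val_one, one_mul]; exact h1
    · right; left; right; exact h

/-- Cofinality hypothesis. -/
def Cof (x : Aˣ) : Prop :=
  ∀ P : Set A, IsACone x P → ∀ m : ℤ, m ≠ 0 → ∀ c : A, ∃ e : A,
    c - (((x ^ m : Aˣ) : A) - 1) * e ∈ P

lemma cone_structure (hcof : Cof x) {Q : Set (Gm x)} (hQ : IsCone Q) :
    ∃ P : Set A, IsACone x P ∧ (Q = bigCone x 1 P ∨ Q = bigCone x (-1) P) := by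
  set P : Set A := {a | (⟨a, 0⟩ : Gm x) ∈ Q} with hPdef
  have hP : IsACone x P := by
    refine ⟨?_, ?_, ?_, ?_, ?_⟩
    · intro a b ha hb
      have := hQ.mul ha hb
      rw [Gm.mul_def] at this
      show (⟨a + b, 0⟩ : Gm x) ∈ Q
      simpa using this
    · intro a ha
      have := hQ.conj (⟨0, 1⟩ : Gm x) ha
      rw [Gm.mul_def, Gm.mul_def, Gm.inv_def] at this
      show (⟨(x : A) * a, 0⟩ : Gm x) ∈ Q
      simpa using this
    · intro a ha
      have := hQ.conj (⟨0, -1⟩ : Gm x) ha
      rw [Gm.mul_def, Gm.mul_def, Gm.inv_def] at this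
      show (⟨((x⁻¹ : Aˣ) : A) * a, 0⟩ : Gm x) ∈ Q
      simpa using this
    · exact hQ.one
    · intro a
      rcases hQ.total (⟨a, 0⟩ : Gm x) with h | h | h
      · left; exact congrArg Gm.a h
      · right; left; exact h
      · right; right
        rw [Gm.inv_def] at h
        show (⟨-a, 0⟩ : Gm x) ∈ Q
        simpa using h
  refine ⟨P, hP, ?_⟩
  have htrans : ∀ (a : A) (m : ℤ), m ≠ 0 → (⟨a, m⟩ : Gm x) ∈ Q → ∀ b : A, (⟨b, m⟩ : Gm x) ∈ Q := by
    intro a m hm ha b
    obtain ⟨e, he⟩ := hcof P hP (-m) (by omega) (b - a)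
    have h1 := hQ.conj (⟨e, 0⟩ : Gm x) ha
    have h2 := hQ.mul h1 he
    rw [Gm.mul_def, Gm.mul_def, Gm.mul_def, Gm.inv_def] at h2
    simp only at h2
    have e1 : ((x ^ (-(0:ℤ)) : Aˣ) : A) * (((x ^ (-(-(0:ℤ))) : Aˣ) : A) *
        (((x ^ (-m) : Aˣ) : A) * e + a) + -(((x ^ (0:ℤ) : Aˣ) : A) * e)) +
        (b - a - (((x ^ (-m) : Aˣ) : A) - 1) * e) = b := by
      simp; ring
    have e2 : 0 + m + -0 + 0 = m := by ring
    rw [e1, e2] at h2
    exact h2
  have hpow : ∀ s : ℤ, (⟨0, s⟩ : Gm x) ∈ Q → ∀ n : ℕ, 0 < n → (⟨0, s * n⟩ : Gm x) ∈ Q := by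
    intro s hs n hn
    induction n with
    | zero => omega
    | succ n ih =>
      rcases Nat.eq_zero_or_pos n with h | h
      · subst h; simpa using hs
      · have := hQ.mul (ih h) hs
        rw [Gm.mul_def] at this
        simp only [mul_zero, add_zero] at this
        have e : s * (n : ℤ) + s = s * ((n + 1 : ℕ) : ℤ) := by push_cast; ring
        rwa [e] at this
  have hfin : ∀ ε : ℤ, (ε = 1 ∨ ε = -1) → (⟨0, ε⟩ : Gm x) ∈ Q → Q = bigCone x ε P := by
    intro ε hε h
    have hεε : ε * ε = 1 := by rcases hε with h | h <;> rw [h] <;> norm_num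
    have hsub : bigCone x ε P ⊆ Q := by
      rintro ⟨a, m⟩ (⟨h1, h2⟩ | h1)
      · simp only at h1 h2
        rw [h1]; exact h2
      · simp only at h1
        have h3 : m ≠ 0 := by rintro rfl; simp at h1
        apply htrans 0 m h3 _ a
        have h4 := hpow ε h (ε * m).toNat (by omega)
        have h5 : ((ε * m).toNat : ℤ) = ε * m := by omega
        rw [h5, ← mul_assoc, hεε, one_mul] at h4
        exact h4
    apply Set.Subset.antisymm _ hsub
    intro g hg
    rcases (bigCone_isCone hε hP).total g with h3 | h3 | h3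
    · rw [h3] at hg; exact absurd hg hQ.one
    · exact h3
    · exfalso
      have := hQ.mul hg (hsub h3)
      rw [mul_inv_cancel] at this
      exact hQ.one this
  rcases hQ.total (⟨0, 1⟩ : Gm x) with h | h | h
  · have := congrArg Gm.m h
    rw [Gm.one_def] at this
    simp at this
  · left; exact hfin 1 (Or.inl rfl) h
  · right
    apply hfin (-1) (Or.inr rfl)
    rw [Gm.inv_def] at h
    simpa using h

/-- The number of orders on the semidirect product. -/
theorem encard_Gm (hcof : Cof x) :
    {Q : Set (Gm x) | IsCone Q}.encard = 2 * {P : Set A | IsACone x P}.encard := by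
  have h1 : {Q : Set (Gm x) | IsCone Q} =
      bigCone x 1 '' {P : Set A | IsACone x P} ∪ bigCone x (-1) '' {P : Set A | IsACone x P} := by
    ext Q
    constructor
    · intro hQ
      obtain ⟨P, hP, h | h⟩ := cone_structure hcof hQ
      · exact Or.inl ⟨P, hP, h.symm⟩
      · exact Or.inr ⟨P, hP, h.symm⟩
    · rintro (⟨P, hP, rfl⟩ | ⟨P, hP, rfl⟩)
      · exact bigCone_isCone (Or.inl rfl) hP
      · exact bigCone_isCone (Or.inr rfl) hP
  have hinj : ∀ ε : ℤ, Set.InjOn (bigCone x ε) {P : Set A | IsACone x P} := by
    intro ε P hP Q hQ h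
    have key : ∀ {P Q : Set A}, bigCone x ε P = bigCone x ε Q → P ⊆ Q := by
      intro P Q h a ha
      have h1 : (⟨a, 0⟩ : Gm x) ∈ bigCone x ε P := Or.inl ⟨rfl, ha⟩
      rw [h] at h1
      rcases h1 with ⟨_, h2⟩ | h2
      · exact h2
      · simp at h2
    exact Set.Subset.antisymm (key h) (key h.symm)
  rw [h1, Set.encard_union_eq, (hinj 1).encard_image, (hinj (-1)).encard_image, two_mul]
  rw [Set.disjoint_left]
  rintro Q ⟨P, hP, rfl⟩ ⟨P', hP', h⟩
  have h2 : (⟨0, 1⟩ : Gm x) ∈ bigCone x 1 P := Or.inr (by simp)
  rw [← h] at h2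
  rcases h2 with ⟨h3, _⟩ | h3
  · simp at h3
  · simp at h3

end Affine

end Pool.Agent.Helper134
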