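import Mathlib
import Pool.Agent.Helper134.Count1

set_option autoImplicit false
set_option linter.unusedSectionVars false

open Polynomial

namespace Pool.Agent.Helper134

/-- Hypotheses on a monogenic ring. -/
structure Mono {A : Type} [CommRing A] (x : Aˣ) (f : ℤ[X]) : Prop where
  gen : ∀ a : A, ∃ g : ℤ[X], aeval (x : A) g = a
  monic : f.Monic
  root : aeval (x : A) f = 0
  lift : ∀ α : ℝ, aeval α f = 0 → ∃ σ : A →+* ℝ, σ x = α
  dvd : ∀ b : A, b ≠ 0 → ∃ (N : ℤ) (c : A), N ≠ 0 ∧ c * b = N

variable {A : Type} [CommRing A] {x : Aˣ} {f : ℤ[X]}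

lemma IsACone.pow {P : Set A} (hP : IsACone x P) (n : ℕ) {a : A} (ha : a ∈ P) :
    (x : A) ^ n * a ∈ P := by
  have := hP.zpow (n : ℤ) ha
  rwa [zpow_natCast, Units.val_pow_eq_pow_val] at this

/-- The linear order of a cone. -/
@[reducible] noncomputable def aOrder {P : Set A} (hP : IsACone x P) : LinearOrder A where
  le a b := a = b ∨ b - a ∈ P
  le_refl a := Or.inl rfl
  le_trans a b c := by
    rintro (h | h) (h' | h')
    · exact Or.inl (h.trans h')
    · rw [h]; exact Or.inr h'
    · rw [← h']; exact Or.inr h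
    · right
      have := hP.add h' h
      simpa using this
  le_antisymm a b := by
    rintro (h | h) (h' | h')
    · exact h
    · exact h
    · exact h'.symm
    · exfalso
      have := hP.add h h'
      apply hP.zero
      simpa using this
  le_total a b := by
    rcases hP.total (b - a) with h | h | h
    · left; left; exact (sub_eq_zero.mp h).symm
    · left; right; exact h
    · right; right; simpa using h
  toDecidableLE := Classical.decRel _

lemma key_arch {P : Set A} (hP : IsACone x P) (hA : Mono x f) :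
    ∃ lam : A →+ ℝ, ∀ a, a ∈ P ↔ 0 < lam a := by
  let _ : LinearOrder A := aOrder hP
  have hle : ∀ a b : A, a ≤ b ↔ a = b ∨ b - a ∈ P := fun _ _ => Iff.rfl
  have hpos : ∀ a : A, 0 < a ↔ a ∈ P := by
    intro a
    constructor
    · intro h
      rcases (hle 0 a).mp h.le with h1 | h1
      · exact absurd h1 h.ne
      · simpa using h1
    · intro h
      refine lt_of_le_of_ne ((hle 0 a).mpr (Or.inr (by simpa using h))) ?_
      intro h1; rw [← h1] at h; exact hP.zero h
  have : IsOrderedAddMonoid A := ⟨fun a b h c => by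
    rcases (hle a b).mp h with h1 | h1
    · rw [h1]
    · exact (hle _ _).mpr (Or.inr (by simpa using h1)), fun a b h c => by
    rcases (hle a b).mp h with h1 | h1
    · rw [h1]
    · exact (hle _ _).mpr (Or.inr (by simpa using h1))⟩
  have hxpow : ∀ (n : ℕ) {a b : A}, a ≤ b → (x : A) ^ n * a ≤ (x : A) ^ n * b := by
    intro n a b h
    rcases (hle a b).mp h with h1 | h1
    · rw [h1]
    · exact (hle _ _).mpr (Or.inr (by rw [← mul_sub]; exact hP.pow n h1))
  -- bound on the action of x
  have hbound : ∃ M : ℕ, ∀ a : A, 0 < a → (x : A) * a ≤ M • a := by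
    set d := f.natDegree with hd
    set M : ℕ := ∑ j ∈ Finset.range d, (f.coeff j).natAbs + 1 with hM
    refine ⟨M, fun a ha => ?_⟩
    by_contra hcon
    push Not at hcon
    have hmono : ∀ j : ℕ, M • ((x : A) ^ j * a) < (x : A) ^ (j + 1) * a := by
      intro j
      have h1 := hxpow j hcon.le
      have h2 : (x : A) ^ j * (M • a) = M • ((x : A) ^ j * a) := by
        rw [mul_smul_comm]
      have h3 : (x : A) ^ j * ((x : A) * a) = (x : A) ^ (j + 1) * a := by ring
      rw [h2, h3] at h1
      refine lt_of_le_of_ne h1 ?_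
      intro h4
      apply hcon.ne
      have h5 : (x : A) ^ j * (M • a) = (x : A) ^ j * ((x : A) * a) := by rw [h2, h3]; exact h4
      have h6 : IsUnit ((x : A) ^ j) := x.isUnit.pow j
      exact h6.mul_left_cancel h5
    have hposj : ∀ j : ℕ, 0 < (x : A) ^ j * a := fun j =>
      (hpos _).mpr (hP.pow j ((hpos a).mp ha))
    have hstep : ∀ j : ℕ, (x : A) ^ j * a ≤ (x : A) ^ (j + 1) * a := by
      intro j
      refine le_trans ?_ (hmono j).le
      have h1 : 1 ≤ M := by omega
      calc (x : A) ^ j * a = 1 • ((x : A) ^ j * a) := (one_nsmul _).symm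
        _ ≤ M • ((x : A) ^ j * a) := nsmul_le_nsmul_left (hposj j).le h1
    have hmon : Monotone (fun j : ℕ => (x : A) ^ j * a) := monotone_nat_of_le_succ hstep
    have hdpos : 0 < d := by
      by_contra h0
      have h0 : f.natDegree = 0 := by omega
      have h1 : f = 1 := hA.monic.natDegree_eq_zero.mp h0
      have h2 := hA.root
      rw [h1, map_one] at h2
      have h3 : a = 0 := by
        calc a = 1 * a := (one_mul a).symm
          _ = 0 * a := by rw [h2]
          _ = 0 := zero_mul a
      exact ha.ne' h3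
    -- evaluate f at x
    have hroot : (x : A) ^ d * a = -∑ j ∈ Finset.range d, (f.coeff j) • ((x : A) ^ j * a) := by
      have h1 := hA.root
      rw [aeval_eq_sum_range, Finset.sum_range_succ] at h1
      have h2 : f.coeff f.natDegree = 1 := hA.monic.coeff_natDegree
      rw [h2, one_smul] at h1
      have h3 : (x : A) ^ d = -∑ j ∈ Finset.range d, f.coeff j • (x : A) ^ j := by
        rw [eq_neg_iff_add_eq_zero, add_comm]; exact h1
      rw [h3, neg_mul, Finset.sum_mul]
      congr 1
      apply Finset.sum_congr rfl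
      intro j _
      rw [smul_mul_assoc]
    have hub : (x : A) ^ d * a ≤ (∑ j ∈ Finset.range d, (f.coeff j).natAbs) •
        ((x : A) ^ (d - 1) * a) := by
      rw [hroot, ← Finset.sum_neg_distrib, Finset.sum_smul]
      apply Finset.sum_le_sum
      intro j hj
      rw [Finset.mem_range] at hj
      have h1 : -(f.coeff j • ((x : A) ^ j * a)) ≤ (f.coeff j).natAbs • ((x : A) ^ j * a) := by
        rw [← neg_smul, ← natCast_zsmul]
        apply zsmul_le_zsmul_left (hposj j).le
        omega
      refine h1.trans ?_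
      exact nsmul_le_nsmul_right (hmon (by omega)) _
    have hfin := hmono (d - 1)
    have e1 : d - 1 + 1 = d := by omega
    rw [e1] at hfin
    have h3 : (∑ j ∈ Finset.range d, (f.coeff j).natAbs) • ((x : A) ^ (d - 1) * a) ≤
        M • ((x : A) ^ (d - 1) * a) := nsmul_le_nsmul_left (hposj _).le (by omega)
    exact absurd (lt_of_lt_of_le hfin hub) (not_lt_of_ge h3)
  obtain ⟨M, hMb⟩ := hbound
  have hpowb : ∀ (j : ℕ) (a : A), 0 < a → (x : A) ^ j * a ≤ (M ^ j) • a := by
    intro j
    induction j with
    | zero => intro a _; simp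
    | succ j ih =>
      intro a ha
      have h1 : 0 < (x : A) ^ j * a := (hpos _).mpr (hP.pow j ((hpos a).mp ha))
      calc (x : A) ^ (j + 1) * a = (x : A) * ((x : A) ^ j * a) := by ring
        _ ≤ M • ((x : A) ^ j * a) := hMb _ h1
        _ ≤ M • ((M ^ j) • a) := nsmul_le_nsmul_right (ih a ha) _
        _ = (M ^ (j + 1)) • a := by rw [smul_smul, pow_succ']
  have hArch : Archimedean A := ⟨fun b a ha => by
    obtain ⟨N, c, hN, hc⟩ := hA.dvd a ha.ne'
    obtain ⟨g, hg⟩ := hA.gen (b * c)
    have h1 : N • b = aeval (x : A) g * a := by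
      rw [hg, mul_assoc, hc, zsmul_eq_mul]; ring
    set T : ℕ := ∑ j ∈ Finset.range (g.natDegree + 1), (g.coeff j).natAbs * M ^ j with hT
    have hterm : ∀ (z : ℤ) (j : ℕ), z • ((x : A) ^ j * a) ≤ (z.natAbs * M ^ j) • a := by
      intro z j
      have h1 : 0 < (x : A) ^ j * a := (hpos _).mpr (hP.pow j ((hpos a).mp ha))
      calc z • ((x : A) ^ j * a) ≤ (z.natAbs : ℤ) • ((x : A) ^ j * a) :=
            zsmul_le_zsmul_left h1.le (by omega)
        _ = z.natAbs • ((x : A) ^ j * a) := natCast_zsmul _ _
        _ ≤ z.natAbs • ((M ^ j) • a) := nsmul_le_nsmul_right (hpowb j a ha) _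
        _ = (z.natAbs * M ^ j) • a := by rw [smul_smul]
    have h2 : aeval (x : A) g * a ≤ T • a := by
      rw [aeval_eq_sum_range, Finset.sum_mul, hT, Finset.sum_smul]
      apply Finset.sum_le_sum
      intro j _
      rw [smul_mul_assoc]
      exact hterm _ _
    have h3 : -(aeval (x : A) g * a) ≤ T • a := by
      rw [aeval_eq_sum_range, Finset.sum_mul, hT, Finset.sum_smul, ← Finset.sum_neg_distrib]
      apply Finset.sum_le_sum
      intro j _
      rw [smul_mul_assoc, ← neg_smul]
      have := hterm (-g.coeff j) j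
      rwa [Int.natAbs_neg] at this
    refine ⟨T, ?_⟩
    rcases le_total b 0 with hb | hb
    · exact hb.trans (nsmul_nonneg ha.le _)
    · have h4 : b ≤ N.natAbs • b := by
        calc b = 1 • b := (one_nsmul b).symm
          _ ≤ N.natAbs • b := nsmul_le_nsmul_left hb (by omega)
      refine h4.trans ?_
      rcases le_total 0 N with h5 | h5
      · have h6 : N.natAbs • b = N • b := by
          rw [← natCast_zsmul]; congr 1; omega
        rw [h6, h1]; exact h2
      · have h6 : N.natAbs • b = -(N • b) := by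
          rw [← natCast_zsmul, ← neg_smul]; congr 1; omega
        rw [h6, h1]; exact h3⟩
  obtain ⟨lam, hlam⟩ := Archimedean.exists_orderAddMonoidHom_real_injective A
  refine ⟨lam, fun a => ?_⟩
  rw [← hpos]
  have hmono : StrictMono lam := lam.monotone'.strictMono_of_injective hlam
  constructor
  · intro h
    have := hmono h
    rwa [map_zero] at this
  · intro h
    by_contra hcon
    push Not at hcon
    have := hmono.monotone hcon
    rw [map_zero] at this
    exact absurd h (not_lt_of_ge this)

/-- A cone containing `1` comes from a real place. -/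
lemma cone_place {P : Set A} (hP : IsACone x P) (hA : Mono x f) (h1P : (1 : A) ∈ P) :
    ∃ σ : A →+* ℝ, 0 < σ x ∧ P = {a | 0 < σ a} := by
  obtain ⟨lam, hlam⟩ := key_arch hP hA
  have h1 : 0 < lam 1 := (hlam 1).mp h1P
  have hx : 0 < lam x := by
    have := hP.smul h1P
    rw [mul_one] at this
    exact (hlam _).mp this
  set α : ℝ := lam x / lam 1 with hα
  have hαpos : 0 < α := div_pos hx h1
  -- `lam` is an eigenfunctional
  have heig : ∀ a : A, lam ((x : A) * a) = α * lam a := by
    intro a
    have key : ∀ p q : ℤ, 0 < q → (p : ℝ) * lam 1 < q * lam a →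
        (p : ℝ) * lam x < q * lam ((x : A) * a) := by
      intro p q hq h
      have h2 : 0 < lam (q • a - p • (1 : A)) := by
        rw [map_sub, map_zsmul, map_zsmul, zsmul_eq_mul, zsmul_eq_mul]; linarith
      have h3 := hP.smul ((hlam _).mpr h2)
      have h4 := (hlam _).mp h3
      have h5 : (x : A) * (q • a - p • (1 : A)) = q • ((x : A) * a) - p • (x : A) := by
        rw [mul_sub, mul_smul_comm, mul_smul_comm, mul_one]
      rw [h5, map_sub, map_zsmul, map_zsmul, zsmul_eq_mul, zsmul_eq_mul] at h4
      linarith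
    have key' : ∀ p q : ℤ, 0 < q → (q : ℝ) * lam a < p * lam 1 →
        (q : ℝ) * lam ((x : A) * a) < p * lam x := by
      intro p q hq h
      have h2 : 0 < lam (p • (1 : A) - q • a) := by
        rw [map_sub, map_zsmul, map_zsmul, zsmul_eq_mul, zsmul_eq_mul]; linarith
      have h3 := hP.smul ((hlam _).mpr h2)
      have h4 := (hlam _).mp h3
      have h5 : (x : A) * (p • (1 : A) - q • a) = p • (x : A) - q • ((x : A) * a) := by
        rw [mul_sub, mul_smul_comm, mul_smul_comm, mul_one]
      rw [h5, map_sub, map_zsmul, map_zsmul, zsmul_eq_mul, zsmul_eq_mul] at h4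
      linarith
    rw [hα]
    have goal : lam ((x : A) * a) / lam x = lam a / lam 1 := by
      rcases lt_trichotomy (lam ((x : A) * a) / lam x) (lam a / lam 1) with h | h | h
      · exfalso
        obtain ⟨q, hq1, hq2⟩ := exists_rat_btwn h
        have hden : (0 : ℝ) < q.den := by exact_mod_cast q.den_pos
        have hqd : (q : ℝ) = q.num / q.den := by exact_mod_cast (Rat.num_div_den q).symm
        have h3 := key q.num q.den (by exact_mod_cast q.den_pos) (by
          rw [hqd, div_lt_div_iff₀ hden h1] at hq2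
          push_cast; linarith)
        rw [hqd, div_lt_div_iff₀ hx hden] at hq1
        push_cast at h3
        linarith
      · exact h
      · exfalso
        obtain ⟨q, hq1, hq2⟩ := exists_rat_btwn h
        have hden : (0 : ℝ) < q.den := by exact_mod_cast q.den_pos
        have hqd : (q : ℝ) = q.num / q.den := by exact_mod_cast (Rat.num_div_den q).symm
        have h3 := key' q.num q.den (by exact_mod_cast q.den_pos) (by
          rw [hqd, div_lt_div_iff₀ h1 hden] at hq1
          push_cast; linarith)
        rw [hqd, div_lt_div_iff₀ hden hx] at hq2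
        push_cast at h3
        linarith
    rw [div_eq_div_iff hx.ne' h1.ne'] at goal
    field_simp
    linarith
  have hpow : ∀ n : ℕ, lam ((x : A) ^ n) = α ^ n * lam 1 := by
    intro n
    induction n with
    | zero => simp
    | succ n ih => rw [pow_succ', heig, ih]; ring
  have hval : ∀ g : ℤ[X], lam (aeval (x : A) g) = aeval α g * lam 1 := by
    intro g
    rw [aeval_eq_sum_range, aeval_eq_sum_range, map_sum, Finset.sum_mul]
    apply Finset.sum_congr rfl
    intro j _
    rw [map_zsmul, hpow, zsmul_eq_mul, zsmul_eq_mul]; ring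
  have hroot : aeval α f = 0 := by
    have := hval f
    rw [hA.root, map_zero] at this
    rcases mul_eq_zero.mp this.symm with h | h
    · exact h
    · exact absurd h h1.ne'
  obtain ⟨σ, hσ⟩ := hA.lift α hroot
  have hσg : ∀ g : ℤ[X], σ (aeval (x : A) g) = aeval α g := by
    intro g
    rw [aeval_eq_sum_range, aeval_eq_sum_range, map_sum]
    apply Finset.sum_congr rfl
    intro j _
    rw [zsmul_eq_mul, zsmul_eq_mul, map_mul, map_intCast, map_pow, hσ]
  refine ⟨σ, by rw [hσ]; exact hαpos, ?_⟩
  ext a
  obtain ⟨g, rfl⟩ := hA.gen a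
  rw [hlam, hval, Set.mem_setOf_eq, hσg]
  constructor
  · intro h
    by_contra hcon
    push Not at hcon
    nlinarith
  · intro h; positivity

lemma place_injective (hA : Mono x f) (σ : A →+* ℝ) {a : A} (ha : a ≠ 0) : σ a ≠ 0 := by
  intro h
  obtain ⟨N, c, hN, hc⟩ := hA.dvd a ha
  have h1 := congrArg σ hc
  rw [map_mul, h, mul_zero, map_intCast] at h1
  exact hN (by exact_mod_cast h1.symm)

lemma place_cone (hA : Mono x f) (σ : A →+* ℝ) (hσ : 0 < σ x) : IsACone x {a | 0 < σ a} := by
  refine ⟨?_, ?_, ?_, ?_, ?_⟩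
  · intro a b ha hb
    show 0 < σ (a + b)
    rw [map_add]; exact add_pos ha hb
  · intro a ha
    show 0 < σ ((x : A) * a)
    rw [map_mul]; exact mul_pos hσ ha
  · intro a ha
    have ha : 0 < σ a := ha
    show 0 < σ (((x⁻¹ : Aˣ) : A) * a)
    have h1 : σ x * σ ((x⁻¹ : Aˣ) : A) = 1 := by
      rw [← map_mul, Units.mul_inv, map_one]
    have h2 : 0 < σ ((x⁻¹ : Aˣ) : A) := by
      by_contra hcon
      push Not at hcon
      nlinarith
    rw [map_mul]; exact mul_pos h2 ha
  · show ¬ (0 < σ 0)
    rw [map_zero]; exact lt_irrefl _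
  · intro a
    by_cases ha : a = 0
    · exact Or.inl ha
    · right
      rcases lt_or_gt_of_ne (place_injective hA σ ha) with h | h
      · right; show 0 < σ (-a); rw [map_neg]; linarith
      · left; exact h

lemma neg_cone {P : Set A} (hP : IsACone x P) : IsACone x {a | -a ∈ P} := by
  refine ⟨?_, ?_, ?_, ?_, ?_⟩
  · intro a b ha hb
    show -(a + b) ∈ P
    have := hP.add ha hb
    rwa [← neg_add] at this
  · intro a ha
    show -((x : A) * a) ∈ P
    have := hP.smul ha
    rwa [mul_neg] at this
  · intro a ha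
    show -(((x⁻¹ : Aˣ) : A) * a) ∈ P
    have := hP.smul' ha
    rwa [mul_neg] at this
  · show -0 ∉ P
    rw [neg_zero]; exact hP.zero
  · intro a
    rcases hP.total a with h | h | h
    · exact Or.inl h
    · right; right; show - -a ∈ P; rwa [neg_neg]
    · right; left; exact h

/-- All cones come from real places. -/
lemma cone_cases {P : Set A} (hP : IsACone x P) (hA : Mono x f) (h10 : (1 : A) ≠ 0) :
    ∃ σ : A →+* ℝ, 0 < σ x ∧ (P = {a | 0 < σ a} ∨ P = {a | σ a < 0}) := by
  rcases hP.total 1 with h | h | h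
  · exact absurd h h10
  · obtain ⟨σ, h1, h2⟩ := cone_place hP hA h
    exact ⟨σ, h1, Or.inl h2⟩
  · obtain ⟨σ, h1, h2⟩ := cone_place (neg_cone hP) hA h
    refine ⟨σ, h1, Or.inr ?_⟩
    ext a
    have h3 : -a ∈ {a | -a ∈ P} ↔ -a ∈ {a | 0 < σ a} := by rw [h2]
    simp only [Set.mem_setOf_eq, neg_neg, map_neg] at h3
    rw [h3, Set.mem_setOf_eq]
    constructor <;> intro h <;> linarith

lemma cof_of_mono (hA : Mono x f) (h10 : (1 : A) ≠ 0) (h1 : aeval (1 : ℝ) f ≠ 0) : Cof x := by
  have key : ∀ σ : A →+* ℝ, 0 < σ x → ∀ m : ℤ, m ≠ 0 → σ ((x ^ m : Aˣ) : A) ≠ 1 := by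
    intro σ hσ m hm h
    have h2 : σ ((x ^ m : Aˣ) : A) = (σ x) ^ m := by
      have : ((Units.map (σ : A →* ℝ) (x ^ m) : ℝˣ) : ℝ) = (σ x) ^ m := by
        rw [map_zpow, Units.val_zpow_eq_zpow_val]; rfl
      exact this
    rw [h2] at h
    have h3 : σ x = 1 := by
      rcases lt_trichotomy (σ x) 1 with h4 | h4 | h4
      · exfalso
        rcases lt_or_gt_of_ne hm with h5 | h5
        · have := one_lt_zpow_of_neg₀ hσ h4 h5
          linarith
        · have := zpow_lt_one₀ hσ h4 h5
          linarith
      · exact h4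
      · exfalso
        rcases lt_or_gt_of_ne hm with h5 | h5
        · have := zpow_lt_one_of_neg₀ h4 h5
          linarith
        · have := one_lt_zpow₀ h4 h5
          linarith
    apply h1
    have h4 : σ (aeval (x : A) f) = aeval (σ x) f := by
      rw [aeval_eq_sum_range, aeval_eq_sum_range, map_sum]
      apply Finset.sum_congr rfl
      intro j _
      rw [zsmul_eq_mul, zsmul_eq_mul, map_mul, map_intCast, map_pow]
    rw [hA.root, map_zero, h3] at h4
    exact h4.symm
  intro P hP m hm c
  obtain ⟨σ, hσ, h | h⟩ := cone_cases hP hA h10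
  · have h2 := key σ hσ m hm
    set β := σ ((x ^ m : Aˣ) : A) - 1 with hβ
    have hβ0 : β ≠ 0 := sub_ne_zero.mpr h2
    obtain ⟨n, hn⟩ := exists_int_lt ((σ c) / β)
    obtain ⟨n', hn'⟩ := exists_int_gt ((σ c) / β)
    rcases lt_or_gt_of_ne hβ0 with h3 | h3
    · refine ⟨n', ?_⟩
      rw [h]
      show 0 < σ _
      rw [map_sub, map_mul, map_sub, map_one, map_intCast, ← hβ]
      rw [div_lt_iff_of_neg h3] at hn'
      linarith
    · refine ⟨n, ?_⟩
      rw [h]
      show 0 < σ _
      rw [map_sub, map_mul, map_sub, map_one, map_intCast, ← hβ]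
      rw [lt_div_iff₀ h3] at hn
      linarith
  · have h2 := key σ hσ m hm
    set β := σ ((x ^ m : Aˣ) : A) - 1 with hβ
    have hβ0 : β ≠ 0 := sub_ne_zero.mpr h2
    obtain ⟨n, hn⟩ := exists_int_lt ((σ c) / β)
    obtain ⟨n', hn'⟩ := exists_int_gt ((σ c) / β)
    rcases lt_or_gt_of_ne hβ0 with h3 | h3
    · refine ⟨n, ?_⟩
      rw [h]
      show σ _ < 0
      rw [map_sub, map_mul, map_sub, map_one, map_intCast, ← hβ]
      rw [lt_div_iff_of_neg h3] at hn
      linarith
    · refine ⟨n', ?_⟩
      rw [h]
      show σ _ < 0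
      rw [map_sub, map_mul, map_sub, map_one, map_intCast, ← hβ]
      rw [div_lt_iff₀ h3] at hn'
      linarith

end Pool.Agent.Helper134
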