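import Mathlib
import Pool.Agent.Helper134.Count2

set_option autoImplicit false
set_option linter.unusedSectionVars false

open Polynomial

namespace Pool.Agent.Helper134

/-- Cones of the ring are counted by the positive roots. -/
theorem encard_acones {A : Type} [CommRing A] {x : Aˣ} {f : ℤ[X]} (hA : Mono x f)
    (h10 : (1 : A) ≠ 0) :
    {P : Set A | IsACone x P}.encard = 2 * {α : ℝ | 0 < α ∧ aeval α f = 0}.encard := by
  set R : Set ℝ := {α : ℝ | 0 < α ∧ aeval α f = 0} with hR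
  let F1 : ℝ → Set A := fun α => {a | ∃ g : ℤ[X], aeval (x : A) g = a ∧ 0 < aeval α g}
  let F2 : ℝ → Set A := fun α => {a | ∃ g : ℤ[X], aeval (x : A) g = a ∧ aeval α g < 0}
  have hσg : ∀ (σ : A →+* ℝ) (g : ℤ[X]), σ (aeval (x : A) g) = aeval (σ x) g := by
    intro σ g
    rw [aeval_eq_sum_range, aeval_eq_sum_range, map_sum]
    apply Finset.sum_congr rfl
    intro j _
    rw [zsmul_eq_mul, zsmul_eq_mul, map_mul, map_intCast, map_pow]
  have hF1 : ∀ (σ : A →+* ℝ), F1 (σ x) = {a | 0 < σ a} := by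
    intro σ
    ext a
    constructor
    · rintro ⟨g, rfl, hg⟩
      show 0 < σ _
      rw [hσg]; exact hg
    · intro h
      obtain ⟨g, rfl⟩ := hA.gen a
      have h : 0 < σ _ := h
      rw [hσg] at h
      exact ⟨g, rfl, h⟩
  have hF2 : ∀ (σ : A →+* ℝ), F2 (σ x) = {a | σ a < 0} := by
    intro σ
    ext a
    constructor
    · rintro ⟨g, rfl, hg⟩
      show σ _ < 0
      rw [hσg]; exact hg
    · intro h
      obtain ⟨g, rfl⟩ := hA.gen a
      have h : σ _ < 0 := h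
      rw [hσg] at h
      exact ⟨g, rfl, h⟩
  have hroot : ∀ (σ : A →+* ℝ), aeval (σ x) f = 0 := by
    intro σ
    rw [← hσg, hA.root, map_zero]
  have hset : {P : Set A | IsACone x P} = F1 '' R ∪ F2 '' R := by
    ext P
    constructor
    · intro hP
      obtain ⟨σ, hσ, h | h⟩ := cone_cases hP hA h10
      · left; exact ⟨σ x, ⟨hσ, hroot σ⟩, by rw [hF1, h]⟩
      · right; exact ⟨σ x, ⟨hσ, hroot σ⟩, by rw [hF2, h]⟩
    · rintro (⟨α, ⟨hα, hα'⟩, rfl⟩ | ⟨α, ⟨hα, hα'⟩, rfl⟩)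
      · obtain ⟨σ, rfl⟩ := hA.lift α hα'
        rw [hF1]
        exact place_cone hA σ hα
      · obtain ⟨σ, rfl⟩ := hA.lift α hα'
        rw [hF2]
        have := neg_cone (place_cone hA σ hα)
        have h2 : {a | -a ∈ {a | 0 < σ a}} = {a | σ a < 0} := by
          ext a
          show 0 < σ (-a) ↔ σ a < 0
          rw [map_neg]; constructor <;> intro h <;> linarith
        rw [h2] at this
        exact this
  have hsep : ∀ α β : ℝ, α < β → ∃ g : ℤ[X], aeval α g < 0 ∧ 0 < aeval β g := by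
    intro α β h
    obtain ⟨q, h1, h2⟩ := exists_rat_btwn h
    have hden : (0 : ℝ) < q.den := by exact_mod_cast q.den_pos
    have hqd : (q : ℝ) = q.num / q.den := by exact_mod_cast (Rat.num_div_den q).symm
    refine ⟨C (q.den : ℤ) * X - C q.num, ?_, ?_⟩
    · rw [map_sub, map_mul, aeval_X, aeval_C, aeval_C]
      simp only [eq_intCast, Int.cast_natCast, algebraMap_int_eq]
      rw [hqd, lt_div_iff₀ hden] at h1
      linarith
    · rw [map_sub, map_mul, aeval_X, aeval_C, aeval_C]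
      simp only [eq_intCast, Int.cast_natCast, algebraMap_int_eq]
      rw [hqd, div_lt_iff₀ hden] at h2
      linarith
  have hinj1 : Set.InjOn F1 R := by
    rintro α ⟨_, hα⟩ β ⟨_, hβ⟩ h
    obtain ⟨σ, rfl⟩ := hA.lift α hα
    obtain ⟨τ, rfl⟩ := hA.lift β hβ
    rw [hF1, hF1] at h
    rcases lt_trichotomy (σ x) (τ x) with h1 | h1 | h1
    · obtain ⟨g, h2, h3⟩ := hsep _ _ h1
      have h4 : aeval (x : A) g ∈ {a | 0 < τ a} := by show 0 < τ _; rw [hσg]; exact h3
      rw [← h] at h4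
      have h4 : 0 < σ _ := h4
      rw [hσg] at h4
      linarith
    · exact h1
    · obtain ⟨g, h2, h3⟩ := hsep _ _ h1
      have h4 : aeval (x : A) g ∈ {a | 0 < σ a} := by show 0 < σ _; rw [hσg]; exact h3
      rw [h] at h4
      have h4 : 0 < τ _ := h4
      rw [hσg] at h4
      linarith
  have hinj2 : Set.InjOn F2 R := by
    rintro α ⟨_, hα⟩ β ⟨_, hβ⟩ h
    obtain ⟨σ, rfl⟩ := hA.lift α hα
    obtain ⟨τ, rfl⟩ := hA.lift β hβ
    rw [hF2, hF2] at h
    rcases lt_trichotomy (σ x) (τ x) with h1 | h1 | h1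
    · obtain ⟨g, h2, h3⟩ := hsep _ _ h1
      have h4 : aeval (x : A) g ∈ {a | σ a < 0} := by show σ _ < 0; rw [hσg]; exact h2
      rw [h] at h4
      have h4 : τ _ < 0 := h4
      rw [hσg] at h4
      linarith
    · exact h1
    · obtain ⟨g, h2, h3⟩ := hsep _ _ h1
      have h4 : aeval (x : A) g ∈ {a | τ a < 0} := by show τ _ < 0; rw [hσg]; exact h2
      rw [← h] at h4
      have h4 : σ _ < 0 := h4
      rw [hσg] at h4
      linarith
  rw [hset, Set.encard_union_eq, hinj1.encard_image, hinj2.encard_image, two_mul]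
  rw [Set.disjoint_left]
  rintro P ⟨α, ⟨_, hα⟩, rfl⟩ ⟨β, ⟨_, hβ⟩, h⟩
  obtain ⟨σ, rfl⟩ := hA.lift α hα
  obtain ⟨τ, rfl⟩ := hA.lift β hβ
  rw [hF1, hF2] at h
  have h4 : (1 : A) ∈ {a | 0 < σ a} := by show 0 < σ 1; rw [map_one]; norm_num
  rw [← h] at h4
  have h4 : τ 1 < 0 := h4
  rw [map_one] at h4
  linarith

/-- The polynomial. -/
noncomputable def fr (r : ℕ) : ℤ[X] :=
  ∏ i ∈ Finset.range (r + 1), (X - C (4 * (i : ℤ))) + C ((-1) ^ r)

lemma prod_monic (r : ℕ) : (∏ i ∈ Finset.range (r + 1), (X - C (4 * (i : ℤ)))).Monic :=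
  monic_prod_of_monic _ _ (fun i _ => monic_X_sub_C _)

lemma prod_natDegree (r : ℕ) :
    (∏ i ∈ Finset.range (r + 1), (X - C (4 * (i : ℤ)))).natDegree = r + 1 := by
  rw [natDegree_prod_of_monic _ _ (fun i _ => monic_X_sub_C _)]
  simp only [natDegree_X_sub_C, Finset.sum_const, Finset.card_range, smul_eq_mul, mul_one]

lemma fr_monic (r : ℕ) : (fr r).Monic := by
  unfold fr
  apply (prod_monic r).add_of_left
  rw [degree_eq_natDegree (prod_monic r).ne_zero, prod_natDegree]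
  refine lt_of_le_of_lt degree_C_le ?_
  exact_mod_cast Nat.succ_pos r

lemma fr_natDegree (r : ℕ) : (fr r).natDegree = r + 1 := by
  unfold fr
  rw [natDegree_add_C, prod_natDegree]

lemma fr_eval (r : ℕ) (t : ℝ) :
    aeval t (fr r) = ∏ i ∈ Finset.range (r + 1), (t - 4 * (i : ℝ)) + (-1) ^ r := by
  unfold fr
  rw [map_add, map_prod, aeval_C]
  congr 1
  · apply Finset.prod_congr rfl
    intro i _
    rw [map_sub, aeval_X, aeval_C, algebraMap_int_eq, eq_intCast]
    push_cast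
    rfl
  · rw [algebraMap_int_eq, eq_intCast]
    push_cast
    rfl

lemma fr_eval_int (r : ℕ) (t : ℤ) :
    (fr r).eval t = ∏ i ∈ Finset.range (r + 1), (t - 4 * (i : ℤ)) + (-1) ^ r := by
  unfold fr
  simp [eval_prod]

/-- Sign and size of the product at the test points. -/
lemma prod_base (j m : ℕ) (hm : m ≤ j + 1) :
    (2 : ℝ) ^ m ≤ ∏ i ∈ Finset.range m, ((4 * (j : ℝ) + 2) - 4 * (i : ℝ)) := by
  induction m with
  | zero => simp
  | succ m ih =>
    rw [Finset.prod_range_succ, pow_succ]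
    have h1 := ih (by omega)
    have h2 : (2 : ℝ) ≤ (4 * (j : ℝ) + 2) - 4 * (m : ℝ) := by
      have : (m : ℝ) ≤ j := by exact_mod_cast (by omega : m ≤ j)
      linarith
    have h3 : (0 : ℝ) < 2 ^ m := by positivity
    nlinarith

lemma prod_sign (j k : ℕ) :
    (2 : ℝ) ≤ (-1) ^ k * ∏ i ∈ Finset.range (j + k + 1), ((4 * (j : ℝ) + 2) - 4 * (i : ℝ)) := by
  induction k with
  | zero =>
    have := prod_base j (j + 1) le_rfl
    rw [pow_zero, one_mul, add_zero]
    have h2 : (2 : ℝ) ≤ 2 ^ (j + 1) := by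
      rw [pow_succ]
      have : (1 : ℝ) ≤ 2 ^ j := one_le_pow₀ (by norm_num)
      linarith
    linarith
  | succ k ih =>
    have e : j + (k + 1) + 1 = (j + k + 1) + 1 := by ring
    rw [e, Finset.prod_range_succ, pow_succ]
    push_cast
    have h1 : (4 * (j : ℝ) + 2) - 4 * ((j : ℝ) + k + 1) = -(4 * k + 2) := by ring
    rw [h1]
    have h2 : (0 : ℝ) ≤ k := by positivity
    have h3 : (-1 : ℝ) ^ k * -1 * ((∏ i ∈ Finset.range (j + k + 1), ((4 * (j : ℝ) + 2) - 4 * (i : ℝ))) *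
        -(4 * k + 2)) = ((-1) ^ k * ∏ i ∈ Finset.range (j + k + 1), ((4 * (j : ℝ) + 2) - 4 * (i : ℝ))) *
        (4 * k + 2) := by ring
    rw [h3]
    nlinarith

lemma prod_neg (m : ℕ) :
    (2 : ℝ) ^ m ≤ (-1) ^ m * ∏ i ∈ Finset.range m, ((-2 : ℝ) - 4 * (i : ℝ)) := by
  induction m with
  | zero => simp
  | succ m ih =>
    rw [Finset.prod_range_succ, pow_succ, pow_succ]
    have h2 : (0 : ℝ) ≤ m := by positivity
    have h3 : (-1 : ℝ) ^ m * -1 * ((∏ i ∈ Finset.range m, ((-2 : ℝ) - 4 * (i : ℝ))) * (-2 - 4 * m)) =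
        ((-1) ^ m * ∏ i ∈ Finset.range m, ((-2 : ℝ) - 4 * (i : ℝ))) * (2 + 4 * m) := by ring
    rw [h3]
    have h4 : (0 : ℝ) < 2 ^ m := by positivity
    nlinarith

/-- value of the polynomial at the test points has sign `(-1) ^ k` -/
lemma fr_sign (j k : ℕ) : 1 ≤ (-1) ^ k * aeval (4 * (j : ℝ) + 2) (fr (j + k)) := by
  rw [fr_eval, mul_add]
  have h1 := prod_sign j k
  have h2 : (-1 : ℝ) ≤ (-1) ^ k * (-1) ^ (j + k) := by
    rw [← pow_add]
    rcases neg_one_pow_eq_or ℝ (k + (j + k)) with h | h <;> rw [h] <;> norm_num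
  linarith

lemma fr_neg (r : ℕ) : 1 ≤ (-1) ^ (r + 1) * aeval (-2 : ℝ) (fr r) := by
  rw [fr_eval, mul_add]
  have h1 := prod_neg (r + 1)
  have h2 : (-1 : ℝ) ^ (r + 1) * (-1) ^ r = -1 := by
    rw [← pow_add]
    have : r + 1 + r = 2 * r + 1 := by ring
    rw [this, pow_succ, pow_mul]; norm_num
  have h3 : (2 : ℝ) ≤ 2 ^ (r + 1) := by
    rw [pow_succ]
    have : (1 : ℝ) ≤ 2 ^ r := one_le_pow₀ (by norm_num)
    linarith
  rw [h2]; linarith

lemma fr_zero (r : ℕ) : aeval (0 : ℝ) (fr r) = (-1) ^ r := by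
  rw [fr_eval, Finset.prod_range_succ']
  simp

/-- Existence of a root between sign changes. -/
lemma exists_root (f : ℤ[X]) {a b : ℝ} (hab : a < b) (s : ℝ) (hs : s = 1 ∨ s = -1)
    (h1 : 0 < s * aeval a f) (h2 : s * aeval b f < 0) :
    ∃ c, a < c ∧ c < b ∧ aeval c f = 0 := by
  have hcont : Continuous (fun t : ℝ => s * aeval t f) := by
    have : Continuous (fun t : ℝ => aeval t f) := Polynomial.continuous_aeval f
    exact continuous_const.mul this
  have h := intermediate_value_Ioo' hab.le (f := fun t : ℝ => s * aeval t f) hcont.continuousOn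
  have h0 : (0 : ℝ) ∈ Set.Ioo (s * aeval b f) (s * aeval a f) := ⟨h2, h1⟩
  obtain ⟨c, hc, hc'⟩ := h h0
  refine ⟨c, hc.1, hc.2, ?_⟩
  have hs0 : s ≠ 0 := by rcases hs with h | h <;> rw [h] <;> norm_num
  exact (mul_eq_zero.mp hc').resolve_left hs0

lemma posroot (r j : ℕ) (hj : j < r) :
    ∃ c : ℝ, 4 * (j : ℝ) + 2 < c ∧ c < 4 * (j : ℝ) + 6 ∧ aeval c (fr r) = 0 := by
  obtain ⟨k, rfl⟩ : ∃ k, r = j + (k + 1) := ⟨r - j - 1, by omega⟩
  have h1 := fr_sign j (k + 1)
  have h2 := fr_sign (j + 1) k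
  have e1 : j + 1 + k = j + (k + 1) := by ring
  rw [e1] at h2
  push_cast at h2
  have e2 : 4 * ((j : ℝ) + 1) + 2 = 4 * (j : ℝ) + 6 := by ring
  rw [e2] at h2
  obtain ⟨c, h3, h4, h5⟩ := exists_root (fr (j + (k + 1)))
    (show 4 * (j : ℝ) + 2 < 4 * (j : ℝ) + 6 by linarith) ((-1) ^ (k + 1))
    (neg_one_pow_eq_or ℝ _) (by linarith) (by rw [pow_succ]; linarith)
  exact ⟨c, h3, h4, h5⟩

lemma negroot (r : ℕ) : ∃ c : ℝ, c < 0 ∧ aeval c (fr r) = 0 := by
  have h1 := fr_neg r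
  obtain ⟨c, _, h4, h5⟩ := exists_root (fr r)
    (show (-2 : ℝ) < 0 by norm_num) ((-1) ^ (r + 1))
    (neg_one_pow_eq_or ℝ _) (by linarith) (by
      rw [fr_zero, ← pow_add]
      have : r + 1 + r = 2 * r + 1 := by ring
      rw [this, pow_succ, pow_mul]; norm_num)
  exact ⟨c, h4, h5⟩

theorem encard_posroots (r : ℕ) : {α : ℝ | 0 < α ∧ aeval α (fr r) = 0}.encard = r := by
  set R : Set ℝ := {α : ℝ | 0 < α ∧ aeval α (fr r) = 0} with hR
  set Z : Set ℝ := (fr r).rootSet ℝ with hZ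
  have hmem : ∀ α : ℝ, α ∈ Z ↔ aeval α (fr r) = 0 := by
    intro α
    rw [hZ, mem_rootSet]
    exact ⟨fun h => h.2, fun h => ⟨(fr_monic r).ne_zero, h⟩⟩
  have hfin : Z.Finite := rootSet_finite _ _
  have hcard : Z.ncard ≤ r + 1 := by
    have := ncard_rootSet_le (fr r) ℝ
    rwa [fr_natDegree] at this
  have hRZ : R ⊆ Z := fun α h => (hmem α).mpr h.2
  have hRfin : R.Finite := hfin.subset hRZ
  -- upper bound
  obtain ⟨β, hβ, hβ'⟩ := negroot r
  have hβR : β ∉ R := fun h => absurd h.1 (by linarith)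
  have hup : R.ncard + 1 ≤ r + 1 := by
    rw [← Set.ncard_insert_of_notMem hβR hRfin]
    refine (Set.ncard_le_ncard ?_ hfin).trans hcard
    intro α hα
    rcases hα with h | h
    · rw [h]; exact (hmem β).mpr hβ'
    · exact hRZ h
  -- lower bound
  choose! c hc1 hc2 hc3 using posroot r
  have hinj : Set.InjOn c (Finset.range r : Set ℕ) := by
    intro i hi j hj h
    rw [Finset.coe_range, Set.mem_Iio] at hi hj
    rcases lt_trichotomy i j with h1 | h1 | h1
    · have h2 := hc2 i hi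
      have h3 := hc1 j hj
      have h4 : (i : ℝ) + 1 ≤ j := by exact_mod_cast h1
      rw [h] at h2
      linarith
    · exact h1
    · have h2 := hc2 j hj
      have h3 := hc1 i hi
      have h4 : (j : ℝ) + 1 ≤ i := by exact_mod_cast h1
      rw [h] at h3
      linarith
  have hlow : r ≤ R.ncard := by
    have h1 : (c '' (Finset.range r : Set ℕ)).ncard = r := by
      rw [hinj.ncard_image, Set.ncard_coe_finset, Finset.card_range]
    rw [← h1]
    apply Set.ncard_le_ncard _ hRfin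
    rintro α ⟨i, hi, rfl⟩
    rw [Finset.coe_range, Set.mem_Iio] at hi
    refine ⟨?_, hc3 i hi⟩
    have := hc1 i hi
    have h0 : (0 : ℝ) ≤ i := by positivity
    linarith
  have : R.ncard = r := by omega
  rw [← hRfin.cast_ncard_eq, this]

lemma fr_one (r : ℕ) (hr : 0 < r) : aeval (1 : ℝ) (fr r) ≠ 0 := by
  rw [fr_eval]
  have key : ∀ m : ℕ, (3 : ℝ) ^ m ≤ |∏ i ∈ Finset.range (m + 1), ((1 : ℝ) - 4 * (i : ℝ))| := by
    intro m
    induction m with
    | zero => simp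
    | succ m ih =>
      rw [Finset.prod_range_succ, abs_mul, pow_succ]
      have h1 : (3 : ℝ) ≤ |1 - 4 * ((m + 1 : ℕ) : ℝ)| := by
        rw [abs_of_nonpos] <;> push_cast <;> nlinarith [(by positivity : (0 : ℝ) ≤ m)]
      have h2 : (0 : ℝ) < 3 ^ m := by positivity
      nlinarith
  intro h
  have h1 : ∏ i ∈ Finset.range (r + 1), ((1 : ℝ) - 4 * (i : ℝ)) = -(-1) ^ r := by linarith
  have h2 := key r
  rw [h1, abs_neg, abs_pow, abs_neg, abs_one, one_pow] at h2
  have h3 : (3 : ℝ) ^ 1 ≤ 3 ^ r := pow_le_pow_right₀ (by norm_num) hr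
  linarith

end Pool.Agent.Helper134
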