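import Mathlib
import Pool.Agent.Helper134.PL2

set_option autoImplicit false
set_option linter.unusedSectionVars false

namespace Pool.Agent.Helper134

namespace PL

variable {A : Type} [CommRing A] {d : Dat A}

/-- binary scale of a positive real -/
noncomputable def lg (z : ℝ) : ℤ := Int.log 2 z

lemma lg_le {z : ℝ} (hz : 0 < z) : (2 : ℝ) ^ (lg z) ≤ z := by
  have := Int.zpow_log_le_self (b := 2) (by norm_num) hz
  exact_mod_cast this

lemma lt_lg (z : ℝ) : z < (2 : ℝ) ^ (lg z + 1) := by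
  have := Int.lt_zpow_succ_log_self (b := 2) (by norm_num) z
  exact_mod_cast this

lemma lg_eq {z : ℝ} {n : ℤ} (h1 : (2 : ℝ) ^ n ≤ z) (h2 : z < (2 : ℝ) ^ (n + 1)) : lg z = n := by
  have hz : 0 < z := lt_of_lt_of_le (by positivity) h1
  have h3 := lg_le hz
  have h4 := lt_lg z
  have h5 : lg z < n + 1 := by
    have := lt_of_le_of_lt h3 h2
    exact (zpow_lt_zpow_iff_right₀ (by norm_num)).mp this
  have h6 : n < lg z + 1 := by
    have := lt_of_le_of_lt h1 h4
    exact (zpow_lt_zpow_iff_right₀ (by norm_num)).mp this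
  omega

/-- scaled position in `[1, 2)` -/
lemma scaled {z : ℝ} (hz : 0 < z) : 1 ≤ 2 ^ (-lg z) * z ∧ 2 ^ (-lg z) * z < 2 := by
  have hp : (0 : ℝ) < 2 ^ (lg z) := by positivity
  rw [zpow_neg, inv_mul_eq_div]
  constructor
  · rw [le_div_iff₀ hp, one_mul]; exact lg_le hz
  · rw [div_lt_iff₀ hp]
    have := lt_lg z
    rw [zpow_add₀ (by norm_num), zpow_one] at this
    linarith

/-- The map with right germ `(a, 0)` at the origin. -/
noncomputable def phiFun (d : Dat A) (a : A) (z : ℝ) : ℝ :=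
  if z ≤ 0 then z else 2 ^ (lg z) * (bump ^ (sq d a (-lg z))) (2 ^ (-lg z) * z)

lemma phiFun_neg {a : A} {z : ℝ} (hz : z ≤ 0) : phiFun d a z = z := by simp [phiFun, hz]

lemma phiFun_pos {a : A} {z : ℝ} (hz : 0 < z) :
    phiFun d a z = 2 ^ (lg z) * (bump ^ (sq d a (-lg z))) (2 ^ (-lg z) * z) := by
  simp [phiFun, not_le.mpr hz]

lemma phiFun_bounds {a : A} {z : ℝ} (hz : 0 < z) :
    (2 : ℝ) ^ (lg z) ≤ phiFun d a z ∧ phiFun d a z < 2 ^ (lg z + 1) := by
  rw [phiFun_pos hz]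
  obtain ⟨h1, h2⟩ := bump_zpow_mem_lt (sq d a (-lg z)) (scaled hz)
  have hp : (0 : ℝ) < 2 ^ (lg z) := by positivity
  constructor
  · nlinarith
  · rw [zpow_add₀ (by norm_num), zpow_one]; nlinarith

lemma phiFun_posit {a : A} {z : ℝ} (hz : 0 < z) : 0 < phiFun d a z :=
  lt_of_lt_of_le (by positivity) (phiFun_bounds hz).1

lemma lg_phiFun {a : A} {z : ℝ} (hz : 0 < z) : lg (phiFun d a z) = lg z :=
  lg_eq (phiFun_bounds hz).1 (phiFun_bounds hz).2

lemma phiFun_strictMono (a : A) : StrictMono (phiFun d a) := by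
  intro z w hzw
  rcases le_or_gt z 0 with hz | hz
  · rcases le_or_gt w 0 with hw | hw
    · rw [phiFun_neg hz, phiFun_neg hw]; exact hzw
    · rw [phiFun_neg hz]; exact lt_of_le_of_lt hz (phiFun_posit hw)
  · have hw : 0 < w := hz.trans hzw
    have hle : lg z ≤ lg w := by
      by_contra h
      push Not at h
      have h1 := lt_lg w
      have h2 : (2 : ℝ) ^ (lg w + 1) ≤ 2 ^ (lg z) := zpow_le_zpow_right₀ (by norm_num) (by omega)
      have h3 := lg_le hz
      linarith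
    rcases hle.lt_or_eq with h | h
    · have h1 := (phiFun_bounds (d := d) (a := a) hz).2
      have h2 := (phiFun_bounds (d := d) (a := a) hw).1
      have h3 : (2 : ℝ) ^ (lg z + 1) ≤ 2 ^ (lg w) := zpow_le_zpow_right₀ (by norm_num) (by omega)
      linarith
    · rw [phiFun_pos hz, phiFun_pos hw, ← h]
      have hp : (0 : ℝ) < 2 ^ (lg z) := by positivity
      have hp' : (0 : ℝ) < 2 ^ (-lg z) := by positivity
      have h1 : (2 : ℝ) ^ (-lg z) * z < 2 ^ (-lg z) * w := by nlinarith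
      have h2 := (bump ^ (sq d a (-lg z))).strictMono h1
      nlinarith

lemma phiFun_inv (a : A) : Function.RightInverse (phiFun d (-a)) (phiFun d a) := by
  intro z
  rcases le_or_gt z 0 with hz | hz
  · rw [phiFun_neg hz, phiFun_neg hz]
  · rw [phiFun_pos (phiFun_posit hz), lg_phiFun hz, phiFun_pos hz, sq_neg]
    have e1 : (2 : ℝ) ^ (-lg z) * (2 ^ (lg z) *
        (bump ^ (-sq d a (-lg z))) (2 ^ (-lg z) * z)) =
        (bump ^ (-sq d a (-lg z))) (2 ^ (-lg z) * z) := by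
      rw [← mul_assoc, ← zpow_add₀ (by norm_num), neg_add_cancel, zpow_zero, one_mul]
    rw [e1, ← RelIso.mul_apply, ← zpow_add, add_neg_cancel, zpow_zero, RelIso.one_apply,
      ← mul_assoc, ← zpow_add₀ (by norm_num), add_neg_cancel, zpow_zero, one_mul]

/-- The order automorphism with right germ `(a, 0)` at the origin. -/
noncomputable def phi (d : Dat A) (a : A) : ℝ ≃o ℝ :=
  (phiFun_strictMono a).orderIsoOfRightInverse (phiFun d a) (phiFun d (-a)) (phiFun_inv a)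

lemma phi_apply (a : A) (z : ℝ) : phi d a z = phiFun d a z := rfl

/-- conjugate of a power of the bump by a scaling -/
noncomputable def sbump (L n : ℤ) : ℝ ≃o ℝ := aff L 0 * bump ^ n * (aff L 0)⁻¹

lemma aff_inv (L : ℤ) (z : ℝ) : (aff L 0)⁻¹ z = 2 ^ (-L) * z := by
  apply (aff L 0).injective
  rw [RelIso.apply_inv_self, aff_apply, ← mul_assoc, ← zpow_add₀ (by norm_num), add_neg_cancel,
    zpow_zero]; ring

lemma sbump_apply (L n : ℤ) (z : ℝ) : sbump L n z = 2 ^ L * (bump ^ n) (2 ^ (-L) * z) := by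
  unfold sbump
  rw [RelIso.mul_apply, RelIso.mul_apply, aff_inv, aff_apply, add_zero]

lemma sbump_mem (L n : ℤ) : sbump L n ∈ Kloc d :=
  mul_mem (mul_mem (aff_mem _ _) (zpow_mem bump_mem _)) (inv_mem (aff_mem _ _))

lemma phi_eq {a : A} {z : ℝ} {L : ℤ} (h1 : (2 : ℝ) ^ L ≤ z) (h2 : z < 2 ^ (L + 1)) :
    phi d a z = sbump L (sq d a (-L)) z := by
  have hz : 0 < z := lt_of_lt_of_le (by positivity) h1
  rw [phi_apply, phiFun_pos hz, lg_eq h1 h2, sbump_apply]

lemma phi_eq' {a : A} {z : ℝ} {L : ℤ} (h1 : (2 : ℝ) ^ L ≤ z) (h2 : z ≤ 2 ^ (L + 1)) :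
    phi d a z = sbump L (sq d a (-L)) z := by
  rcases h2.lt_or_eq with h | h
  · exact phi_eq h1 h
  · subst h
    have h3 : (2 : ℝ) ^ (L + 1) < 2 ^ (L + 1 + 1) :=
      zpow_lt_zpow_right₀ (by norm_num) (by omega)
    rw [phi_eq le_rfl h3, sbump_apply, sbump_apply]
    have e1 : (2 : ℝ) ^ (-(L + 1)) * 2 ^ (L + 1) = 1 := by
      rw [← zpow_add₀ (by norm_num), neg_add_cancel, zpow_zero]
    have e2 : (2 : ℝ) ^ (-L) * 2 ^ (L + 1) = 2 := by
      rw [← zpow_add₀ (by norm_num)]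
      have : -L + (L + 1) = 1 := by ring
      rw [this, zpow_one]
    rw [e1, e2, bump_zpow_one, bump_zpow_two, zpow_add₀ (by norm_num), zpow_one, mul_one]

lemma phi_RG_zero (a : A) : RG d (phi d a) 0 ⟨a, 0⟩ := by
  refine ⟨0, fun k _ t h1 h2 => ?_⟩
  have hp : (0 : ℝ) < 2 ^ (-k) := by positivity
  have e0 : phi d a 0 = 0 := by rw [phi_apply, phiFun_neg le_rfl]
  have e1 : (2 : ℝ) ^ (-k) ≤ 2 ^ (-k) * t := by nlinarith
  have e2 : (2 : ℝ) ^ (-k) * t ≤ 2 ^ (-k + 1) := by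
    rw [zpow_add₀ (by norm_num), zpow_one]; nlinarith
  simp only
  rw [zero_add, phi_eq' e1 e2, e0, zero_add, sbump_apply, neg_neg, ← mul_assoc,
    ← zpow_add₀ (by norm_num), add_neg_cancel, zpow_zero, one_mul, zero_sub]

lemma phi_mem (a : A) : phi d a ∈ Kloc d := by
  intro y
  constructor
  · rcases lt_trichotomy y 0 with hy | hy | hy
    · exact ⟨1, (RG.one y).congr hy (fun z _ hz => by rw [phi_apply, phiFun_neg hz.le]; rfl)⟩
    · subst hy; exact ⟨_, phi_RG_zero a⟩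
    · obtain ⟨γ, h⟩ := (sbump_mem (d := d) (lg y) (sq d a (-lg y)) y).1
      exact ⟨γ, h.congr (lt_lg y) (fun z hz hz' => phi_eq ((lg_le hy).trans hz) hz')⟩
  · rcases le_or_gt y 0 with hy | hy
    · exact ⟨0, (LG.one y).congr (show y - 1 < y by linarith)
        (fun z _ hz => by rw [phi_apply, phiFun_neg (hz.trans hy)]; rfl)⟩
    · rcases (lg_le hy).lt_or_eq with h1 | h1
      · obtain ⟨m, h⟩ := (sbump_mem (d := d) (lg y) (sq d a (-lg y)) y).2
        exact ⟨m, h.congr h1 (fun z hz hz' => phi_eq hz.le (lt_of_le_of_lt hz' (lt_lg y)))⟩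
      · obtain ⟨m, h⟩ := (sbump_mem (d := d) (lg y - 1) (sq d a (-(lg y - 1))) y).2
        have h2 : (2 : ℝ) ^ (lg y - 1) < y := by
          conv_rhs => rw [← h1]
          exact zpow_lt_zpow_right₀ (by norm_num) (by omega)
        refine ⟨m, h.congr h2 (fun z hz hz' => phi_eq' hz.le ?_)⟩
        have : lg y - 1 + 1 = lg y := by ring
        rw [this, h1]; exact hz'

/-- Two-piece maps between intervals. -/
lemma two_piece (d : Dat A) {a b a' b' : ℝ} (hab : a < b) (hab' : a' < b') :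
    ∃ f ∈ Kloc d, f a = a' ∧ f b = b' := by
  set ρ : ℝ := (b' - a') / (b - a) with hρ
  have hba : 0 < b - a := by linarith
  have hρpos : 0 < ρ := by apply div_pos <;> linarith
  set n := lg ρ with hn
  have h1 := lg_le hρpos
  have h2 := lt_lg ρ
  rw [← hn] at h1 h2
  have hp : (0 : ℝ) < 2 ^ n := by positivity
  have h3 : 2 ^ n * (b - a) ≤ b' - a' := by
    rw [hρ, le_div_iff₀ hba] at h1; exact h1
  have h4 : b' - a' < 2 * (2 ^ n * (b - a)) := by
    rw [hρ, div_lt_iff₀ hba, zpow_add₀ (by norm_num), zpow_one] at h2; linarith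
  set c : ℝ := a + ((b' - a') / 2 ^ n - (b - a)) with hc
  have hcn : 2 ^ n * (c - a) = (b' - a') - 2 ^ n * (b - a) := by
    rw [hc]; field_simp; ring
  have hac : a ≤ c := by nlinarith
  have hcb : c ≤ b := by nlinarith
  have e1 : (2 : ℝ) ^ (n + 1) = 2 * 2 ^ n := by rw [zpow_add₀ (by norm_num), zpow_one]; ring
  have hval : aff (n + 1) (a' - 2 ^ (n + 1) * a) c = aff n (b' - 2 ^ n * b) c := by
    rw [aff_apply, aff_apply, e1]; nlinarith
  refine ⟨glue _ _ c hval, glue_mem hval (aff_mem _ _) (aff_mem _ _), ?_, ?_⟩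
  · rw [glue_le _ hac, aff_apply]; ring
  · rw [glue_ge _ hcb, aff_apply]; ring

/-- bounded support -/
def Bdd : Subgroup (ℝ ≃o ℝ) where
  carrier := {f | ∃ M : ℝ, ∀ z, M ≤ |z| → f z = z}
  mul_mem' := by
    rintro f g ⟨M, hM⟩ ⟨N, hN⟩
    refine ⟨max M N, fun z hz => ?_⟩
    rw [RelIso.mul_apply, hN z ((le_max_right _ _).trans hz), hM z ((le_max_left _ _).trans hz)]
  one_mem' := ⟨0, fun z _ => rfl⟩
  inv_mem' := by
    rintro f ⟨M, hM⟩
    refine ⟨M, fun z hz => ?_⟩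
    conv_lhs => rw [← hM z hz]
    exact RelIso.inv_apply_self f z

/-- The group of locally controlled order automorphisms with bounded support. -/
def KK (d : Dat A) : Subgroup (ℝ ≃o ℝ) := Kloc d ⊓ Bdd

lemma bounding {f : ℝ ≃o ℝ} (hf : f ∈ Kloc d) {p q : ℝ} (hpq : p ≤ q) :
    ∃ g ∈ KK d, ∀ z, p ≤ z → z ≤ q → g z = f z := by
  obtain ⟨lo, hlo⟩ := exists_lt (min p (f p))
  obtain ⟨hi, hhi⟩ := exists_gt (max q (f q))
  have hlo1 : lo < p := lt_of_lt_of_le hlo (min_le_left _ _)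
  have hlo2 : lo < f p := lt_of_lt_of_le hlo (min_le_right _ _)
  have hhi1 : q < hi := lt_of_le_of_lt (le_max_left _ _) hhi
  have hhi2 : f q < hi := lt_of_le_of_lt (le_max_right _ _) hhi
  obtain ⟨u, hu, hu1, hu2⟩ := two_piece d hlo1 hlo2
  obtain ⟨v, hv, hv1, hv2⟩ := two_piece d hhi1 hhi2
  have hA : (1 : ℝ ≃o ℝ) lo = u lo := by rw [hu1]; rfl
  set g1 := glue 1 u lo hA with hg1
  have hB : g1 p = f p := by rw [hg1, glue_ge _ hlo1.le, hu2]
  set g2 := glue g1 f p hB with hg2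
  have hC : g2 q = v q := by rw [hg2, glue_ge _ hpq, hv1]
  set g3 := glue g2 v q hC with hg3
  have hD : g3 hi = (1 : ℝ ≃o ℝ) hi := by rw [hg3, glue_ge _ hhi1.le, hv2]; rfl
  have hmem : glue g3 1 hi hD ∈ Kloc d :=
    glue_mem _ (glue_mem _ (glue_mem _ (glue_mem _ (one_mem _) hu) hf) hv) (one_mem _)
  have hbdd : glue g3 1 hi hD ∈ Bdd := by
    refine ⟨max |lo| |hi|, fun z hz => ?_⟩
    have h1 := (le_max_left _ _).trans hz
    have h2 := (le_max_right _ _).trans hz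
    rcases le_total 0 z with h0 | h0
    · rw [abs_of_nonneg h0] at h2
      rw [glue_ge _ ((le_abs_self hi).trans h2)]; rfl
    · rw [abs_of_nonpos h0] at h1
      have h3 : z ≤ lo := by
        have := neg_abs_le lo
        linarith
      rw [glue_le _ (by linarith), hg3, glue_le _ (by linarith), hg2, glue_le _ (by linarith), hg1,
        glue_le _ h3]; rfl
  refine ⟨_, ⟨hmem, hbdd⟩, fun z hz1 hz2 => ?_⟩
  rw [glue_le _ (by linarith), hg3, glue_le _ hz2, hg2, glue_ge _ hz1]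

end PL

end Pool.Agent.Helper134
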