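import Mathlib
import Pool.Agent.Helper134.Rigid5

set_option autoImplicit false
set_option linter.unusedSectionVars false

open scoped commutatorElement

namespace Pool.Agent.Helper134

namespace GermR

variable {K Ω Γ : Type} [Group K] [LinearOrder Ω] [DenselyOrdered Ω] [NoMaxOrder Ω] [NoMinOrder Ω]
  [Nonempty Ω] [Group Γ] {S : Sys K Ω} (g : GermR S Γ)

section Ordered

variable [PartialOrder K] [MulLeftMono K] [MulRightMono K]

lemma coneQ_isCone (T : TotOn K) (hall : ∀ e : K, 1 < e → S.LT e) : IsCone g.coneQ where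
  mul := by
    intro γ δ hγ hδ
    obtain ⟨x⟩ := ‹Nonempty Ω›
    obtain ⟨f1, hf1, h11, h12⟩ := g.exists_comm x γ
    obtain ⟨f2, hf2, h21, h22⟩ := g.exists_comm x δ
    have hp1 : 1 < f1 := g.pos_of_mem_coneQ T hall hf1 h11 (by rw [h12]; exact hγ)
    have hp2 : 1 < f2 := g.pos_of_mem_coneQ T hall hf2 h21 (by rw [h22]; exact hδ)
    have hfix : ∀ z, z ≤ x → S.act (f1 * f2) z = z := by
      intro z hz
      rw [S.act_mul, h21 z hz, h11 z hz]
    have hD : g.D (f1 * f2) x = γ * δ := by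
      rw [g.D_mul, h21 x le_rfl, h12, h22]
    refine ⟨?_, f1 * f2, one_lt_mul_of_lt_of_le' hp1 hp2.le, x, hfix, hD⟩
    intro h1
    have h2 : γ⁻¹ = δ := (eq_inv_of_mul_eq_one_right h1).symm
    have h3 : 1 < f1⁻¹ := by
      refine g.pos_of_mem_coneQ (a := x) T hall (inv_mem hf1) (fun z hz => ?_) ?_
      · conv_lhs => rw [← h11 z hz, S.act_inv_act]
      · have := g.D_inv f1 x
        rw [h11 x le_rfl] at this
        rw [this, h12, h2]; exact hδ
    exact absurd (one_lt_mul_of_lt_of_le' hp1 h3.le) (by simp)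
  conj := by
    intro γ c hγ
    obtain ⟨x⟩ := ‹Nonempty Ω›
    obtain ⟨f1, hf1, h11, h12⟩ := g.exists_comm x γ
    obtain ⟨f2, h21, h22⟩ := g.D_surj x c
    have hp1 : 1 < f1 := g.pos_of_mem_coneQ T hall hf1 h11 (by rw [h12]; exact hγ)
    have hinv : ∀ z, z ≤ x → S.act f2⁻¹ z = z := by
      intro z hz
      conv_lhs => rw [← h21 z hz, S.act_inv_act]
    have hDinv : g.D f2⁻¹ x = c⁻¹ := by
      have := g.D_inv f2 x
      rw [h21 x le_rfl, h22] at this
      exact this
    refine ⟨?_, f2 * f1 * f2⁻¹, Sys.conj_pos f2 hp1, x, fun z hz => ?_, ?_⟩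
    · intro h
      apply hγ.1
      have := congrArg (fun t => c⁻¹ * t * c) h
      simpa [mul_assoc] using this
    · rw [S.act_mul, S.act_mul, hinv z hz, h11 z hz, h21 z hz]
    · rw [g.D_mul, g.D_mul, hinv x le_rfl, h11 x le_rfl, h22, h12, hDinv]
  one := fun h => h.1 rfl
  total := by
    intro γ
    by_cases hγ : γ = 1
    · exact Or.inl hγ
    right
    obtain ⟨x⟩ := ‹Nonempty Ω›
    obtain ⟨f1, hf1, h11, h12⟩ := g.exists_comm x γ
    rcases T.tot f1 hf1 with h | h | h
    · exfalso; apply hγ; rw [← h12, h, g.D_one]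
    · exact Or.inl ⟨hγ, f1, h, x, h11, h12⟩
    · right
      refine ⟨fun h => hγ (inv_eq_one.mp h), f1⁻¹, Left.one_lt_inv_iff.mpr h, x, fun z hz => ?_, ?_⟩
      · conv_lhs => rw [← h11 z hz, S.act_inv_act]
      · have := g.D_inv f1 x
        rw [h11 x le_rfl, h12] at this
        exact this

lemma pos_iff (T : TotOn K) (hall : ∀ e : K, 1 < e → S.LT e) (f : commutator K) :
    1 < (f : K) ↔ f ∈ g.coneL g.coneQ := by
  constructor
  · intro hf
    obtain ⟨a, ha, hDa⟩ := g.leftend (f : K) hf.ne'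
    exact ⟨a, ha, hDa, (f : K), hf, a, ha, rfl⟩
  · rintro ⟨a, ha, hDa⟩
    exact g.pos_of_mem_coneQ T hall f.2 ha hDa

end Ordered

/-- A partial order on `K` from a cone. -/
@[reducible] def coneOrder {K : Type} [Group K] (P : Set K) (hmul : ∀ {a b}, a ∈ P → b ∈ P → a * b ∈ P)
    (hone : (1 : K) ∉ P) : PartialOrder K where
  le x y := x = y ∨ x⁻¹ * y ∈ P
  le_refl x := Or.inl rfl
  le_trans x y z := by
    rintro (h | h) (h' | h')
    · exact Or.inl (h.trans h')
    · rw [h]; exact Or.inr h'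
    · rw [← h']; exact Or.inr h
    · right
      have := hmul h h'
      simpa [mul_assoc] using this
  le_antisymm x y := by
    rintro (h | h) (h' | h')
    · exact h
    · exact h
    · exact h'.symm
    · exfalso
      have := hmul h h'
      apply hone
      simpa [mul_assoc] using this

variable {Γ' : Type} [Group Γ'] (g' : GermR S.dual Γ')

include g g' in
lemma classify {P : Set (commutator K)} (hP : IsCone P) :
    (∃ Q : Set Γ, IsCone Q ∧ g.coneL Q = P) ∨ (∃ Q : Set Γ', IsCone Q ∧ g'.coneL Q = P) := by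
  classical
  set PK : Set K := {k | ∃ h : k ∈ commutator K, (⟨k, h⟩ : commutator K) ∈ P} with hPK
  have hmul : ∀ {a b}, a ∈ PK → b ∈ PK → a * b ∈ PK := by
    rintro a b ⟨ha, ha'⟩ ⟨hb, hb'⟩
    exact ⟨mul_mem ha hb, hP.mul ha' hb'⟩
  have hone : (1 : K) ∉ PK := by
    rintro ⟨h, h'⟩
    exact hP.one h'
  have hconj : ∀ {a} (k : K), a ∈ PK → k * a * k⁻¹ ∈ PK := by
    rintro a k ⟨ha, ha'⟩
    obtain ⟨k', hk', hk''⟩ := S.conj_approx k a
    have h1 := hP.conj (⟨k', hk'⟩ : commutator K) ha'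
    rw [← hk'']
    exact ⟨_, h1⟩
  let _ : PartialOrder K := coneOrder PK hmul hone
  have hle : ∀ x y : K, x ≤ y ↔ x = y ∨ x⁻¹ * y ∈ PK := fun x y => Iff.rfl
  have : MulLeftMono K := ⟨fun c x y h => by
    change c * x ≤ c * y
    rw [hle] at h ⊢
    rcases h with h | h
    · exact Or.inl (by rw [h])
    · right
      have : (c * x)⁻¹ * (c * y) = x⁻¹ * y := by group
      rw [this]; exact h⟩
  have : MulRightMono K := ⟨fun c x y h => by
    change x * c ≤ y * c
    rw [hle] at h ⊢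
    rcases h with h | h
    · exact Or.inl (by rw [h])
    · right
      have : (x * c)⁻¹ * (y * c) = c⁻¹ * (x⁻¹ * y) * c⁻¹⁻¹ := by group
      rw [this]; exact hconj _ h⟩
  have hlt : ∀ x : K, 1 < x ↔ x ∈ PK := by
    intro x
    constructor
    · intro h
      rcases (hle 1 x).mp h.le with h1 | h1
      · exact absurd h1 h.ne
      · simpa using h1
    · intro h
      refine lt_of_le_of_ne ((hle 1 x).mpr (Or.inr (by simpa using h))) ?_
      intro h1; rw [← h1] at h; exact hone h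
  have T : TotOn K := {
    pos := fun x hx => ((hlt x).mp hx).1
    tot := fun x hx => by
      rcases hP.total (⟨x, hx⟩ : commutator K) with h | h | h
      · left; exact congrArg Subtype.val h
      · right; left; exact (hlt x).mpr ⟨hx, h⟩
      · right; right
        have : 1 < x⁻¹ := (hlt _).mpr ⟨inv_mem hx, h⟩
        exact Left.one_lt_inv_iff.mp this }
  have hPmem : ∀ f : commutator K, f ∈ P ↔ 1 < (f : K) := by
    intro f
    rw [hlt]
    exact ⟨fun h => ⟨f.2, h⟩, fun ⟨_, h⟩ => h⟩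
  rcases S.all_LT_or_all_RT T with hall | hall
  · left
    refine ⟨g.coneQ, g.coneQ_isCone T hall, ?_⟩
    ext f
    rw [hPmem, g.pos_iff T hall]
  · right
    have hall' : ∀ e : K, 1 < e → S.dual.LT e := by
      intro e he a b h hs hb N
      -- `h` moves the support to the left of itself in the original order
      have key : ∀ (a b : Ω), S.Supp e b a → S.act h a < b → (h * e * h⁻¹) ^ N < e := by
        intro a b hs' hb0
        have hb' : a < S.act h⁻¹ b := by
          rw [← S.act_lt_iff h, S.act_act_inv]; exact hb0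
        have h1 := hall e he b a h⁻¹ hs' hb' N
        have h2 := conj_lt h h1
        rw [← conj_pow'] at h2
        have e1 : h * (h⁻¹ * e * h⁻¹⁻¹) * h⁻¹ = e := by group
        rw [e1] at h2
        exact h2
      exact key a b ⟨hs.2, hs.1⟩ hb
    refine ⟨g'.coneQ, g'.coneQ_isCone T hall', ?_⟩
    ext f
    rw [hPmem, g'.pos_iff T hall']

include g g' in
lemma disjoint_types {Q : Set Γ} {Q' : Set Γ'} (hQ : IsCone Q) (hQ' : IsCone Q')
    (h : g.coneL Q = g'.coneL Q') : False := by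
  obtain ⟨x⟩ := ‹Nonempty Ω›
  obtain ⟨y, hxy⟩ := exists_gt x
  obtain ⟨z, hyz⟩ := exists_gt y
  -- a nontrivial element of the commutator subgroup
  have hex : ∃ f : commutator K, f ∈ g.coneL Q := by
    obtain ⟨k, hk1, hk2⟩ := S.trans x y x z hxy (hxy.trans hyz)
    obtain ⟨k', hk', hk''⟩ := S.approx_le k y
    have hne : (⟨k', hk'⟩ : commutator K) ≠ 1 := by
      intro h1
      have h2 : k' = 1 := congrArg Subtype.val h1
      have h3 := hk'' y le_rfl
      rw [h2, S.act_one, hk2] at h3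
      exact hyz.ne h3
    rcases (g.coneL_isCone hQ).total (⟨k', hk'⟩ : commutator K) with h1 | h1 | h1
    · exact absurd h1 hne
    · exact ⟨_, h1⟩
    · exact ⟨_, h1⟩
  obtain ⟨f, hf⟩ := hex
  have hf1 : (f : K) ≠ 1 := by
    intro h1
    apply (g.coneL_isCone hQ).one
    have : f = 1 := Subtype.ext h1
    rw [← this]; exact hf
  obtain ⟨a, ha, hDa⟩ := hf
  obtain ⟨a0, b, hab, hs1, hs2⟩ := S.bdd (f : K)
  have hab' : a < b := by
    by_contra hcon
    push Not at hcon
    apply hf1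
    apply S.faithful
    intro t
    rcases le_total t a with ht | ht
    · exact ha t ht
    · exact hs2 t (hcon.trans ht)
  -- move it to the right
  obtain ⟨h0, hh0⟩ := S.exists_far a b b hab'
  obtain ⟨k, hk, hk2⟩ := S.conj_approx h0 (f : K)
  set w : commutator K := f * (⟨k, hk⟩ * f * (⟨k, hk⟩ : commutator K)⁻¹)⁻¹ with hw
  have hwv : (w : K) = (f : K) * (h0 * (f : K) * h0⁻¹)⁻¹ := by
    rw [hw, ← hk2]; rfl
  have hs : S.Supp (f : K) a b := ⟨ha, hs2⟩
  have hsc := hs.conj h0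
  have hw1 : w ∈ g.coneL Q := by
    refine ⟨a, fun t ht => ?_, ?_⟩
    · rw [hwv, S.act_mul, hsc.inv.1 t (ht.trans (hab'.le.trans hh0.le)), ha t ht]
    · rw [hwv, g.D_mul, hsc.inv.1 a (hab'.le.trans hh0.le)]
      rw [g.D_one_of_fix (h0 * (f : K) * h0⁻¹)⁻¹ a b hab' (fun t _ ht => hsc.inv.1 t (ht.trans hh0.le)),
        mul_one]
      exact hDa
  -- but from the right it is negative
  have hw2 : w⁻¹ ∈ g'.coneL Q' := by
    have hfQ' : f ∈ g'.coneL Q' := by rw [← h]; exact ⟨a, ha, hDa⟩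
    change ∃ c : Ω, (∀ t : Ω, c ≤ t → S.act (f : K) t = t) ∧ g'.D (f : K) c ∈ Q' at hfQ'
    obtain ⟨c, hc', hDc⟩ := hfQ'
    change ∃ c : Ω, (∀ t : Ω, c ≤ t → S.act ((w⁻¹ : commutator K) : K) t = t) ∧
      g'.D ((w⁻¹ : commutator K) : K) c ∈ Q'
    have hinv : w⁻¹ = (⟨k, hk⟩ * f * (⟨k, hk⟩ : commutator K)⁻¹) * f⁻¹ := by
      rw [hw]; group
    have hwv2 : ((w⁻¹ : commutator K) : K) = (h0 * (f : K) * h0⁻¹) * (f : K)⁻¹ := by
      rw [hinv, ← hk2]; rfl
    have hac : a < c := by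
      by_contra hcon
      push Not at hcon
      apply hf1
      apply S.faithful
      intro t
      rcases le_total t a with ht | ht
      · exact ha t ht
      · exact hc' t (hcon.trans ht)
    have hbc : b < S.act h0 c := hh0.trans (S.act_lt h0 hac)
    have hfinv : ∀ t : Ω, b ≤ t → S.act (f : K)⁻¹ t = t := hs.inv.2
    refine ⟨S.act h0 c, fun t ht' => ?_, ?_⟩
    · have e1 : S.act (f : K)⁻¹ t = t := hfinv t (hbc.le.trans ht')
      have e2 : c ≤ S.act h0⁻¹ t := by
        rw [← S.act_le_iff h0, S.act_act_inv]; exact ht'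
      rw [hwv2, S.act_mul, e1, S.act_mul, S.act_mul, hc' _ e2, S.act_act_inv]
    · have e1 : S.act (f : K)⁻¹ (S.act h0 c) = S.act h0 c := hfinv _ hbc.le
      rw [hwv2, g'.D_mul]
      have e3 : g'.D (f : K)⁻¹ (S.act h0 c) = 1 := by
        apply g'.D_one_of_fix (f : K)⁻¹ (S.act h0 c) b hbc
        intro t _ ht
        exact hfinv t ht
      rw [e3, mul_one]
      have e4 : S.dual.act (f : K)⁻¹ (S.act h0 c) = S.act h0 c := e1
      rw [e4, g'.D_mul, g'.D_mul]
      have e5 : S.dual.act h0⁻¹ (S.act h0 c) = c := S.act_inv_act h0 c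
      have e6 : S.dual.act (f : K) c = c := hc' c le_rfl
      rw [e5, e6]
      have e7 : g'.D h0⁻¹ (S.act h0 c) = (g'.D h0 c)⁻¹ := g'.D_inv h0 c
      rw [e7]
      exact hQ'.conj _ hDc
  rw [h] at hw1
  have h3 := (g'.coneL_isCone hQ').mul hw1 hw2
  rw [mul_inv_cancel] at h3
  exact (g'.coneL_isCone hQ').one h3

include g g' in
/-- The number of two-sided orders of the commutator subgroup. -/
theorem encard_cones :
    {P : Set (commutator K) | IsCone P}.encard =
      {Q : Set Γ | IsCone Q}.encard + {Q : Set Γ' | IsCone Q}.encard := by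
  have h1 : {P : Set (commutator K) | IsCone P} =
      g.coneL '' {Q : Set Γ | IsCone Q} ∪ g'.coneL '' {Q : Set Γ' | IsCone Q} := by
    ext P
    constructor
    · intro hP
      rcases g.classify g' hP with ⟨Q, hQ, rfl⟩ | ⟨Q, hQ, rfl⟩
      · exact Or.inl ⟨Q, hQ, rfl⟩
      · exact Or.inr ⟨Q, hQ, rfl⟩
    · rintro (⟨Q, hQ, rfl⟩ | ⟨Q, hQ, rfl⟩)
      · exact g.coneL_isCone hQ
      · exact g'.coneL_isCone hQ
  have : Nonempty Ωᵒᵈ := ‹Nonempty Ω›
  rw [h1, Set.encard_union_eq, Set.InjOn.encard_image, Set.InjOn.encard_image]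
  · intro Q hQ Q' hQ' h
    exact g'.coneL_injective hQ hQ' h
  · intro Q hQ Q' hQ' h
    exact g.coneL_injective hQ hQ' h
  · rw [Set.disjoint_left]
    rintro P ⟨Q, hQ, rfl⟩ ⟨Q', hQ', h⟩
    exact g.disjoint_types g' hQ hQ' h.symm

end GermR

end Pool.Agent.Helper134
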