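import Mathlib
import Pool.Agent.Helper134.PL3
import Pool.Agent.Helper134.Rigid6

set_option autoImplicit false
set_option linter.unusedSectionVars false

namespace Pool.Agent.Helper134

namespace PL

variable {A : Type} [CommRing A] (d : Dat A)

lemma mul_val (f g : KK d) : ((f * g : KK d) : ℝ ≃o ℝ) = (f : ℝ ≃o ℝ) * (g : ℝ ≃o ℝ) := rfl

/-- The system. -/
noncomputable def sys : Sys (KK d) ℝ where
  act := fun f z => (f : ℝ ≃o ℝ) z
  act_one := fun _ => rfl
  act_mul := fun _ _ _ => rfl
  act_lt := fun f _ _ h => (f : ℝ ≃o ℝ).strictMono h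
  faithful := by
    intro f h
    apply Subtype.ext
    apply RelIso.ext
    intro z
    exact h z
  bdd := by
    intro f
    obtain ⟨M, hM⟩ := f.2.2
    refine ⟨-(|M| + 1), |M| + 1, ?_, fun z hz => ?_, fun z hz => ?_⟩
    · have := abs_nonneg M; linarith
    · apply hM
      have h1 := le_abs_self M
      have h2 := neg_le_abs z
      linarith
    · apply hM
      have h1 := le_abs_self M
      have h2 := le_abs_self z
      linarith
  glue := by
    intro f g x h
    refine ⟨⟨glue (f : ℝ ≃o ℝ) (g : ℝ ≃o ℝ) x h, glue_mem h f.2.1 g.2.1, ?_⟩, ?_, ?_⟩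
    · obtain ⟨M, hM⟩ := f.2.2
      obtain ⟨N, hN⟩ := g.2.2
      refine ⟨max M N, fun z hz => ?_⟩
      rcases le_total z x with h1 | h1
      · rw [glue_le h h1]; exact hM z ((le_max_left _ _).trans hz)
      · rw [glue_ge h h1]; exact hN z ((le_max_right _ _).trans hz)
    · intro z hz; exact glue_le h hz
    · intro z hz; exact glue_ge h hz
  trans := by
    intro a b a' b' h h'
    obtain ⟨f, hf, h1, h2⟩ := two_piece d h h'
    obtain ⟨g, hg, h3⟩ := bounding hf h.le
    exact ⟨⟨g, hg⟩, by show g a = a'; rw [h3 a le_rfl h.le, h1],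
      by show g b = b'; rw [h3 b h.le le_rfl, h2]⟩

/-- The right germ. -/
noncomputable def DR (f : KK d) (y : ℝ) : Gm d.x := ((f.2.1 y).1).choose

lemma DR_spec (f : KK d) (y : ℝ) : RG d (f : ℝ ≃o ℝ) y (DR d f y) := ((f.2.1 y).1).choose_spec

lemma DR_eq {f : KK d} {y : ℝ} {γ : Gm d.x} (h : RG d (f : ℝ ≃o ℝ) y γ) : DR d f y = γ :=
  (DR_spec d f y).unique h

/-- The left derivative. -/
noncomputable def DL (f : KK d) (y : ℝ) : Multiplicative ℤ :=
  Multiplicative.ofAdd ((f.2.1 y).2).choose

lemma DL_spec (f : KK d) (y : ℝ) : LG (f : ℝ ≃o ℝ) y (Multiplicative.toAdd (DL d f y)) :=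
  ((f.2.1 y).2).choose_spec

lemma DL_eq {f : KK d} {y : ℝ} {m : ℤ} (h : LG (f : ℝ ≃o ℝ) y m) :
    DL d f y = Multiplicative.ofAdd m := by
  have := (DL_spec d f y).unique h
  rw [← this]; rfl

lemma fix_at_inf {f : ℝ ≃o ℝ} {a : ℝ} (h : ∀ z, z < a → f z = z) : f a = a := by
  rcases lt_trichotomy (f a) a with h1 | h1 | h1
  · obtain ⟨z, hz1, hz2⟩ := exists_between h1
    have h2 := f.strictMono hz2
    rw [h z hz2] at h2
    exact absurd h2 (not_lt_of_gt hz1)
  · exact h1
  · obtain ⟨z, hz1, hz2⟩ := exists_between h1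
    have h2 : f (f.symm z) = z := f.apply_symm_apply z
    rcases lt_or_ge (f.symm z) a with h3 | h3
    · rw [h _ h3] at h2
      rw [h2] at h3
      exact absurd h3 (not_lt_of_gt hz1)
    · have := f.monotone h3
      rw [h2] at this
      exact absurd hz2 (not_lt_of_ge this)

lemma fix_at_sup {f : ℝ ≃o ℝ} {a : ℝ} (h : ∀ z, a < z → f z = z) : f a = a := by
  rcases lt_trichotomy (f a) a with h1 | h1 | h1
  · obtain ⟨z, hz1, hz2⟩ := exists_between h1
    have h2 : f (f.symm z) = z := f.apply_symm_apply z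
    rcases lt_or_ge a (f.symm z) with h3 | h3
    · rw [h _ h3] at h2
      rw [h2] at h3
      exact absurd h3 (not_lt_of_gt hz2)
    · have := f.monotone h3
      rw [h2] at this
      exact absurd hz1 (not_lt_of_ge this)
  · exact h1
  · obtain ⟨z, hz1, hz2⟩ := exists_between h1
    have h2 := f.strictMono hz1
    rw [h z hz1] at h2
    exact absurd h2 (not_lt_of_gt hz2)

/-- The right germs of the system. -/
noncomputable def germR : GermR (sys d) (Gm d.x) where
  D := DR d
  D_mul := by
    intro f g x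
    exact DR_eq d ((DR_spec d g x).mul (DR_spec d f ((g : ℝ ≃o ℝ) x)))
  D_one_of_fix := by
    intro f x y hxy h
    apply DR_eq
    exact (RG.one x).congr hxy (fun z hz hz' => h z hz hz'.le)
  fix_of_D_one := by
    intro f x hx hD
    obtain ⟨K0, h⟩ := DR_spec d f x
    have hx' : (f : ℝ ≃o ℝ) x = x := hx
    rw [hD, Gm.one_def] at h
    simp only at h
    refine ⟨x + 2 ^ (-K0), by have : (0 : ℝ) < 2 ^ (-K0) := by positivity
                              linarith, ?_⟩
    intro z hz1 hz2
    rcases hz1.lt_or_eq with h1 | h1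
    · have hpos : 0 < z - x := by linarith
      have hk : K0 ≤ -lg (z - x) := by
        have h3 := lg_le hpos
        have h4 : (2 : ℝ) ^ (lg (z - x)) ≤ 2 ^ (-K0) := by linarith
        have h5 := (zpow_le_zpow_iff_right₀ (show (1 : ℝ) < 2 by norm_num)).mp h4
        linarith
      obtain ⟨h3, h4⟩ := scaled hpos
      have h5 := h _ hk _ h3 h4.le
      rw [sq_zero, zpow_zero, RelIso.one_apply, neg_neg, ← mul_assoc,
        ← zpow_add₀ (by norm_num), add_neg_cancel, zpow_zero, one_mul, zero_sub, neg_neg,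
        ← mul_assoc, ← zpow_add₀ (by norm_num), add_neg_cancel, zpow_zero, one_mul, hx'] at h5
      have h6 : x + (z - x) = z := by ring
      rw [h6] at h5
      exact h5
    · rw [← h1]; exact hx
  D_surj := by
    intro y γ
    -- the model map
    set f0 : ℝ ≃o ℝ := aff 0 y * aff γ.m 0 * phi d γ.a * aff 0 (-y) with hf0
    have hf0m : f0 ∈ Kloc d :=
      mul_mem (mul_mem (mul_mem (aff_mem _ _) (aff_mem _ _)) (phi_mem _)) (aff_mem _ _)
    have e1 : aff 0 (-y) y = 0 := by rw [aff_apply]; simp
    have e2 : phi d γ.a 0 = 0 := by rw [phi_apply, phiFun_neg le_rfl]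
    have e3 : aff γ.m 0 0 = 0 := by rw [aff_apply]; simp
    have e4 : aff 0 y 0 = y := by rw [aff_apply]; simp
    have hf0y : f0 y = y := by
      rw [hf0, RelIso.mul_apply, RelIso.mul_apply, RelIso.mul_apply, e1, e2, e3, e4]
    have hRG : RG d f0 y γ := by
      have h1 : RG d (aff 0 (-y)) y ⟨0, 0⟩ := RG.aff _ _ _
      have h2 : RG d (phi d γ.a) (aff 0 (-y) y) ⟨γ.a, 0⟩ := by rw [e1]; exact phi_RG_zero _
      have h3 := h1.mul h2
      have h4 : RG d (aff γ.m 0) ((phi d γ.a * aff 0 (-y)) y) ⟨0, γ.m⟩ := RG.aff _ _ _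
      have h5 := h3.mul h4
      have h6 : RG d (aff 0 y) ((aff γ.m 0 * (phi d γ.a * aff 0 (-y))) y) ⟨0, 0⟩ := RG.aff _ _ _
      have h7 := h5.mul h6
      have h8 : aff 0 y * (aff γ.m 0 * (phi d γ.a * aff 0 (-y))) = f0 := by
        rw [hf0]; simp only [mul_assoc]
      rw [h8] at h7
      have h9 : (⟨0, 0⟩ : Gm d.x) * (⟨0, γ.m⟩ * (⟨γ.a, 0⟩ * ⟨0, 0⟩)) = γ := by
        simp [Gm.mul_def]
      rwa [h9] at h7
    obtain ⟨g, hg, hgf⟩ := bounding hf0m (show y ≤ y + 1 by linarith)
    have hgy : (1 : ℝ ≃o ℝ) y = g y := by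
      rw [hgf y le_rfl (by linarith), hf0y]; rfl
    refine ⟨⟨glue 1 g y hgy, glue_mem hgy (one_mem _) hg.1, ?_⟩, ?_, ?_⟩
    · obtain ⟨M, hM⟩ := hg.2
      refine ⟨M, fun z hz => ?_⟩
      rcases le_total z y with h1 | h1
      · rw [glue_le hgy h1]; rfl
      · rw [glue_ge hgy h1]; exact hM z hz
    · intro z hz
      show glue 1 g y hgy z = z
      rw [glue_le hgy hz]; rfl
    · apply DR_eq
      apply hRG.congr (show y < y + 1 by linarith)
      intro z hz1 hz2
      show glue 1 g y hgy z = f0 z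
      rw [glue_ge hgy hz1, hgf z hz1 hz2.le]
  D_trans := by
    intro x x'
    obtain ⟨g, hg, hgf⟩ := bounding (aff_mem (d := d) 0 (x' - x)) (show x ≤ x + 1 by linarith)
    refine ⟨⟨g, hg⟩, ?_, ?_⟩
    · show g x = x'
      rw [hgf x le_rfl (by linarith), aff_apply]; simp
    · apply DR_eq
      have h1 : RG d (aff 0 (x' - x)) x (1 : Gm d.x) := RG.aff _ _ _
      exact h1.congr (show x < x + 1 by linarith) (fun z hz1 hz2 => hgf z hz1 hz2.le)
  leftend := by
    intro f hf
    set s : Set ℝ := {z | (f : ℝ ≃o ℝ) z ≠ z} with hs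
    have hne : s.Nonempty := by
      by_contra hcon
      rw [Set.not_nonempty_iff_eq_empty] at hcon
      apply hf
      apply (sys d).faithful
      intro z
      by_contra hz
      have : z ∈ s := hz
      rw [hcon] at this
      exact this
    obtain ⟨lo, hi, _, hlo, _⟩ := (sys d).bdd f
    have hbdd : BddBelow s := by
      refine ⟨lo, fun z hz => ?_⟩
      by_contra hcon
      push Not at hcon
      exact hz (hlo z hcon.le)
    have hbelow : ∀ z, z < sInf s → (f : ℝ ≃o ℝ) z = z := by
      intro z hz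
      by_contra hcon
      exact absurd (csInf_le hbdd hcon) (not_le_of_gt hz)
    have hat := fix_at_inf hbelow
    refine ⟨sInf s, fun z hz => ?_, fun hD => ?_⟩
    · rcases hz.lt_or_eq with h | h
      · exact hbelow z h
      · rw [h]; exact hat
    · obtain ⟨K0, h⟩ := DR_spec d f (sInf s)
      have hat' := hat
      rw [hD, Gm.one_def] at h
      simp only at h
      -- fixed on a right neighbourhood
      have hfix : ∀ z, sInf s ≤ z → z ≤ sInf s + 2 ^ (-K0) → (f : ℝ ≃o ℝ) z = z := by
        intro z hz1 hz2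
        rcases hz1.lt_or_eq with h1 | h1
        · have hpos : 0 < z - sInf s := by linarith
          have hk : K0 ≤ -lg (z - sInf s) := by
            have h3 := lg_le hpos
            have h4 : (2 : ℝ) ^ (lg (z - sInf s)) ≤ 2 ^ (-K0) := by linarith
            have h5 := (zpow_le_zpow_iff_right₀ (show (1 : ℝ) < 2 by norm_num)).mp h4
            linarith
          obtain ⟨h3, h4⟩ := scaled hpos
          have h5 := h _ hk _ h3 h4.le
          rw [sq_zero, zpow_zero, RelIso.one_apply, neg_neg, ← mul_assoc,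
            ← zpow_add₀ (by norm_num), add_neg_cancel, zpow_zero, one_mul, zero_sub, neg_neg,
            ← mul_assoc, ← zpow_add₀ (by norm_num), add_neg_cancel, zpow_zero, one_mul, hat] at h5
          have h6 : sInf s + (z - sInf s) = z := by ring
          rw [h6] at h5
          exact h5
        · rw [← h1]; exact hat
      have hlt : sInf s < sInf s + 2 ^ (-K0) := by
        have : (0 : ℝ) < 2 ^ (-K0) := by positivity
        linarith
      obtain ⟨z, hz, hz2⟩ := exists_lt_of_csInf_lt hne hlt
      exact hz (hfix z (csInf_le hbdd hz) hz2.le)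

lemma left_fix (f : KK d) (x : ℝ) (hx : (f : ℝ ≃o ℝ) x = x) (hD : DL d f x = 1) :
    ∃ y : ℝ, y < x ∧ ∀ z : ℝ, y ≤ z → z ≤ x → (f : ℝ ≃o ℝ) z = z := by
  have h0 := DL_spec d f x
  rw [hD] at h0
  obtain ⟨ε, hε, h⟩ := h0
  rw [hx, toAdd_one, zpow_zero] at h
  refine ⟨x - ε, by linarith, ?_⟩
  intro z hz1 hz2
  have := h (x - z) (by linarith) (by linarith)
  have e1 : x - (x - z) = z := by ring
  rw [e1, one_mul, e1] at this
  exact this

/-- The left germs of the system. -/
noncomputable def germL : GermR (sys d).dual (Multiplicative ℤ) where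
  D := DL d
  D_mul := by
    intro f g x
    exact DL_eq d ((DL_spec d g x).mul (DL_spec d f ((g : ℝ ≃o ℝ) x)))
  D_one_of_fix := by
    intro f x y hxy h
    have : DL d f x = Multiplicative.ofAdd 0 := by
      apply DL_eq
      exact (LG.one (x : ℝ)).congr (y' := (y : ℝ)) hxy (fun z hz hz' => h z hz' (le_of_lt hz))
    exact this
  fix_of_D_one := by
    intro f x hx hD
    obtain ⟨y, h1, h2⟩ := left_fix d f x hx hD
    exact ⟨y, h1, fun z hz1 hz2 => h2 z hz2 hz1⟩
  D_surj := by
    intro y γ
    change ℝ at y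
    set n : ℤ := Multiplicative.toAdd γ with hn
    have hlin : aff n (y - 2 ^ n * y) y = y := by rw [aff_apply]; ring
    obtain ⟨g, hg, hgf⟩ := bounding (aff_mem (d := d) n (y - 2 ^ n * y))
      (show y - 1 ≤ y by linarith)
    have hgy : g y = (1 : ℝ ≃o ℝ) y := by
      rw [hgf y (by linarith) le_rfl, hlin]; rfl
    have hbd : glue g 1 y hgy ∈ Bdd := by
      obtain ⟨M, hM⟩ := hg.2
      refine ⟨M, fun z hz => ?_⟩
      rcases le_total z y with h1 | h1
      · rw [glue_le hgy h1]; exact hM z hz
      · rw [glue_ge hgy h1]; rfl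
    refine ⟨⟨glue g 1 y hgy, glue_mem hgy hg.1 (one_mem _), hbd⟩, ?_, ?_⟩
    · intro z hz
      show glue g 1 y hgy z = z
      have hz' : y ≤ (z : ℝ) := hz
      rw [glue_ge hgy hz']; rfl
    · have : DL d ⟨glue g 1 y hgy, glue_mem hgy hg.1 (one_mem _), hbd⟩ y =
          Multiplicative.ofAdd n := by
        apply DL_eq
        apply (LG.aff n (y - 2 ^ n * y) y).congr (show y - 1 < y by linarith)
        intro z hz1 hz2
        show glue g 1 y hgy z = _
        rw [glue_le hgy hz2, hgf z hz1.le hz2]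
      exact this
  D_trans := by
    intro x x'
    change ℝ at x x'
    obtain ⟨g, hg, hgf⟩ := bounding (aff_mem (d := d) 0 (x' - x)) (show x - 1 ≤ x by linarith)
    refine ⟨⟨g, hg⟩, ?_, ?_⟩
    · show g x = x'
      rw [hgf x (by linarith) le_rfl, aff_apply]; simp
    · have : DL d ⟨g, hg⟩ x = Multiplicative.ofAdd 0 := by
        apply DL_eq
        have h1 : LG (aff 0 (x' - x)) x 0 := LG.aff _ _ _
        exact h1.congr (show x - 1 < x by linarith) (fun z hz1 hz2 => hgf z hz1.le hz2)
      exact this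
  leftend := by
    intro f hf
    set s : Set ℝ := {z | (f : ℝ ≃o ℝ) z ≠ z} with hs
    have hne : s.Nonempty := by
      by_contra hcon
      rw [Set.not_nonempty_iff_eq_empty] at hcon
      apply hf
      apply (sys d).faithful
      intro z
      by_contra hz
      have : z ∈ s := hz
      rw [hcon] at this
      exact this
    obtain ⟨lo, hi, _, _, hhi⟩ := (sys d).bdd f
    have hbdd : BddAbove s := by
      refine ⟨hi, fun z hz => ?_⟩
      by_contra hcon
      push Not at hcon
      exact hz (hhi z hcon.le)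
    have habove : ∀ z, sSup s < z → (f : ℝ ≃o ℝ) z = z := by
      intro z hz
      by_contra hcon
      exact absurd (le_csSup hbdd hcon) (not_le_of_gt hz)
    have hat := fix_at_sup habove
    refine ⟨(sSup s : ℝ), fun z hz => ?_, fun hD => ?_⟩
    · have hz' : sSup s ≤ (z : ℝ) := hz
      show (f : ℝ ≃o ℝ) z = z
      rcases hz'.lt_or_eq with h | h
      · exact habove z h
      · rw [← h]; exact hat
    · have h0 := DL_spec d f (sSup s)
      rw [hD] at h0
      obtain ⟨ε, hε, h⟩ := h0
      rw [hat, toAdd_one, zpow_zero] at h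
      obtain ⟨z, hz, hz2⟩ := exists_lt_of_lt_csSup hne (show sSup s - ε < sSup s by linarith)
      have hz3 := le_csSup hbdd hz
      have := h (sSup s - z) (by linarith) (by linarith)
      have e1 : sSup s - (sSup s - z) = z := by ring
      rw [e1, one_mul, e1] at this
      exact hz this

/-- The number of orders of the commutator subgroup of `KK d`. -/
theorem encard_commutator :
    {P : Set (commutator (KK d)) | IsCone P}.encard =
      {Q : Set (Gm d.x) | IsCone Q}.encard + {Q : Set (Multiplicative ℤ) | IsCone Q}.encard :=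
  GermR.encard_cones (germR d) (germL d)

end PL

end Pool.Agent.Helper134
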