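import Mathlib
import Pool.Agent.Helper134.NumF
import Pool.Agent.Helper134.PL4

set_option autoImplicit false
set_option linter.unusedSectionVars false

open Polynomial

namespace Pool.Agent.Helper134

lemma fr_irreducible (r : ℕ) (hr : 0 < r) : Irreducible (fr r) := by
  rw [(fr_monic r).irreducible_iff_natDegree]
  refine ⟨?_, ?_⟩
  · intro h
    have := fr_natDegree r
    rw [h, natDegree_one] at this
    omega
  · intro g h hg hh hgh
    by_contra hcon
    rw [not_or] at hcon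
    obtain ⟨hg0, hh0⟩ := hcon
    have hdeg : g.natDegree + h.natDegree = r + 1 := by
      rw [← hg.natDegree_mul hh, hgh, fr_natDegree]
    have hinj : Function.Injective (fun i : Fin (r + 1) => 4 * ((i : ℕ) : ℤ)) := by
      intro i j hij
      have hij : 4 * ((i : ℕ) : ℤ) = 4 * ((j : ℕ) : ℤ) := hij
      apply Fin.ext
      omega
    have hval : ∀ i : Fin (r + 1),
        g.eval (4 * ((i : ℕ) : ℤ)) * h.eval (4 * ((i : ℕ) : ℤ)) = (-1) ^ r := by
      intro i
      rw [← eval_mul, hgh, fr_eval_int, Finset.prod_eq_zero (i := (i : ℕ))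
        (Finset.mem_range.mpr i.2) (by ring), zero_add]
    rcases Nat.even_or_odd r with he | ho
    · have heq : g = h := by
        apply eq_of_natDegree_lt_card_of_eval_eq g h hinj
        · intro i
          have h1 := hval i
          rw [he.neg_one_pow] at h1
          exact Int.eq_of_mul_eq_one h1
        · rw [Fintype.card_fin]; omega
      obtain ⟨s, rfl⟩ : ∃ s, r = s + 1 := ⟨r - 1, by omega⟩
      have h1 := fr_sign s 1
      rw [← hgh, heq, map_mul, pow_one] at h1
      nlinarith [mul_self_nonneg (aeval (4 * (s : ℝ) + 2) h)]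
    · have heq : g = -h := by
        apply eq_of_natDegree_lt_card_of_eval_eq g (-h) hinj
        · intro i
          have h1 := hval i
          rw [ho.neg_one_pow] at h1
          rw [eval_neg]
          exact Int.eq_of_mul_eq_one (by linarith)
        · rw [Fintype.card_fin, natDegree_neg]; omega
      have h1 : g.leadingCoeff = 1 := hg
      rw [heq, leadingCoeff_neg, hh.leadingCoeff] at h1
      norm_num at h1

lemma aeval_gen {A : Type} [CommRing A] (y : A) (φ : ℤ[X] →+* A) (hφ : φ X = y) (g : ℤ[X]) :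
    aeval y g = φ g := by
  have h : (aeval y : ℤ[X] →ₐ[ℤ] A).toRingHom = φ := by
    apply Polynomial.ringHom_ext
    · intro a
      rw [eq_intCast (C : ℤ →+* ℤ[X]) a, map_intCast, map_intCast]
    · rw [hφ]
      exact aeval_X y
  rw [← h]
  rfl

lemma tail_gen {A : Type} [CommRing A] {x : Aˣ} {f : ℤ[X]} (hA : Mono x f) (τ : A →+ ℤ)
    (hτ : τ 1 = 1) (a : A) (K0 : ℤ) (h : ∀ k, K0 ≤ k → τ (↑(x ^ k) * a) = 0) : a = 0 := by
  by_contra ha
  have hb : (↑(x ^ K0) * a : A) ≠ 0 := by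
    intro h0
    apply ha
    have h1 : (((x ^ K0)⁻¹ : Aˣ) : A) * (↑(x ^ K0) * a) = (((x ^ K0)⁻¹ : Aˣ) : A) * 0 := by
      rw [h0]
    rwa [Units.inv_mul_cancel_left, mul_zero] at h1
  obtain ⟨N, c, hN, hc⟩ := hA.dvd _ hb
  obtain ⟨g, rfl⟩ := hA.gen c
  have h1 : τ (aeval (x : A) g * (↑(x ^ K0) * a)) = 0 := by
    rw [aeval_eq_sum_range, Finset.sum_mul, map_sum]
    apply Finset.sum_eq_zero
    intro j _
    have h2 : (g.coeff j • (x : A) ^ j * (↑(x ^ K0) * a)) =
        g.coeff j • (↑(x ^ ((j : ℤ) + K0)) * a) := by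
      rw [smul_mul_assoc, zpow_add, Units.val_mul, zpow_natCast, Units.val_pow_eq_pow_val,
        mul_assoc]
    rw [h2, map_zsmul, h _ (by omega), smul_zero]
  have h3 : ((N : ℤ) : A) = N • (1 : A) := by rw [zsmul_eq_mul, mul_one]
  rw [hc, h3, map_zsmul, hτ, smul_eq_mul, mul_one] at h1
  exact hN h1

/-- The ring. -/
abbrev AR (r : ℕ) : Type := AdjoinRoot (fr r)

lemma ar_domain (r : ℕ) (hr : 0 < r) : IsDomain (AR r) :=
  AdjoinRoot.isDomain_of_prime (fr_irreducible r hr).prime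

lemma fr_coeff_zero (r : ℕ) : (fr r).coeff 0 = (-1) ^ r := by
  rw [coeff_zero_eq_eval_zero, fr_eval_int, Finset.prod_eq_zero (i := 0)
    (Finset.mem_range.mpr (Nat.succ_pos r)) (by simp), zero_add]

lemma ar_rel (r : ℕ) :
    AdjoinRoot.mk (fr r) (divX (fr r)) * AdjoinRoot.root (fr r) + (-1) ^ r = 0 := by
  have h := congrArg (AdjoinRoot.mk (fr r)) (divX_mul_X_add (fr r))
  rw [AdjoinRoot.mk_self, map_add, map_mul, AdjoinRoot.mk_X, fr_coeff_zero, C_pow, C_neg, C_1,
    map_pow, map_neg, map_one] at h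
  exact h

lemma ar_inv (r : ℕ) :
    (-(-1) ^ r * AdjoinRoot.mk (fr r) (divX (fr r))) * AdjoinRoot.root (fr r) = 1 := by
  have h := ar_rel r
  have h1 : AdjoinRoot.mk (fr r) (divX (fr r)) * AdjoinRoot.root (fr r) = -(-1) ^ r :=
    eq_neg_of_add_eq_zero_left h
  rw [mul_assoc, h1, neg_mul_neg, ← pow_add, ← two_mul, pow_mul]
  norm_num

/-- The unit. -/
noncomputable def xr (r : ℕ) : (AR r)ˣ :=
  ⟨AdjoinRoot.root (fr r), -(-1) ^ r * AdjoinRoot.mk (fr r) (divX (fr r)),
    (mul_comm _ _).trans (ar_inv r), ar_inv r⟩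

lemma xr_val (r : ℕ) : ((xr r : (AR r)ˣ) : AR r) = AdjoinRoot.root (fr r) := rfl

theorem ar_mono (r : ℕ) (hr : 0 < r) : Mono (xr r) (fr r) where
  gen := by
    intro a
    obtain ⟨g, rfl⟩ := AdjoinRoot.mk_surjective a
    exact ⟨g, aeval_gen _ _ AdjoinRoot.mk_X g⟩
  monic := fr_monic r
  root := by
    rw [xr_val, aeval_gen _ _ AdjoinRoot.mk_X, AdjoinRoot.mk_self]
  lift := by
    intro α hα
    refine ⟨AdjoinRoot.lift (Int.castRingHom ℝ) α ?_, ?_⟩
    · rw [aeval_def, algebraMap_int_eq] at hα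
      exact hα
    · rw [xr_val, AdjoinRoot.lift_root]
  dvd := by
    intro b hb
    have := ar_domain r hr
    have : Module.Finite ℤ (AR r) := (fr_monic r).finite_adjoinRoot
    have h1 : IsIntegral ℤ b := Algebra.IsIntegral.isIntegral b
    obtain ⟨N, hN, c, hc⟩ := h1.isAlgebraic.exists_nonzero_dvd (mem_nonZeroDivisors_of_ne_zero hb)
    refine ⟨N, c, hN, ?_⟩
    rw [mul_comm, ← hc, eq_intCast]

/-- The functional. -/
noncomputable def tr (r : ℕ) : AR r →+ ℤ :=
  ((lcoeff ℤ 0).comp (AdjoinRoot.modByMonicHom (fr_monic r))).toAddMonoidHom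

lemma tr_one (r : ℕ) : tr r 1 = 1 := by
  show (AdjoinRoot.modByMonicHom (fr_monic r) (1 : AR r)).coeff 0 = 1
  have : (1 : AR r) = AdjoinRoot.mk (fr r) 1 := (map_one _).symm
  rw [this, AdjoinRoot.modByMonicHom_mk, (modByMonic_eq_self_iff (fr_monic r)).mpr]
  · exact coeff_one_zero
  · rw [degree_one, degree_eq_natDegree (fr_monic r).ne_zero, fr_natDegree]
    exact_mod_cast Nat.succ_pos r

/-- The data. -/
noncomputable def dr (r : ℕ) (hr : 0 < r) : Dat (AR r) where
  x := xr r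
  τ := tr r
  tail := tail_gen (ar_mono r hr) (tr r) (tr_one r)

end Pool.Agent.Helper134
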