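import Pool.Agent.Helper134.OCDefs
import Pool.Prelude.Def_F_cd681771

set_option autoImplicit false

namespace H134OC
open Finset
open N9a221aa5

/-- cyclic sequence h 0, e 0, h 1, e 1, ..., e (k-1), h k gives an odd cycle of length 2k+1 -/
theorem cycle_of_seq (A : Finset ℕ) (k : ℕ) (hk : 1 ≤ k) (h e : ℕ → ℕ)
    (hA : ∀ i, i ≤ k → h i ∈ A) (eA : ∀ i, i < k → e i ∈ A)
    (hinj : ∀ i j, i ≤ k → j ≤ k → h i = h j → i = j)
    (einj : ∀ i j, i < k → j < k → e i = e j → i = j)
    (hne : ∀ i j, i ≤ k → j < k → h i ≠ e j)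
    (h1 : ∀ i, i < k → Nat.Coprime (h i) (e i))
    (h2 : ∀ i, i < k → Nat.Coprime (e i) (h (i + 1)))
    (h3 : Nat.Coprime (h k) (h 0)) :
    (2 * k + 1) ∈ (coprimeGraph.induce (A : Set ℕ)).oddCycleLengths := by
  obtain ⟨m, rfl⟩ : ∃ m, k = m + 1 := ⟨k - 1, by omega⟩
  set φ : ℕ → ℕ := fun j => if j % 2 = 0 then h (j / 2) else e (j / 2) with hφ
  have hφA : ∀ j, j < 2 * m + 3 → φ j ∈ A := by
    intro j hj
    simp only [hφ]
    split_ifs with hp
    · exact hA _ (by omega)
    · exact eA _ (by omega)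
  have hφinj : ∀ i j, i < 2 * m + 3 → j < 2 * m + 3 → φ i = φ j → i = j := by
    intro i j hi hj hij
    simp only [hφ] at hij
    split_ifs at hij with hp hq hq
    · have := hinj _ _ (by omega) (by omega) hij
      omega
    · exact absurd hij (hne _ _ (by omega) (by omega))
    · exact absurd hij.symm (hne _ _ (by omega) (by omega))
    · have := einj _ _ (by omega) (by omega) hij
      omega
  have hstep : ∀ j, j + 1 < 2 * m + 3 → Nat.Coprime (φ j) (φ (j + 1)) := by
    intro j hj
    simp only [hφ]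
    by_cases hp : j % 2 = 0
    · rw [if_pos hp, if_neg (by omega)]
      have : (j + 1) / 2 = j / 2 := by omega
      rw [this]
      exact h1 _ (by omega)
    · rw [if_neg hp, if_pos (by omega)]
      have : (j + 1) / 2 = j / 2 + 1 := by omega
      rw [this]
      exact h2 _ (by omega)
  have hlast : Nat.Coprime (φ (2 * m + 2)) (φ 0) := by
    simp only [hφ]
    rw [if_pos (show (2 * m + 2) % 2 = 0 by omega)]
    have : (2 * m + 2) / 2 = m + 1 := by omega
    rw [this]
    simpa using h3
  have hadj : ∀ u v : Fin (2 * m + 3), v - u = 1 → Nat.Coprime (φ u) (φ v) := by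
    intro u v huv
    rw [sub_eq_iff_eq_add'] at huv
    subst huv
    have hv : ((u + 1 : Fin (2 * m + 3)) : ℕ) = (u + 1) % (2 * m + 3) := by
      rw [Fin.val_add]
      rfl
    rw [hv]
    by_cases hu : (u : ℕ) + 1 < 2 * m + 3
    · rw [Nat.mod_eq_of_lt hu]
      exact hstep _ hu
    · have hu2 : (u : ℕ) = 2 * m + 2 := by have := u.2; omega
      rw [hu2, Nat.mod_self]
      exact hlast
  let f : SimpleGraph.cycleGraph (2 * m + 3) →g (coprimeGraph.induce (A : Set ℕ)) :=
    { toFun := fun u => ⟨φ u, hφA u u.2⟩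
      map_rel' := by
        intro u v huv
        rw [SimpleGraph.cycleGraph_adj] at huv
        have hne' : u ≠ v := by
          rintro rfl
          rw [sub_self] at huv
          simp at huv
        show coprimeGraph.Adj (φ u) (φ v)
        unfold coprimeGraph
        rw [SimpleGraph.fromRel_adj]
        refine ⟨fun h => hne' (Fin.ext (hφinj _ _ u.2 v.2 h)), ?_⟩
        rcases huv with huv | huv
        · right; exact hadj _ _ huv
        · left; exact hadj _ _ huv }
  have hf : Function.Injective f := by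
    intro u v huv
    have : φ u = φ v := congrArg Subtype.val huv
    exact Fin.ext (hφinj _ _ u.2 v.2 this)
  refine ⟨⟨_, (SimpleGraph.cycleGraph.cycle (2 * m)).map f, ?_, ?_⟩, ?_⟩
  · exact (SimpleGraph.Walk.isCycle_map_iff_of_injective hf).2 SimpleGraph.cycleGraph.isCycle_cycle
  · rw [SimpleGraph.Walk.length_map, SimpleGraph.cycleGraph.length_cycle]
    ring
  · exact ⟨m + 1, rfl⟩

theorem exists_top (O : Finset ℕ) (ρ : ℕ → ℝ) (b : ℕ) (hb : b ≤ O.card) :
    ∃ T ⊆ O, T.card = b ∧ ∀ x ∈ T, ∀ y ∈ O \ T, ρ y ≤ ρ x := by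
  induction b with
  | zero => exact ⟨∅, empty_subset _, rfl, fun x hx => absurd hx (notMem_empty x)⟩
  | succ b ih =>
    obtain ⟨T, hTO, hTc, hT⟩ := ih (by omega)
    have hne : (O \ T).Nonempty := by
      rw [← card_pos, card_sdiff_of_subset hTO]; omega
    obtain ⟨m, hm, hmax⟩ := exists_max_image (O \ T) ρ hne
    have hmO := (mem_sdiff.mp hm).1
    have hmT := (mem_sdiff.mp hm).2
    refine ⟨insert m T, insert_subset hmO hTO, by rw [card_insert_of_notMem hmT, hTc], ?_⟩
    intro x hx y hy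
    have hy' : y ∈ O \ T := by
      rw [mem_sdiff] at hy ⊢
      exact ⟨hy.1, fun h => hy.2 (mem_insert_of_mem h)⟩
    rcases mem_insert.mp hx with h | h
    · rw [h]; exact hmax y hy'
    · exact hT x h y hy'

theorem coprime_of_diff {a b : ℕ} (ha : Odd a) (hab : a < b)
    (h : b = a + 2 ∨ b = a + 4 ∨ (b = a + 6 ∧ a % 3 ≠ 0)) : Nat.Coprime a b := by
  have h2 : Nat.Coprime a 2 := Nat.coprime_two_right.mpr ha
  rcases h with h | h | ⟨h, h3⟩
  · rw [h, Nat.coprime_self_add_right]; exact h2
  · rw [h, Nat.coprime_self_add_right]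
    exact Nat.Coprime.pow_right 2 h2
  · rw [h, Nat.coprime_self_add_right]
    have h4 : Nat.Coprime a 3 := by
      rw [Nat.coprime_comm, Nat.Prime.coprime_iff_not_dvd Nat.prime_three]
      intro h5; exact h3 (Nat.mod_eq_zero_of_dvd h5)
    exact Nat.Coprime.mul_right h2 h4

/-- odd numbers in [1,n], more of them than odd multiples of 3: two are coprime -/
theorem exists_coprime_pair (n : ℕ) (hn : 6 ≤ n) (T : Finset ℕ) (hT : T ⊆ Icc 1 n)
    (hodd : ∀ x ∈ T, Odd x) (hc : T.card = n / 3 - n / 6 + 1) :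
    ∃ a ∈ T, ∃ b ∈ T, a ≠ b ∧ Nat.Coprime a b := by
  have hM : 1 ≤ n / 3 - n / 6 := by omega
  obtain ⟨a, ha, b, hb, hab, hf⟩ := exists_ne_map_eq_of_card_lt_of_maps_to
    (s := T) (t := range (n / 3 - n / 6)) (f := fun x => min (x / 6) (n / 3 - n / 6 - 1))
    (by rw [card_range, hc]; omega)
    (fun x _ => by
      rw [coe_range, Set.mem_Iio]
      exact lt_of_le_of_lt (min_le_right _ _) (by omega))
  have key : ∀ a ∈ T, ∀ b ∈ T, a < b → min (a / 6) (n / 3 - n / 6 - 1) = min (b / 6) (n / 3 - n / 6 - 1) →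
      Nat.Coprime a b := by
    intro a ha b hb hab hf
    have ha1 := mem_Icc.mp (hT ha)
    have hb1 := mem_Icc.mp (hT hb)
    have hao := Nat.odd_iff.mp (hodd a ha)
    have hbo := Nat.odd_iff.mp (hodd b hb)
    apply coprime_of_diff (hodd a ha) hab
    omega
  rcases lt_or_gt_of_ne hab with h | h
  · exact ⟨a, ha, b, hb, hab, key a ha b hb h hf⟩
  · exact ⟨b, hb, a, ha, hab.symm, key b hb a ha h hf.symm⟩

theorem exists_arrangement (H : Finset ℕ) (ρ : ℕ → ℝ) (k : ℕ) (hk : 1 ≤ k) (hc : H.card = k + 1)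
    (a b : ℕ) (ha : a ∈ H) (hb : b ∈ H) (hab : a ≠ b) :
    ∃ h : ℕ → ℕ, h 0 = a ∧ h k = b ∧ (∀ i, i ≤ k → h i ∈ H) ∧
      (∀ i j, i ≤ k → j ≤ k → h i = h j → i = j) ∧
      (∀ i j, 1 ≤ i → i ≤ j → j < k → ρ (h i) ≤ ρ (h j)) := by
  classical
  have hcard : ((H.erase a).erase b).card = k - 1 := by
    rw [card_erase_of_mem (mem_erase.mpr ⟨hab.symm, hb⟩), card_erase_of_mem ha, hc]; omega
  let e : ((H.erase a).erase b) ≃ Fin (k - 1) := equivFinOfCardEq hcard
  let f : Fin (k - 1) → ℝ := fun i => ρ (e.symm i)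
  let σ := Tuple.sort f
  have hmono : Monotone (f ∘ σ) := Tuple.monotone_sort f
  let g : Fin (k - 1) → ℕ := fun i => (e.symm (σ i) : ℕ)
  have hg : ∀ i, g i ∈ (H.erase a).erase b := fun i => (e.symm (σ i)).2
  have hgH : ∀ i, g i ∈ H := fun i => mem_of_mem_erase (mem_of_mem_erase (hg i))
  have hgb : ∀ i, g i ≠ b := fun i => (mem_erase.mp (hg i)).1
  have hga : ∀ i, g i ≠ a := fun i => (mem_erase.mp (mem_erase.mp (hg i)).2).1
  have hginj : Function.Injective g := by
    intro i j hij
    have h1 : e.symm (σ i) = e.symm (σ j) := Subtype.ext hij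
    exact σ.injective (e.symm.injective h1)
  let h : ℕ → ℕ := fun i => if i = 0 then a else if hlt : i - 1 < k - 1 then g ⟨i - 1, hlt⟩ else b
  have h0 : h 0 = a := by simp [h]
  have hmid : ∀ i, i ≠ 0 → ∀ hlt : i - 1 < k - 1, h i = g ⟨i - 1, hlt⟩ := by
    intro i hi hlt
    simp only [h, if_neg hi, dif_pos hlt]
  have hend : ∀ i, i ≠ 0 → ¬ (i - 1 < k - 1) → h i = b := by
    intro i hi hlt
    simp only [h, if_neg hi, dif_neg hlt]
  refine ⟨h, h0, hend k (by omega) (lt_irrefl _), ?_, ?_, ?_⟩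
  · intro i _
    by_cases hi : i = 0
    · rw [hi, h0]; exact ha
    · by_cases hlt : i - 1 < k - 1
      · rw [hmid i hi hlt]; exact hgH _
      · rw [hend i hi hlt]; exact hb
  · intro i j hik hjk hij
    by_cases hi : i = 0
    · by_cases hj : j = 0
      · rw [hi, hj]
      · exfalso
        rw [hi, h0] at hij
        by_cases hlt : j - 1 < k - 1
        · rw [hmid j hj hlt] at hij; exact hga _ hij.symm
        · rw [hend j hj hlt] at hij; exact hab hij
    · by_cases hj : j = 0
      · exfalso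
        rw [hj, h0] at hij
        by_cases hlt : i - 1 < k - 1
        · rw [hmid i hi hlt] at hij; exact hga _ hij
        · rw [hend i hi hlt] at hij; exact hab hij.symm
      · by_cases hlt : i - 1 < k - 1
        · by_cases hlt' : j - 1 < k - 1
          · rw [hmid i hi hlt, hmid j hj hlt'] at hij
            have := congrArg Fin.val (hginj hij)
            simp only at this
            omega
          · rw [hmid i hi hlt, hend j hj hlt'] at hij
            exact absurd hij (hgb _)
        · by_cases hlt' : j - 1 < k - 1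
          · rw [hend i hi hlt, hmid j hj hlt'] at hij
            exact absurd hij.symm (hgb _)
          · omega
  · intro i j hi hij hj
    have hlt : i - 1 < k - 1 := by omega
    have hlt' : j - 1 < k - 1 := by omega
    rw [hmid i (by omega) hlt, hmid j (by omega) hlt']
    have : (⟨i - 1, hlt⟩ : Fin (k - 1)) ≤ ⟨j - 1, hlt'⟩ := by
      rw [Fin.mk_le_mk]; omega
    exact hmono this

/-- the even numbers in [1,n] coprime to two odd numbers -/
theorem card_even_coprime (n u v : ℕ) (hu : Odd u) (hv : Odd v) :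
    ((Icc 1 n).filter (fun x => ¬ Odd x ∧ (Nat.Coprime x u ∧ Nat.Coprime x v))).card = cc (n / 2) u v := by
  unfold cc
  symm
  apply Finset.card_bij (fun j _ => 2 * j)
  · intro j hj
    simp only [mem_filter, mem_Icc] at hj ⊢
    refine ⟨by omega, ?_, ?_, ?_⟩
    · rw [Nat.not_odd_iff_even]; exact even_two_mul j
    · exact Nat.Coprime.mul_left (Nat.coprime_two_left.mpr hu) hj.2.1
    · exact Nat.Coprime.mul_left (Nat.coprime_two_left.mpr hv) hj.2.2
  · intro i _ j _ hij
    omega
  · intro x hx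
    simp only [mem_filter, mem_Icc] at hx
    obtain ⟨⟨h1, h2⟩, h3, h4, h5⟩ := hx
    rw [Nat.not_odd_iff_even] at h3
    obtain ⟨j, rfl⟩ := h3
    refine ⟨j, ?_, by omega⟩
    simp only [mem_filter, mem_Icc]
    refine ⟨by omega, ?_, ?_⟩
    · exact Nat.Coprime.coprime_dvd_left ⟨2, by ring⟩ h4
    · exact Nat.Coprime.coprime_dvd_left ⟨2, by ring⟩ h5

theorem card_evens (n : ℕ) : ((Icc 1 n).filter (fun x => ¬ Odd x)).card = n / 2 := by
  have h := card_even_coprime n 1 1 odd_one odd_one
  unfold cc at h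
  simpa using h

theorem availT (n k : ℕ) (A H : Finset ℕ) (hA : A ⊆ Icc 1 n) (hH : H ⊆ A) (hHc : H.card = k + 1)
    (hc : n / 2 + n / 3 - n / 6 < A.card) (hk : k ≤ n / 6) (u v : ℕ) (hu : u ∈ H) (hv : v ∈ H)
    (huv : u ≠ v) (hT : n + 2 * (n / 6) ≤ cc n u v + (n / 2 + n / 3 - n / 6) + 1) :
    k ≤ ((A \ H).filter (fun x => Nat.Coprime x u ∧ Nat.Coprime x v)).card := by
  have h1 : (Icc 1 n).filter (fun x => Nat.Coprime x u ∧ Nat.Coprime x v) ⊆
      ((A \ H).filter (fun x => Nat.Coprime x u ∧ Nat.Coprime x v)) ∪ (Icc 1 n \ A) ∪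
        (H.filter (fun x => Nat.Coprime x u ∧ Nat.Coprime x v)) := by
    intro x hx
    simp only [mem_filter, mem_union, mem_sdiff] at hx ⊢
    by_cases hxA : x ∈ A
    · by_cases hxH : x ∈ H
      · exact Or.inr ⟨hxH, hx.2⟩
      · exact Or.inl (Or.inl ⟨⟨hxA, hxH⟩, hx.2⟩)
    · exact Or.inl (Or.inr ⟨hx.1, hxA⟩)
  have h2 : (H.filter (fun x => Nat.Coprime x u ∧ Nat.Coprime x v)).card ≤ k := by
    rcases eq_or_ne u 1 with hu1 | hu1
    · have hv1 : v ≠ 1 := fun h => huv (hu1.trans h.symm)
      have : H.filter (fun x => Nat.Coprime x u ∧ Nat.Coprime x v) ⊆ H.erase v := by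
        intro x hx
        simp only [mem_filter, mem_erase] at hx ⊢
        refine ⟨?_, hx.1⟩
        rintro rfl
        exact hv1 ((Nat.coprime_self x).mp hx.2.2)
      calc _ ≤ (H.erase v).card := card_le_card this
        _ = k := by rw [card_erase_of_mem hv, hHc]; rfl
    · have : H.filter (fun x => Nat.Coprime x u ∧ Nat.Coprime x v) ⊆ H.erase u := by
        intro x hx
        simp only [mem_filter, mem_erase] at hx ⊢
        refine ⟨?_, hx.1⟩
        rintro rfl
        exact hu1 ((Nat.coprime_self x).mp hx.2.1)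
      calc _ ≤ (H.erase u).card := card_le_card this
        _ = k := by rw [card_erase_of_mem hu, hHc]; rfl
  have h3 : (Icc 1 n \ A).card = n - A.card := by
    rw [card_sdiff_of_subset hA, Nat.card_Icc]; omega
  have h4 := (card_le_card h1).trans ((card_union_le _ _).trans (Nat.add_le_add_right (card_union_le _ _) _))
  have h5 : A.card ≤ n := by simpa using card_le_card hA
  unfold cc at hT
  omega

theorem availD (n : ℕ) (A H : Finset ℕ) (hA : A ⊆ Icc 1 n) (hH : H ⊆ A) (hHo : ∀ x ∈ H, Odd x)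
    (u v : ℕ) (hu : Odd u) (hv : Odd v) :
    cc (n / 2) u v ≤ ((A \ H).filter (fun x => Nat.Coprime x u ∧ Nat.Coprime x v)).card +
      (n / 2 - (A.filter (fun x => ¬ Odd x)).card) := by
  rw [← card_even_coprime n u v hu hv]
  have h1 : (Icc 1 n).filter (fun x => ¬ Odd x ∧ (Nat.Coprime x u ∧ Nat.Coprime x v)) ⊆
      ((A \ H).filter (fun x => Nat.Coprime x u ∧ Nat.Coprime x v)) ∪
        ((Icc 1 n).filter (fun x => ¬ Odd x) \ A.filter (fun x => ¬ Odd x)) := by
    intro x hx
    simp only [mem_filter, mem_union, mem_sdiff] at hx ⊢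
    by_cases hxA : x ∈ A
    · left
      exact ⟨⟨hxA, fun h => hx.2.1 (hHo x h)⟩, hx.2.2⟩
    · right
      exact ⟨⟨hx.1, hx.2.1⟩, fun h => hxA h.1⟩
  have h2 := (card_le_card h1).trans (card_union_le _ _)
  have h3 : ((Icc 1 n).filter (fun x => ¬ Odd x) \ A.filter (fun x => ¬ Odd x)).card =
      n / 2 - (A.filter (fun x => ¬ Odd x)).card := by
    rw [card_sdiff_of_subset (filter_subset_filter _ hA), card_evens]
  omega

/-- counting the gaps whose level is at most r -/
theorem gap_count (k : ℕ) (ρ : ℕ → ℝ) (h : ℕ → ℕ) (r : ℝ)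
    (hinj : ∀ i j, i ≤ k → j ≤ k → h i = h j → i = j)
    (hs : ∀ i j, 1 ≤ i → i ≤ j → j < k → ρ (h i) ≤ ρ (h j))
    (H : Finset ℕ) (hH : ∀ i, i ≤ k → h i ∈ H)
    (S : Finset (Fin k)) (hS : ∀ i ∈ S, min (ρ (h i)) (ρ (h (i + 1))) ≤ r) :
    S.card ≤ (H.filter (fun x => ρ x ≤ r)).card + 1 := by
  classical
  set φ : Fin k → ℕ := fun i => if ρ (h i) ≤ r ∨ (i : ℕ) = 0 then (i : ℕ) else k with hφ
  have hkey : ∀ i ∈ S, ¬ (ρ (h i) ≤ r ∨ (i : ℕ) = 0) → (i : ℕ) + 1 = k ∧ ρ (h k) ≤ r := by
    intro i hi hni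
    push Not at hni
    have h1 := hS i hi
    have h2 : ρ (h ((i : ℕ) + 1)) ≤ r := by
      rcases min_le_iff.mp h1 with h1 | h1
      · exact absurd h1 (not_le.mpr hni.1)
      · exact h1
    have h3 : (i : ℕ) + 1 = k := by
      by_contra hne
      have hlt : (i : ℕ) + 1 < k := by have := i.2; omega
      have := hs i ((i : ℕ) + 1) (by omega) (by omega) hlt
      linarith [hni.1]
    refine ⟨h3, ?_⟩
    rw [← h3]; exact h2
  have hφinj : Set.InjOn φ S := by
    intro i hi j hj hij
    simp only [hφ] at hij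
    split_ifs at hij with h1 h2 h2
    · exact Fin.ext hij
    · have := i.2; omega
    · have := j.2; omega
    · have a1 := (hkey i hi h1).1
      have a2 := (hkey j hj h2).1
      exact Fin.ext (by omega)
  have himg : S.image φ ⊆ insert 0 ((range (k + 1)).filter (fun i => ρ (h i) ≤ r)) := by
    intro x hx
    rw [mem_image] at hx
    obtain ⟨i, hi, rfl⟩ := hx
    rw [mem_insert, mem_filter, mem_range]
    simp only [hφ]
    split_ifs with h1
    · rcases h1 with h1 | h1
      · right; exact ⟨by have := i.2; omega, h1⟩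
      · left; exact h1
    · right; exact ⟨by omega, (hkey i hi h1).2⟩
  have hcard : S.card = (S.image φ).card := (card_image_of_injOn hφinj).symm
  have h2 : ((range (k + 1)).filter (fun i => ρ (h i) ≤ r)).card ≤ (H.filter (fun x => ρ x ≤ r)).card := by
    apply card_le_card_of_injOn h
    · intro i hi
      simp only [coe_filter, mem_range, Set.mem_ofPred_eq] at hi ⊢
      exact ⟨hH i (by omega), hi.2⟩
    · intro i hi j hj hij
      simp only [coe_filter, mem_range, Set.mem_ofPred_eq] at hi hj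
      exact hinj i j (by omega) (by omega) hij
  calc S.card = (S.image φ).card := hcard
    _ ≤ _ := card_le_card himg
    _ ≤ ((range (k + 1)).filter (fun i => ρ (h i) ≤ r)).card + 1 := card_insert_le _ _
    _ ≤ _ := by omega

theorem main_comb (n : ℕ) (hn : 6 ≤ n) (hG : Good n) (A : Finset ℕ) (hA : A ⊆ Icc 1 n)
    (hc : n / 2 + n / 3 - n / 6 < A.card) (k : ℕ) (hk1 : 1 ≤ k) (hk : k ≤ n / 6) :
    (2 * k + 1) ∈ (coprimeGraph.induce (A : Set ℕ)).oddCycleLengths := by
  obtain ⟨ρ, hρ⟩ := hG
  set O := A.filter (fun x => Odd x) with hO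
  set E := A.filter (fun x => ¬ Odd x) with hE
  have hOE : O.card + E.card = A.card := card_filter_add_card_filter_not _
  have hEle : E.card ≤ n / 2 := by
    rw [← card_evens n]
    exact card_le_card (filter_subset_filter _ hA)
  set s := n / 2 - E.card with hs
  have hOc : n / 3 - n / 6 + 1 + s ≤ O.card := by omega
  obtain ⟨T, hTO, hTc, hTtop⟩ := exists_top O ρ (n / 3 - n / 6 + 1) (by omega)
  have hTodd : ∀ x ∈ T, Odd x := fun x hx => (mem_filter.mp (hTO hx)).2
  have hTA : T ⊆ A := hTO.trans (filter_subset _ _)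
  obtain ⟨a, ha, b, hb, hab, hcop⟩ := exists_coprime_pair n hn T (hTA.trans hA) hTodd hTc
  have hsub : ({a, b} : Finset ℕ) ⊆ T := by
    intro x hx
    simp only [mem_insert, mem_singleton] at hx
    rcases hx with rfl | rfl <;> assumption
  obtain ⟨H, hH1, hH2, hHc⟩ := exists_subsuperset_card_eq hsub
    (n := k + 1) (by rw [card_pair hab]; omega) (by omega)
  have haH : a ∈ H := hH1 (by simp)
  have hbH : b ∈ H := hH1 (by simp)
  have hHA : H ⊆ A := hH2.trans hTA
  obtain ⟨h, h0, hk', hHm, hinj, hsort⟩ := exists_arrangement H ρ k hk1 hHc a b haH hbH hab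
  set avail : Fin k → Finset ℕ := fun i =>
    (A \ H).filter (fun x => Nat.Coprime x (h i) ∧ Nat.Coprime x (h (i + 1))) with hav
  have hHall : ∀ S : Finset (Fin k), S.card ≤ (S.biUnion avail).card := by
    intro S
    rcases S.eq_empty_or_nonempty with rfl | hSne
    · simp
    obtain ⟨i, hiS, himax⟩ := S.exists_max_image
      (fun i : Fin k => min (ρ (h i)) (ρ (h (i + 1)))) hSne
    refine le_trans ?_ (card_le_card (subset_biUnion_of_mem avail hiS))
    have hi1 : h i ∈ H := hHm i (by have := i.2; omega)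
    have hi2 : h (i + 1) ∈ H := hHm (i + 1) (by have := i.2; omega)
    have hne : h i ≠ h (i + 1) := by
      intro he
      have := hinj i (i + 1) (by have := i.2; omega) (by have := i.2; omega) he
      omega
    -- u the lower one, v the higher one
    obtain ⟨u, v, huH, hvH, huv, huvle, hmin, havail⟩ : ∃ u v, u ∈ H ∧ v ∈ H ∧ u ≠ v ∧ ρ u ≤ ρ v ∧
        min (ρ (h i)) (ρ (h (i + 1))) = ρ u ∧
        avail i = (A \ H).filter (fun x => Nat.Coprime x u ∧ Nat.Coprime x v) := by
      rcases le_total (ρ (h i)) (ρ (h (i + 1))) with hle | hle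
      · exact ⟨h i, h (i + 1), hi1, hi2, hne, hle, min_eq_left hle, rfl⟩
      · refine ⟨h (i + 1), h i, hi2, hi1, hne.symm, hle, min_eq_right hle, ?_⟩
        simp only [hav]
        apply filter_congr
        intro x _
        exact and_comm
    have huT := hH2 huH
    have hvT := hH2 hvH
    have hun : u ≤ n := (mem_Icc.mp (hA (hTA huT))).2
    have hvn : v ≤ n := (mem_Icc.mp (hA (hTA hvT))).2
    rw [havail]
    rcases hρ u v hun hvn (hTodd u huT) (hTodd v hvT) huv huvle with hT | hD
    · have h1 := availT n k A H hA hHA hHc hc hk u v huH hvH huv hT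
      have h2 : S.card ≤ k := by simpa using card_le_univ S
      omega
    · have h1 := availD n A H hA hHA (fun x hx => hTodd x (hH2 hx)) u v (hTodd u huT) (hTodd v hvT)
      have h2 := gap_count k ρ h (ρ u) hinj hsort H hHm S (fun j hj => (himax j hj).trans hmin.le)
      have h3 : (H.filter (fun x => ρ x ≤ ρ u)) ∪ (O \ T) ⊆
          (Icc 1 n).filter (fun w => Odd w ∧ ρ w ≤ ρ u) := by
        intro x hx
        rw [mem_union] at hx
        rw [mem_filter]
        rcases hx with hx | hx
        · rw [mem_filter] at hx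
          exact ⟨hA (hHA hx.1), hTodd x (hH2 hx.1), hx.2⟩
        · have hx' := mem_sdiff.mp hx
          exact ⟨hA (mem_filter.mp hx'.1).1, (mem_filter.mp hx'.1).2, hTtop u huT x hx⟩
      have h4 : Disjoint (H.filter (fun x => ρ x ≤ ρ u)) (O \ T) := by
        rw [disjoint_left]
        intro x hx hx'
        exact (mem_sdiff.mp hx').2 (hH2 (mem_filter.mp hx).1)
      have h5 := card_le_card h3
      rw [card_union_of_disjoint h4, card_sdiff_of_subset hTO] at h5
      rw [← hE] at h1
      omega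
  obtain ⟨f, finj, hf⟩ := (all_card_le_biUnion_card_iff_exists_injective avail).mp hHall
  set e : ℕ → ℕ := fun i => if hi : i < k then f ⟨i, hi⟩ else 0 with he
  have hemem : ∀ i (hi : i < k), e i ∈ avail ⟨i, hi⟩ := by
    intro i hi
    simp only [he, dif_pos hi]
    exact hf ⟨i, hi⟩
  apply cycle_of_seq A k hk1 h e
  · intro i hi; exact hHA (hHm i hi)
  · intro i hi
    exact (mem_sdiff.mp (mem_filter.mp (hemem i hi)).1).1
  · exact hinj
  · intro i j hi hj hij
    simp only [he, dif_pos hi, dif_pos hj] at hij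
    have := finj hij
    simpa using this
  · intro i j hi hj hij
    have h1 := (mem_sdiff.mp (mem_filter.mp (hemem j hj)).1).2
    rw [← hij] at h1
    exact h1 (hHm i hi)
  · intro i hi
    exact ((mem_filter.mp (hemem i hi)).2.1).symm
  · intro i hi
    exact (mem_filter.mp (hemem i hi)).2.2
  · rw [hk', h0]; exact hcop.symm

end H134OC
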