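import Mathlib

set_option autoImplicit false

namespace H134OC
open Finset

/-- number of j in [1,N] divisible by no member of S -/
def cS (N : ℕ) (S : Finset ℕ) : ℕ := ((Icc 1 N).filter (fun j => ∀ p ∈ S, ¬ p ∣ j)).card
/-- number of j in [1,N] coprime to u and v -/
def cc (N u v : ℕ) : ℕ := ((Icc 1 N).filter (fun j => Nat.Coprime j u ∧ Nat.Coprime j v)).card
noncomputable def dens (S : Finset ℕ) : ℝ := ∏ p ∈ S, (1 - 1 / (p : ℝ))
noncomputable def tau (w : ℕ) : ℝ := ∑ p ∈ w.primeFactors.filter (fun p => 11 ≤ p), 1 / (p : ℝ)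
def two (w : ℕ) : Prop := (3 ∣ w ∧ 5 ∣ w) ∨ (3 ∣ w ∧ 7 ∣ w) ∨ (5 ∣ w ∧ 7 ∣ w)
instance (w : ℕ) : Decidable (two w) := by unfold two; infer_instance
/-- error constants for subsets of {3,5,7} -/
noncomputable def bet (S : Finset ℕ) : ℝ :=
  if 3 ∈ S then (if 5 ∈ S then (if 7 ∈ S then 53/35 else 14/15) else (if 7 ∈ S then 8/7 else 2/3))
  else (if 5 ∈ S then (if 7 ∈ S then 44/35 else 4/5) else (if 7 ∈ S then 6/7 else 1))

/-- existence of a rank function with enough even common neighbours -/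
def Good (n : ℕ) : Prop := ∃ ρ : ℕ → ℝ, ∀ u v : ℕ, u ≤ n → v ≤ n → Odd u → Odd v → u ≠ v → ρ u ≤ ρ v →
  (n + 2 * (n / 6) ≤ cc n u v + (n / 2 + n / 3 - n / 6) + 1 ∨
   ((Icc 1 n).filter (fun w => Odd w ∧ ρ w ≤ ρ u)).card + 1 ≤ cc (n / 2) u v)

end H134OC
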