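import Pool.Agent.Helper134.OCSq

set_option autoImplicit false

namespace H134OC
open Finset

theorem class_div (W : ℕ → Prop) [DecidablePred W] (hW : ∀ p i : ℕ, p.Prime → 11 ≤ p → (W (p * i) ↔ W i))
    (a b : ℝ) (ha : 0 ≤ a)
    (h1 : ∀ M : ℕ, (((Icc 1 M).filter W).card : ℝ) ≤ a * M + b) (n p : ℕ) (hp : p.Prime) (h11 : 11 ≤ p) :
    (((Icc 1 n).filter (fun w => W w ∧ p ∣ w)).card : ℝ) ≤ a * (n / p) + b := by
  classical
  have hsub : (Icc 1 n).filter (fun w => W w ∧ p ∣ w) ⊆ ((Icc 1 (n / p)).filter W).image (fun i => p * i) := by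
    intro w hw
    simp only [mem_filter, mem_Icc] at hw
    obtain ⟨⟨hw1, hwn⟩, hWw, i, rfl⟩ := hw
    simp only [mem_image, mem_filter, mem_Icc]
    refine ⟨i, ⟨⟨?_, ?_⟩, (hW p i hp h11).mp hWw⟩, rfl⟩
    · rcases Nat.eq_zero_or_pos i with h | h
      · subst h; simp at hw1
      · exact h
    · rw [Nat.le_div_iff_mul_le hp.pos, mul_comm]; exact hwn
  have h2 : ((Icc 1 n).filter (fun w => W w ∧ p ∣ w)).card ≤ ((Icc 1 (n / p)).filter W).card :=
    (card_le_card hsub).trans card_image_le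
  have h3 : (((Icc 1 n).filter (fun w => W w ∧ p ∣ w)).card : ℝ) ≤ (((Icc 1 (n / p)).filter W).card : ℝ) := by
    exact_mod_cast h2
  have h4 : ((n / p : ℕ) : ℝ) ≤ (n : ℝ) / p := Nat.cast_div_le
  have h5 := h1 (n / p)
  have h6 := mul_le_mul_of_nonneg_left h4 ha
  linarith

theorem tail_sq (n : ℕ) : ∑ p ∈ (Icc 23 n).filter Nat.Prime, 1 / (p : ℝ) ^ 2 ≤ 0.011 := by
  classical
  rcases Nat.lt_or_ge n 23 with hn | hn
  · rw [Icc_eq_empty (by omega)]
    norm_num
  · have h := s2 n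
    have hdis : Disjoint ({11, 13, 17, 19} : Finset ℕ) ((Icc 23 n).filter Nat.Prime) := by
      rw [disjoint_left]
      intro q hq hq'
      simp only [mem_insert, mem_singleton, mem_filter, mem_Icc] at hq hq'
      omega
    have hsub : ({11, 13, 17, 19} : Finset ℕ) ∪ ((Icc 23 n).filter Nat.Prime) ⊆ (Icc 11 n).filter Nat.Prime := by
      intro q hq
      simp only [mem_union, mem_insert, mem_singleton, mem_filter, mem_Icc] at hq ⊢
      rcases hq with (rfl | rfl | rfl | rfl) | ⟨⟨h1, h2⟩, h3⟩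
      · exact ⟨by omega, by norm_num⟩
      · exact ⟨by omega, by norm_num⟩
      · exact ⟨by omega, by norm_num⟩
      · exact ⟨by omega, by norm_num⟩
      · exact ⟨by omega, h3⟩
    have h2 := sum_le_sum_of_subset_of_nonneg (f := fun p : ℕ => 1 / (p : ℝ) ^ 2) hsub
      (fun i _ _ => by positivity)
    rw [sum_union hdis] at h2
    have h3 : ∑ p ∈ ({11, 13, 17, 19} : Finset ℕ), 1 / (p : ℝ) ^ 2 = 1/121 + 1/169 + 1/289 + 1/361 := by
      rw [sum_insert (by decide), sum_insert (by decide), sum_insert (by decide), sum_singleton]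
      norm_num
    rw [h3] at h2
    have h4 : (1:ℝ)/121 + 1/169 + 1/289 + 1/361 ≥ 0.0204 := by norm_num
    linarith

/-- the number of w with tail sum at least 1/20, inside a class W stable under multiplication by primes >= 11 -/
theorem F_count (W : ℕ → Prop) [DecidablePred W] (hW : ∀ p i : ℕ, p.Prime → 11 ≤ p → (W (p * i) ↔ W i))
    (a b c : ℝ) (ha : 0 ≤ a) (hb : 0 ≤ b) (hc : 0 ≤ c)
    (h1 : ∀ M : ℕ, (((Icc 1 M).filter W).card : ℝ) ≤ a * M + b)
    (h2 : ∀ M : ℕ, (((Icc 23 M).filter W).card : ℝ) ≤ c * M) (n : ℕ) :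
    (((Icc 1 n).filter (fun w => W w ∧ (1:ℝ)/20 ≤ tau w)).card : ℝ) ≤
      (1/11 + 1/13 + 1/17 + 1/19) * a * n + 4 * b + 0.22 * c * n := by
  classical
  set X := (Icc 1 n).filter (fun w => W w ∧ (1:ℝ)/20 ≤ tau w) with hX
  set Y := X.filter (fun w => ¬ 11 ∣ w ∧ ¬ 13 ∣ w ∧ ¬ 17 ∣ w ∧ ¬ 19 ∣ w) with hY
  have hsub : X ⊆ (Icc 1 n).filter (fun w => W w ∧ 11 ∣ w) ∪ (Icc 1 n).filter (fun w => W w ∧ 13 ∣ w) ∪
      (Icc 1 n).filter (fun w => W w ∧ 17 ∣ w) ∪ (Icc 1 n).filter (fun w => W w ∧ 19 ∣ w) ∪ Y := by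
    intro w hw
    have hw' := hw
    rw [hX, mem_filter] at hw'
    by_cases h11 : 11 ∣ w
    · simp only [mem_union, mem_filter]; left; left; left; left; exact ⟨hw'.1, hw'.2.1, h11⟩
    by_cases h13 : 13 ∣ w
    · simp only [mem_union, mem_filter]; left; left; left; right; exact ⟨hw'.1, hw'.2.1, h13⟩
    by_cases h17 : 17 ∣ w
    · simp only [mem_union, mem_filter]; left; left; right; exact ⟨hw'.1, hw'.2.1, h17⟩
    by_cases h19 : 19 ∣ w
    · simp only [mem_union, mem_filter]; left; right; exact ⟨hw'.1, hw'.2.1, h19⟩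
    rw [mem_union]; right
    rw [hY, mem_filter]
    exact ⟨hw, h11, h13, h17, h19⟩
  have hcard : (X.card : ℝ) ≤ (((Icc 1 n).filter (fun w => W w ∧ 11 ∣ w)).card : ℝ) +
      (((Icc 1 n).filter (fun w => W w ∧ 13 ∣ w)).card : ℝ) + (((Icc 1 n).filter (fun w => W w ∧ 17 ∣ w)).card : ℝ) +
      (((Icc 1 n).filter (fun w => W w ∧ 19 ∣ w)).card : ℝ) + (Y.card : ℝ) := by
    have h := (card_le_card hsub).trans ((card_union_le _ _).trans (Nat.add_le_add_right ((card_union_le _ _).trans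
      (Nat.add_le_add_right ((card_union_le _ _).trans (Nat.add_le_add_right (card_union_le _ _) _)) _)) _))
    exact_mod_cast h
  have e11 := class_div W hW a b ha h1 n 11 (by norm_num) (by norm_num)
  have e13 := class_div W hW a b ha h1 n 13 (by norm_num) (by norm_num)
  have e17 := class_div W hW a b ha h1 n 17 (by norm_num) (by norm_num)
  have e19 := class_div W hW a b ha h1 n 19 (by norm_num) (by norm_num)
  set P := (Icc 23 n).filter Nat.Prime with hP
  -- tail of w in Y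
  have htail : ∀ w ∈ Y, w.primeFactors.filter (fun p => 11 ≤ p) = P.filter (fun p => p ∣ w) := by
    intro w hw
    rw [hY, mem_filter, hX, mem_filter, mem_Icc] at hw
    obtain ⟨⟨⟨hw1, hwn⟩, hWw, htw⟩, n11, n13, n17, n19⟩ := hw
    ext p
    simp only [mem_filter, Nat.mem_primeFactors, hP, mem_Icc]
    constructor
    · rintro ⟨⟨pp, hpw, hw0⟩, hp11⟩
      refine ⟨⟨⟨?_, (Nat.le_of_dvd (by omega) hpw).trans hwn⟩, pp⟩, hpw⟩
      by_contra hlt
      have hlt : p < 23 := by omega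
      interval_cases p <;> first | exact absurd hpw (by assumption) | (norm_num at pp)
    · rintro ⟨⟨⟨h1, h2⟩, pp⟩, hpw⟩
      exact ⟨⟨pp, hpw, by omega⟩, by omega⟩
  have hfib : ∀ p ∈ P, (((Y.filter (fun w => p ∣ w)).card : ℕ) : ℝ) ≤ c * (n / p) := by
    intro p hpP
    have hpP' := hpP
    rw [hP, mem_filter, mem_Icc] at hpP'
    obtain ⟨⟨hp23, hpn⟩, pp⟩ := hpP'
    have hsub : Y.filter (fun w => p ∣ w) ⊆ ((Icc 23 (n / p)).filter W).image (fun i => p * i) := by
      intro w hw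
      rw [mem_filter] at hw
      obtain ⟨hwY, i, rfl⟩ := hw
      have hT := htail _ hwY
      rw [hY, mem_filter, hX, mem_filter, mem_Icc] at hwY
      obtain ⟨⟨⟨hw1, hwn⟩, hWw, htw⟩, n11, n13, n17, n19⟩ := hwY
      simp only [mem_image, mem_filter, mem_Icc]
      have hi0 : 0 < i := by
        rcases Nat.eq_zero_or_pos i with h | h
        · subst h; simp at hw1
        · exact h
      refine ⟨i, ⟨⟨?_, ?_⟩, (hW p i pp (by omega)).mp hWw⟩, rfl⟩
      · by_contra hlt
        have hlt : i < 23 := by omega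
        have hsing : P.filter (fun q => q ∣ p * i) = {p} := by
          ext q
          simp only [mem_filter, mem_singleton, hP, mem_Icc]
          constructor
          · rintro ⟨⟨⟨h23, hqn⟩, qp⟩, hq⟩
            rcases (Nat.Prime.dvd_mul qp).mp hq with h | h
            · exact (Nat.prime_dvd_prime_iff_eq qp pp).mp h
            · have := Nat.le_of_dvd hi0 h
              omega
          · rintro rfl
            exact ⟨⟨⟨hp23, hpn⟩, pp⟩, dvd_mul_right _ _⟩
        have : tau (p * i) = 1 / (p : ℝ) := by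
          unfold tau
          rw [hT, hsing, sum_singleton]
        rw [this] at htw
        have hp' : (23 : ℝ) ≤ p := by exact_mod_cast hp23
        have : 1 / (p : ℝ) ≤ 1 / 23 := one_div_le_one_div_of_le (by norm_num) hp'
        have : (1:ℝ) / 20 ≤ 1 / 23 := htw.trans this
        norm_num at this
      · rw [Nat.le_div_iff_mul_le pp.pos, mul_comm]; exact hwn
    have h2' : (Y.filter (fun w => p ∣ w)).card ≤ ((Icc 23 (n / p)).filter W).card :=
      (card_le_card hsub).trans card_image_le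
    have h3 : (((Y.filter (fun w => p ∣ w)).card : ℕ) : ℝ) ≤ (((Icc 23 (n / p)).filter W).card : ℝ) := by
      exact_mod_cast h2'
    have h4 : ((n / p : ℕ) : ℝ) ≤ (n : ℝ) / p := Nat.cast_div_le
    exact h3.trans ((h2 _).trans (mul_le_mul_of_nonneg_left h4 hc))
  have hYsum : (Y.card : ℝ) * (1/20) ≤ ∑ w ∈ Y, tau w := by
    rw [← nsmul_eq_mul, ← sum_const]
    apply sum_le_sum
    intro w hw
    rw [hY, mem_filter, hX, mem_filter] at hw
    exact hw.1.2.2
  have hswap : ∑ w ∈ Y, tau w = ∑ p ∈ P, (((Y.filter (fun w => p ∣ w)).card : ℕ) : ℝ) * (1 / (p : ℝ)) := by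
    have : ∀ w ∈ Y, tau w = ∑ p ∈ P, if p ∣ w then 1 / (p : ℝ) else 0 := by
      intro w hw
      unfold tau
      rw [htail w hw, sum_filter]
    rw [sum_congr rfl this, sum_comm]
    apply sum_congr rfl
    intro p _
    rw [← sum_filter, sum_const, nsmul_eq_mul]
  have hbound : ∑ p ∈ P, (((Y.filter (fun w => p ∣ w)).card : ℕ) : ℝ) * (1 / (p : ℝ)) ≤ c * n * 0.011 := by
    calc ∑ p ∈ P, (((Y.filter (fun w => p ∣ w)).card : ℕ) : ℝ) * (1 / (p : ℝ))
        ≤ ∑ p ∈ P, (c * n) * (1 / (p : ℝ) ^ 2) := by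
          apply sum_le_sum
          intro p hp
          have h := mul_le_mul_of_nonneg_right (hfib p hp) (by positivity : (0:ℝ) ≤ 1 / (p : ℝ))
          refine h.trans (le_of_eq ?_)
          rw [div_eq_mul_one_div (n : ℝ) (p : ℝ)]
          ring
      _ = (c * n) * ∑ p ∈ P, 1 / (p : ℝ) ^ 2 := by rw [mul_sum]
      _ ≤ (c * n) * 0.011 := by
          apply mul_le_mul_of_nonneg_left (tail_sq n)
          positivity
  have hY2 : (Y.card : ℝ) ≤ 0.22 * c * n := by
    have := hYsum.trans (hswap.le.trans hbound)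
    linarith
  push_cast at e11 e13 e17 e19
  have e : (1/11 + 1/13 + 1/17 + 1/19) * a * n + 4 * b + 0.22 * c * n =
    (a * (n / 11) + b) + (a * (n / 13) + b) + (a * (n / 17) + b) + (a * (n / 19) + b) + 0.22 * c * n := by ring
  rw [e]
  linarith

end H134OC
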