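import Pool.Agent.Helper134.OCDefs

set_option autoImplicit false

namespace H134OC
open Finset

theorem two_pow_omega_small (p : ℕ) (hp : p.Prime) (h2 : p ≠ 2) (h : p < 17) :
    p ∈ ({3, 5, 7, 11, 13} : Finset ℕ) := by
  interval_cases p <;> first | decide | (exfalso; exact h2 rfl) | (exfalso; revert hp; norm_num; done)

theorem two_pow_omega_aux (P : Finset ℕ) (hP : ∀ p ∈ P, p.Prime ∧ p ≠ 2) :
    (16:ℝ) ^ P.card ≤ 70 * ∏ p ∈ P, (p : ℝ) := by
  classical
  set A : Finset ℕ := {3, 5, 7, 11, 13} with hA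
  have hpos : ∀ p ∈ P, (0:ℝ) < p := fun p hp => by exact_mod_cast (hP p hp).1.pos
  have h1 : ∏ p ∈ P, (16 / (p:ℝ)) ≤ 70 := by
    rw [← Finset.prod_inter_mul_prod_diff P A]
    have h2 : ∏ p ∈ P \ A, (16 / (p:ℝ)) ≤ 1 := by
      refine Finset.prod_le_one ?_ ?_
      · intro p hp; positivity
      · intro p hp
        rw [Finset.mem_sdiff] at hp
        have h17 : 17 ≤ p := by
          by_contra hlt
          exact hp.2 (two_pow_omega_small p (hP p hp.1).1 (hP p hp.1).2 (by omega))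
        rw [div_le_one (hpos p hp.1)]
        have : (17:ℝ) ≤ p := by exact_mod_cast h17
        linarith
    have h3 : ∏ p ∈ P ∩ A, (16 / (p:ℝ)) ≤ ∏ p ∈ A, (16 / (p:ℝ)) := by
      rw [← Finset.prod_inter_mul_prod_diff A P, Finset.inter_comm A P]
      have h4 : (1:ℝ) ≤ ∏ p ∈ A \ P, (16 / (p:ℝ)) := by
        have h5 : ∀ p ∈ A \ P, (1:ℝ) ≤ 16 / (p:ℝ) := by
          intro p hp
          have hp' := (Finset.mem_sdiff.1 hp).1
          simp only [hA, Finset.mem_insert, Finset.mem_singleton] at hp'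
          rcases hp' with rfl | rfl | rfl | rfl | rfl <;> norm_num
        calc (1:ℝ) = ∏ p ∈ A \ P, (1:ℝ) := by simp
          _ ≤ _ := Finset.prod_le_prod (fun _ _ => zero_le_one) h5
      have h6 : (0:ℝ) ≤ ∏ p ∈ P ∩ A, (16 / (p:ℝ)) := Finset.prod_nonneg (fun p _ => by positivity)
      nlinarith
    have h7 : ∏ p ∈ A, (16 / (p:ℝ)) ≤ 70 := by
      rw [hA]
      norm_num [Finset.prod_insert]
    have h8 : (0:ℝ) ≤ ∏ p ∈ P \ A, (16 / (p:ℝ)) := Finset.prod_nonneg (fun p _ => by positivity)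
    have h9 : (0:ℝ) ≤ ∏ p ∈ P ∩ A, (16 / (p:ℝ)) := Finset.prod_nonneg (fun p _ => by positivity)
    nlinarith
  rw [Finset.prod_div_distrib, Finset.prod_const] at h1
  have h10 : (0:ℝ) < ∏ p ∈ P, (p:ℝ) := Finset.prod_pos hpos
  rwa [div_le_iff₀ h10] at h1

theorem two_pow_omega (P : Finset ℕ) (hP : ∀ p ∈ P, p.Prime ∧ p ≠ 2) (n : ℕ) (h : ∏ p ∈ P, p ≤ n ^ 2) :
    (2:ℝ) ^ P.card ≤ 2.9 * Real.sqrt n := by
  have h1 := two_pow_omega_aux P hP
  have h2 : (∏ p ∈ P, (p:ℝ)) ≤ (n:ℝ) ^ 2 := by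
    have h' : ((∏ p ∈ P, p : ℕ) : ℝ) ≤ ((n ^ 2 : ℕ) : ℝ) := Nat.cast_le.2 h
    rwa [Nat.cast_prod, Nat.cast_pow] at h'
  have h3 : ((2:ℝ) ^ P.card) ^ 4 ≤ (2.9 * Real.sqrt n) ^ 4 := by
    have h4 : ((2:ℝ) ^ P.card) ^ 4 = 16 ^ P.card := by
      rw [← pow_mul, mul_comm, pow_mul]; norm_num
    have h5 : (Real.sqrt n) ^ 2 = n := Real.sq_sqrt (Nat.cast_nonneg n)
    have h6 : (2.9 * Real.sqrt n) ^ 4 = 2.9 ^ 4 * (n:ℝ) ^ 2 := by
      calc (2.9 * Real.sqrt n) ^ 4 = 2.9 ^ 4 * ((Real.sqrt n) ^ 2) ^ 2 := by ring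
        _ = 2.9 ^ 4 * (n:ℝ) ^ 2 := by rw [h5]
    rw [h4, h6]
    nlinarith [sq_nonneg (n:ℝ)]
  exact le_of_pow_le_pow_left₀ (by norm_num) (by positivity) h3

theorem card_le_log_aux (k : ℕ) (hk : 30 ≤ k) : (1000 * (k + 1)) ^ 2 < 11 ^ (k + 1) := by
  induction k, hk using Nat.le_induction with
  | base => norm_num
  | succ k hk ih =>
    rw [pow_succ 11 (k + 1)]
    nlinarith

theorem card_le_log (Q : Finset ℕ) (hQ : ∀ p ∈ Q, 11 ≤ p) (n : ℕ) (hn : 30000 ≤ n) (h : ∏ p ∈ Q, p ≤ n ^ 2) :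
    (Q.card : ℝ) ≤ n / 1000 := by
  by_contra hlt
  push Not at hlt
  have h1 : 11 ^ Q.card ≤ ∏ p ∈ Q, p := Finset.pow_card_le_prod Q _ _ hQ
  set k := n / 1000 with hk
  have hk30 : 30 ≤ k := by omega
  have hnk : n < 1000 * (k + 1) := by omega
  have hkn : 1000 * k ≤ n := by omega
  have h2 : k < Q.card := by
    have h3 : (k:ℝ) ≤ n / 1000 := by
      rw [le_div_iff₀ (by norm_num)]
      exact_mod_cast (by omega : k * 1000 ≤ n)
    exact_mod_cast lt_of_le_of_lt h3 hlt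
  have h4 := card_le_log_aux k hk30
  have h5 : 11 ^ (k + 1) ≤ 11 ^ Q.card := Nat.pow_le_pow_right (by norm_num) h2
  have h6 : n ^ 2 < (1000 * (k + 1)) ^ 2 := Nat.pow_lt_pow_left hnk (by norm_num)
  omega

theorem prod_split (P : Finset ℕ) (g : ℕ → ℝ) :
    ∏ p ∈ P, g p = ((if 3 ∈ P then g 3 else 1) * ((if 5 ∈ P then g 5 else 1) * (if 7 ∈ P then g 7 else 1))) *
      ∏ p ∈ P.filter (fun p => p ∉ ({3, 5, 7} : Finset ℕ)), g p := by
  rw [← Finset.prod_filter_mul_prod_filter_not P (fun p => p ∈ ({3, 5, 7} : Finset ℕ)) g]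
  congr 1
  have : P.filter (fun p => p ∈ ({3, 5, 7} : Finset ℕ)) = ({3, 5, 7} : Finset ℕ).filter (fun p => p ∈ P) := by
    ext x
    simp only [Finset.mem_filter]
    exact and_comm
  rw [this, Finset.prod_filter]
  rw [Finset.prod_insert (by decide), Finset.prod_insert (by decide), Finset.prod_singleton]

theorem card_split (P : Finset ℕ) :
    P.card = ((if 3 ∈ P then 1 else 0) + ((if 5 ∈ P then 1 else 0) + (if 7 ∈ P then 1 else 0))) +
      (P.filter (fun p => p ∉ ({3, 5, 7} : Finset ℕ))).card := by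
  rw [← Finset.card_filter_add_card_filter_not (s := P) (fun p => p ∈ ({3, 5, 7} : Finset ℕ))]
  congr 1
  have : P.filter (fun p => p ∈ ({3, 5, 7} : Finset ℕ)) = ({3, 5, 7} : Finset ℕ).filter (fun p => p ∈ P) := by
    ext x
    simp only [Finset.mem_filter]
    exact and_comm
  rw [this, Finset.card_filter]
  rw [Finset.sum_insert (by decide), Finset.sum_insert (by decide), Finset.sum_singleton]

theorem psi_low (n : ℕ) (hn : 30000 ≤ n) (u : ℕ) (hu : Odd u) (hun : u ≤ n) :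
    20 ≤ (dens u.primeFactors) ^ 2 * Real.sqrt n := by
  set P := u.primeFactors with hP
  set Q := P.filter (fun p => p ∉ ({3, 5, 7} : Finset ℕ)) with hQ
  have hu0 : u ≠ 0 := by
    rintro rfl
    exact absurd hu (by decide)
  have hQ11 : ∀ q ∈ Q, 11 ≤ q := by
    intro q hq
    rw [hQ, Finset.mem_filter] at hq
    obtain ⟨h1, h2⟩ := hq
    have hpr := Nat.prime_of_mem_primeFactors h1
    have hdv := Nat.dvd_of_mem_primeFactors h1
    have hodd : ¬ 2 ∣ q := by
      intro h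
      have := h.trans hdv
      obtain ⟨k, hk⟩ := hu
      omega
    simp only [Finset.mem_insert, Finset.mem_singleton, not_or] at h2
    by_contra hc
    push Not at hc
    have h3 := hpr.two_le
    interval_cases q
    · omega
    · omega
    · omega
    · omega
    · omega
    · omega
    · omega
    · exact absurd hpr (by norm_num)
    · omega
  have hnR : (30000 : ℝ) ≤ n := by exact_mod_cast hn
  have hd := prod_split P (fun p => 1 - 1 / (p : ℝ))
  have hdens : dens P = ∏ p ∈ P, (1 - 1 / (p : ℝ)) := rfl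
  rw [← hdens] at hd
  have hcd := card_split P
  rw [← hQ] at hd hcd
  set B := ∏ p ∈ Q, (1 - 1 / (p : ℝ)) with hB
  have hQd : (10 / 11 : ℝ) ^ Q.card ≤ B := by
    rw [← Finset.prod_const]
    apply Finset.prod_le_prod
    · intro i _
      norm_num
    · intro q hq
      have h1 : (11 : ℝ) ≤ q := by exact_mod_cast hQ11 q hq
      have h2 : 1 / (q : ℝ) ≤ 1 / 11 := one_div_le_one_div_of_le (by norm_num) h1
      linarith
  have hdpos : 0 ≤ dens P := by
    rw [hdens]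
    apply Finset.prod_nonneg
    intro p hp
    have h1 : (1 : ℝ) ≤ p := by
      exact_mod_cast (Nat.prime_of_mem_primeFactors hp).one_lt.le
    have h2 : 1 / (p : ℝ) ≤ 1 := by
      rw [div_le_one (by linarith)]
      exact h1
    linarith
  by_cases hc : P.card ≤ 5
  · have key1 : ∀ (A : ℝ) (m : ℕ), 0 ≤ A → Q.card ≤ m → (17 / 50 : ℝ) ≤ A * (10 / 11) ^ m →
        dens P = A * B → 20 ≤ (dens P) ^ 2 * Real.sqrt n := by
      intro A m hA hm h1 h2
      have h3 : (10 / 11 : ℝ) ^ m ≤ (10 / 11 : ℝ) ^ Q.card :=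
        pow_le_pow_of_le_one (by norm_num) (by norm_num) hm
      have h4 : (17 / 50 : ℝ) ≤ dens P := by
        rw [h2]
        exact h1.trans (mul_le_mul_of_nonneg_left (h3.trans hQd) hA)
      have h5 : (173 + 1/10 : ℝ) ≤ Real.sqrt n := by
        apply Real.le_sqrt_of_sq_le
        refine le_trans ?_ hnR
        norm_num
      have h6 : (17 / 50 : ℝ) ^ 2 ≤ (dens P) ^ 2 := pow_le_pow_left₀ (by norm_num) h4 2
      calc (20 : ℝ) ≤ (17 / 50 : ℝ) ^ 2 * (173 + 1/10) := by norm_num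
        _ ≤ (dens P) ^ 2 * Real.sqrt n := mul_le_mul h6 h5 (by norm_num) (by positivity)
    by_cases h3 : 3 ∈ P <;> by_cases h5 : 5 ∈ P <;> by_cases h7 : 7 ∈ P <;>
      simp only [h3, h5, h7, if_true, if_false] at hd hcd
    · exact key1 _ 2 (by norm_num) (by omega) (by norm_num) hd
    · exact key1 _ 3 (by norm_num) (by omega) (by norm_num) hd
    · exact key1 _ 3 (by norm_num) (by omega) (by norm_num) hd
    · exact key1 _ 4 (by norm_num) (by omega) (by norm_num) hd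
    · exact key1 _ 3 (by norm_num) (by omega) (by norm_num) hd
    · exact key1 _ 4 (by norm_num) (by omega) (by norm_num) hd
    · exact key1 _ 4 (by norm_num) (by omega) (by norm_num) hd
    · exact key1 _ 5 (by norm_num) (by omega) (by norm_num) hd
  · push Not at hc
    have hf := prod_split P (fun p => (1 - 1 / (p : ℝ)) ^ 4 * p)
    rw [← hQ] at hf
    set B2 := ∏ p ∈ Q, ((1 - 1 / (p : ℝ)) ^ 4 * p) with hB2
    have hQ2 : (15 / 2 : ℝ) ^ Q.card ≤ B2 := by
      rw [← Finset.prod_const]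
      apply Finset.prod_le_prod
      · intro i _
        norm_num
      · intro q hq
        have h1 : (11 : ℝ) ≤ q := by exact_mod_cast hQ11 q hq
        have h2 : 1 / (q : ℝ) ≤ 1 / 11 := one_div_le_one_div_of_le (by norm_num) h1
        have h3 : (10 / 11 : ℝ) ≤ 1 - 1 / (q : ℝ) := by linarith
        have h4 : (10 / 11 : ℝ) ^ 4 ≤ (1 - 1 / (q : ℝ)) ^ 4 := pow_le_pow_left₀ (by norm_num) h3 4
        calc (15 / 2 : ℝ) ≤ (10 / 11 : ℝ) ^ 4 * 11 := by norm_num
          _ ≤ (1 - 1 / (q : ℝ)) ^ 4 * q := mul_le_mul h4 h1 (by norm_num) (by positivity)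
    have hprodu : (∏ p ∈ P, (p : ℝ)) ≤ n := by
      have h1 : ∏ p ∈ P, p ≤ u := Nat.le_of_dvd (Nat.pos_of_ne_zero hu0) (Nat.prod_primeFactors_dvd u)
      have h2 : ∏ p ∈ P, p ≤ n := h1.trans hun
      calc (∏ p ∈ P, (p : ℝ)) = ((∏ p ∈ P, p : ℕ) : ℝ) := by push_cast; rfl
        _ ≤ n := by exact_mod_cast h2
    have hall : ∏ p ∈ P, ((1 - 1 / (p : ℝ)) ^ 4 * p) = (dens P) ^ 4 * ∏ p ∈ P, (p : ℝ) := by
      rw [Finset.prod_mul_distrib, Finset.prod_pow]
      rfl
    have key2 : ∀ (A : ℝ) (m : ℕ), 0 ≤ A → m ≤ Q.card → (400 : ℝ) ≤ A * (15 / 2) ^ m →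
        ∏ p ∈ P, ((1 - 1 / (p : ℝ)) ^ 4 * p) = A * B2 → 20 ≤ (dens P) ^ 2 * Real.sqrt n := by
      intro A m hA hm h1 h2
      have h3 : (15 / 2 : ℝ) ^ m ≤ (15 / 2 : ℝ) ^ Q.card :=
        pow_le_pow_right₀ (by norm_num) hm
      have h4 : (400 : ℝ) ≤ (dens P) ^ 4 * ∏ p ∈ P, (p : ℝ) := by
        rw [← hall, h2]
        exact h1.trans (mul_le_mul_of_nonneg_left (h3.trans hQ2) hA)
      have h5 : (400 : ℝ) ≤ (dens P) ^ 4 * n :=
        h4.trans (mul_le_mul_of_nonneg_left hprodu (by positivity))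
      have h6 : (dens P) ^ 4 * (n : ℝ) = ((dens P) ^ 2 * Real.sqrt n) ^ 2 := by
        rw [mul_pow, Real.sq_sqrt (by positivity)]
        ring
      rw [h6] at h5
      have h7 : (20 : ℝ) ^ 2 ≤ ((dens P) ^ 2 * Real.sqrt n) ^ 2 := by
        refine le_trans ?_ h5
        norm_num
      exact le_of_sq_le_sq h7 (by positivity)
    by_cases h3 : 3 ∈ P <;> by_cases h5 : 5 ∈ P <;> by_cases h7 : 7 ∈ P <;>
      simp only [h3, h5, h7, if_true, if_false] at hf hcd
    · exact key2 _ 3 (by norm_num) (by omega) (by norm_num) hf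
    · exact key2 _ 4 (by norm_num) (by omega) (by norm_num) hf
    · exact key2 _ 4 (by norm_num) (by omega) (by norm_num) hf
    · exact key2 _ 5 (by norm_num) (by omega) (by norm_num) hf
    · exact key2 _ 4 (by norm_num) (by omega) (by norm_num) hf
    · exact key2 _ 5 (by norm_num) (by omega) (by norm_num) hf
    · exact key2 _ 5 (by norm_num) (by omega) (by norm_num) hf
    · exact key2 _ 6 (by norm_num) (by omega) (by norm_num) hf

end H134OC
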