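import Pool.Agent.Helper134.OCSieve
import Pool.Agent.Helper134.OCO

set_option autoImplicit false

namespace H134OC
open Finset

-- TARGETS
theorem G_ne {u : ℕ} (hu : Odd u) : u ≠ 0 := by
  rintro rfl
  exact absurd hu (by decide)

theorem G_prime {u v p : ℕ} (hp : p ∈ u.primeFactors ∪ v.primeFactors) : p.Prime := by
  rw [mem_union] at hp
  rcases hp with h | h <;> exact Nat.prime_of_mem_primeFactors h

theorem G_ne2 {u v p : ℕ} (hu : Odd u) (hv : Odd v) (hp : p ∈ u.primeFactors ∪ v.primeFactors) :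
    p ≠ 2 := by
  rintro rfl
  rw [mem_union] at hp
  rcases hp with h | h
  · have h1 := Nat.dvd_of_mem_primeFactors h
    rw [Nat.odd_iff] at hu
    omega
  · have h1 := Nat.dvd_of_mem_primeFactors h
    rw [Nat.odd_iff] at hv
    omega

theorem prod_le (n u v : ℕ) (hu : Odd u) (hv : Odd v) (hun : u ≤ n) (hvn : v ≤ n) :
    ∏ p ∈ u.primeFactors ∪ v.primeFactors, p ≤ n ^ 2 := by
  have h1 := prod_union_inter (s₁ := u.primeFactors) (s₂ := v.primeFactors) (f := fun p : ℕ => p)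
  have h2 : 1 ≤ ∏ p ∈ u.primeFactors ∩ v.primeFactors, p := by
    apply Nat.pos_of_ne_zero
    rw [prod_ne_zero_iff]
    intro p hp
    exact (Nat.prime_of_mem_primeFactors (mem_inter.1 hp).1).ne_zero
  have h3 : ∏ p ∈ u.primeFactors, p ≤ u :=
    Nat.le_of_dvd (Nat.pos_of_ne_zero (G_ne hu)) (Nat.prod_primeFactors_dvd u)
  have h4 : ∏ p ∈ v.primeFactors, p ≤ v :=
    Nat.le_of_dvd (Nat.pos_of_ne_zero (G_ne hv)) (Nat.prod_primeFactors_dvd v)
  calc ∏ p ∈ u.primeFactors ∪ v.primeFactors, p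
      ≤ (∏ p ∈ u.primeFactors ∪ v.primeFactors, p) * ∏ p ∈ u.primeFactors ∩ v.primeFactors, p :=
        Nat.le_mul_of_pos_right _ h2
    _ = (∏ p ∈ u.primeFactors, p) * ∏ p ∈ v.primeFactors, p := h1
    _ ≤ u * v := Nat.mul_le_mul h3 h4
    _ ≤ n * n := Nat.mul_le_mul hun hvn
    _ = n ^ 2 := (sq n).symm

theorem G_f (p : ℕ) : 0 ≤ 1 - 1 / (p : ℝ) ∧ 1 - 1 / (p : ℝ) ≤ 1 := by
  rcases Nat.eq_zero_or_pos p with h | h
  · rw [h]; norm_num
  · have h1 : (1 : ℝ) ≤ p := by exact_mod_cast h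
    have h2 : 1 / (p : ℝ) ≤ 1 := by
      rw [div_le_one (by linarith)]
      exact h1
    have h3 : 0 ≤ 1 / (p : ℝ) := by positivity
    exact ⟨by linarith, by linarith⟩

theorem G_dens_nonneg (S : Finset ℕ) : 0 ≤ dens S := prod_nonneg (fun p _ => (G_f p).1)

theorem G_dens_le_one (S : Finset ℕ) : dens S ≤ 1 := prod_le_one (fun p _ => (G_f p).1)
  (fun p _ => (G_f p).2)

theorem G_dens_union (A B : Finset ℕ) : dens A * dens B ≤ dens (A ∪ B) := by
  have h1 : dens (A ∪ B) * dens (A ∩ B) = dens A * dens B := prod_union_inter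
  rw [← h1]
  exact mul_le_of_le_one_right (G_dens_nonneg _) (G_dens_le_one _)

theorem G_bet_nonneg (S : Finset ℕ) : 0 ≤ bet S := by
  unfold bet
  split_ifs <;> norm_num

theorem G_tau (u v : ℕ) : ∑ p ∈ (u.primeFactors ∪ v.primeFactors).filter (fun p => ¬ p < 11),
    1 / (p : ℝ) ≤ tau u + tau v := by
  have h0 : (u.primeFactors ∪ v.primeFactors).filter (fun p => ¬ p < 11) =
      u.primeFactors.filter (fun p => 11 ≤ p) ∪ v.primeFactors.filter (fun p => 11 ≤ p) := by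
    rw [filter_union]
    simp only [not_lt]
  rw [h0]
  unfold tau
  have h1 := sum_union_inter (s₁ := u.primeFactors.filter (fun p => 11 ≤ p))
    (s₂ := v.primeFactors.filter (fun p => 11 ≤ p)) (f := fun p : ℕ => 1 / (p : ℝ))
  have h2 : 0 ≤ ∑ p ∈ u.primeFactors.filter (fun p => 11 ≤ p) ∩
      v.primeFactors.filter (fun p => 11 ≤ p), 1 / (p : ℝ) :=
    sum_nonneg (fun _ _ => by positivity)
  linarith

theorem G_half (n : ℕ) : ((n : ℝ) - 1) / 2 ≤ ((n / 2 : ℕ) : ℝ) := by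
  have h1 : n ≤ 2 * (n / 2) + 1 := by omega
  have h2 : (n : ℝ) ≤ 2 * ((n / 2 : ℕ) : ℝ) + 1 := by exact_mod_cast h1
  linarith

theorem large_C (n : ℕ) (hn : 30000 ≤ n) (u v : ℕ) (hu : Odd u) (hv : Odd v) (hun : u ≤ n) (hvn : v ≤ n)
    (t : ℝ) (ht1 : t ≤ 1) (ht : tau u + tau v ≤ t) :
    dens ((u.primeFactors ∪ v.primeFactors).filter (fun p => p < 11)) * (((n:ℝ) - 1) / 2) * (1 - t)
      - bet ((u.primeFactors ∪ v.primeFactors).filter (fun p => p < 11)) * (1 + n / 1000) ≤ (cc (n / 2) u v : ℝ) := by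
  set P := u.primeFactors ∪ v.primeFactors with hP
  set S := P.filter (fun p => p < 11) with hS
  set Q := P.filter (fun p => ¬ p < 11) with hQ
  have hPp : ∀ p ∈ P, p.Prime := fun p hp => G_prime hp
  have hSQ : S ∪ Q = P := filter_union_filter_not_eq _ _
  have hS357 : S ⊆ {3, 5, 7} := by
    intro p hp
    rw [hS, mem_filter] at hp
    have h1 := hPp p hp.1
    have h2 := G_ne2 hu hv hp.1
    have h3 := hp.2
    have h4 := h1.two_le
    interval_cases p
    · exact absurd rfl h2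
    · decide
    · exact absurd h1 (by norm_num)
    · decide
    · exact absurd h1 (by norm_num)
    · decide
    · exact absurd h1 (by norm_num)
    · exact absurd h1 (by norm_num)
    · exact absurd h1 (by norm_num)
  have hub := union_bound S (bet S) (fun p hp => hPp p (mem_filter.1 hp).1) (base_bound S hS357) Q
    (fun p hp => hPp p (mem_filter.1 hp).1) (disjoint_filter_filter_not _ _ _) (n / 2)
  rw [hSQ, ← cc_eq_cS _ u v (G_ne hu) (G_ne hv)] at hub
  refine le_trans ?_ hub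
  have hQs : ∑ p ∈ Q, 1 / (p : ℝ) ≤ t := (G_tau u v).trans ht
  have hQc : (Q.card : ℝ) ≤ n / 1000 := by
    apply card_le_log Q (fun p hp => not_lt.1 (mem_filter.1 hp).2) n hn
    refine le_trans ?_ (prod_le n u v hu hv hun hvn)
    apply prod_le_prod_of_subset_of_one_le' (filter_subset _ _)
    intro p hp _
    exact (hPp p hp).pos
  have hn1 : (0 : ℝ) ≤ ((n : ℝ) - 1) / 2 := by
    have : (30000 : ℝ) ≤ n := by exact_mod_cast hn
    linarith
  have h1 : dens S * (((n:ℝ) - 1) / 2) * (1 - t) ≤ dens S * ((n / 2 : ℕ) : ℝ) *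
      (1 - ∑ p ∈ Q, 1 / (p : ℝ)) := by
    apply mul_le_mul
    · exact mul_le_mul_of_nonneg_left (G_half n) (G_dens_nonneg _)
    · linarith
    · linarith
    · exact mul_nonneg (G_dens_nonneg _) (Nat.cast_nonneg _)
  have h2 : bet S * (1 + (Q.card : ℝ)) ≤ bet S * (1 + n / 1000) :=
    mul_le_mul_of_nonneg_left (by linarith) (G_bet_nonneg _)
  linarith

theorem G_cS_empty (N : ℕ) : cS N ∅ = N := by
  unfold cS
  simp

theorem large_R (n : ℕ) (hn : 1 ≤ n) (u v : ℕ) (hu : Odd u) (hv : Odd v) (hun : u ≤ n) (hvn : v ≤ n) :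
    dens u.primeFactors * dens v.primeFactors * (((n:ℝ) - 1) / 2) - 2.9 * Real.sqrt n ≤ (cc (n / 2) u v : ℝ) := by
  set P := u.primeFactors ∪ v.primeFactors with hP
  have hPp : ∀ p ∈ P, p.Prime := fun p hp => G_prime hp
  have hb : ∀ y : ℝ, 0 ≤ y → |(cS ⌊y⌋₊ ∅ : ℝ) - dens ∅ * y| ≤ 1 := by
    intro y hy
    rw [G_cS_empty]
    unfold dens
    rw [prod_empty, one_mul, abs_le]
    have h1 := Nat.floor_le hy
    have h2 := Nat.lt_floor_add_one y
    constructor <;> linarith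
  have h1 := ie_gen ∅ 1 (by simp) hb P hPp (disjoint_empty_left _) ((n / 2 : ℕ) : ℝ)
    (Nat.cast_nonneg _)
  have hd0 : dens ∅ = 1 := by unfold dens; rw [prod_empty]
  rw [Nat.floor_natCast, empty_union, hd0, one_mul, one_mul,
    ← cc_eq_cS _ u v (G_ne hu) (G_ne hv)] at h1
  have h2 := two_pow_omega P (fun p hp => ⟨hPp p hp, G_ne2 hu hv hp⟩) n
    (prod_le n u v hu hv hun hvn)
  have h3 := (abs_le.1 (h1.trans h2)).1
  have hn1 : (0 : ℝ) ≤ ((n : ℝ) - 1) / 2 := by
    have : (1 : ℝ) ≤ n := by exact_mod_cast hn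
    linarith
  have h4 : dens u.primeFactors * dens v.primeFactors * (((n:ℝ) - 1) / 2) ≤
      dens P * ((n / 2 : ℕ) : ℝ) :=
    mul_le_mul (G_dens_union _ _) (G_half n) hn1 (G_dens_nonneg _)
  linarith

/-- all integers coprime to u and v: union bound -/
theorem large_T (n : ℕ) (u v : ℕ) (hu : Odd u) (hv : Odd v)
    (h3u : ¬ 3 ∣ u) (h5u : ¬ 5 ∣ u) (h7u : ¬ 7 ∣ u) (h3v : ¬ 3 ∣ v) (h5v : ¬ 5 ∣ v) (h7v : ¬ 7 ∣ v) :
    (n:ℝ) * (1 - tau u - tau v) ≤ (cc n u v : ℝ) := by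
  set P := u.primeFactors ∪ v.primeFactors with hP
  have hPp : ∀ p ∈ P, p.Prime := fun p hp => G_prime hp
  have h11 : ∀ p ∈ P, ¬ p < 11 := by
    intro p hp hlt
    have h1 := hPp p hp
    have h2 := G_ne2 hu hv hp
    have h4 := h1.two_le
    have hdv : p ∣ u ∨ p ∣ v := by
      rw [hP, mem_union] at hp
      rcases hp with h | h
      · exact Or.inl (Nat.dvd_of_mem_primeFactors h)
      · exact Or.inr (Nat.dvd_of_mem_primeFactors h)
    interval_cases p
    · exact absurd rfl h2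
    · exact hdv.elim h3u h3v
    · exact absurd h1 (by norm_num)
    · exact hdv.elim h5u h5v
    · exact absurd h1 (by norm_num)
    · exact hdv.elim h7u h7v
    · exact absurd h1 (by norm_num)
    · exact absurd h1 (by norm_num)
    · exact absurd h1 (by norm_num)
  have hfilt : P.filter (fun p => ¬ p < 11) = P := filter_true_of_mem h11
  have htau := G_tau u v
  rw [← hP, hfilt] at htau
  rw [cc_eq_cS _ u v (G_ne hu) (G_ne hv), ← hP]
  -- counting
  have h1 : n ≤ cS n P + ∑ p ∈ P, n / p := by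
    have h2 : (Icc 1 n).card = cS n P +
        ((Icc 1 n).filter (fun j => ¬ ∀ p ∈ P, ¬ p ∣ j)).card := by
      unfold cS
      rw [card_filter_add_card_filter_not]
    rw [Nat.card_Icc, Nat.add_sub_cancel] at h2
    have h3 : ((Icc 1 n).filter (fun j => ¬ ∀ p ∈ P, ¬ p ∣ j)).card ≤ ∑ p ∈ P, n / p := by
      have h4 : (Icc 1 n).filter (fun j => ¬ ∀ p ∈ P, ¬ p ∣ j) ⊆
          P.biUnion (fun p => (Ioc 0 n).filter (fun j => p ∣ j)) := by
        intro j hj
        rw [mem_filter, mem_Icc] at hj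
        obtain ⟨hj1, hj2⟩ := hj
        push Not at hj2
        obtain ⟨p, hp, hpj⟩ := hj2
        rw [mem_biUnion]
        exact ⟨p, hp, mem_filter.2 ⟨mem_Ioc.2 ⟨by omega, hj1.2⟩, hpj⟩⟩
      refine (card_le_card h4).trans (card_biUnion_le.trans (le_of_eq ?_))
      exact sum_congr rfl (fun p _ => Nat.Ioc_filter_dvd_card_eq_div n p)
    omega
  have h5 : (n : ℝ) ≤ cS n P + ∑ p ∈ P, ((n / p : ℕ) : ℝ) := by exact_mod_cast h1
  have h6 : ∑ p ∈ P, ((n / p : ℕ) : ℝ) ≤ n * ∑ p ∈ P, 1 / (p : ℝ) := by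
    rw [mul_sum]
    refine sum_le_sum (fun p _ => ?_)
    rw [mul_one_div]
    exact Nat.cast_div_le
  have h7 : (n : ℝ) * ∑ p ∈ P, 1 / (p : ℝ) ≤ n * (tau u + tau v) :=
    mul_le_mul_of_nonneg_left htau (Nat.cast_nonneg n)
  have h8 : (n:ℝ) * (1 - tau u - tau v) = n - n * (tau u + tau v) := by ring
  rw [h8]
  linarith

end H134OC
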