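import Pool.Agent.Helper134.OCSq

set_option autoImplicit false

namespace H134OC
open Finset

/-- the weight -/
noncomputable def hh8 (p : ℕ) : ℝ := ((1 - 1 / (p : ℝ))⁻¹) ^ 8 - 1

theorem hh8_nonneg {p : ℕ} (hp : 2 ≤ p) : 0 ≤ hh8 p := by
  have hp' : (2 : ℝ) ≤ p := by exact_mod_cast hp
  have h1 : 0 < 1 - 1 / (p : ℝ) := by
    have : 1 / (p : ℝ) ≤ 1 / 2 := one_div_le_one_div_of_le (by norm_num) hp'
    linarith
  have h2 : 1 ≤ (1 - 1 / (p : ℝ))⁻¹ := by
    rw [one_le_inv₀ h1]
    have : 0 < 1 / (p : ℝ) := by positivity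
    linarith
  have h3 := one_le_pow₀ h2 (n := 8)
  unfold hh8
  linarith

theorem hh8_le {p : ℕ} (hp : 29 ≤ p) : hh8 p ≤ 9.4 / p := by
  have hp' : (29 : ℝ) ≤ p := by exact_mod_cast hp
  obtain ⟨x, hx⟩ : ∃ x : ℝ, x = 1 / ((p : ℝ) - 1) := ⟨_, rfl⟩
  have hx0 : 0 < x := by
    rw [hx]
    have : (0 : ℝ) < p - 1 := by linarith
    positivity
  have hx1 : x ≤ 1 / 28 := by
    rw [hx]
    exact one_div_le_one_div_of_le (by norm_num) (by linarith)
  have h1 : (1 - 1 / (p : ℝ))⁻¹ = 1 + x := by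
    rw [hx]
    have h2 : (p : ℝ) ≠ 0 := by positivity
    have h3 : (p : ℝ) - 1 ≠ 0 := by linarith
    have h4 : (p : ℝ) - 1 ≠ 0 := by
      intro h; linarith
    field_simp
    ring
  have h2 : 9.4 / (p : ℝ) = 9.4 * x / (1 + x) := by
    rw [hx]
    have h2 : (p : ℝ) ≠ 0 := by positivity
    have h4 : (p : ℝ) - 1 ≠ 0 := by
      intro h; linarith
    have h5 : 1 + 1 / ((p : ℝ) - 1) = p / (p - 1) := by
      field_simp
      ring
    rw [h5]
    field_simp
  unfold hh8
  rw [h1, h2, le_div_iff₀ (by linarith)]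
  have a2 : x ^ 2 ≤ x * (1 / 28) := by nlinarith
  have a3 : x ^ 3 ≤ x * (1 / 28) ^ 2 := by
    calc x ^ 3 = x * x ^ 2 := by ring
      _ ≤ x * (1 / 28) ^ 2 := by gcongr
  have a4 : x ^ 4 ≤ x * (1 / 28) ^ 3 := by
    calc x ^ 4 = x * x ^ 3 := by ring
      _ ≤ x * (1 / 28) ^ 3 := by gcongr
  have a5 : x ^ 5 ≤ x * (1 / 28) ^ 4 := by
    calc x ^ 5 = x * x ^ 4 := by ring
      _ ≤ x * (1 / 28) ^ 4 := by gcongr
  have a6 : x ^ 6 ≤ x * (1 / 28) ^ 5 := by
    calc x ^ 6 = x * x ^ 5 := by ring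
      _ ≤ x * (1 / 28) ^ 5 := by gcongr
  have a7 : x ^ 7 ≤ x * (1 / 28) ^ 6 := by
    calc x ^ 7 = x * x ^ 6 := by ring
      _ ≤ x * (1 / 28) ^ 6 := by gcongr
  have a8 : x ^ 8 ≤ x * (1 / 28) ^ 7 := by
    calc x ^ 8 = x * x ^ 7 := by ring
      _ ≤ x * (1 / 28) ^ 7 := by gcongr
  have a9 : x ^ 9 ≤ x * (1 / 28) ^ 8 := by
    calc x ^ 9 = x * x ^ 8 := by ring
      _ ≤ x * (1 / 28) ^ 8 := by gcongr
  have e : ((1 + x) ^ 8 - 1) * (1 + x) = 8 * x + 36 * x ^ 2 + 84 * x ^ 3 + 126 * x ^ 4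
      + 126 * x ^ 5 + 84 * x ^ 6 + 36 * x ^ 7 + 9 * x ^ 8 + x ^ 9 := by ring
  rw [e]
  nlinarith [a2, a3, a4, a5, a6, a7, a8, a9, hx0]

theorem prod_mono8 {S T : Finset ℕ} (h : S ⊆ T) (f : ℕ → ℝ) (hf : ∀ i ∈ T, 1 ≤ f i) :
    ∏ i ∈ S, f i ≤ ∏ i ∈ T, f i := by
  rw [← Finset.prod_sdiff h]
  have h1 : 1 ≤ ∏ i ∈ T \ S, f i := by
    calc (1 : ℝ) = ∏ i ∈ T \ S, (1 : ℝ) := by simp
      _ ≤ _ := Finset.prod_le_prod (fun _ _ => zero_le_one)
        (fun i hi => hf i (Finset.mem_sdiff.1 hi).1)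
  have h2 : 0 ≤ ∏ i ∈ S, f i := Finset.prod_nonneg (fun i hi => zero_le_one.trans (hf i (h hi)))
  nlinarith

/-- odd primes up to `n` -/
def PP8 (n : ℕ) : Finset ℕ := (Icc 3 n).filter Nat.Prime

theorem small8 (n : ℕ) : (PP8 n).filter (fun p => p < 29) ⊆ {3, 5, 7, 11, 13, 17, 19, 23} := by
  intro p hp
  rw [Finset.mem_filter, PP8, Finset.mem_filter, Finset.mem_Icc] at hp
  obtain ⟨⟨⟨h1, h2⟩, h3⟩, h4⟩ := hp
  simp only [Finset.mem_insert, Finset.mem_singleton]
  interval_cases p <;> first | omega | (exfalso; revert h3; norm_num)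

theorem prodA8 (n : ℕ) : ∏ p ∈ PP8 n, (1 + hh8 p / p) ≤ 34.6 := by
  have hpos : ∀ p, 2 ≤ p → 0 ≤ hh8 p / p := fun p hp => div_nonneg (hh8_nonneg hp) (by positivity)
  rw [← Finset.prod_filter_mul_prod_filter_not (PP8 n) (fun p => p < 29)]
  have h1 : ∏ p ∈ (PP8 n).filter (fun p => p < 29), (1 + hh8 p / p) ≤ 31.69 := by
    refine (prod_mono8 (small8 n) _ ?_).trans ?_
    · intro p hp
      have : 2 ≤ p := by
        simp only [Finset.mem_insert, Finset.mem_singleton] at hp
        omega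
      linarith [hpos p this]
    · rw [Finset.prod_insert (by decide), Finset.prod_insert (by decide),
        Finset.prod_insert (by decide), Finset.prod_insert (by decide),
        Finset.prod_insert (by decide), Finset.prod_insert (by decide),
        Finset.prod_insert (by decide), Finset.prod_singleton]
      unfold hh8
      norm_num
  have h2 : ∏ p ∈ (PP8 n).filter (fun p => ¬ p < 29), (1 + hh8 p / p) ≤ 1.0894 := by
    have e1 : ∏ p ∈ (PP8 n).filter (fun p => ¬ p < 29), (1 + hh8 p / p) ≤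
        Real.exp (∑ p ∈ (PP8 n).filter (fun p => ¬ p < 29), hh8 p / p) := by
      rw [Real.exp_sum]
      refine Finset.prod_le_prod (fun p hp => ?_) (fun p hp => ?_)
      · rw [Finset.mem_filter] at hp
        have := hpos p (by omega)
        linarith
      · rw [add_comm]
        exact Real.add_one_le_exp _
    have e2 : ∑ p ∈ (PP8 n).filter (fun p => ¬ p < 29), hh8 p / p ≤ 0.08553 := by
      have e3 : ∑ p ∈ (PP8 n).filter (fun p => ¬ p < 29), hh8 p / p ≤
          9.4 * ∑ p ∈ (PP8 n).filter (fun p => ¬ p < 29), 1 / (p : ℝ) ^ 2 := by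
        rw [Finset.mul_sum]
        refine Finset.sum_le_sum fun p hp => ?_
        rw [Finset.mem_filter] at hp
        have hp29 : 29 ≤ p := by omega
        have := hh8_le hp29
        have hp0 : (0 : ℝ) < p := by positivity
        calc hh8 p / p ≤ (9.4 / p) / p := div_le_div_of_nonneg_right this hp0.le
          _ = 9.4 * (1 / (p : ℝ) ^ 2) := by field_simp
      rcases Nat.lt_or_ge n 29 with hn | hn
      · have : (PP8 n).filter (fun p => ¬ p < 29) = ∅ := by
          ext p
          simp only [PP8, Finset.mem_filter, Finset.mem_Icc, Finset.notMem_empty, iff_false]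
          omega
        rw [this, Finset.sum_empty]
        norm_num
      · have hs := s2 n
        have hsub : ({11, 13, 17, 19, 23} : Finset ℕ) ∪ (PP8 n).filter (fun p => ¬ p < 29) ⊆
            (Icc 11 n).filter Nat.Prime := by
          intro p hp
          rw [Finset.mem_union] at hp
          rw [Finset.mem_filter, Finset.mem_Icc]
          rcases hp with hp | hp
          · simp only [Finset.mem_insert, Finset.mem_singleton] at hp
            rcases hp with rfl | rfl | rfl | rfl | rfl <;>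
              exact ⟨⟨by norm_num, by omega⟩, by norm_num⟩
          · rw [Finset.mem_filter, PP8, Finset.mem_filter, Finset.mem_Icc] at hp
            exact ⟨⟨by omega, by omega⟩, hp.1.2⟩
        have hdisj : Disjoint ({11, 13, 17, 19, 23} : Finset ℕ)
            ((PP8 n).filter (fun p => ¬ p < 29)) := by
          rw [Finset.disjoint_left]
          intro p hp hp'
          simp only [Finset.mem_insert, Finset.mem_singleton] at hp
          rw [Finset.mem_filter] at hp'
          omega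
        have hle := Finset.sum_le_sum_of_subset_of_nonneg (f := fun p : ℕ => 1 / (p : ℝ) ^ 2) hsub
          (fun p _ _ => by positivity)
        rw [Finset.sum_union hdisj] at hle
        have h5 : ∑ p ∈ ({11, 13, 17, 19, 23} : Finset ℕ), 1 / (p : ℝ) ^ 2 ≥ 0.0223021 := by
          rw [Finset.sum_insert (by decide), Finset.sum_insert (by decide),
            Finset.sum_insert (by decide), Finset.sum_insert (by decide), Finset.sum_singleton]
          norm_num
        refine e3.trans ?_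
        linarith
    refine e1.trans ((Real.exp_le_exp.2 e2).trans ?_)
    have h3 := Real.exp_bound' (x := 0.08553) (by norm_num) (by norm_num) (n := 3) (by norm_num)
    refine h3.trans ?_
    norm_num [Finset.sum_range_succ, Nat.factorial]
  have h3 : 0 ≤ ∏ p ∈ (PP8 n).filter (fun p => ¬ p < 29), (1 + hh8 p / p) := by
    refine Finset.prod_nonneg fun p hp => ?_
    rw [Finset.mem_filter] at hp
    have := hpos p (by omega)
    linarith
  calc _ ≤ (31.69 : ℝ) * 1.0894 := mul_le_mul h1 h2 h3 (by norm_num)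
    _ ≤ 34.6 := by norm_num

theorem tail8 (k : ℕ) : ∑ j ∈ Finset.range k,
    1 / (((2 * j + 29 : ℕ) : ℝ) * Real.sqrt ((2 * j + 29 : ℕ) : ℝ)) ≤
    1 / Real.sqrt 27 - 1 / Real.sqrt ((2 * k + 27 : ℕ) : ℝ) := by
  induction k with
  | zero => simp
  | succ k ih =>
    rw [Finset.sum_range_succ]
    have h1 : 1 / (((2 * k + 29 : ℕ) : ℝ) * Real.sqrt ((2 * k + 29 : ℕ) : ℝ)) ≤
        1 / Real.sqrt ((2 * k + 27 : ℕ) : ℝ) - 1 / Real.sqrt ((2 * (k + 1) + 27 : ℕ) : ℝ) := by
      have e1 : ((2 * (k + 1) + 27 : ℕ) : ℝ) = ((2 * k + 29 : ℕ) : ℝ) := by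
        push_cast; ring
      rw [e1]
      obtain ⟨a, ha⟩ : ∃ a : ℝ, a = Real.sqrt ((2 * k + 27 : ℕ) : ℝ) := ⟨_, rfl⟩
      obtain ⟨b, hb⟩ : ∃ b : ℝ, b = Real.sqrt ((2 * k + 29 : ℕ) : ℝ) := ⟨_, rfl⟩
      rw [← ha, ← hb]
      have ha0 : 0 < a := by rw [ha]; positivity
      have hb0 : 0 < b := by rw [hb]; positivity
      have ha2 : a ^ 2 = ((2 * k + 27 : ℕ) : ℝ) := by rw [ha]; exact Real.sq_sqrt (by positivity)
      have hb2 : b ^ 2 = ((2 * k + 29 : ℕ) : ℝ) := by rw [hb]; exact Real.sq_sqrt (by positivity)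
      have hab : a ≤ b := by
        rw [ha, hb]
        apply Real.sqrt_le_sqrt
        push_cast
        linarith
      have hdiff : b ^ 2 - a ^ 2 = 2 := by
        rw [ha2, hb2]; push_cast; ring
      rw [← hb2]
      have e2 : 1 / a - 1 / b = (b - a) / (a * b) := by field_simp
      rw [e2, div_le_div_iff₀ (by positivity) (by positivity)]
      -- a b ≤ (b - a) b^3
      have h3 : (b - a) * (b + a) = 2 := by nlinarith
      have h4 : 1 ≤ (b - a) * b := by nlinarith
      nlinarith [mul_pos ha0 hb0, mul_pos hb0 hb0, mul_le_mul_of_nonneg_left h4 (by positivity : 0 ≤ b * b), mul_le_mul_of_nonneg_right hab hb0.le]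
    linarith

theorem prodB8 (n : ℕ) : ∏ p ∈ PP8 n, (1 + hh8 p / Real.sqrt p) ≤ 1380 := by
  have hpos : ∀ p : ℕ, 2 ≤ p → 0 ≤ hh8 p / Real.sqrt p :=
    fun p hp => div_nonneg (hh8_nonneg hp) (Real.sqrt_nonneg _)
  rw [← Finset.prod_filter_mul_prod_filter_not (PP8 n) (fun p => p < 29)]
  have h1 : ∏ p ∈ (PP8 n).filter (fun p => p < 29), (1 + hh8 p / Real.sqrt p) ≤ 223 := by
    refine (prod_mono8 (small8 n) _ ?_).trans ?_
    · intro p hp
      have : 2 ≤ p := by
        simp only [Finset.mem_insert, Finset.mem_singleton] at hp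
        omega
      linarith [hpos p this]
    · have key : ∀ (p : ℕ) (s : ℝ), 2 ≤ p → 0 < s → s ^ 2 ≤ p →
          0 ≤ 1 + hh8 p / Real.sqrt p ∧ 1 + hh8 p / Real.sqrt p ≤ 1 + hh8 p / s := by
        intro p s hp hs hsp
        have a1 := hpos p hp
        refine ⟨by linarith, ?_⟩
        have a2 : s ≤ Real.sqrt p := Real.le_sqrt_of_sq_le hsp
        have a3 := div_le_div_of_nonneg_left (hh8_nonneg hp) hs a2
        linarith
      have k3 := key 3 1.732 (by norm_num) (by norm_num) (by norm_num)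
      have k5 := key 5 2.236 (by norm_num) (by norm_num) (by norm_num)
      have k7 := key 7 2.6457 (by norm_num) (by norm_num) (by norm_num)
      have k11 := key 11 3.3166 (by norm_num) (by norm_num) (by norm_num)
      have k13 := key 13 3.6055 (by norm_num) (by norm_num) (by norm_num)
      have k17 := key 17 4.1231 (by norm_num) (by norm_num) (by norm_num)
      have k19 := key 19 4.3588 (by norm_num) (by norm_num) (by norm_num)
      have k23 := key 23 4.7958 (by norm_num) (by norm_num) (by norm_num)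
      rw [Finset.prod_insert (by decide), Finset.prod_insert (by decide),
        Finset.prod_insert (by decide), Finset.prod_insert (by decide),
        Finset.prod_insert (by decide), Finset.prod_insert (by decide),
        Finset.prod_insert (by decide), Finset.prod_singleton]
      have m1 := mul_le_mul k19.2 k23.2 k23.1 (k19.1.trans k19.2)
      have m1' := mul_nonneg k19.1 k23.1
      have m2 := mul_le_mul k17.2 m1 m1' (k17.1.trans k17.2)
      have m2' := mul_nonneg k17.1 m1'
      have m3 := mul_le_mul k13.2 m2 m2' (k13.1.trans k13.2)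
      have m3' := mul_nonneg k13.1 m2'
      have m4 := mul_le_mul k11.2 m3 m3' (k11.1.trans k11.2)
      have m4' := mul_nonneg k11.1 m3'
      have m5 := mul_le_mul k7.2 m4 m4' (k7.1.trans k7.2)
      have m5' := mul_nonneg k7.1 m4'
      have m6 := mul_le_mul k5.2 m5 m5' (k5.1.trans k5.2)
      have m6' := mul_nonneg k5.1 m5'
      have m7 := mul_le_mul k3.2 m6 m6' (k3.1.trans k3.2)
      refine m7.trans ?_
      unfold hh8
      norm_num
  have h2 : ∏ p ∈ (PP8 n).filter (fun p => ¬ p < 29), (1 + hh8 p / Real.sqrt p) ≤ 6.15 := by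
    have e1 : ∏ p ∈ (PP8 n).filter (fun p => ¬ p < 29), (1 + hh8 p / Real.sqrt p) ≤
        Real.exp (∑ p ∈ (PP8 n).filter (fun p => ¬ p < 29), hh8 p / Real.sqrt p) := by
      rw [Real.exp_sum]
      refine Finset.prod_le_prod (fun p hp => ?_) (fun p hp => ?_)
      · rw [Finset.mem_filter] at hp
        have := hpos p (by omega)
        linarith
      · rw [add_comm]
        exact Real.add_one_le_exp _
    have e2 : ∑ p ∈ (PP8 n).filter (fun p => ¬ p < 29), hh8 p / Real.sqrt p ≤ 1.81 := by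
      have e3 : ∑ p ∈ (PP8 n).filter (fun p => ¬ p < 29), hh8 p / Real.sqrt p ≤
          ∑ p ∈ (PP8 n).filter (fun p => ¬ p < 29), 9.4 * (1 / ((p : ℝ) * Real.sqrt p)) := by
        refine Finset.sum_le_sum fun p hp => ?_
        rw [Finset.mem_filter] at hp
        have hp29 : 29 ≤ p := by omega
        have := hh8_le hp29
        have hp0 : (0 : ℝ) < p := by positivity
        have hp1 : 0 < Real.sqrt p := Real.sqrt_pos.2 hp0
        calc hh8 p / Real.sqrt p ≤ (9.4 / p) / Real.sqrt p := div_le_div_of_nonneg_right this hp1.le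
          _ = 9.4 * (1 / ((p : ℝ) * Real.sqrt p)) := by field_simp
      have e4 : ∑ p ∈ (PP8 n).filter (fun p => ¬ p < 29), 9.4 * (1 / ((p : ℝ) * Real.sqrt p)) ≤
          ∑ p ∈ ((Finset.range n).image (fun j : ℕ => (2 * j + 29 : ℕ)) : Finset ℕ),
            9.4 * (1 / ((p : ℝ) * Real.sqrt p)) := by
        refine Finset.sum_le_sum_of_subset_of_nonneg ?_ (fun p _ _ => by positivity)
        intro p hp
        rw [Finset.mem_filter, PP8, Finset.mem_filter, Finset.mem_Icc] at hp
        obtain ⟨⟨⟨a1, a2⟩, a3⟩, a4⟩ := hp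
        rw [Finset.mem_image]
        have hodd : p % 2 = 1 := by
          rcases a3.eq_two_or_odd with h | h
          · omega
          · exact h
        exact ⟨(p - 29) / 2, Finset.mem_range.2 (by omega), by omega⟩
      rw [Finset.sum_image (fun a _ b _ h => by omega)] at e4
      rw [← Finset.mul_sum, ← Finset.mul_sum] at e4
      rw [← Finset.mul_sum] at e3
      have e5 := tail8 n
      have e6 : 1 / Real.sqrt 27 ≤ 1 / 5.196 := by
        apply one_div_le_one_div_of_le (by norm_num)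
        exact Real.le_sqrt_of_sq_le (by norm_num)
      have e7 : 0 ≤ 1 / Real.sqrt ((2 * n + 27 : ℕ) : ℝ) := by positivity
      have e8 : ∑ j ∈ Finset.range n,
          1 / (((2 * j + 29 : ℕ) : ℝ) * Real.sqrt ((2 * j + 29 : ℕ) : ℝ)) ≤ 1 / 5.196 := by
        linarith
      refine e3.trans (e4.trans ?_)
      calc _ ≤ (9.4 : ℝ) * (1 / 5.196) := mul_le_mul_of_nonneg_left e8 (by norm_num)
        _ ≤ 1.81 := by norm_num
    refine e1.trans ((Real.exp_le_exp.2 e2).trans ?_)
    have h3 := Real.exp_bound' (x := 0.81) (by norm_num) (by norm_num) (n := 5) (by norm_num)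
    have h4 : Real.exp 0.81 ≤ 2.2481 := by
      refine h3.trans ?_
      norm_num [Finset.sum_range_succ, Nat.factorial]
    have h5 : Real.exp 1.81 = Real.exp 1 * Real.exp 0.81 := by
      rw [← Real.exp_add]; norm_num
    rw [h5]
    have h6 := Real.exp_one_lt_d9
    calc Real.exp 1 * Real.exp 0.81 ≤ 2.7182818286 * 2.2481 :=
          mul_le_mul h6.le h4 (Real.exp_pos _).le (by norm_num)
      _ ≤ 6.15 := by norm_num
  have h3 : 0 ≤ ∏ p ∈ (PP8 n).filter (fun p => ¬ p < 29), (1 + hh8 p / Real.sqrt p) := by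
    refine Finset.prod_nonneg fun p hp => ?_
    rw [Finset.mem_filter] at hp
    have := hpos p (by omega)
    linarith
  calc _ ≤ (223 : ℝ) * 6.15 := mul_le_mul h1 h2 h3 (by norm_num)
    _ ≤ 1380 := by norm_num

theorem count8 (n : ℕ) (S : Finset ℕ) (hS : S ⊆ PP8 n) :
    ((((Icc 1 n).filter (fun w => Odd w)).filter (fun w => S ⊆ w.primeFactors)).card : ℝ) ≤
      n / 2 * (∏ p ∈ S, 1 / (p : ℝ)) + Real.sqrt n / 2 * ∏ p ∈ S, 1 / Real.sqrt p := by
  obtain ⟨d, hd⟩ : ∃ d : ℕ, d = ∏ p ∈ S, p := ⟨_, rfl⟩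
  have hpS : ∀ p ∈ S, Nat.Prime p := by
    intro p hp
    have := hS hp
    rw [PP8, Finset.mem_filter] at this
    exact this.2
  have hd0 : 0 < d := by
    rw [hd]
    exact Finset.prod_pos fun p hp => (hpS p hp).pos
  have hdr : (0 : ℝ) < d := by exact_mod_cast hd0
  have hcard : (((Icc 1 n).filter (fun w => Odd w)).filter (fun w => S ⊆ w.primeFactors)).card ≤
      (n / d + 1) / 2 := by
    have h1 : (((Icc 1 n).filter (fun w => Odd w)).filter (fun w => S ⊆ w.primeFactors)).card ≤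
        (Finset.range ((n / d + 1) / 2)).card := by
      have hdvd : ∀ w ∈ ((Icc 1 n).filter (fun w => Odd w)).filter (fun w => S ⊆ w.primeFactors),
          ∃ m, w = d * m ∧ m ≤ n / d ∧ m % 2 = 1 := by
        intro w hw
        rw [Finset.mem_filter, Finset.mem_filter, Finset.mem_Icc] at hw
        obtain ⟨⟨⟨a1, a2⟩, a3⟩, a4⟩ := hw
        have : d ∣ w := by
          rw [hd]
          exact (Finset.prod_dvd_prod_of_subset _ _ (fun p => p) a4).trans
            (Nat.prod_primeFactors_dvd w)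
        obtain ⟨m, rfl⟩ := this
        refine ⟨m, rfl, ?_, ?_⟩
        · rw [Nat.le_div_iff_mul_le hd0, mul_comm]
          exact a2
        · have := (Nat.odd_mul.1 a3).2
          exact Nat.odd_iff.1 this
      apply Finset.card_le_card_of_injOn (fun w => (w / d) / 2)
      · intro w hw
        obtain ⟨m, rfl, hm1, hm2⟩ := hdvd w hw
        simp only [Finset.coe_range, Set.mem_Iio]
        rw [Nat.mul_div_cancel_left _ hd0]
        omega
      · intro w hw w' hw' h
        obtain ⟨m, rfl, hm1, hm2⟩ := hdvd w hw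
        obtain ⟨m', rfl, hm1', hm2'⟩ := hdvd w' hw'
        simp only at h
        rw [Nat.mul_div_cancel_left _ hd0, Nat.mul_div_cancel_left _ hd0] at h
        have : m = m' := by omega
        rw [this]
    rwa [Finset.card_range] at h1
  have e1 : ∏ p ∈ S, 1 / (p : ℝ) = 1 / d := by
    rw [hd, Finset.prod_div_distrib, Finset.prod_const_one]
    push_cast
    rfl
  have e2 : ∏ p ∈ S, 1 / Real.sqrt (p : ℝ) = 1 / Real.sqrt d := by
    rw [hd, Finset.prod_div_distrib, Finset.prod_const_one]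
    push_cast
    rw [Real.sqrt_prod S (fun p _ => Nat.cast_nonneg p)]
  rw [e1, e2]
  have hsd : 0 < Real.sqrt d := Real.sqrt_pos.2 hdr
  rcases Nat.lt_or_ge n d with hnd | hnd
  · have : n / d = 0 := Nat.div_eq_of_lt hnd
    rw [this] at hcard
    have h0 : (((Icc 1 n).filter (fun w => Odd w)).filter (fun w => S ⊆ w.primeFactors)).card = 0 := by
      omega
    rw [h0]
    push_cast
    positivity
  · have h1 : ((((Icc 1 n).filter (fun w => Odd w)).filter
        (fun w => S ⊆ w.primeFactors)).card : ℝ) ≤ ((n / d : ℕ) + 1 : ℝ) / 2 := by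
      have h2 : ((((n / d + 1) / 2 : ℕ)) : ℝ) ≤ ((n / d : ℕ) + 1 : ℝ) / 2 := by
        have := @Nat.cast_div_le ℝ _ _ _ (n / d + 1) 2
        push_cast at this
        exact this
      exact (by exact_mod_cast hcard : ((((Icc 1 n).filter (fun w => Odd w)).filter
        (fun w => S ⊆ w.primeFactors)).card : ℝ) ≤ (((n / d + 1) / 2 : ℕ) : ℝ)).trans h2
    have h3 : ((n / d : ℕ) : ℝ) ≤ (n : ℝ) / d := Nat.cast_div_le
    have h4 : 1 ≤ Real.sqrt n / Real.sqrt d := by
      rw [one_le_div hsd]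
      exact Real.sqrt_le_sqrt (by exact_mod_cast hnd)
    refine h1.trans ?_
    have e3 : (n : ℝ) / 2 * (1 / d) + Real.sqrt n / 2 * (1 / Real.sqrt d) =
        ((n : ℝ) / d + Real.sqrt n / Real.sqrt d) / 2 := by ring
    rw [e3]
    linarith

/-- eighth moment of w / phi(w) over odd w -/
theorem m8 (n : ℕ) : ∑ w ∈ (Icc 1 n).filter (fun w => Odd w), ((dens w.primeFactors)⁻¹) ^ 8 ≤
    17.3 * n + 690 * Real.sqrt n := by
  classical
  have hexp : ∀ w ∈ (Icc 1 n).filter (fun w => Odd w), ((dens w.primeFactors)⁻¹) ^ 8 =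
      ∑ S ∈ w.primeFactors.powerset, ∏ p ∈ S, hh8 p := by
    intro w _
    unfold dens
    rw [← Finset.prod_inv_distrib, ← Finset.prod_pow, ← Finset.prod_one_add]
    refine Finset.prod_congr rfl fun p _ => ?_
    unfold hh8
    ring
  rw [Finset.sum_congr rfl hexp]
  have hcomm : ∑ w ∈ (Icc 1 n).filter (fun w => Odd w), ∑ S ∈ w.primeFactors.powerset,
      ∏ p ∈ S, hh8 p = ∑ S ∈ (PP8 n).powerset,
      ∑ w ∈ ((Icc 1 n).filter (fun w => Odd w)).filter (fun w => S ⊆ w.primeFactors),
        ∏ p ∈ S, hh8 p := by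
    apply Finset.sum_comm'
    intro w S
    constructor
    · rintro ⟨h1, h2⟩
      rw [Finset.mem_powerset] at h2
      refine ⟨Finset.mem_filter.2 ⟨h1, h2⟩, ?_⟩
      rw [Finset.mem_powerset]
      intro p hp
      have hp' := h2 hp
      rw [Nat.mem_primeFactors] at hp'
      obtain ⟨b1, b2, b3⟩ := hp'
      rw [Finset.mem_filter, Finset.mem_Icc] at h1
      rw [PP8, Finset.mem_filter, Finset.mem_Icc]
      have hp2 : p ≠ 2 := by
        rintro rfl
        have := h1.2
        rw [← Nat.not_even_iff_odd] at this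
        exact this (even_iff_two_dvd.2 b2)
      have hp3 := b1.two_le
      have hp4 := Nat.le_of_dvd (by omega) b2
      exact ⟨⟨by omega, by omega⟩, b1⟩
    · rintro ⟨h1, _⟩
      rw [Finset.mem_filter] at h1
      exact ⟨h1.1, Finset.mem_powerset.2 h1.2⟩
  rw [hcomm]
  have hle : ∀ S ∈ (PP8 n).powerset,
      ∑ w ∈ ((Icc 1 n).filter (fun w => Odd w)).filter (fun w => S ⊆ w.primeFactors),
        ∏ p ∈ S, hh8 p ≤ n / 2 * (∏ p ∈ S, hh8 p / (p : ℝ))
          + Real.sqrt n / 2 * ∏ p ∈ S, hh8 p / Real.sqrt p := by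
    intro S hS
    rw [Finset.mem_powerset] at hS
    rw [Finset.sum_const, nsmul_eq_mul]
    have h1 := count8 n S hS
    have h2 : 0 ≤ ∏ p ∈ S, hh8 p := by
      refine Finset.prod_nonneg fun p hp => hh8_nonneg ?_
      have := hS hp
      rw [PP8, Finset.mem_filter] at this
      exact this.2.two_le
    refine (mul_le_mul_of_nonneg_right h1 h2).trans (le_of_eq ?_)
    have e1 : ∏ p ∈ S, hh8 p / (p : ℝ) = (∏ p ∈ S, 1 / (p : ℝ)) * ∏ p ∈ S, hh8 p := by
      rw [← Finset.prod_mul_distrib]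
      exact Finset.prod_congr rfl fun p _ => by ring
    have e2 : ∏ p ∈ S, hh8 p / Real.sqrt p = (∏ p ∈ S, 1 / Real.sqrt (p : ℝ)) *
        ∏ p ∈ S, hh8 p := by
      rw [← Finset.prod_mul_distrib]
      exact Finset.prod_congr rfl fun p _ => by ring
    rw [e1, e2]
    ring
  refine (Finset.sum_le_sum hle).trans ?_
  rw [Finset.sum_add_distrib, ← Finset.mul_sum, ← Finset.mul_sum, ← Finset.prod_one_add,
    ← Finset.prod_one_add]
  have hA := prodA8 n
  have hB := prodB8 n
  have hn0 : (0 : ℝ) ≤ n := Nat.cast_nonneg n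
  have hs0 := Real.sqrt_nonneg (n : ℝ)
  nlinarith

theorem N7 (n : ℕ) (z : ℝ) (hz : 0 < z) :
    (((Icc 1 n).filter (fun w => Odd w ∧ dens w.primeFactors ≤ z)).card : ℝ) ≤
      z ^ 8 * (17.3 * n + 690 * Real.sqrt n) := by
  have hm := m8 n
  have hsub : (Icc 1 n).filter (fun w => Odd w ∧ dens w.primeFactors ≤ z) ⊆
      (Icc 1 n).filter (fun w => Odd w) := by
    intro w hw
    rw [Finset.mem_filter] at hw ⊢
    exact ⟨hw.1, hw.2.1⟩
  have hdpos : ∀ w : ℕ, 0 < dens w.primeFactors := by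
    intro w
    unfold dens
    refine Finset.prod_pos fun p hp => ?_
    have h2 : (2 : ℝ) ≤ p := by exact_mod_cast (Nat.prime_of_mem_primeFactors hp).two_le
    have : 1 / (p : ℝ) ≤ 1 / 2 := one_div_le_one_div_of_le (by norm_num) h2
    linarith
  have h1 : (((Icc 1 n).filter (fun w => Odd w ∧ dens w.primeFactors ≤ z)).card : ℝ) ≤
      ∑ w ∈ (Icc 1 n).filter (fun w => Odd w ∧ dens w.primeFactors ≤ z),
        z ^ 8 * ((dens w.primeFactors)⁻¹) ^ 8 := by
    rw [Finset.card_eq_sum_ones]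
    push_cast
    refine Finset.sum_le_sum fun w hw => ?_
    rw [Finset.mem_filter] at hw
    have h2 := hdpos w
    rw [← mul_pow]
    apply one_le_pow₀
    rw [← div_eq_mul_inv, one_le_div h2]
    exact hw.2.2
  rw [← Finset.mul_sum] at h1
  refine h1.trans (mul_le_mul_of_nonneg_left ?_ (by positivity))
  refine (Finset.sum_le_sum_of_subset_of_nonneg hsub fun w _ _ => ?_).trans hm
  have := hdpos w
  positivity

end H134OC
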