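import Pool.Agent.Helper134.OCSq

set_option autoImplicit false

namespace H134OC
open Finset

lemma Xa_split (Q : Finset ℕ) : ∑ p ∈ Q, ∑ q ∈ Q.erase p, 1 / ((p:ℝ) * q) =
    (∑ p ∈ Q, 1 / (p:ℝ)) ^ 2 - ∑ p ∈ Q, (1 / (p:ℝ)) ^ 2 := by
  rw [sq, Finset.sum_mul_sum, ← Finset.sum_sub_distrib]
  refine Finset.sum_congr rfl fun p hp => ?_
  rw [← Finset.sum_erase_add _ _ hp]
  have : ∑ q ∈ Q.erase p, 1 / ((p:ℝ) * q) = ∑ q ∈ Q.erase p, 1 / (p:ℝ) * (1 / (q:ℝ)) := by
    refine Finset.sum_congr rfl fun q _ => ?_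
    rw [one_div_mul_one_div]
  rw [this]
  ring

lemma Xa_sq {f : ℕ → ℝ} (s : Finset ℕ) (h : ∀ p ∈ s, 0 ≤ f p) :
    ∑ p ∈ s, (f p) ^ 2 ≤ (∑ p ∈ s, f p) ^ 2 := by
  rw [sq (∑ p ∈ s, f p), Finset.sum_mul]
  refine Finset.sum_le_sum fun p hp => ?_
  rw [sq]
  exact mul_le_mul_of_nonneg_left (Finset.single_le_sum h hp) (h p hp)

/-- pointwise lower bound for twice the second elementary symmetric function -/
theorem e2_lower (Q : Finset ℕ) (hQ : ∀ p ∈ Q, p.Prime ∧ 11 ≤ p) (ht : (7:ℝ)/50 ≤ ∑ p ∈ Q, 1 / (p:ℝ)) :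
    (287:ℝ)/32500 ≤ ∑ p ∈ Q, ∑ q ∈ Q.erase p, 1 / ((p:ℝ) * q) := by
  rw [Xa_split]
  by_cases h11 : 11 ∈ Q
  · have e1 : ∑ p ∈ Q, 1 / (p:ℝ) = ∑ p ∈ Q.erase 11, 1 / (p:ℝ) + 1 / ((11:ℕ):ℝ) :=
      (Finset.sum_erase_add _ _ h11).symm
    have e2 : ∑ p ∈ Q, (1 / (p:ℝ)) ^ 2 =
        ∑ p ∈ Q.erase 11, (1 / (p:ℝ)) ^ 2 + (1 / ((11:ℕ):ℝ)) ^ 2 :=
      (Finset.sum_erase_add _ _ h11).symm
    have e3 : ∑ p ∈ Q.erase 11, (1 / (p:ℝ)) ^ 2 ≤ (∑ p ∈ Q.erase 11, 1 / (p:ℝ)) ^ 2 :=
      Xa_sq _ (fun p _ => by positivity)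
    set s := ∑ p ∈ Q.erase 11, 1 / (p:ℝ)
    rw [e1] at ht ⊢
    rw [e2]
    push_cast at ht ⊢
    nlinarith
  · have h13 : ∀ p ∈ Q, 13 ≤ p := by
      intro p hp
      obtain ⟨h1, h2⟩ := hQ p hp
      by_contra h
      have h3 : p < 13 := by omega
      interval_cases p
      · exact h11 hp
      · norm_num at h1
    have e1 : ∑ p ∈ Q, (1 / (p:ℝ)) ^ 2 ≤ 1 / 13 * ∑ p ∈ Q, 1 / (p:ℝ) := by
      rw [Finset.mul_sum]
      refine Finset.sum_le_sum fun p hp => ?_
      have h1 : (13:ℝ) ≤ p := by exact_mod_cast h13 p hp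
      have h2 : 1 / (p:ℝ) ≤ 1 / 13 := one_div_le_one_div_of_le (by norm_num) h1
      rw [sq]
      exact mul_le_mul_of_nonneg_right h2 (by positivity)
    set t := ∑ p ∈ Q, 1 / (p:ℝ)
    nlinarith

lemma Xa_pair {p q : ℕ} (hp : p.Prime) (hq : q.Prime) (h : 11 ≤ p) (hpq : p < q)
    (h1 : ¬ (p = 11 ∧ q = 13)) (h2 : ¬ (p = 11 ∧ q = 17)) (h3 : ¬ (p = 11 ∧ q = 19)) :
    1 / (p:ℝ) + 1 / (q:ℝ) < 7 / 50 := by
  by_cases hp11 : p = 11
  · subst hp11
    have hq23 : 23 ≤ q := by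
      by_contra hlt
      push Not at hlt
      interval_cases q <;> first | omega | (exfalso; revert hq; norm_num)
    have h4 : (23:ℝ) ≤ q := by exact_mod_cast hq23
    have h5 : 1 / (q:ℝ) ≤ 1 / 23 := one_div_le_one_div_of_le (by norm_num) h4
    push_cast
    linarith
  · have hp13 : 13 ≤ p := by
      by_contra hlt
      push Not at hlt
      interval_cases p
      · exact hp11 rfl
      · revert hp; norm_num
    have hq17 : 17 ≤ q := by
      by_contra hlt
      push Not at hlt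
      have : 14 ≤ q := by omega
      interval_cases q <;> (revert hq; norm_num)
    have h4 : (13:ℝ) ≤ p := by exact_mod_cast hp13
    have h5 : 1 / (p:ℝ) ≤ 1 / 13 := one_div_le_one_div_of_le (by norm_num) h4
    have h6 : (17:ℝ) ≤ q := by exact_mod_cast hq17
    have h7 : 1 / (q:ℝ) ≤ 1 / 17 := one_div_le_one_div_of_le (by norm_num) h6
    linarith

/-- without the pairs 11*13, 11*17, 11*19 there are at least three primes -/
theorem third_prime (Q : Finset ℕ) (hQ : ∀ p ∈ Q, p.Prime ∧ 11 ≤ p) (ht : (7:ℝ)/50 ≤ ∑ p ∈ Q, 1 / (p:ℝ))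
    (h1 : ¬ (11 ∈ Q ∧ 13 ∈ Q)) (h2 : ¬ (11 ∈ Q ∧ 17 ∈ Q)) (h3 : ¬ (11 ∈ Q ∧ 19 ∈ Q))
    (p q : ℕ) (hp : p ∈ Q) (hq : q ∈ Q) : ∃ r ∈ Q, r ≠ p ∧ r ≠ q := by
  by_contra hcon
  push Not at hcon
  have hsub : Q ⊆ {p, q} := by
    intro r hr
    rw [Finset.mem_insert, Finset.mem_singleton]
    by_cases h : r = p
    · exact Or.inl h
    · exact Or.inr (hcon r hr h)
  have hle : ∑ r ∈ Q, 1 / (r:ℝ) ≤ ∑ r ∈ ({p, q} : Finset ℕ), 1 / (r:ℝ) :=
    Finset.sum_le_sum_of_subset_of_nonneg hsub (fun r _ _ => by positivity)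
  by_cases hpq : p = q
  · subst hpq
    rw [Finset.pair_eq_singleton, Finset.sum_singleton] at hle
    have h4 : (11:ℝ) ≤ p := by exact_mod_cast (hQ p hp).2
    have h5 : 1 / (p:ℝ) ≤ 1 / 11 := one_div_le_one_div_of_le (by norm_num) h4
    linarith
  · rw [Finset.sum_pair hpq] at hle
    rcases lt_or_gt_of_ne hpq with h | h
    · have := Xa_pair (hQ p hp).1 (hQ q hq).1 (hQ p hp).2 h
        (fun hh => h1 ⟨hh.1 ▸ hp, hh.2 ▸ hq⟩) (fun hh => h2 ⟨hh.1 ▸ hp, hh.2 ▸ hq⟩)
        (fun hh => h3 ⟨hh.1 ▸ hp, hh.2 ▸ hq⟩)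
      linarith
    · have := Xa_pair (hQ q hq).1 (hQ p hp).1 (hQ q hq).2 h
        (fun hh => h1 ⟨hh.1 ▸ hq, hh.2 ▸ hp⟩) (fun hh => h2 ⟨hh.1 ▸ hq, hh.2 ▸ hp⟩)
        (fun hh => h3 ⟨hh.1 ▸ hq, hh.2 ▸ hp⟩)
      linarith

/-- prime factors at least 11 -/
def TT (w : ℕ) : Finset ℕ := w.primeFactors.filter (fun p => 11 ≤ p)

theorem mem_TT {w p : ℕ} : p ∈ TT w ↔ (p.Prime ∧ p ∣ w ∧ w ≠ 0) ∧ 11 ≤ p := by
  unfold TT
  rw [Finset.mem_filter, Nat.mem_primeFactors]

theorem mult_count (W : ℕ → Prop) [DecidablePred W] (hW : ∀ p i : ℕ, p.Prime → 11 ≤ p → (W (p * i) ↔ W i))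
    (p q : ℕ) (hp : p.Prime) (hq : q.Prime) (hp' : 11 ≤ p) (hq' : 11 ≤ q) (n L : ℕ) (A : Finset ℕ)
    (hA : ∀ w ∈ A, W w ∧ w ≤ n ∧ p * q ∣ w ∧ L ≤ w / (p * q)) :
    A.card ≤ ((Icc L (n / (p * q))).filter W).card := by
  have hpos : 0 < p * q := Nat.mul_pos hp.pos hq.pos
  apply Finset.card_le_card_of_injOn (fun w => w / (p * q))
  · intro w hw
    obtain ⟨h1, h2, h3, h4⟩ := hA w hw
    obtain ⟨i, hi⟩ := h3
    have hdiv : w / (p * q) = i := by rw [hi]; exact Nat.mul_div_cancel_left i hpos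
    have hWi : W i := by
      rw [hi, mul_assoc, hW p _ hp hp', hW q _ hq hq'] at h1
      exact h1
    show w / (p * q) ∈ (Icc L (n / (p * q))).filter W
    rw [Finset.mem_filter, Finset.mem_Icc]
    exact ⟨⟨h4, Nat.div_le_div_right h2⟩, by rw [hdiv]; exact hWi⟩
  · intro w hw w' hw' heq
    have h3 := (hA w hw).2.2.1
    have h3' := (hA w' hw').2.2.1
    have e1 := Nat.mul_div_cancel' h3
    have e2 := Nat.mul_div_cancel' h3'
    have heq' : w / (p * q) = w' / (p * q) := heq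
    rw [← e1, ← e2, heq']

theorem pq_dvd {w p q : ℕ} (hp : p ∈ TT w) (hq : q ∈ TT w) (hne : p ≠ q) : p * q ∣ w := by
  rw [mem_TT] at hp hq
  exact Nat.Coprime.mul_dvd_of_dvd_of_dvd ((Nat.coprime_primes hp.1.1 hq.1.1).2 hne) hp.1.2.1 hq.1.2.1

/-- TARGET: the number of w with large tail sum, inside a class W stable under multiplication by primes >= 11 -/
theorem X_count (W : ℕ → Prop) [DecidablePred W] (hW : ∀ p i : ℕ, p.Prime → 11 ≤ p → (W (p * i) ↔ W i))
    (a b c : ℝ) (ha : 0 ≤ a) (hb : 0 ≤ b) (hc : 0 ≤ c)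
    (h1 : ∀ M : ℕ, (((Icc 1 M).filter W).card : ℝ) ≤ a * M + b)
    (h2 : ∀ M : ℕ, (((Icc 11 M).filter W).card : ℝ) ≤ c * M) (n : ℕ) :
    (((Icc 1 n).filter (fun w => W w ∧ (7:ℝ)/50 ≤ tau w)).card : ℝ) ≤
      (1/143 + 1/187 + 1/209) * a * n + 3 * b + 0.075 * c * n := by
  classical
  set Xr : Finset ℕ := (Icc 1 n).filter (fun w => W w ∧ (7:ℝ)/50 ≤ tau w ∧ ¬ 143 ∣ w ∧ ¬ 187 ∣ w ∧ ¬ 209 ∣ w) with hXr
  set Xd : ℕ → Finset ℕ := fun d => (Icc 1 n).filter (fun w => W w ∧ d ∣ w) with hXd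
  have hsub : (Icc 1 n).filter (fun w => W w ∧ (7:ℝ)/50 ≤ tau w) ⊆ ((Xd 143 ∪ Xd 187) ∪ Xd 209) ∪ Xr := by
    intro w hw
    rw [Finset.mem_filter] at hw
    simp only [Finset.mem_union, hXd, hXr, Finset.mem_filter]
    tauto
  have hcard : (((Icc 1 n).filter (fun w => W w ∧ (7:ℝ)/50 ≤ tau w)).card : ℝ) ≤
      (Xd 143).card + (Xd 187).card + (Xd 209).card + Xr.card := by
    have e1 := Finset.card_le_card hsub
    have e2 := Finset.card_union_le ((Xd 143 ∪ Xd 187) ∪ Xd 209) Xr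
    have e3 := Finset.card_union_le (Xd 143 ∪ Xd 187) (Xd 209)
    have e4 := Finset.card_union_le (Xd 143) (Xd 187)
    have : ((Icc 1 n).filter (fun w => W w ∧ (7:ℝ)/50 ≤ tau w)).card ≤
      (Xd 143).card + (Xd 187).card + (Xd 209).card + Xr.card := by omega
    exact_mod_cast this
  have hd : ∀ p q : ℕ, p.Prime → q.Prime → 11 ≤ p → 11 ≤ q →
      ((Xd (p * q)).card : ℝ) ≤ a * (n / ((p : ℝ) * q)) + b := by
    intro p q hp hq hp' hq'
    have hpos : 0 < p * q := Nat.mul_pos hp.pos hq.pos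
    have e1 := mult_count W hW p q hp hq hp' hq' n 1 (Xd (p * q)) (by
      intro w hw
      simp only [hXd, Finset.mem_filter, Finset.mem_Icc] at hw
      refine ⟨hw.2.1, hw.1.2, hw.2.2, ?_⟩
      exact Nat.div_pos (Nat.le_of_dvd (by omega) hw.2.2) hpos)
    have e2 := h1 (n / (p * q))
    have e3 : ((n / (p * q) : ℕ) : ℝ) ≤ n / ((p : ℝ) * q) := by
      have := @Nat.cast_div_le ℝ _ _ _ n (p * q)
      push_cast at this
      exact this
    calc ((Xd (p * q)).card : ℝ) ≤ (((Icc 1 (n / (p * q))).filter W).card : ℝ) := by exact_mod_cast e1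
      _ ≤ a * ((n / (p * q) : ℕ) : ℝ) + b := e2
      _ ≤ a * (n / ((p : ℝ) * q)) + b := by
        have := mul_le_mul_of_nonneg_left e3 ha
        linarith
  have d1 := hd 11 13 (by norm_num) (by norm_num) (by norm_num) (by norm_num)
  have d2 := hd 11 17 (by norm_num) (by norm_num) (by norm_num) (by norm_num)
  have d3 := hd 11 19 (by norm_num) (by norm_num) (by norm_num) (by norm_num)
  norm_num at d1 d2 d3
  -- the regular part
  have hspec : ∀ w ∈ Xr, ¬ (11 ∈ TT w ∧ 13 ∈ TT w) ∧ ¬ (11 ∈ TT w ∧ 17 ∈ TT w) ∧ ¬ (11 ∈ TT w ∧ 19 ∈ TT w) := by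
    intro w hw
    simp only [hXr, Finset.mem_filter] at hw
    obtain ⟨_, _, _, g1, g2, g3⟩ := hw
    refine ⟨fun h => g1 ?_, fun h => g2 ?_, fun h => g3 ?_⟩
    · exact pq_dvd h.1 h.2 (by norm_num)
    · exact pq_dvd h.1 h.2 (by norm_num)
    · exact pq_dvd h.1 h.2 (by norm_num)
  have hTQ : ∀ w, ∀ p ∈ TT w, p.Prime ∧ 11 ≤ p := fun w p hp => by
    rw [mem_TT] at hp; exact ⟨hp.1.1, hp.2⟩
  have hreg : (Xr.card : ℝ) ≤ 0.075 * c * n := by
    by_cases hn : n < 19
    · have hemp : Xr = ∅ := by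
        rw [Finset.eq_empty_iff_forall_notMem]
        intro w hw
        have hs := hspec w hw
        have hw' := hw
        simp only [hXr, Finset.mem_filter, Finset.mem_Icc] at hw'
        obtain ⟨⟨hw1, hwn⟩, _, htau, _⟩ := hw'
        have hne : (TT w).Nonempty := by
          rw [Finset.nonempty_iff_ne_empty]
          intro he
          have : tau w = 0 := by
            show ∑ p ∈ TT w, 1 / (p : ℝ) = 0
            rw [he]; simp
          rw [this] at htau
          norm_num at htau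
        obtain ⟨p, hp⟩ := hne
        obtain ⟨r, hr, hrp, _⟩ := third_prime (TT w) (hTQ w) htau hs.1 hs.2.1 hs.2.2 p p hp hp
        have hdv := pq_dvd hr hp hrp
        have hle := Nat.le_of_dvd (by omega) hdv
        have l1 := (hTQ w r hr).2
        have l2 := (hTQ w p hp).2
        have : 11 * 11 ≤ r * p := Nat.mul_le_mul l1 l2
        omega
      rw [hemp]
      simp only [Finset.card_empty, Nat.cast_zero]
      positivity
    · have hn' : 19 ≤ n := by omega
      set P : Finset ℕ := (Icc 11 n).filter Nat.Prime with hP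
      set R : Finset (ℕ × ℕ) := {(11, 11), (13, 13), (17, 17), (19, 19), (11, 13), (13, 11), (11, 17), (17, 11),
        (11, 19), (19, 11)} with hR
      set E0 : Finset (ℕ × ℕ) := (P ×ˢ P) \ R with hE0
      set E : Finset (ℕ × ℕ) := E0.filter (fun x => x.1 ≠ x.2) with hE
      have m11 : 11 ∈ P := by simp only [hP, Finset.mem_filter, Finset.mem_Icc]; exact ⟨⟨by omega, by omega⟩, by norm_num⟩
      have m13 : 13 ∈ P := by simp only [hP, Finset.mem_filter, Finset.mem_Icc]; exact ⟨⟨by omega, by omega⟩, by norm_num⟩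
      have m17 : 17 ∈ P := by simp only [hP, Finset.mem_filter, Finset.mem_Icc]; exact ⟨⟨by omega, by omega⟩, by norm_num⟩
      have m19 : 19 ∈ P := by simp only [hP, Finset.mem_filter, Finset.mem_Icc]; exact ⟨⟨by omega, by omega⟩, by norm_num⟩
      have hRP : R ⊆ P ×ˢ P := by
        intro x hx
        simp only [hR, Finset.mem_insert, Finset.mem_singleton] at hx
        rcases hx with rfl | rfl | rfl | rfl | rfl | rfl | rfl | rfl | rfl | rfl <;>
          simp only [Finset.mem_product, m11, m13, m17, m19, and_self]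
      set f : ℕ → ℝ := fun p => 1 / (p : ℝ) ^ 2 with hf
      set g : ℕ × ℕ → ℝ := fun x => 1 / ((x.1 : ℝ) * x.2) with hg
      have hgg : ∀ x, g x * g x = f x.1 * f x.2 := by
        intro x
        simp only [hg, hf]
        rw [div_mul_div_comm, div_mul_div_comm]
        congr 1
        ring
      have hg0 : ∀ x, 0 ≤ g x := fun x => by simp only [hg]; positivity
      have hf0 : ∀ x, 0 ≤ f x := fun x => by simp only [hf]; positivity
      have hSS : ∑ x ∈ P ×ˢ P, g x * g x = (∑ p ∈ P, f p) ^ 2 := by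
        rw [Finset.sum_product, sq, Finset.sum_mul_sum]
        apply Finset.sum_congr rfl
        intro p _
        apply Finset.sum_congr rfl
        intro q _
        exact hgg (p, q)
      have hS : ∑ p ∈ P, f p ≤ 0.0314 := s2 n
      have hS0 : 0 ≤ ∑ p ∈ P, f p := Finset.sum_nonneg (fun p _ => hf0 p)
      have hsplit : ∑ x ∈ E0, g x * g x + ∑ x ∈ R, g x * g x = ∑ x ∈ P ×ˢ P, g x * g x :=
        Finset.sum_sdiff hRP
      have hEE : ∑ x ∈ E, g x * g x ≤ ∑ x ∈ E0, g x * g x :=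
        Finset.sum_le_sum_of_subset_of_nonneg (Finset.filter_subset _ _) (fun x _ _ => mul_nonneg (hg0 x) (hg0 x))
      have hRsum : ∑ x ∈ R, g x * g x = 1/11^4 + 1/13^4 + 1/17^4 + 1/19^4 + 2/143^2 + 2/187^2 + 2/209^2 := by
        rw [hR]
        rw [Finset.sum_insert (by decide), Finset.sum_insert (by decide), Finset.sum_insert (by decide),
          Finset.sum_insert (by decide), Finset.sum_insert (by decide), Finset.sum_insert (by decide),
          Finset.sum_insert (by decide), Finset.sum_insert (by decide), Finset.sum_insert (by decide),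
          Finset.sum_singleton]
        simp only [hg]
        norm_num
      have hEsum : ∑ x ∈ E, g x * g x ≤ 0.0314 ^ 2 -
          (1/11^4 + 1/13^4 + 1/17^4 + 1/19^4 + 2/143^2 + 2/187^2 + 2/209^2) := by
        have h3 : (∑ p ∈ P, f p) ^ 2 ≤ 0.0314 ^ 2 := pow_le_pow_left₀ hS0 hS 2
        rw [← hSS, ← hsplit, hRsum] at h3
        linarith
      -- per element
      have hper : ∀ w ∈ Xr, (287:ℝ)/32500 ≤ ∑ x ∈ E, if (x.1 ∈ TT w ∧ x.2 ∈ TT w) then g x else 0 := by
        intro w hw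
        have hs := hspec w hw
        have hw' := hw
        simp only [hXr, Finset.mem_filter, Finset.mem_Icc] at hw'
        obtain ⟨⟨hw1, hwn⟩, _, htau, _⟩ := hw'
        refine (e2_lower (TT w) (hTQ w) htau).trans ?_
        have e1 : ∑ p ∈ TT w, ∑ q ∈ (TT w).erase p, 1 / ((p:ℝ) * q) =
            ∑ x ∈ (TT w ×ˢ TT w).filter (fun x => x.2 ≠ x.1), g x := by
          rw [Finset.sum_filter, Finset.sum_product]
          apply Finset.sum_congr rfl
          intro p _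
          rw [← Finset.sum_filter, Finset.filter_ne']
        rw [e1, ← Finset.sum_filter]
        apply Finset.sum_le_sum_of_subset_of_nonneg
        · rintro ⟨p, q⟩ hx
          rw [Finset.mem_filter, Finset.mem_product] at hx
          obtain ⟨⟨hp, hq⟩, hne⟩ := hx
          have hTP : ∀ p ∈ TT w, p ∈ P := by
            intro p hp
            rw [mem_TT] at hp
            simp only [hP, Finset.mem_filter, Finset.mem_Icc]
            exact ⟨⟨hp.2, (Nat.le_of_dvd (by omega) hp.1.2.1).trans hwn⟩, hp.1.1⟩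
          rw [Finset.mem_filter]
          refine ⟨?_, hp, hq⟩
          rw [hE, Finset.mem_filter, hE0, Finset.mem_sdiff, Finset.mem_product]
          refine ⟨⟨⟨hTP p hp, hTP q hq⟩, ?_⟩, fun e => hne e.symm⟩
          intro hR'
          simp only [hR, Finset.mem_insert, Finset.mem_singleton, Prod.mk.injEq] at hR'
          rcases hR' with ⟨rfl, rfl⟩ | ⟨rfl, rfl⟩ | ⟨rfl, rfl⟩ | ⟨rfl, rfl⟩ | ⟨rfl, rfl⟩ | ⟨rfl, rfl⟩ | ⟨rfl, rfl⟩ |
            ⟨rfl, rfl⟩ | ⟨rfl, rfl⟩ | ⟨rfl, rfl⟩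
          · exact hne rfl
          · exact hne rfl
          · exact hne rfl
          · exact hne rfl
          · exact hs.1 ⟨hp, hq⟩
          · exact hs.1 ⟨hq, hp⟩
          · exact hs.2.1 ⟨hp, hq⟩
          · exact hs.2.1 ⟨hq, hp⟩
          · exact hs.2.2 ⟨hp, hq⟩
          · exact hs.2.2 ⟨hq, hp⟩
        · intro x _ _
          exact hg0 x
      have hcount : ∀ x ∈ E, ((Xr.filter (fun w => x.1 ∈ TT w ∧ x.2 ∈ TT w)).card : ℝ) ≤ c * n * g x := by
        rintro ⟨p, q⟩ hx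
        rw [hE, Finset.mem_filter, hE0, Finset.mem_sdiff, Finset.mem_product] at hx
        obtain ⟨⟨⟨hpP, hqP⟩, hxR⟩, hpq⟩ := hx
        replace hpq : p ≠ q := hpq
        simp only [hP, Finset.mem_filter, Finset.mem_Icc] at hpP hqP
        · have e1 := mult_count W hW p q hpP.2 hqP.2 hpP.1.1 hqP.1.1 n 11
            (Xr.filter (fun w => p ∈ TT w ∧ q ∈ TT w)) (by
            intro w hw
            rw [Finset.mem_filter] at hw
            obtain ⟨hwX, hp, hq⟩ := hw
            have hs := hspec w hwX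
            have hw' := hwX
            simp only [hXr, Finset.mem_filter, Finset.mem_Icc] at hw'
            obtain ⟨⟨hw1, hwn⟩, hWw, htau, _⟩ := hw'
            have hdv := pq_dvd hp hq hpq
            refine ⟨hWw, hwn, hdv, ?_⟩
            obtain ⟨r, hr, hrp, hrq⟩ := third_prime (TT w) (hTQ w) htau hs.1 hs.2.1 hs.2.2 p q hp hq
            obtain ⟨i, hi⟩ := hdv
            have hdiv : w / (p * q) = i := by
              rw [hi]; exact Nat.mul_div_cancel_left i (Nat.mul_pos hpP.2.pos hqP.2.pos)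
            rw [hdiv]
            rw [mem_TT] at hr
            have hrdv : r ∣ p * q * i := hi ▸ hr.1.2.1
            have hco : Nat.Coprime r (p * q) :=
              Nat.Coprime.mul_right ((Nat.coprime_primes hr.1.1 hpP.2).2 hrp) ((Nat.coprime_primes hr.1.1 hqP.2).2 hrq)
            have hri : r ∣ i := hco.dvd_of_dvd_mul_left hrdv
            have hi0 : 0 < i := by
              rcases Nat.eq_zero_or_pos i with h0 | h0
              · rw [h0, mul_zero] at hi; omega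
              · exact h0
            exact hr.2.trans (Nat.le_of_dvd hi0 hri))
          have e2 := h2 (n / (p * q))
          have e3 : ((n / (p * q) : ℕ) : ℝ) ≤ n / ((p : ℝ) * q) := by
            have := @Nat.cast_div_le ℝ _ _ _ n (p * q)
            push_cast at this
            exact this
          calc ((Xr.filter (fun w => p ∈ TT w ∧ q ∈ TT w)).card : ℝ)
              ≤ (((Icc 11 (n / (p * q))).filter W).card : ℝ) := by exact_mod_cast e1
            _ ≤ c * ((n / (p * q) : ℕ) : ℝ) := e2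
            _ ≤ c * (n / ((p : ℝ) * q)) := mul_le_mul_of_nonneg_left e3 hc
            _ = c * n * g (p, q) := by simp only [hg]; ring
      have hmain : (287:ℝ)/32500 * Xr.card ≤ c * n * ∑ x ∈ E, g x * g x := by
        calc (287:ℝ)/32500 * Xr.card = ∑ w ∈ Xr, (287:ℝ)/32500 := by
              rw [Finset.sum_const, nsmul_eq_mul]; ring
          _ ≤ ∑ w ∈ Xr, ∑ x ∈ E, if (x.1 ∈ TT w ∧ x.2 ∈ TT w) then g x else 0 := Finset.sum_le_sum hper
          _ = ∑ x ∈ E, ∑ w ∈ Xr, if (x.1 ∈ TT w ∧ x.2 ∈ TT w) then g x else 0 := Finset.sum_comm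
          _ ≤ ∑ x ∈ E, c * n * (g x * g x) := by
              apply Finset.sum_le_sum
              intro x hx
              rw [← Finset.sum_filter, Finset.sum_const, nsmul_eq_mul]
              have := mul_le_mul_of_nonneg_right (hcount x hx) (hg0 x)
              calc _ ≤ _ := this
                _ = _ := by ring
          _ = c * n * ∑ x ∈ E, g x * g x := by rw [Finset.mul_sum]
      have hcn : 0 ≤ c * n := by positivity
      have h5 := mul_le_mul_of_nonneg_left hEsum hcn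
      have h6 : (287:ℝ)/32500 * Xr.card ≤ c * n * (0.0314 ^ 2 -
          (1/11^4 + 1/13^4 + 1/17^4 + 1/19^4 + 2/143^2 + 2/187^2 + 2/209^2)) := hmain.trans h5
      have h7 : (0.0314 ^ 2 - (1/11^4 + 1/13^4 + 1/17^4 + 1/19^4 + 2/143^2 + 2/187^2 + 2/209^2) : ℝ) ≤
          287/32500 * 0.075 := by norm_num
      have h8 := mul_le_mul_of_nonneg_left h7 hcn
      have h9 : (287:ℝ)/32500 * Xr.card ≤ 287/32500 * (0.075 * c * n) := by
        calc _ ≤ _ := h6
          _ ≤ _ := h8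
          _ = _ := by ring
      exact le_of_mul_le_mul_left h9 (by norm_num)
  have hfin : (1/143 + 1/187 + 1/209 : ℝ) * a * n = a * (n / 143) + a * (n / 187) + a * (n / 209) := by ring
  rw [hfin]
  linarith

end H134OC
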