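import Pool.Agent.Helper134.OCPer
import Pool.Agent.Helper134.OCX
import Pool.Agent.Helper134.OCF

set_option autoImplicit false

namespace H134OC
open Finset

theorem split_card (n : ℕ) (P A B : ℕ → Prop) [DecidablePred P] [DecidablePred A] [DecidablePred B]
    (h : ∀ w, P w → A w ∨ B w) : (((Icc 1 n).filter P).card : ℝ) ≤
      ((Icc 1 n).filter A).card + ((Icc 1 n).filter B).card := by
  have h1 : ((Icc 1 n).filter P).card ≤ ((Icc 1 n).filter A ∪ (Icc 1 n).filter B).card := by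
    apply card_le_card
    intro w hw
    rw [mem_filter] at hw
    rw [mem_union, mem_filter, mem_filter]
    rcases h w hw.2 with h' | h'
    · exact Or.inl ⟨hw.1, h'⟩
    · exact Or.inr ⟨hw.1, h'⟩
  have h2 := h1.trans (card_union_le _ _)
  exact_mod_cast h2

theorem odd_pi {p i : ℕ} (hp : p.Prime) (h11 : 11 ≤ p) : Odd (p * i) ↔ Odd i := by
  rw [Nat.odd_mul]
  have : Odd p := hp.odd_of_ne_two (by omega)
  tauto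

theorem dvd_pi {p i q : ℕ} (hp : p.Prime) (h11 : 11 ≤ p) (hq : q.Prime) (hq' : q < 11) :
    q ∣ p * i ↔ q ∣ i := by
  rw [hq.dvd_mul]
  constructor
  · rintro (h | h)
    · have := (Nat.prime_dvd_prime_iff_eq hq hp).1 h
      omega
    · exact h
  · exact Or.inr

theorem d3 {p i : ℕ} (hp : p.Prime) (h11 : 11 ≤ p) : 3 ∣ p * i ↔ 3 ∣ i :=
  dvd_pi hp h11 (by norm_num) (by norm_num)
theorem d5 {p i : ℕ} (hp : p.Prime) (h11 : 11 ≤ p) : 5 ∣ p * i ↔ 5 ∣ i :=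
  dvd_pi hp h11 (by norm_num) (by norm_num)
theorem d7 {p i : ℕ} (hp : p.Prime) (h11 : 11 ≤ p) : 7 ∣ p * i ↔ 7 ∣ i :=
  dvd_pi hp h11 (by norm_num) (by norm_num)

theorem two_pi {p i : ℕ} (hp : p.Prime) (h11 : 11 ≤ p) : two (p * i) ↔ two i := by
  unfold two
  rw [d3 hp h11, d5 hp h11, d7 hp h11]

theorem N1s (n : ℕ) : (((Icc 1 n).filter (fun w => Odd w ∧ (two w ∨ (7:ℝ)/50 ≤ tau w))).card : ℝ) ≤
    0.1023 * n + 6.6 := by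
  have h0 := split_card n (fun w => Odd w ∧ (two w ∨ (7:ℝ)/50 ≤ tau w))
    (fun i => Odd i ∧ two i) (fun w => (Odd w ∧ ¬ two w) ∧ (7:ℝ)/50 ≤ tau w)
    (by intro w; tauto)
  have h1 := C1 n
  have h2 := X_count (fun i => Odd i ∧ ¬ two i)
    (by intro p i hp h11; rw [odd_pi hp h11, two_pi hp h11]) (46/105) (26/15) (46/105)
    (by norm_num) (by norm_num) (by norm_num) W1a W1b n
  have hn : (0:ℝ) ≤ n := Nat.cast_nonneg n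
  linarith

theorem N2s (n : ℕ) : (((Icc 1 n).filter (fun w => Odd w ∧ (two w ∨ 3 ∣ w ∨ (7:ℝ)/50 ≤ tau w))).card : ℝ) ≤
    0.2061 * n + 4.96 := by
  have h0 := split_card n (fun w => Odd w ∧ (two w ∨ 3 ∣ w ∨ (7:ℝ)/50 ≤ tau w))
    (fun i => Odd i ∧ (two i ∨ 3 ∣ i)) (fun w => (Odd w ∧ ¬ (two w ∨ 3 ∣ w)) ∧ (7:ℝ)/50 ≤ tau w)
    (by intro w; tauto)
  have h1 := C2 n
  have h2 := X_count (fun i => Odd i ∧ ¬ (two i ∨ 3 ∣ i))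
    (by intro p i hp h11; rw [odd_pi hp h11, two_pi hp h11, d3 hp h11]) (34/105) (134/105) (34/105)
    (by norm_num) (by norm_num) (by norm_num) W2a W2b n
  have hn : (0:ℝ) ≤ n := Nat.cast_nonneg n
  linarith

-- TARGETS
theorem N1 (n : ℕ) : (((Icc 1 n).filter (fun w => Odd w ∧ (two w ∨ (7:ℝ)/50 ≤ tau w))).card : ℝ) ≤ 0.1024 * n + 7 := by
  have h := N1s n
  have hn : (0:ℝ) ≤ n := Nat.cast_nonneg n
  linarith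
theorem N2 (n : ℕ) : (((Icc 1 n).filter (fun w => Odd w ∧ (two w ∨ 3 ∣ w ∨ (7:ℝ)/50 ≤ tau w))).card : ℝ) ≤ 0.2062 * n + 5 := by
  have h := N2s n
  have hn : (0:ℝ) ≤ n := Nat.cast_nonneg n
  linarith
theorem N3 (n : ℕ) : (((Icc 1 n).filter (fun w => Odd w ∧ (3 ∣ w ∨ 5 ∣ w ∨ (7:ℝ)/50 ≤ tau w))).card : ℝ) ≤ 0.2581 * n + 4 := by
  have h0 := split_card n (fun w => Odd w ∧ (3 ∣ w ∨ 5 ∣ w ∨ (7:ℝ)/50 ≤ tau w))
    (fun i => Odd i ∧ (3 ∣ i ∨ 5 ∣ i)) (fun w => (Odd w ∧ ¬ (3 ∣ w ∨ 5 ∣ w)) ∧ (7:ℝ)/50 ≤ tau w)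
    (by intro w; tauto)
  have h1 := C3 n
  have h2 := X_count (fun i => Odd i ∧ ¬ (3 ∣ i ∨ 5 ∣ i))
    (by intro p i hp h11; rw [odd_pi hp h11, d5 hp h11, d3 hp h11]) (4/15) (14/15) (4/15)
    (by norm_num) (by norm_num) (by norm_num) W3a W3b n
  have hn : (0:ℝ) ≤ n := Nat.cast_nonneg n
  linarith
theorem N4 (n : ℕ) : (((Icc 1 n).filter (fun w => Odd w ∧ (3 ∣ w ∨ 5 ∣ w ∨ 7 ∣ w ∨ (7:ℝ)/50 ≤ tau w))).card : ℝ) ≤ 0.2931 * n + 7 := by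
  have h0 := split_card n (fun w => Odd w ∧ (3 ∣ w ∨ 5 ∣ w ∨ 7 ∣ w ∨ (7:ℝ)/50 ≤ tau w))
    (fun i => Odd i ∧ (3 ∣ i ∨ 5 ∣ i ∨ 7 ∣ i))
    (fun w => (Odd w ∧ ¬ (3 ∣ w ∨ 5 ∣ w ∨ 7 ∣ w)) ∧ (7:ℝ)/50 ≤ tau w)
    (by intro w; tauto)
  have h1 := C4 n
  have h2 := X_count (fun i => Odd i ∧ ¬ (3 ∣ i ∨ 5 ∣ i ∨ 7 ∣ i))
    (by intro p i hp h11; rw [odd_pi hp h11, d5 hp h11, d3 hp h11, d7 hp h11]) (8/35) (53/35) (11/47)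
    (by norm_num) (by norm_num) (by norm_num) W4a W4b n
  have hn : (0:ℝ) ≤ n := Nat.cast_nonneg n
  linarith
theorem N5 (n : ℕ) : (((Icc 1 n).filter (fun w => Odd w ∧ (two w ∨ (7:ℝ)/50 ≤ tau w ∨ (3 ∣ w ∧ (1:ℝ)/20 ≤ tau w)))).card : ℝ) ≤
    0.1595 * n + 12 := by
  have h0 := split_card n
    (fun w => Odd w ∧ (two w ∨ (7:ℝ)/50 ≤ tau w ∨ (3 ∣ w ∧ (1:ℝ)/20 ≤ tau w)))
    (fun w => Odd w ∧ (two w ∨ (7:ℝ)/50 ≤ tau w))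
    (fun w => (Odd w ∧ 3 ∣ w ∧ ¬ 5 ∣ w ∧ ¬ 7 ∣ w) ∧ (1:ℝ)/20 ≤ tau w)
    (by
      intro w hw
      have h2 : two w ∨ ¬ two w := em _
      unfold two at *
      tauto)
  have h1 := N1s n
  have h2 := F_count (fun i => Odd i ∧ 3 ∣ i ∧ ¬ 5 ∣ i ∧ ¬ 7 ∣ i)
    (by intro p i hp h11; rw [odd_pi hp h11, d5 hp h11, d3 hp h11, d7 hp h11]) (4/35) (44/35) (4/35)
    (by norm_num) (by norm_num) (by norm_num) T3a T3b n
  have hn : (0:ℝ) ≤ n := Nat.cast_nonneg n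
  linarith
theorem N6 (n : ℕ) : (((Icc 1 n).filter (fun w => Odd w ∧ (two w ∨ 3 ∣ w ∨ (7:ℝ)/50 ≤ tau w ∨ (5 ∣ w ∧ (1:ℝ)/20 ≤ tau w)))).card : ℝ) ≤
    0.2353 * n + 10 := by
  have h0 := split_card n
    (fun w => Odd w ∧ (two w ∨ 3 ∣ w ∨ (7:ℝ)/50 ≤ tau w ∨ (5 ∣ w ∧ (1:ℝ)/20 ≤ tau w)))
    (fun w => Odd w ∧ (two w ∨ 3 ∣ w ∨ (7:ℝ)/50 ≤ tau w))
    (fun w => (Odd w ∧ 5 ∣ w ∧ ¬ 3 ∣ w ∧ ¬ 7 ∣ w) ∧ (1:ℝ)/20 ≤ tau w)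
    (by
      intro w hw
      have h2 : two w ∨ ¬ two w := em _
      unfold two at *
      tauto)
  have h1 := N2s n
  have h2 := F_count (fun i => Odd i ∧ 5 ∣ i ∧ ¬ 3 ∣ i ∧ ¬ 7 ∣ i)
    (by intro p i hp h11; rw [odd_pi hp h11, d5 hp h11, d3 hp h11, d7 hp h11]) (2/35) (8/7) (3/50)
    (by norm_num) (by norm_num) (by norm_num) T5a T5b n
  have hn : (0:ℝ) ≤ n := Nat.cast_nonneg n
  linarith

end H134OC
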