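import Pool.Agent.Helper134.OCMid
import Pool.Agent.Helper134.OCN
import Pool.Agent.Helper134.OCM8

set_option autoImplicit false

namespace H134OC
open Finset

open Classical in
/-- rank used for large n -/
noncomputable def rk (w : ℕ) : ℝ :=
  if dens w.primeFactors ≤ 1/2 then dens w.primeFactors
  else if two w ∨ (7:ℝ)/50 ≤ tau w then 1
  else if 3 ∣ w then (if (1:ℝ)/20 ≤ tau w then 2 else 3)
  else if 5 ∣ w then (if (1:ℝ)/20 ≤ tau w then 4 else 5)
  else if 7 ∣ w then 6 else 7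

theorem dens_nonneg' (S : Finset ℕ) (hS : ∀ p ∈ S, p.Prime) : 0 < dens S := by
  unfold dens
  apply prod_pos
  intro p hp
  have h1 : (1:ℝ) < p := by exact_mod_cast (hS p hp).one_lt
  have : 1 / (p:ℝ) < 1 := by rw [div_lt_one (by linarith)]; exact h1
  linarith

theorem dens_ge_one_sub (Q : Finset ℕ) (hQ : ∀ p ∈ Q, p.Prime) : 1 - ∑ p ∈ Q, 1 / (p:ℝ) ≤ dens Q := by
  classical
  induction Q using Finset.induction_on with
  | empty => simp [dens]
  | insert a s ha ih =>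
    have hs : ∀ p ∈ s, p.Prime := fun p hp => hQ p (mem_insert_of_mem hp)
    have hap := hQ a (mem_insert_self _ _)
    have h1 := ih hs
    have h2 := dens_nonneg' s hs
    have h3 : dens s ≤ 1 := by
      unfold dens
      apply prod_le_one
      · intro p hp
        have h1 : (1:ℝ) < p := by exact_mod_cast (hs p hp).one_lt
        have : 1 / (p:ℝ) < 1 := by rw [div_lt_one (by linarith)]; exact h1
        linarith
      · intro p hp
        have : 0 ≤ 1 / (p:ℝ) := by positivity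
        linarith
    have h4 : dens (insert a s) = (1 - 1 / (a:ℝ)) * dens s := by
      unfold dens; rw [prod_insert ha]
    rw [sum_insert ha, h4]
    have h5 : 0 ≤ 1 / (a:ℝ) := by positivity
    nlinarith

theorem dens_gt_half (w : ℕ) (hw : Odd w) (h2 : ¬ two w) (ht : tau w < 7/50) : 1/2 < dens w.primeFactors := by
  have h1 := dens_small w w hw hw
  rw [union_self] at h1
  have hsplit : dens w.primeFactors = dens (w.primeFactors.filter (fun p => p < 11)) *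
      dens (w.primeFactors.filter (fun p => 11 ≤ p)) := by
    unfold dens
    rw [← prod_filter_mul_prod_filter_not w.primeFactors (fun p => p < 11)]
    congr 1
    apply prod_congr _ (fun _ _ => rfl)
    apply filter_congr
    intro p _
    exact not_lt
  have h3 := dens_ge_one_sub (w.primeFactors.filter (fun p => 11 ≤ p))
    (fun p hp => Nat.prime_of_mem_primeFactors (mem_filter.mp hp).1)
  have h4 : ∑ p ∈ w.primeFactors.filter (fun p => 11 ≤ p), 1 / (p:ℝ) = tau w := rfl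
  rw [h4] at h3
  have h5 : (2:ℝ)/3 ≤ dens (w.primeFactors.filter (fun p => p < 11)) := by
    rw [h1]
    unfold two at h2
    by_cases h3 : 3 ∣ w <;> by_cases h5 : 5 ∣ w <;> by_cases h7 : 7 ∣ w <;> simp [h3, h5, h7] at h2 ⊢ <;> norm_num
  rw [hsplit]
  have h6 : (43:ℝ)/50 ≤ dens (w.primeFactors.filter (fun p => 11 ≤ p)) := by linarith
  nlinarith

theorem rk_small (w : ℕ) (h : dens w.primeFactors ≤ 1/2) : rk w = dens w.primeFactors := by
  unfold rk; rw [if_pos h]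

theorem rk_le_half (w : ℕ) (h : rk w ≤ 1/2) : rk w = dens w.primeFactors := by
  by_cases h1 : dens w.primeFactors ≤ 1/2
  · exact rk_small w h1
  · exfalso
    unfold rk at h
    rw [if_neg h1] at h
    split_ifs at h <;> norm_num at h

/-- membership facts -/
theorem rk_cases (w : ℕ) (hw : Odd w) :
    (rk w ≤ 1 → (two w ∨ (7:ℝ)/50 ≤ tau w)) ∧
    (rk w ≤ 2 → (two w ∨ (7:ℝ)/50 ≤ tau w ∨ (3 ∣ w ∧ (1:ℝ)/20 ≤ tau w))) ∧
    (rk w ≤ 3 → (two w ∨ 3 ∣ w ∨ (7:ℝ)/50 ≤ tau w)) ∧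
    (rk w ≤ 4 → (two w ∨ 3 ∣ w ∨ (7:ℝ)/50 ≤ tau w ∨ (5 ∣ w ∧ (1:ℝ)/20 ≤ tau w))) ∧
    (rk w ≤ 5 → (3 ∣ w ∨ 5 ∣ w ∨ (7:ℝ)/50 ≤ tau w)) ∧
    (rk w ≤ 6 → (3 ∣ w ∨ 5 ∣ w ∨ 7 ∣ w ∨ (7:ℝ)/50 ≤ tau w)) := by
  by_cases h2 : two w
  · have h35 : 3 ∣ w ∨ 5 ∣ w := by unfold two at h2; tauto
    refine ⟨fun _ => Or.inl h2, fun _ => Or.inl h2, fun _ => Or.inl h2, fun _ => Or.inl h2, fun _ => ?_, fun _ => ?_⟩
    · rcases h35 with h | h
      · exact Or.inl h
      · exact Or.inr (Or.inl h)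
    · rcases h35 with h | h
      · exact Or.inl h
      · exact Or.inr (Or.inl h)
  by_cases ht : (7:ℝ)/50 ≤ tau w
  · exact ⟨fun _ => Or.inr ht, fun _ => Or.inr (Or.inl ht), fun _ => Or.inr (Or.inr ht),
      fun _ => Or.inr (Or.inr (Or.inl ht)), fun _ => Or.inr (Or.inr ht), fun _ => Or.inr (Or.inr (Or.inr ht))⟩
  have hd := dens_gt_half w hw h2 (not_le.mp ht)
  have hrk : rk w = if 3 ∣ w then (if (1:ℝ)/20 ≤ tau w then 2 else 3)
      else if 5 ∣ w then (if (1:ℝ)/20 ≤ tau w then 4 else 5)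
      else if 7 ∣ w then 6 else 7 := by
    unfold rk
    rw [if_neg (not_le.mpr hd), if_neg (by tauto)]
  rw [hrk]
  refine ⟨fun h => ?_, fun h => ?_, fun h => ?_, fun h => ?_, fun h => ?_, fun h => ?_⟩ <;>
    (split_ifs at h with b1 b2 b3 b4 b5 <;> first | (exfalso; norm_num at h; done) | tauto)

theorem rk_of (w : ℕ) (h2 : ¬ two w) (ht : ¬ (7:ℝ)/50 ≤ tau w) (hd : ¬ dens w.primeFactors ≤ 1/2) :
    rk w = if 3 ∣ w then (if (1:ℝ)/20 ≤ tau w then 2 else 3)
      else if 5 ∣ w then (if (1:ℝ)/20 ≤ tau w then 4 else 5)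
      else if 7 ∣ w then 6 else 7 := by
  unfold rk
  rw [if_neg hd, if_neg (by tauto)]

theorem rk_one (w : ℕ) (h : two w ∨ (7:ℝ)/50 ≤ tau w) : rk w ≤ 1 := by
  unfold rk
  split_ifs with h1
  · linarith
  · exact le_refl _

theorem half_le' (n : ℕ) : ((n:ℝ) - 1) / 2 ≤ ((n / 2 : ℕ) : ℝ) := by
  have h : n ≤ 2 * (n / 2) + 1 := by omega
  have h' : (n:ℝ) ≤ 2 * ((n / 2 : ℕ) : ℝ) + 1 := by exact_mod_cast h
  linarith

theorem D_le (n : ℕ) (r : ℝ) (R : ℕ → Prop) [DecidablePred R] (B : ℝ)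
    (h : ∀ w, Odd w → rk w ≤ r → R w)
    (hB : (((Icc 1 n).filter (fun w => Odd w ∧ R w)).card : ℝ) ≤ B) :
    (((Icc 1 n).filter (fun w => Odd w ∧ rk w ≤ r)).card : ℝ) ≤ B := by
  refine le_trans ?_ hB
  have : (Icc 1 n).filter (fun w => Odd w ∧ rk w ≤ r) ⊆ (Icc 1 n).filter (fun w => Odd w ∧ R w) := by
    intro w hw
    rw [mem_filter] at hw ⊢
    exact ⟨hw.1, hw.2.1, h w hw.2.1 hw.2.2⟩
  exact_mod_cast card_le_card this

theorem fin_step (n u v : ℕ) (B : ℝ)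
    (hB : (((Icc 1 n).filter (fun w => Odd w ∧ rk w ≤ rk u)).card : ℝ) ≤ B)
    (hC : B + 1 ≤ (cc (n / 2) u v : ℝ)) :
    ((Icc 1 n).filter (fun w => Odd w ∧ rk w ≤ rk u)).card + 1 ≤ cc (n / 2) u v := by
  have : ((((Icc 1 n).filter (fun w => Odd w ∧ rk w ≤ rk u)).card + 1 : ℕ) : ℝ) ≤ (cc (n / 2) u v : ℝ) := by
    push_cast; linarith
  exact_mod_cast this

theorem caseA (n : ℕ) (hn : 30000 ≤ n) (u v : ℕ) (hun : u ≤ n) (hvn : v ≤ n) (hu : Odd u) (hv : Odd v)
    (hle : rk u ≤ rk v) (hd : dens u.primeFactors ≤ 1/2) :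
    ((Icc 1 n).filter (fun w => Odd w ∧ rk w ≤ rk u)).card + 1 ≤ cc (n / 2) u v := by
  have hz := rk_small u hd
  set z := dens u.primeFactors with hzdef
  have hz0 : 0 < z := dens_nonneg' _ (fun p hp => Nat.prime_of_mem_primeFactors hp)
  have hv1 : z ≤ dens v.primeFactors := by
    by_cases h1 : dens v.primeFactors ≤ 1/2
    · rw [rk_small v h1, hz] at hle; exact hle
    · push Not at h1; linarith
  have hB : (((Icc 1 n).filter (fun w => Odd w ∧ rk w ≤ rk u)).card : ℝ) ≤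
      z ^ 8 * (17.3 * n + 690 * Real.sqrt n) := by
    apply D_le n (rk u) (fun w => dens w.primeFactors ≤ z) _ _ (N7 n z hz0)
    intro w _ hw
    rw [hz] at hw
    have h1 : rk w ≤ 1/2 := hw.trans hd
    rw [rk_le_half w h1] at hw
    exact hw
  have hC := large_R n (by omega) u v hu hv hun hvn
  have hlow := psi_low n hn u hu hun
  apply fin_step n u v _ hB
  refine le_trans ?_ hC
  set r := Real.sqrt n with hr
  have hr2 : (n:ℝ) = r ^ 2 := (Real.sq_sqrt (Nat.cast_nonneg n)).symm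
  have hr173 : (173:ℝ) ≤ r := by
    rw [hr]; apply Real.le_sqrt_of_sq_le
    have : (30000:ℝ) ≤ n := by exact_mod_cast hn
    norm_num; linarith
  rw [hr2]
  rw [← hzdef] at hlow ⊢
  have h1 : z ^ 8 ≤ z ^ 2 / 64 := by
    have h2 : z ^ 6 ≤ (1/2) ^ 6 := pow_le_pow_left₀ hz0.le hd 6
    have h3 : z ^ 8 = z ^ 2 * z ^ 6 := by ring
    rw [h3]
    have : 0 ≤ z ^ 2 := by positivity
    nlinarith
  have h4 : z ^ 8 * (17.3 * r ^ 2 + 690 * r) ≤ z ^ 2 / 64 * (17.3 * r ^ 2 + 690 * r) := by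
    apply mul_le_mul_of_nonneg_right h1; positivity
  have h5 : z * z * ((r ^ 2 - 1) / 2) ≤ z * dens v.primeFactors * ((r ^ 2 - 1) / 2) := by
    apply mul_le_mul_of_nonneg_right
    · exact mul_le_mul_of_nonneg_left hv1 hz0.le
    · nlinarith
  have h6 : z ^ 2 / 64 * (17.3 * r ^ 2 + 690 * r) + 1 ≤ z * z * ((r ^ 2 - 1) / 2) - 2.9 * r := by
    have h7 : 0 ≤ z ^ 2 * r - 20 := by linarith
    have h8 : 0 ≤ 0.2296875 * r - 10.78125 - 0.01 := by nlinarith
    have h9 := mul_nonneg h7 h8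
    have h10 : 0 ≤ z ^ 2 * (0.01 * r - 0.5) := by
      apply mul_nonneg (by positivity); nlinarith
    nlinarith
  linarith

theorem caseB1 (n : ℕ) (hn : 30000 ≤ n) (u v : ℕ) (hun : u ≤ n) (hvn : v ≤ n) (hu : Odd u) (hv : Odd v)
    (hle : rk u ≤ rk v) (hd : ¬ dens u.primeFactors ≤ 1/2) (h2 : two u ∨ (7:ℝ)/50 ≤ tau u) :
    ((Icc 1 n).filter (fun w => Odd w ∧ rk w ≤ rk u)).card + 1 ≤ cc (n / 2) u v := by
  have hrk : rk u = 1 := by unfold rk; rw [if_neg hd, if_pos h2]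
  have hdv : ¬ dens v.primeFactors ≤ 1/2 := by
    intro h1
    rw [rk_small v h1, hrk] at hle
    linarith
  have hB : (((Icc 1 n).filter (fun w => Odd w ∧ rk w ≤ rk u)).card : ℝ) ≤ 0.1024 * n + 7 := by
    apply D_le n (rk u) (fun w => two w ∨ (7:ℝ)/50 ≤ tau w) _ _ (N1 n)
    intro w hw h1
    rw [hrk] at h1
    exact (rk_cases w hw).1 h1
  have hC := large_R n (by omega) u v hu hv hun hvn
  apply fin_step n u v _ hB
  refine le_trans ?_ hC
  push Not at hd hdv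
  set r := Real.sqrt n with hr
  have hr2 : (n:ℝ) = r ^ 2 := (Real.sq_sqrt (Nat.cast_nonneg n)).symm
  have hr173 : (173:ℝ) ≤ r := by
    rw [hr]; apply Real.le_sqrt_of_sq_le
    have : (30000:ℝ) ≤ n := by exact_mod_cast hn
    norm_num; linarith
  rw [hr2]
  have h5 : (1/4:ℝ) * ((r ^ 2 - 1) / 2) ≤ dens u.primeFactors * dens v.primeFactors * ((r ^ 2 - 1) / 2) := by
    apply mul_le_mul_of_nonneg_right
    · nlinarith
    · nlinarith
  nlinarith

theorem caseB (n : ℕ) (hn : 30000 ≤ n) (u v : ℕ) (hun : u ≤ n) (hvn : v ≤ n) (hu : Odd u) (hv : Odd v)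
    (B t ψ β : ℝ) (ht1 : t ≤ 1) (ht : tau u + tau v ≤ t)
    (hψ : dens ((u.primeFactors ∪ v.primeFactors).filter (fun p => p < 11)) = ψ)
    (hβ : bet ((u.primeFactors ∪ v.primeFactors).filter (fun p => p < 11)) = β)
    (hB : (((Icc 1 n).filter (fun w => Odd w ∧ rk w ≤ rk u)).card : ℝ) ≤ B)
    (hnum : B + 1 ≤ ψ * (((n:ℝ) - 1) / 2) * (1 - t) - β * (1 + n / 1000)) :
    ((Icc 1 n).filter (fun w => Odd w ∧ rk w ≤ rk u)).card + 1 ≤ cc (n / 2) u v := by
  have h := large_C n hn u v hu hv hun hvn t ht1 ht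
  rw [hψ, hβ] at h
  exact fin_step n u v B hB (hnum.trans h)

theorem good_large (n : ℕ) (hn : 30000 ≤ n) : Good n := by
  refine ⟨rk, ?_⟩
  intro u v hun hvn hu hv huv hle
  have hnr : (30000:ℝ) ≤ n := by exact_mod_cast hn
  by_cases hd : dens u.primeFactors ≤ 1/2
  · right; exact caseA n hn u v hun hvn hu hv hle hd
  by_cases h2 : two u ∨ (7:ℝ)/50 ≤ tau u
  · right; exact caseB1 n hn u v hun hvn hu hv hle hd h2
  push Not at h2
  obtain ⟨tu, hτu⟩ := h2
  have hrku := rk_of u tu (not_le.mpr hτu) hd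
  have hrku2 : 2 ≤ rk u := by
    rw [hrku]; split_ifs <;> norm_num
  have hv2 : ¬ (two v ∨ (7:ℝ)/50 ≤ tau v) := by
    intro h
    have := rk_one v h
    linarith
  have tv : ¬ two v := fun h => hv2 (Or.inl h)
  have hτv' : ¬ (7:ℝ)/50 ≤ tau v := fun h => hv2 (Or.inr h)
  have hτv : tau v < 7/50 := not_le.mp hτv'
  have hdv : ¬ dens v.primeFactors ≤ 1/2 := not_le.mpr (dens_gt_half v hv tv hτv)
  have hrkv := rk_of v tv hτv' hdv
  have hdS := dens_small u v hu hv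
  have hbS := bet_small u v hu hv
  have hcase := rk_cases
  by_cases u3 : 3 ∣ u
  · right
    have key : ¬ ((5 ∣ u ∨ 5 ∣ v) ∧ (7 ∣ u ∨ 7 ∣ v)) := by
      unfold two at tu tv; tauto
    have a3 : 3 ∣ u ∨ 3 ∣ v := Or.inl u3
    by_cases h20 : (1:ℝ)/20 ≤ tau u
    · rw [if_pos u3, if_pos h20] at hrku
      have hB : (((Icc 1 n).filter (fun w => Odd w ∧ rk w ≤ rk u)).card : ℝ) ≤ 0.1595 * n + 12 := by
        apply D_le n (rk u) (fun w => two w ∨ (7:ℝ)/50 ≤ tau w ∨ (3 ∣ w ∧ (1:ℝ)/20 ≤ tau w)) _ _ (N5 n)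
        intro w hw h1
        rw [hrku] at h1
        exact (rk_cases w hw).2.1 h1
      by_cases a5 : 5 ∣ u ∨ 5 ∣ v <;> by_cases a7 : 7 ∣ u ∨ 7 ∣ v
      · exact absurd ⟨a5, a7⟩ key
      · simp only [if_pos a3, if_pos a5, if_neg a7] at hdS hbS
        exact caseB n hn u v hun hvn hu hv _ (14/50) _ _ (by norm_num) (by linarith) hdS hbS hB (by linarith)
      · simp only [if_pos a3, if_neg a5, if_pos a7] at hdS hbS
        exact caseB n hn u v hun hvn hu hv _ (14/50) _ _ (by norm_num) (by linarith) hdS hbS hB (by linarith)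
      · simp only [if_pos a3, if_neg a5, if_neg a7] at hdS hbS
        exact caseB n hn u v hun hvn hu hv _ (14/50) _ _ (by norm_num) (by linarith) hdS hbS hB (by linarith)
    · rw [if_pos u3, if_neg h20] at hrku
      push Not at h20
      have hB : (((Icc 1 n).filter (fun w => Odd w ∧ rk w ≤ rk u)).card : ℝ) ≤ 0.2062 * n + 5 := by
        apply D_le n (rk u) (fun w => two w ∨ 3 ∣ w ∨ (7:ℝ)/50 ≤ tau w) _ _ (N2 n)
        intro w hw h1
        rw [hrku] at h1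
        exact (rk_cases w hw).2.2.1 h1
      by_cases a5 : 5 ∣ u ∨ 5 ∣ v <;> by_cases a7 : 7 ∣ u ∨ 7 ∣ v
      · exact absurd ⟨a5, a7⟩ key
      · simp only [if_pos a3, if_pos a5, if_neg a7] at hdS hbS
        exact caseB n hn u v hun hvn hu hv _ (19/100) _ _ (by norm_num) (by linarith) hdS hbS hB (by linarith)
      · simp only [if_pos a3, if_neg a5, if_pos a7] at hdS hbS
        exact caseB n hn u v hun hvn hu hv _ (19/100) _ _ (by norm_num) (by linarith) hdS hbS hB (by linarith)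
      · simp only [if_pos a3, if_neg a5, if_neg a7] at hdS hbS
        exact caseB n hn u v hun hvn hu hv _ (19/100) _ _ (by norm_num) (by linarith) hdS hbS hB (by linarith)
  have hrku4 : 4 ≤ rk u := by
    rw [hrku, if_neg u3]; split_ifs <;> norm_num
  have v3 : ¬ 3 ∣ v := by
    intro h
    rw [if_pos h] at hrkv
    have : rk v ≤ 3 := by rw [hrkv]; split_ifs <;> norm_num
    linarith
  have a3 : ¬ (3 ∣ u ∨ 3 ∣ v) := by tauto
  by_cases u5 : 5 ∣ u
  · right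
    have a5 : 5 ∣ u ∨ 5 ∣ v := Or.inl u5
    by_cases h20 : (1:ℝ)/20 ≤ tau u
    · rw [if_neg u3, if_pos u5, if_pos h20] at hrku
      have hB : (((Icc 1 n).filter (fun w => Odd w ∧ rk w ≤ rk u)).card : ℝ) ≤ 0.2353 * n + 10 := by
        apply D_le n (rk u) (fun w => two w ∨ 3 ∣ w ∨ (7:ℝ)/50 ≤ tau w ∨ (5 ∣ w ∧ (1:ℝ)/20 ≤ tau w)) _ _ (N6 n)
        intro w hw h1
        rw [hrku] at h1
        exact (rk_cases w hw).2.2.2.1 h1
      by_cases a7 : 7 ∣ u ∨ 7 ∣ v
      · simp only [if_neg a3, if_pos a5, if_pos a7] at hdS hbS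
        exact caseB n hn u v hun hvn hu hv _ (14/50) _ _ (by norm_num) (by linarith) hdS hbS hB (by linarith)
      · simp only [if_neg a3, if_pos a5, if_neg a7] at hdS hbS
        exact caseB n hn u v hun hvn hu hv _ (14/50) _ _ (by norm_num) (by linarith) hdS hbS hB (by linarith)
    · rw [if_neg u3, if_pos u5, if_neg h20] at hrku
      push Not at h20
      have hB : (((Icc 1 n).filter (fun w => Odd w ∧ rk w ≤ rk u)).card : ℝ) ≤ 0.2581 * n + 4 := by
        apply D_le n (rk u) (fun w => 3 ∣ w ∨ 5 ∣ w ∨ (7:ℝ)/50 ≤ tau w) _ _ (N3 n)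
        intro w hw h1
        rw [hrku] at h1
        exact (rk_cases w hw).2.2.2.2.1 h1
      by_cases a7 : 7 ∣ u ∨ 7 ∣ v
      · simp only [if_neg a3, if_pos a5, if_pos a7] at hdS hbS
        exact caseB n hn u v hun hvn hu hv _ (19/100) _ _ (by norm_num) (by linarith) hdS hbS hB (by linarith)
      · simp only [if_neg a3, if_pos a5, if_neg a7] at hdS hbS
        exact caseB n hn u v hun hvn hu hv _ (19/100) _ _ (by norm_num) (by linarith) hdS hbS hB (by linarith)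
  have hrku6 : 6 ≤ rk u := by
    rw [hrku, if_neg u3, if_neg u5]; split_ifs <;> norm_num
  have v5 : ¬ 5 ∣ v := by
    intro h
    rw [if_neg v3, if_pos h] at hrkv
    have : rk v ≤ 5 := by rw [hrkv]; split_ifs <;> norm_num
    linarith
  have a5 : ¬ (5 ∣ u ∨ 5 ∣ v) := by tauto
  by_cases u7 : 7 ∣ u
  · right
    have a7 : 7 ∣ u ∨ 7 ∣ v := Or.inl u7
    rw [if_neg u3, if_neg u5, if_pos u7] at hrku
    have hB : (((Icc 1 n).filter (fun w => Odd w ∧ rk w ≤ rk u)).card : ℝ) ≤ 0.2931 * n + 7 := by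
      apply D_le n (rk u) (fun w => 3 ∣ w ∨ 5 ∣ w ∨ 7 ∣ w ∨ (7:ℝ)/50 ≤ tau w) _ _ (N4 n)
      intro w hw h1
      rw [hrku] at h1
      exact (rk_cases w hw).2.2.2.2.2 h1
    simp only [if_neg a3, if_neg a5, if_pos a7] at hdS hbS
    exact caseB n hn u v hun hvn hu hv _ (14/50) _ _ (by norm_num) (by linarith) hdS hbS hB (by linarith)
  · left
    rw [if_neg u3, if_neg u5, if_neg u7] at hrku
    have v7 : ¬ 7 ∣ v := by
      intro h
      rw [if_neg v3, if_neg v5, if_pos h] at hrkv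
      linarith
    have hT := large_T n u v hu hv u3 u5 u7 v3 v5 v7
    have h6 : 2 * (n:ℝ) ≤ 3 * (cc n u v : ℝ) + 2 := by nlinarith
    have h7 : 2 * n ≤ 3 * cc n u v + 2 := by exact_mod_cast h6
    omega

end H134OC
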