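import Pool.Agent.Helper134.OCDefs

set_option autoImplicit false

namespace H134OC
open Finset

theorem gen_aux (W : ℕ → Prop) [DecidablePred W] (hper : Function.Periodic W 210) (L A B C : ℕ)
    (hc : A * Nat.count W 210 ≤ 210 * B)
    (hchk : ∀ M < 210 + L, A * ((Icc L M).filter W).card ≤ B * M + C) (M : ℕ) :
    A * ((Icc L M).filter W).card ≤ B * M + C := by
  induction M using Nat.strong_induction_on with
  | _ M ih =>
    by_cases h : M < 210 + L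
    · exact hchk M h
    · push Not at h
      obtain ⟨m, rfl⟩ : ∃ m, M = m + 210 := ⟨M - 210, by omega⟩
      have h1 : Icc L (m + 210) = Icc L m ∪ Ico (m + 1) (m + 1 + 210) := by
        ext x; simp only [mem_union, mem_Icc, mem_Ico]; omega
      have h2 : ((Ico (m + 1) (m + 1 + 210)).filter W).card = Nat.count W 210 :=
        Nat.filter_Ico_card_eq_of_periodic _ _ _ hper
      have h3 : ((Icc L (m + 210)).filter W).card ≤
          ((Icc L m).filter W).card + Nat.count W 210 := by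
        rw [h1, filter_union, ← h2]
        exact card_union_le _ _
      have h4 := ih m (by omega)
      calc A * ((Icc L (m + 210)).filter W).card
          ≤ A * (((Icc L m).filter W).card + Nat.count W 210) := Nat.mul_le_mul_left _ h3
        _ = A * ((Icc L m).filter W).card + A * Nat.count W 210 := by ring
        _ ≤ (B * m + C) + 210 * B := add_le_add h4 hc
        _ = B * (m + 210) + C := by ring

theorem C1 (M : ℕ) : (((Icc 1 M).filter (fun i => Odd i ∧ two i)).card : ℝ) ≤ 13/210 * M + 19/14 := by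
  have h := gen_aux (fun i => Odd i ∧ two i) (by
    intro i
    simp only [two, Nat.odd_iff]
    apply propext
    omega) 1 210 13 285 (by decide +kernel) (by decide +kernel) M
  have h' : ((210 * ((Icc 1 M).filter (fun i => Odd i ∧ two i)).card : ℕ) : ℝ) ≤ ((13 * M + 285 : ℕ) : ℝ) := by
    exact_mod_cast h
  push_cast at h'
  linarith
theorem C2 (M : ℕ) : (((Icc 1 M).filter (fun i => Odd i ∧ (two i ∨ 3 ∣ i))).card : ℝ) ≤ 37/210 * M + 79/70 := by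
  have h := gen_aux (fun i => Odd i ∧ (two i ∨ 3 ∣ i)) (by
    intro i
    simp only [two, Nat.odd_iff]
    apply propext
    omega) 1 210 37 237 (by decide +kernel) (by decide +kernel) M
  have h' : ((210 * ((Icc 1 M).filter (fun i => Odd i ∧ (two i ∨ 3 ∣ i))).card : ℕ) : ℝ) ≤ ((37 * M + 237 : ℕ) : ℝ) := by
    exact_mod_cast h
  push_cast at h'
  linarith
theorem C3 (M : ℕ) : (((Icc 1 M).filter (fun i => Odd i ∧ (3 ∣ i ∨ 5 ∣ i))).card : ℝ) ≤ 7/30 * M + 9/10 := by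
  have h := gen_aux (fun i => Odd i ∧ (3 ∣ i ∨ 5 ∣ i)) (by
    intro i
    simp only [two, Nat.odd_iff]
    apply propext
    omega) 1 30 7 27 (by decide +kernel) (by decide +kernel) M
  have h' : ((30 * ((Icc 1 M).filter (fun i => Odd i ∧ (3 ∣ i ∨ 5 ∣ i))).card : ℕ) : ℝ) ≤ ((7 * M + 27 : ℕ) : ℝ) := by
    exact_mod_cast h
  push_cast at h'
  linarith
theorem C4 (M : ℕ) : (((Icc 1 M).filter (fun i => Odd i ∧ (3 ∣ i ∨ 5 ∣ i ∨ 7 ∣ i))).card : ℝ) ≤ 19/70 * M + 109/70 := by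
  have h := gen_aux (fun i => Odd i ∧ (3 ∣ i ∨ 5 ∣ i ∨ 7 ∣ i)) (by
    intro i
    simp only [two, Nat.odd_iff]
    apply propext
    omega) 1 70 19 109 (by decide +kernel) (by decide +kernel) M
  have h' : ((70 * ((Icc 1 M).filter (fun i => Odd i ∧ (3 ∣ i ∨ 5 ∣ i ∨ 7 ∣ i))).card : ℕ) : ℝ) ≤ ((19 * M + 109 : ℕ) : ℝ) := by
    exact_mod_cast h
  push_cast at h'
  linarith
theorem W1a (M : ℕ) : (((Icc 1 M).filter (fun i => Odd i ∧ ¬ two i)).card : ℝ) ≤ 46/105 * M + 26/15 := by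
  have h := gen_aux (fun i => Odd i ∧ ¬ two i) (by
    intro i
    simp only [two, Nat.odd_iff]
    apply propext
    omega) 1 105 46 182 (by decide +kernel) (by decide +kernel) M
  have h' : ((105 * ((Icc 1 M).filter (fun i => Odd i ∧ ¬ two i)).card : ℕ) : ℝ) ≤ ((46 * M + 182 : ℕ) : ℝ) := by
    exact_mod_cast h
  push_cast at h'
  linarith
theorem W1b (M : ℕ) : (((Icc 11 M).filter (fun i => Odd i ∧ ¬ two i)).card : ℝ) ≤ 46/105 * M := by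
  have h := gen_aux (fun i => Odd i ∧ ¬ two i) (by
    intro i
    simp only [two, Nat.odd_iff]
    apply propext
    omega) 11 105 46 0 (by decide +kernel) (by decide +kernel) M
  have h' : ((105 * ((Icc 11 M).filter (fun i => Odd i ∧ ¬ two i)).card : ℕ) : ℝ) ≤ ((46 * M + 0 : ℕ) : ℝ) := by
    exact_mod_cast h
  push_cast at h'
  linarith
theorem W2a (M : ℕ) : (((Icc 1 M).filter (fun i => Odd i ∧ ¬ (two i ∨ 3 ∣ i))).card : ℝ) ≤ 34/105 * M + 134/105 := by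
  have h := gen_aux (fun i => Odd i ∧ ¬ (two i ∨ 3 ∣ i)) (by
    intro i
    simp only [two, Nat.odd_iff]
    apply propext
    omega) 1 105 34 134 (by decide +kernel) (by decide +kernel) M
  have h' : ((105 * ((Icc 1 M).filter (fun i => Odd i ∧ ¬ (two i ∨ 3 ∣ i))).card : ℕ) : ℝ) ≤ ((34 * M + 134 : ℕ) : ℝ) := by
    exact_mod_cast h
  push_cast at h'
  linarith
theorem W2b (M : ℕ) : (((Icc 11 M).filter (fun i => Odd i ∧ ¬ (two i ∨ 3 ∣ i))).card : ℝ) ≤ 34/105 * M := by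
  have h := gen_aux (fun i => Odd i ∧ ¬ (two i ∨ 3 ∣ i)) (by
    intro i
    simp only [two, Nat.odd_iff]
    apply propext
    omega) 11 105 34 0 (by decide +kernel) (by decide +kernel) M
  have h' : ((105 * ((Icc 11 M).filter (fun i => Odd i ∧ ¬ (two i ∨ 3 ∣ i))).card : ℕ) : ℝ) ≤ ((34 * M + 0 : ℕ) : ℝ) := by
    exact_mod_cast h
  push_cast at h'
  linarith
theorem W3a (M : ℕ) : (((Icc 1 M).filter (fun i => Odd i ∧ ¬ (3 ∣ i ∨ 5 ∣ i))).card : ℝ) ≤ 4/15 * M + 14/15 := by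
  have h := gen_aux (fun i => Odd i ∧ ¬ (3 ∣ i ∨ 5 ∣ i)) (by
    intro i
    simp only [two, Nat.odd_iff]
    apply propext
    omega) 1 15 4 14 (by decide +kernel) (by decide +kernel) M
  have h' : ((15 * ((Icc 1 M).filter (fun i => Odd i ∧ ¬ (3 ∣ i ∨ 5 ∣ i))).card : ℕ) : ℝ) ≤ ((4 * M + 14 : ℕ) : ℝ) := by
    exact_mod_cast h
  push_cast at h'
  linarith
theorem W3b (M : ℕ) : (((Icc 11 M).filter (fun i => Odd i ∧ ¬ (3 ∣ i ∨ 5 ∣ i))).card : ℝ) ≤ 4/15 * M := by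
  have h := gen_aux (fun i => Odd i ∧ ¬ (3 ∣ i ∨ 5 ∣ i)) (by
    intro i
    simp only [two, Nat.odd_iff]
    apply propext
    omega) 11 15 4 0 (by decide +kernel) (by decide +kernel) M
  have h' : ((15 * ((Icc 11 M).filter (fun i => Odd i ∧ ¬ (3 ∣ i ∨ 5 ∣ i))).card : ℕ) : ℝ) ≤ ((4 * M + 0 : ℕ) : ℝ) := by
    exact_mod_cast h
  push_cast at h'
  linarith
theorem W4a (M : ℕ) : (((Icc 1 M).filter (fun i => Odd i ∧ ¬ (3 ∣ i ∨ 5 ∣ i ∨ 7 ∣ i))).card : ℝ) ≤ 8/35 * M + 53/35 := by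
  have h := gen_aux (fun i => Odd i ∧ ¬ (3 ∣ i ∨ 5 ∣ i ∨ 7 ∣ i)) (by
    intro i
    simp only [two, Nat.odd_iff]
    apply propext
    omega) 1 35 8 53 (by decide +kernel) (by decide +kernel) M
  have h' : ((35 * ((Icc 1 M).filter (fun i => Odd i ∧ ¬ (3 ∣ i ∨ 5 ∣ i ∨ 7 ∣ i))).card : ℕ) : ℝ) ≤ ((8 * M + 53 : ℕ) : ℝ) := by
    exact_mod_cast h
  push_cast at h'
  linarith
theorem W4b (M : ℕ) : (((Icc 11 M).filter (fun i => Odd i ∧ ¬ (3 ∣ i ∨ 5 ∣ i ∨ 7 ∣ i))).card : ℝ) ≤ 11/47 * M := by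
  have h := gen_aux (fun i => Odd i ∧ ¬ (3 ∣ i ∨ 5 ∣ i ∨ 7 ∣ i)) (by
    intro i
    simp only [two, Nat.odd_iff]
    apply propext
    omega) 11 47 11 0 (by decide +kernel) (by decide +kernel) M
  have h' : ((47 * ((Icc 11 M).filter (fun i => Odd i ∧ ¬ (3 ∣ i ∨ 5 ∣ i ∨ 7 ∣ i))).card : ℕ) : ℝ) ≤ ((11 * M + 0 : ℕ) : ℝ) := by
    exact_mod_cast h
  push_cast at h'
  linarith
theorem T3a (M : ℕ) : (((Icc 1 M).filter (fun i => Odd i ∧ 3 ∣ i ∧ ¬ 5 ∣ i ∧ ¬ 7 ∣ i)).card : ℝ) ≤ 4/35 * M + 44/35 := by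
  have h := gen_aux (fun i => Odd i ∧ 3 ∣ i ∧ ¬ 5 ∣ i ∧ ¬ 7 ∣ i) (by
    intro i
    simp only [two, Nat.odd_iff]
    apply propext
    omega) 1 35 4 44 (by decide +kernel) (by decide +kernel) M
  have h' : ((35 * ((Icc 1 M).filter (fun i => Odd i ∧ 3 ∣ i ∧ ¬ 5 ∣ i ∧ ¬ 7 ∣ i)).card : ℕ) : ℝ) ≤ ((4 * M + 44 : ℕ) : ℝ) := by
    exact_mod_cast h
  push_cast at h'
  linarith
theorem T3b (M : ℕ) : (((Icc 23 M).filter (fun i => Odd i ∧ 3 ∣ i ∧ ¬ 5 ∣ i ∧ ¬ 7 ∣ i)).card : ℝ) ≤ 4/35 * M := by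
  have h := gen_aux (fun i => Odd i ∧ 3 ∣ i ∧ ¬ 5 ∣ i ∧ ¬ 7 ∣ i) (by
    intro i
    simp only [two, Nat.odd_iff]
    apply propext
    omega) 23 35 4 0 (by decide +kernel) (by decide +kernel) M
  have h' : ((35 * ((Icc 23 M).filter (fun i => Odd i ∧ 3 ∣ i ∧ ¬ 5 ∣ i ∧ ¬ 7 ∣ i)).card : ℕ) : ℝ) ≤ ((4 * M + 0 : ℕ) : ℝ) := by
    exact_mod_cast h
  push_cast at h'
  linarith
theorem T5a (M : ℕ) : (((Icc 1 M).filter (fun i => Odd i ∧ 5 ∣ i ∧ ¬ 3 ∣ i ∧ ¬ 7 ∣ i)).card : ℝ) ≤ 2/35 * M + 8/7 := by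
  have h := gen_aux (fun i => Odd i ∧ 5 ∣ i ∧ ¬ 3 ∣ i ∧ ¬ 7 ∣ i) (by
    intro i
    simp only [two, Nat.odd_iff]
    apply propext
    omega) 1 35 2 40 (by decide +kernel) (by decide +kernel) M
  have h' : ((35 * ((Icc 1 M).filter (fun i => Odd i ∧ 5 ∣ i ∧ ¬ 3 ∣ i ∧ ¬ 7 ∣ i)).card : ℕ) : ℝ) ≤ ((2 * M + 40 : ℕ) : ℝ) := by
    exact_mod_cast h
  push_cast at h'
  linarith
theorem T5b (M : ℕ) : (((Icc 23 M).filter (fun i => Odd i ∧ 5 ∣ i ∧ ¬ 3 ∣ i ∧ ¬ 7 ∣ i)).card : ℝ) ≤ 3/50 * M := by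
  have h := gen_aux (fun i => Odd i ∧ 5 ∣ i ∧ ¬ 3 ∣ i ∧ ¬ 7 ∣ i) (by
    intro i
    simp only [two, Nat.odd_iff]
    apply propext
    omega) 23 50 3 0 (by decide +kernel) (by decide +kernel) M
  have h' : ((50 * ((Icc 23 M).filter (fun i => Odd i ∧ 5 ∣ i ∧ ¬ 3 ∣ i ∧ ¬ 7 ∣ i)).card : ℕ) : ℝ) ≤ ((3 * M + 0 : ℕ) : ℝ) := by
    exact_mod_cast h
  push_cast at h'
  linarith

end H134OC
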