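import Pool.Agent.Helper134.OCG
import Pool.Agent.Helper134.OCPer

set_option autoImplicit false

namespace H134OC
open Finset

theorem sq_lb (n m K : ℕ) (h : K ≤ n ^ 2) (hm : m ^ 2 < K) : m + 1 ≤ n := by
  by_contra hlt
  have h1 : n ≤ m := by omega
  have h2 := Nat.pow_le_pow_left h1 2
  omega

theorem q_le_six (n q g : ℕ) (hg1 : 1 ≤ g) (h2 : n < 30000) (hg : g * piT q ≤ n ^ 2) : q ≤ 6 := by
  by_contra hq
  have h7 : piT q = 955049953 := by
    have : 7 ≤ q := by omega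
    obtain ⟨r, rfl⟩ := Nat.exists_eq_add_of_le this
    rw [Nat.add_comm]; rfl
  rw [h7] at hg
  have h3 : n ^ 2 ≤ 29999 ^ 2 := Nat.pow_le_pow_left (by omega) 2
  have h4 : 955049953 ≤ g * 955049953 := Nat.le_mul_of_pos_left _ hg1
  omega

theorem num_K1a (n q : ℕ) (h1 : 330 ≤ n) (h2 : n < 30000) (hg : 15 * piT q ≤ n ^ 2) (N : ℝ)
    (hN : ((n:ℝ) - 1) / 2 ≤ N) : (13/210:ℝ) * n + 19/14 + 1 ≤ 8/15 * psT q * N - 14/15 * 2 ^ q := by
  have hq := q_le_six n q 15 (by norm_num) h2 hg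
  have h1r : (330:ℝ) ≤ n := by exact_mod_cast h1
  interval_cases q
  · norm_num [psT]; linarith
  · norm_num [psT]; linarith
  · norm_num [psT]; linarith
  · norm_num [psT]; linarith
  · norm_num [psT]; linarith
  · norm_num [psT]; linarith
  · have h3 := sq_lb n 21496 _ hg (by norm_num [piT])
    have h3r : (21497:ℝ) ≤ n := by exact_mod_cast h3
    norm_num [psT]; linarith

theorem num_K1b (n q : ℕ) (h1 : 330 ≤ n) (h2 : n < 30000) (hg : 21 * piT q ≤ n ^ 2) (N : ℝ)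
    (hN : ((n:ℝ) - 1) / 2 ≤ N) : (13/210:ℝ) * n + 19/14 + 1 ≤ 4/7 * psT q * N - 8/7 * 2 ^ q := by
  have hq := q_le_six n q 21 (by norm_num) h2 hg
  have h1r : (330:ℝ) ≤ n := by exact_mod_cast h1
  interval_cases q
  · norm_num [psT]; linarith
  · norm_num [psT]; linarith
  · norm_num [psT]; linarith
  · norm_num [psT]; linarith
  · norm_num [psT]; linarith
  · norm_num [psT]; linarith
  · have h3 := sq_lb n 25435 _ hg (by norm_num [piT])
    have h3r : (25436:ℝ) ≤ n := by exact_mod_cast h3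
    norm_num [psT]; linarith

theorem num_K1c (n q : ℕ) (h1 : 330 ≤ n) (h2 : n < 30000) (hg : 35 * piT q ≤ n ^ 2) (N : ℝ)
    (hN : ((n:ℝ) - 1) / 2 ≤ N) : (13/210:ℝ) * n + 19/14 + 1 ≤ 24/35 * psT q * N - 44/35 * 2 ^ q := by
  have hq := q_le_six n q 35 (by norm_num) h2 hg
  have h1r : (330:ℝ) ≤ n := by exact_mod_cast h1
  interval_cases q
  · norm_num [psT]; linarith
  · norm_num [psT]; linarith
  · norm_num [psT]; linarith
  · norm_num [psT]; linarith
  · norm_num [psT]; linarith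
  · norm_num [psT]; linarith
  · have h3 := sq_lb n 32837 _ hg (by norm_num [piT])
    have h3r : (32838:ℝ) ≤ n := by exact_mod_cast h3
    norm_num [psT]; linarith

theorem num_K1d (n q : ℕ) (h1 : 330 ≤ n) (h2 : n < 30000) (hg : 105 * piT q ≤ n ^ 2) (N : ℝ)
    (hN : ((n:ℝ) - 1) / 2 ≤ N) : (13/210:ℝ) * n + 19/14 + 1 ≤ 16/35 * psT q * N - 53/35 * 2 ^ q := by
  have hq := q_le_six n q 105 (by norm_num) h2 hg
  have h1r : (330:ℝ) ≤ n := by exact_mod_cast h1
  interval_cases q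
  · norm_num [psT]; linarith
  · norm_num [psT]; linarith
  · norm_num [psT]; linarith
  · norm_num [psT]; linarith
  · norm_num [psT]; linarith
  · have h3 := sq_lb n 10561 _ hg (by norm_num [piT])
    have h3r : (10562:ℝ) ≤ n := by exact_mod_cast h3
    norm_num [psT]; linarith
  · have h3 := sq_lb n 56875 _ hg (by norm_num [piT])
    have h3r : (56876:ℝ) ≤ n := by exact_mod_cast h3
    norm_num [psT]; linarith

theorem num_K2a (n q : ℕ) (h1 : 330 ≤ n) (h2 : n < 30000) (hg : 3 * piT q ≤ n ^ 2) (N : ℝ)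
    (hN : ((n:ℝ) - 1) / 2 ≤ N) : (37/210:ℝ) * n + 79/70 + 1 ≤ 2/3 * psT q * N - 2/3 * 2 ^ q := by
  have hq := q_le_six n q 3 (by norm_num) h2 hg
  have h1r : (330:ℝ) ≤ n := by exact_mod_cast h1
  interval_cases q
  · norm_num [psT]; linarith
  · norm_num [psT]; linarith
  · norm_num [psT]; linarith
  · norm_num [psT]; linarith
  · norm_num [psT]; linarith
  · have h3 := sq_lb n 1785 _ hg (by norm_num [piT])
    have h3r : (1786:ℝ) ≤ n := by exact_mod_cast h3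
    norm_num [psT]; linarith
  · have h3 := sq_lb n 9613 _ hg (by norm_num [piT])
    have h3r : (9614:ℝ) ≤ n := by exact_mod_cast h3
    norm_num [psT]; linarith

theorem num_K2b (n q : ℕ) (h1 : 330 ≤ n) (h2 : n < 30000) (hg : 15 * piT q ≤ n ^ 2) (N : ℝ)
    (hN : ((n:ℝ) - 1) / 2 ≤ N) : (37/210:ℝ) * n + 79/70 + 1 ≤ 8/15 * psT q * N - 14/15 * 2 ^ q := by
  have hq := q_le_six n q 15 (by norm_num) h2 hg
  have h1r : (330:ℝ) ≤ n := by exact_mod_cast h1
  interval_cases q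
  · norm_num [psT]; linarith
  · norm_num [psT]; linarith
  · norm_num [psT]; linarith
  · norm_num [psT]; linarith
  · have h3 := sq_lb n 832 _ hg (by norm_num [piT])
    have h3r : (833:ℝ) ≤ n := by exact_mod_cast h3
    norm_num [psT]; linarith
  · have h3 := sq_lb n 3991 _ hg (by norm_num [piT])
    have h3r : (3992:ℝ) ≤ n := by exact_mod_cast h3
    norm_num [psT]; linarith
  · have h3 := sq_lb n 21496 _ hg (by norm_num [piT])
    have h3r : (21497:ℝ) ≤ n := by exact_mod_cast h3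
    norm_num [psT]; linarith

theorem num_K2c (n q : ℕ) (h1 : 330 ≤ n) (h2 : n < 30000) (hg : 21 * piT q ≤ n ^ 2) (N : ℝ)
    (hN : ((n:ℝ) - 1) / 2 ≤ N) : (37/210:ℝ) * n + 79/70 + 1 ≤ 4/7 * psT q * N - 8/7 * 2 ^ q := by
  have hq := q_le_six n q 21 (by norm_num) h2 hg
  have h1r : (330:ℝ) ≤ n := by exact_mod_cast h1
  interval_cases q
  · norm_num [psT]; linarith
  · norm_num [psT]; linarith
  · norm_num [psT]; linarith
  · norm_num [psT]; linarith
  · have h3 := sq_lb n 984 _ hg (by norm_num [piT])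
    have h3r : (985:ℝ) ≤ n := by exact_mod_cast h3
    norm_num [psT]; linarith
  · have h3 := sq_lb n 4723 _ hg (by norm_num [piT])
    have h3r : (4724:ℝ) ≤ n := by exact_mod_cast h3
    norm_num [psT]; linarith
  · have h3 := sq_lb n 25435 _ hg (by norm_num [piT])
    have h3r : (25436:ℝ) ≤ n := by exact_mod_cast h3
    norm_num [psT]; linarith

theorem num_K3a (n q : ℕ) (h1 : 330 ≤ n) (h2 : n < 30000) (hg : 5 * piT q ≤ n ^ 2) (N : ℝ)
    (hN : ((n:ℝ) - 1) / 2 ≤ N) : (7/30:ℝ) * n + 9/10 + 1 ≤ 4/5 * psT q * N - 4/5 * 2 ^ q := by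
  have hq := q_le_six n q 5 (by norm_num) h2 hg
  have h1r : (330:ℝ) ≤ n := by exact_mod_cast h1
  interval_cases q
  · norm_num [psT]; linarith
  · norm_num [psT]; linarith
  · norm_num [psT]; linarith
  · norm_num [psT]; linarith
  · norm_num [psT]; linarith
  · have h3 := sq_lb n 2304 _ hg (by norm_num [piT])
    have h3r : (2305:ℝ) ≤ n := by exact_mod_cast h3
    norm_num [psT]; linarith
  · have h3 := sq_lb n 12411 _ hg (by norm_num [piT])
    have h3r : (12412:ℝ) ≤ n := by exact_mod_cast h3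
    norm_num [psT]; linarith

theorem num_K3b (n q : ℕ) (h1 : 330 ≤ n) (h2 : n < 30000) (hg : 35 * piT q ≤ n ^ 2) (N : ℝ)
    (hN : ((n:ℝ) - 1) / 2 ≤ N) : (7/30:ℝ) * n + 9/10 + 1 ≤ 24/35 * psT q * N - 44/35 * 2 ^ q := by
  have hq := q_le_six n q 35 (by norm_num) h2 hg
  have h1r : (330:ℝ) ≤ n := by exact_mod_cast h1
  interval_cases q
  · norm_num [psT]; linarith
  · norm_num [psT]; linarith
  · norm_num [psT]; linarith
  · norm_num [psT]; linarith
  · have h3 := sq_lb n 1271 _ hg (by norm_num [piT])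
    have h3r : (1272:ℝ) ≤ n := by exact_mod_cast h3
    norm_num [psT]; linarith
  · have h3 := sq_lb n 6097 _ hg (by norm_num [piT])
    have h3r : (6098:ℝ) ≤ n := by exact_mod_cast h3
    norm_num [psT]; linarith
  · have h3 := sq_lb n 32837 _ hg (by norm_num [piT])
    have h3r : (32838:ℝ) ≤ n := by exact_mod_cast h3
    norm_num [psT]; linarith

theorem num_K4 (n q : ℕ) (h1 : 330 ≤ n) (h2 : n < 30000) (hg : 7 * piT q ≤ n ^ 2) (N : ℝ)
    (hN : ((n:ℝ) - 1) / 2 ≤ N) : (19/70:ℝ) * n + 109/70 + 1 ≤ 6/7 * psT q * N - 6/7 * 2 ^ q := by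
  have hq := q_le_six n q 7 (by norm_num) h2 hg
  have h1r : (330:ℝ) ≤ n := by exact_mod_cast h1
  interval_cases q
  · norm_num [psT]; linarith
  · norm_num [psT]; linarith
  · norm_num [psT]; linarith
  · norm_num [psT]; linarith
  · have h3 := sq_lb n 568 _ hg (by norm_num [piT])
    have h3r : (569:ℝ) ≤ n := by exact_mod_cast h3
    norm_num [psT]; linarith
  · have h3 := sq_lb n 2726 _ hg (by norm_num [piT])
    have h3r : (2727:ℝ) ≤ n := by exact_mod_cast h3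
    norm_num [psT]; linarith
  · have h3 := sq_lb n 14685 _ hg (by norm_num [piT])
    have h3r : (14686:ℝ) ≤ n := by exact_mod_cast h3
    norm_num [psT]; linarith

theorem num_K5 (n q : ℕ) (h1 : 330 ≤ n) (h2 : n < 30000) (hg : 1 * piT q ≤ n ^ 2) :
    2 * (n:ℝ) / 3 - 2 / 3 ≤ psT q * n - 2 ^ q := by
  have hq := q_le_six n q 1 (by norm_num) h2 hg
  have h1r : (330:ℝ) ≤ n := by exact_mod_cast h1
  interval_cases q
  · norm_num [psT]; linarith
  · norm_num [psT]; linarith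
  · norm_num [psT]; linarith
  · norm_num [psT]; linarith
  · norm_num [psT]; linarith
  · have h3 := sq_lb n 1030 _ hg (by norm_num [piT])
    have h3r : (1031:ℝ) ≤ n := by exact_mod_cast h3
    norm_num [psT]; linarith
  · have h3 := sq_lb n 5550 _ hg (by norm_num [piT])
    have h3r : (5551:ℝ) ≤ n := by exact_mod_cast h3
    norm_num [psT]; linarith

def cl (w : ℕ) : ℕ := if two w then 1 else if 3 ∣ w then 2 else if 5 ∣ w then 3 else if 7 ∣ w then 4 else 5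

theorem cl_le_one (w : ℕ) : cl w ≤ 1 ↔ two w := by
  by_cases h1 : two w
  · simp [cl, h1]
  · by_cases h3 : 3 ∣ w <;> by_cases h5 : 5 ∣ w <;> by_cases h7 : 7 ∣ w <;> simp [cl, h1, h3, h5, h7]

theorem cl_le_two (w : ℕ) : cl w ≤ 2 ↔ (two w ∨ 3 ∣ w) := by
  by_cases h1 : two w
  · simp [cl, h1]
  · by_cases h3 : 3 ∣ w <;> by_cases h5 : 5 ∣ w <;> by_cases h7 : 7 ∣ w <;> simp [cl, h1, h3, h5, h7]

theorem cl_le_three (w : ℕ) : cl w ≤ 3 ↔ (3 ∣ w ∨ 5 ∣ w) := by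
  by_cases h1 : two w
  · have : 3 ∣ w ∨ 5 ∣ w := by unfold two at h1; tauto
    simp [cl, h1, this]
  · by_cases h3 : 3 ∣ w <;> by_cases h5 : 5 ∣ w <;> by_cases h7 : 7 ∣ w <;> simp [cl, h1, h3, h5, h7]

theorem cl_le_four (w : ℕ) : cl w ≤ 4 ↔ (3 ∣ w ∨ 5 ∣ w ∨ 7 ∣ w) := by
  by_cases h1 : two w
  · have : 3 ∣ w ∨ 5 ∣ w ∨ 7 ∣ w := by unfold two at h1; tauto
    simp [cl, h1, this]
  · by_cases h3 : 3 ∣ w <;> by_cases h5 : 5 ∣ w <;> by_cases h7 : 7 ∣ w <;> simp [cl, h1, h3, h5, h7]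

theorem filter_small (u v : ℕ) (hu : Odd u) (hv : Odd v) :
    (u.primeFactors ∪ v.primeFactors).filter (fun p => p < 11) =
      ({3, 5, 7} : Finset ℕ).filter (fun p => p ∣ u ∨ p ∣ v) := by
  have hu0 : u ≠ 0 := by rintro rfl; simp at hu
  have hv0 : v ≠ 0 := by rintro rfl; simp at hv
  have h2u : ¬ 2 ∣ u := fun h => (Nat.not_even_iff_odd.mpr hu) (even_iff_two_dvd.mpr h)
  have h2v : ¬ 2 ∣ v := fun h => (Nat.not_even_iff_odd.mpr hv) (even_iff_two_dvd.mpr h)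
  ext p
  simp only [mem_filter, mem_union, Nat.mem_primeFactors, mem_insert, mem_singleton]
  constructor
  · rintro ⟨h1, h2⟩
    have hp : p.Prime := by rcases h1 with h | h <;> exact h.1
    have hd : p ∣ u ∨ p ∣ v := by
      rcases h1 with h | h
      · exact Or.inl h.2.1
      · exact Or.inr h.2.1
    refine ⟨?_, hd⟩
    have hne : p ≠ 2 := by
      rintro rfl
      rcases hd with h | h
      · exact h2u h
      · exact h2v h
    interval_cases p <;> first | omega | (exact absurd hp (by norm_num))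
  · rintro ⟨h1, h2⟩
    have hp : p.Prime ∧ p < 11 := by rcases h1 with rfl | rfl | rfl <;> norm_num
    refine ⟨?_, hp.2⟩
    rcases h2 with h | h
    · exact Or.inl ⟨hp.1, h, hu0⟩
    · exact Or.inr ⟨hp.1, h, hv0⟩

theorem dens_small (u v : ℕ) (hu : Odd u) (hv : Odd v) :
    dens ((u.primeFactors ∪ v.primeFactors).filter (fun p => p < 11)) =
      (if 3 ∣ u ∨ 3 ∣ v then 2/3 else 1) * ((if 5 ∣ u ∨ 5 ∣ v then 4/5 else 1) * (if 7 ∣ u ∨ 7 ∣ v then 6/7 else 1)) := by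
  rw [filter_small u v hu hv, dens, prod_filter, prod_insert (by decide), prod_insert (by decide), prod_singleton]
  norm_num

theorem prod_small (u v : ℕ) (hu : Odd u) (hv : Odd v) :
    ∏ p ∈ (u.primeFactors ∪ v.primeFactors).filter (fun p => p < 11), p =
      (if 3 ∣ u ∨ 3 ∣ v then 3 else 1) * ((if 5 ∣ u ∨ 5 ∣ v then 5 else 1) * (if 7 ∣ u ∨ 7 ∣ v then 7 else 1)) := by
  rw [filter_small u v hu hv, prod_filter, prod_insert (by decide), prod_insert (by decide), prod_singleton]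

theorem bet_small (u v : ℕ) (hu : Odd u) (hv : Odd v) :
    bet ((u.primeFactors ∪ v.primeFactors).filter (fun p => p < 11)) =
      if 3 ∣ u ∨ 3 ∣ v then (if 5 ∣ u ∨ 5 ∣ v then (if 7 ∣ u ∨ 7 ∣ v then 53/35 else 14/15)
        else (if 7 ∣ u ∨ 7 ∣ v then 8/7 else 2/3))
      else (if 5 ∣ u ∨ 5 ∣ v then (if 7 ∣ u ∨ 7 ∣ v then 44/35 else 4/5)
        else (if 7 ∣ u ∨ 7 ∣ v then 6/7 else 1)) := by
  rw [filter_small u v hu hv, bet]
  simp only [mem_filter, mem_insert, mem_singleton, true_or, or_true, true_and]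

theorem half_le (n : ℕ) : ((n:ℝ) - 1) / 2 ≤ ((n / 2 : ℕ) : ℝ) := by
  have h : n ≤ 2 * (n / 2) + 1 := by omega
  have h' : (n:ℝ) ≤ 2 * ((n / 2 : ℕ) : ℝ) + 1 := by exact_mod_cast h
  linarith

theorem split_union (u v : ℕ) (hu : Odd u) (hv : Odd v) (n : ℕ) (hn : n < 30000) (hun : u ≤ n) (hvn : v ≤ n) (N : ℕ) :
    dens ((u.primeFactors ∪ v.primeFactors).filter (fun p => p < 11)) *
        psT ((u.primeFactors ∪ v.primeFactors).filter (fun p => 11 ≤ p)).card * N -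
      bet ((u.primeFactors ∪ v.primeFactors).filter (fun p => p < 11)) *
        2 ^ ((u.primeFactors ∪ v.primeFactors).filter (fun p => 11 ≤ p)).card ≤ (cc N u v : ℝ) ∧
    (∏ p ∈ (u.primeFactors ∪ v.primeFactors).filter (fun p => p < 11), p) *
      piT ((u.primeFactors ∪ v.primeFactors).filter (fun p => 11 ≤ p)).card ≤ n ^ 2 := by
  have hu0 : u ≠ 0 := by rintro rfl; simp at hu
  have hv0 : v ≠ 0 := by rintro rfl; simp at hv
  set P := u.primeFactors ∪ v.primeFactors with hP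
  set S := P.filter (fun p => p < 11) with hS
  set Q := P.filter (fun p => 11 ≤ p) with hQ
  have hSQ : S ∪ Q = P := by
    ext p; simp only [hS, hQ, mem_union, mem_filter]
    constructor
    · rintro (h | h) <;> exact h.1
    · intro h
      rcases lt_or_ge p 11 with h1 | h1
      · exact Or.inl ⟨h, h1⟩
      · exact Or.inr ⟨h, h1⟩
  have hdis : Disjoint S Q := by
    rw [disjoint_left]; intro p h1 h2
    have a1 := (mem_filter.mp h1).2
    have a2 := (mem_filter.mp h2).2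
    omega
  have hPp : ∀ p ∈ P, p.Prime := by
    intro p hp
    rcases mem_union.mp hp with h | h <;> exact Nat.prime_of_mem_primeFactors h
  have hQp : ∀ p ∈ Q, p.Prime ∧ 11 ≤ p := fun p hp => ⟨hPp p (mem_filter.mp hp).1, (mem_filter.mp hp).2⟩
  have hSp : ∀ p ∈ S, p.Prime := fun p hp => hPp p (mem_filter.mp hp).1
  have hS357 : S ⊆ {3, 5, 7} := by
    rw [hS, hP, filter_small u v hu hv]; exact filter_subset _ _
  have hprod := prod_le n u v hu hv hun hvn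
  rw [← hP, ← hSQ, prod_union hdis] at hprod
  have hprim := primorial Q hQp
  have hS1 : 1 ≤ ∏ p ∈ S, p := Finset.one_le_prod' (fun p hp => (hSp p hp).one_lt.le)
  have h2 : (∏ p ∈ S, p) * piT Q.card ≤ n ^ 2 := le_trans (Nat.mul_le_mul_left _ hprim.1) hprod
  refine ⟨?_, h2⟩
  have hq6 : Q.card ≤ 6 := q_le_six n Q.card (∏ p ∈ S, p) hS1 hn h2
  have hie := ie_gen S (bet S) hSp (fun y hy => base_bound S hS357 y hy) Q (fun p hp => (hQp p hp).1) hdis N (Nat.cast_nonneg N)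
  rw [Nat.floor_natCast, hSQ] at hie
  have h3 := (abs_le.mp hie).1
  have h4 : psT Q.card ≤ dens Q := hprim.2 (by omega)
  have hd0 : 0 ≤ dens S := by
    unfold dens
    apply prod_nonneg
    intro p hp
    have := (hSp p hp).one_lt
    have h1 : (1:ℝ) ≤ p := by exact_mod_cast this.le
    have : 1 / (p:ℝ) ≤ 1 := by rw [div_le_one (by linarith)]; exact h1
    linarith
  rw [cc_eq_cS N u v hu0 hv0, ← hP]
  have h5 : dens S * psT Q.card * N ≤ dens S * dens Q * N := by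
    apply mul_le_mul_of_nonneg_right _ (Nat.cast_nonneg N)
    exact mul_le_mul_of_nonneg_left h4 hd0
  linarith

theorem mid_core (n u v : ℕ) (hu : Odd u) (hv : Odd v) (hun : u ≤ n) (hvn : v ≤ n) (h2 : n < 30000)
    (g : ℕ) (ψ β d a : ℝ)
    (hg : ∏ p ∈ (u.primeFactors ∪ v.primeFactors).filter (fun p => p < 11), p = g)
    (hψ : dens ((u.primeFactors ∪ v.primeFactors).filter (fun p => p < 11)) = ψ)
    (hβ : bet ((u.primeFactors ∪ v.primeFactors).filter (fun p => p < 11)) = β)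
    (hnum : ∀ (q : ℕ) (N : ℝ), g * piT q ≤ n ^ 2 → ((n:ℝ) - 1) / 2 ≤ N → d * n + a + 1 ≤ ψ * psT q * N - β * 2 ^ q)
    (D : ℕ) (hD : (D:ℝ) ≤ d * n + a) : D + 1 ≤ cc (n / 2) u v := by
  obtain ⟨h3, h4⟩ := split_union u v hu hv n h2 hun hvn (n / 2)
  rw [hg] at h4
  rw [hψ, hβ] at h3
  have h5 := hnum _ _ h4 (half_le n)
  have h6 : ((D + 1 : ℕ) : ℝ) ≤ (cc (n / 2) u v : ℝ) := by push_cast; linarith
  exact_mod_cast h6

theorem good_mid (n : ℕ) (h1 : 330 ≤ n) (h2 : n < 30000) : Good n := by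
  refine ⟨fun w => (cl w : ℝ), ?_⟩
  intro u v hun hvn hu hv huv hle
  have hle' : cl u ≤ cl v := by
    have h := hle
    simp only [Nat.cast_le] at h
    exact h
  have hfil : ∀ c, ((Icc 1 n).filter (fun w => Odd w ∧ ((cl w : ℝ) ≤ (c:ℕ)))) =
      (Icc 1 n).filter (fun w => Odd w ∧ cl w ≤ c) := by
    intro c
    apply filter_congr
    intro w _
    simp only [Nat.cast_le]
  have hcast : ((Icc 1 n).filter (fun w => Odd w ∧ ((cl w : ℝ) ≤ (cl u : ℝ)))) =
      (Icc 1 n).filter (fun w => Odd w ∧ cl w ≤ cl u) := hfil (cl u)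
  rw [hcast]
  have hdS := dens_small u v hu hv
  have hpS := prod_small u v hu hv
  have hbS := bet_small u v hu hv
  by_cases t1 : two u
  · right
    have hcl : cl u = 1 := by simp [cl, t1]
    rw [hcl]
    have hD : (((Icc 1 n).filter (fun w => Odd w ∧ cl w ≤ 1)).card : ℝ) ≤ 13/210 * n + 19/14 := by
      have : (Icc 1 n).filter (fun w => Odd w ∧ cl w ≤ 1) = (Icc 1 n).filter (fun w => Odd w ∧ two w) := by
        apply filter_congr
        intro w _
        rw [cl_le_one]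
      rw [this]; exact C1 n
    have hcase : (3 ∣ u ∨ 3 ∣ v) ∧ (5 ∣ u ∨ 5 ∣ v) ∧ ¬ (7 ∣ u ∨ 7 ∣ v) ∨
        (3 ∣ u ∨ 3 ∣ v) ∧ ¬ (5 ∣ u ∨ 5 ∣ v) ∧ (7 ∣ u ∨ 7 ∣ v) ∨
        ¬ (3 ∣ u ∨ 3 ∣ v) ∧ (5 ∣ u ∨ 5 ∣ v) ∧ (7 ∣ u ∨ 7 ∣ v) ∨
        (3 ∣ u ∨ 3 ∣ v) ∧ (5 ∣ u ∨ 5 ∣ v) ∧ (7 ∣ u ∨ 7 ∣ v) := by
      unfold two at t1; tauto
    rcases hcase with ⟨a3, a5, a7⟩ | ⟨a3, a5, a7⟩ | ⟨a3, a5, a7⟩ | ⟨a3, a5, a7⟩
    · simp only [if_pos a3, if_pos a5, if_neg a7] at hdS hpS hbS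
      exact mid_core n u v hu hv hun hvn h2 15 (8/15) (14/15) (13/210) (19/14) (by rw [hpS]) (by rw [hdS]; norm_num) hbS
        (fun q N hg hN => num_K1a n q h1 h2 hg N hN) _ hD
    · simp only [if_pos a3, if_neg a5, if_pos a7] at hdS hpS hbS
      exact mid_core n u v hu hv hun hvn h2 21 (4/7) (8/7) (13/210) (19/14) (by rw [hpS]) (by rw [hdS]; norm_num) hbS
        (fun q N hg hN => num_K1b n q h1 h2 hg N hN) _ hD
    · simp only [if_neg a3, if_pos a5, if_pos a7] at hdS hpS hbS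
      exact mid_core n u v hu hv hun hvn h2 35 (24/35) (44/35) (13/210) (19/14) (by rw [hpS]) (by rw [hdS]; norm_num) hbS
        (fun q N hg hN => num_K1c n q h1 h2 hg N hN) _ hD
    · simp only [if_pos a3, if_pos a5, if_pos a7] at hdS hpS hbS
      exact mid_core n u v hu hv hun hvn h2 105 (16/35) (53/35) (13/210) (19/14) (by rw [hpS]) (by rw [hdS]; norm_num) hbS
        (fun q N hg hN => num_K1d n q h1 h2 hg N hN) _ hD
  by_cases u3 : 3 ∣ u
  · right
    have hcl : cl u = 2 := by simp [cl, t1, u3]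
    rw [hcl]
    rw [hcl] at hle'
    have tv : ¬ two v := by
      intro h; simp [cl, h] at hle'
    have hD : (((Icc 1 n).filter (fun w => Odd w ∧ cl w ≤ 2)).card : ℝ) ≤ 37/210 * n + 79/70 := by
      have : (Icc 1 n).filter (fun w => Odd w ∧ cl w ≤ 2) = (Icc 1 n).filter (fun w => Odd w ∧ (two w ∨ 3 ∣ w)) := by
        apply filter_congr
        intro w _
        rw [cl_le_two]
      rw [this]; exact C2 n
    have a3 : 3 ∣ u ∨ 3 ∣ v := Or.inl u3
    have hcase : (3 ∣ u ∨ 3 ∣ v) ∧ ¬ (5 ∣ u ∨ 5 ∣ v) ∧ ¬ (7 ∣ u ∨ 7 ∣ v) ∨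
        (3 ∣ u ∨ 3 ∣ v) ∧ (5 ∣ u ∨ 5 ∣ v) ∧ ¬ (7 ∣ u ∨ 7 ∣ v) ∨
        (3 ∣ u ∨ 3 ∣ v) ∧ ¬ (5 ∣ u ∨ 5 ∣ v) ∧ (7 ∣ u ∨ 7 ∣ v) := by
      unfold two at t1 tv; tauto
    rcases hcase with ⟨a3, a5, a7⟩ | ⟨a3, a5, a7⟩ | ⟨a3, a5, a7⟩
    · simp only [if_pos a3, if_neg a5, if_neg a7] at hdS hpS hbS
      exact mid_core n u v hu hv hun hvn h2 3 (2/3) (2/3) (37/210) (79/70) (by rw [hpS]) (by rw [hdS]; norm_num) hbS
        (fun q N hg hN => num_K2a n q h1 h2 hg N hN) _ hD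
    · simp only [if_pos a3, if_pos a5, if_neg a7] at hdS hpS hbS
      exact mid_core n u v hu hv hun hvn h2 15 (8/15) (14/15) (37/210) (79/70) (by rw [hpS]) (by rw [hdS]; norm_num) hbS
        (fun q N hg hN => num_K2b n q h1 h2 hg N hN) _ hD
    · simp only [if_pos a3, if_neg a5, if_pos a7] at hdS hpS hbS
      exact mid_core n u v hu hv hun hvn h2 21 (4/7) (8/7) (37/210) (79/70) (by rw [hpS]) (by rw [hdS]; norm_num) hbS
        (fun q N hg hN => num_K2c n q h1 h2 hg N hN) _ hD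
  by_cases u5 : 5 ∣ u
  · right
    have hcl : cl u = 3 := by simp [cl, t1, u3, u5]
    rw [hcl]
    rw [hcl] at hle'
    have tv : ¬ two v := by
      intro h; simp [cl, h] at hle'
    have v3 : ¬ 3 ∣ v := by
      intro h; simp [cl, h, tv] at hle'
    have hD : (((Icc 1 n).filter (fun w => Odd w ∧ cl w ≤ 3)).card : ℝ) ≤ 7/30 * n + 9/10 := by
      have : (Icc 1 n).filter (fun w => Odd w ∧ cl w ≤ 3) = (Icc 1 n).filter (fun w => Odd w ∧ (3 ∣ w ∨ 5 ∣ w)) := by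
        apply filter_congr
        intro w _
        rw [cl_le_three]
      rw [this]; exact C3 n
    have hcase : ¬ (3 ∣ u ∨ 3 ∣ v) ∧ (5 ∣ u ∨ 5 ∣ v) ∧ ¬ (7 ∣ u ∨ 7 ∣ v) ∨
        ¬ (3 ∣ u ∨ 3 ∣ v) ∧ (5 ∣ u ∨ 5 ∣ v) ∧ (7 ∣ u ∨ 7 ∣ v) := by
      tauto
    rcases hcase with ⟨a3, a5, a7⟩ | ⟨a3, a5, a7⟩
    · simp only [if_neg a3, if_pos a5, if_neg a7] at hdS hpS hbS
      exact mid_core n u v hu hv hun hvn h2 5 (4/5) (4/5) (7/30) (9/10) (by rw [hpS]) (by rw [hdS]; norm_num) hbS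
        (fun q N hg hN => num_K3a n q h1 h2 hg N hN) _ hD
    · simp only [if_neg a3, if_pos a5, if_pos a7] at hdS hpS hbS
      exact mid_core n u v hu hv hun hvn h2 35 (24/35) (44/35) (7/30) (9/10) (by rw [hpS]) (by rw [hdS]; norm_num) hbS
        (fun q N hg hN => num_K3b n q h1 h2 hg N hN) _ hD
  by_cases u7 : 7 ∣ u
  · right
    have hcl : cl u = 4 := by simp [cl, t1, u3, u5, u7]
    rw [hcl]
    rw [hcl] at hle'
    have tv : ¬ two v := by
      intro h; simp [cl, h] at hle'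
    have v3 : ¬ 3 ∣ v := by
      intro h; simp [cl, h, tv] at hle'
    have v5 : ¬ 5 ∣ v := by
      intro h; simp [cl, h, tv, v3] at hle'
    have hD : (((Icc 1 n).filter (fun w => Odd w ∧ cl w ≤ 4)).card : ℝ) ≤ 19/70 * n + 109/70 := by
      have : (Icc 1 n).filter (fun w => Odd w ∧ cl w ≤ 4) = (Icc 1 n).filter (fun w => Odd w ∧ (3 ∣ w ∨ 5 ∣ w ∨ 7 ∣ w)) := by
        apply filter_congr
        intro w _
        rw [cl_le_four]
      rw [this]; exact C4 n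
    have a3 : ¬ (3 ∣ u ∨ 3 ∣ v) := by tauto
    have a5 : ¬ (5 ∣ u ∨ 5 ∣ v) := by tauto
    have a7 : 7 ∣ u ∨ 7 ∣ v := Or.inl u7
    simp only [if_neg a3, if_neg a5, if_pos a7] at hdS hpS hbS
    exact mid_core n u v hu hv hun hvn h2 7 (6/7) (6/7) (19/70) (109/70) (by rw [hpS]) (by rw [hdS]; norm_num) hbS
        (fun q N hg hN => num_K4 n q h1 h2 hg N hN) _ hD
  · left
    have hcl : cl u = 5 := by simp [cl, t1, u3, u5, u7]
    rw [hcl] at hle'
    have tv : ¬ two v := by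
      intro h; simp [cl, h] at hle'
    have v3 : ¬ 3 ∣ v := by
      intro h; simp [cl, h, tv] at hle'
    have v5 : ¬ 5 ∣ v := by
      intro h; simp [cl, h, tv, v3] at hle'
    have v7 : ¬ 7 ∣ v := by
      intro h; simp [cl, h, tv, v3, v5] at hle'
    have a3 : ¬ (3 ∣ u ∨ 3 ∣ v) := by tauto
    have a5 : ¬ (5 ∣ u ∨ 5 ∣ v) := by tauto
    have a7 : ¬ (7 ∣ u ∨ 7 ∣ v) := by tauto
    simp only [if_neg a3, if_neg a5, if_neg a7] at hdS hpS hbS
    obtain ⟨h3, h4⟩ := split_union u v hu hv n h2 hun hvn n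
    rw [hdS, hbS] at h3
    rw [hpS] at h4
    have h5 := num_K5 n _ h1 h2 (by simpa using h4)
    have h6 : 2 * (n:ℝ) ≤ 3 * (cc n u v : ℝ) + 2 := by linarith
    have h7 : 2 * n ≤ 3 * cc n u v + 2 := by exact_mod_cast h6
    omega

end H134OC
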