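import Pool.Agent.Helper134.OCDefs

set_option autoImplicit false

namespace H134OC
open Finset

theorem cc_eq_cS (N u v : ℕ) (hu : u ≠ 0) (hv : v ≠ 0) :
    cc N u v = cS N (u.primeFactors ∪ v.primeFactors) := by
  have key : ∀ j w : ℕ, w ≠ 0 → (Nat.Coprime j w ↔ ∀ p ∈ w.primeFactors, ¬ p ∣ j) := by
    intro j w hw
    constructor
    · intro h p hp hpj
      have h1 := Nat.dvd_gcd hpj (Nat.dvd_of_mem_primeFactors hp)
      rw [Nat.Coprime] at h
      rw [h] at h1
      exact (Nat.prime_of_mem_primeFactors hp).one_lt.ne' (Nat.dvd_one.1 h1)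
    · intro h
      by_contra hc
      rw [Nat.Prime.not_coprime_iff_dvd] at hc
      obtain ⟨p, hp, hpj, hpw⟩ := hc
      exact h p (Nat.mem_primeFactors.2 ⟨hp, hpw, hw⟩) hpj
  unfold cc cS
  congr 1
  ext j
  simp only [Finset.mem_filter, Finset.mem_union]
  constructor
  · rintro ⟨h0, h1, h2⟩
    refine ⟨h0, fun p hp => ?_⟩
    rcases hp with hp | hp
    · exact (key j u hu).1 h1 p hp
    · exact (key j v hv).1 h2 p hp
  · rintro ⟨h0, h1⟩
    exact ⟨h0, (key j u hu).2 (fun p hp => h1 p (Or.inl hp)),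
      (key j v hv).2 (fun p hp => h1 p (Or.inr hp))⟩

theorem cS_succ (M : ℕ) (S : Finset ℕ) :
    cS (M + 1) S = cS M S + if (∀ p ∈ S, ¬ p ∣ M + 1) then 1 else 0 := by
  unfold cS
  have hI : Icc 1 (M + 1) = insert (M + 1) (Icc 1 M) := by
    ext j
    simp only [Finset.mem_Icc, Finset.mem_insert]
    omega
  rw [hI, Finset.filter_insert]
  split_ifs with h
  · rw [Finset.card_insert_of_notMem]
    simp
  · simp

theorem cS_zero (S : Finset ℕ) : cS 0 S = 0 := by
  unfold cS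
  simp

theorem cS_period (M : ℕ) (S : Finset ℕ) (hS : ∀ p ∈ S, p ∣ 105) :
    cS (M + 105) S = cS M S + cS 105 S := by
  induction M with
  | zero => rw [cS_zero, Nat.zero_add, Nat.zero_add]
  | succ M ih =>
    have e : M + 1 + 105 = (M + 105) + 1 := by omega
    rw [e, cS_succ (M + 105), cS_succ M, ih]
    have hiff : (∀ p ∈ S, ¬ p ∣ M + 105 + 1) ↔ (∀ p ∈ S, ¬ p ∣ M + 1) := by
      have h1 : ∀ p ∈ S, (p ∣ M + 105 + 1 ↔ p ∣ M + 1) := by
        intro p hp
        have e2 : M + 105 + 1 = (M + 1) + 105 := by omega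
        rw [e2]
        exact (Nat.dvd_add_left (hS p hp))
      constructor
      · intro h p hp hd
        exact h p hp ((h1 p hp).2 hd)
      · intro h p hp hd
        exact h p hp ((h1 p hp).1 hd)
    simp only [hiff]
    omega

theorem cS_mod (a b : ℕ) (S : Finset ℕ) (hS : ∀ p ∈ S, p ∣ 105) :
    cS (105 * a + b) S = a * cS 105 S + cS b S := by
  induction a with
  | zero => simp
  | succ a ih =>
    have e : 105 * (a + 1) + b = (105 * a + b) + 105 := by ring
    rw [e, cS_period _ S hS, ih]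
    ring

theorem base_aux (S : Finset ℕ) (hS : ∀ p ∈ S, p ∣ 105) (D E : ℕ) (hD : cS 105 S = D)
    (h1 : ∀ M < 105, 105 * cS M S ≤ D * M + E) (h2 : ∀ M < 105, D * (M + 1) ≤ 105 * cS M S + E)
    (hd : dens S = (D : ℝ) / 105) (hb : bet S = (E : ℝ) / 105) (y : ℝ) (hy : 0 ≤ y) :
    |(cS ⌊y⌋₊ S : ℝ) - dens S * y| ≤ bet S := by
  set M := ⌊y⌋₊ with hM
  have hM1 : (M : ℝ) ≤ y := Nat.floor_le hy
  have hM2 : y < M + 1 := Nat.lt_floor_add_one y
  have g1 : 105 * cS M S ≤ D * M + E := by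
    have h := h1 (M % 105) (Nat.mod_lt _ (by norm_num))
    have e := cS_mod (M / 105) (M % 105) S hS
    rw [Nat.div_add_mod, hD] at e
    have e3 := Nat.div_add_mod M 105
    rw [e]
    calc 105 * (M / 105 * D + cS (M % 105) S) = D * (105 * (M / 105)) + 105 * cS (M % 105) S := by
          ring
      _ ≤ D * (105 * (M / 105)) + (D * (M % 105) + E) := by omega
      _ = D * (105 * (M / 105) + M % 105) + E := by ring
      _ = D * M + E := by rw [e3]
  have g2 : D * (M + 1) ≤ 105 * cS M S + E := by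
    have h := h2 (M % 105) (Nat.mod_lt _ (by norm_num))
    have e := cS_mod (M / 105) (M % 105) S hS
    rw [Nat.div_add_mod, hD] at e
    have e3 := Nat.div_add_mod M 105
    rw [e]
    calc D * (M + 1) = D * (105 * (M / 105) + M % 105 + 1) := by rw [e3]
      _ = D * (105 * (M / 105)) + D * (M % 105 + 1) := by ring
      _ ≤ D * (105 * (M / 105)) + (105 * cS (M % 105) S + E) := by omega
      _ = 105 * (M / 105 * D + cS (M % 105) S) + E := by ring
  have g1' : (105 : ℝ) * cS M S ≤ D * M + E := by exact_mod_cast g1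
  have g2' : (D : ℝ) * (M + 1) ≤ 105 * cS M S + E := by exact_mod_cast g2
  have hD0 : (0 : ℝ) ≤ D := Nat.cast_nonneg D
  rw [hd, hb, abs_le]
  constructor
  · have : (D : ℝ) * y ≤ D * (M + 1) := mul_le_mul_of_nonneg_left hM2.le hD0
    have h3 : -((E : ℝ) / 105) = -(E : ℝ) / 105 := by ring
    have h4 : (cS M S : ℝ) - (D : ℝ) / 105 * y = (105 * cS M S - D * y) / 105 := by ring
    rw [h3, h4]
    apply div_le_div_of_nonneg_right _ (by norm_num)
    linarith
  · have : (D : ℝ) * M ≤ D * y := mul_le_mul_of_nonneg_left hM1 hD0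
    have h4 : (cS M S : ℝ) - (D : ℝ) / 105 * y = (105 * cS M S - D * y) / 105 := by ring
    rw [h4]
    apply div_le_div_of_nonneg_right _ (by norm_num)
    linarith

theorem base_cases (S : Finset ℕ) (hS : S ⊆ {3, 5, 7}) :
    S = ∅ ∨ S = {3} ∨ S = {5} ∨ S = {7} ∨ S = {3, 5} ∨ S = {3, 7} ∨ S = {5, 7} ∨
      S = {3, 5, 7} := by
  have h : ∀ S ∈ ({3, 5, 7} : Finset ℕ).powerset, S = ∅ ∨ S = {3} ∨ S = {5} ∨ S = {7} ∨
      S = {3, 5} ∨ S = {3, 7} ∨ S = {5, 7} ∨ S = {3, 5, 7} := by decide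
  exact h S (Finset.mem_powerset.2 hS)

/-- sieving by primes < 11 : periodic with period 105 -/
theorem base_bound (S : Finset ℕ) (hS : S ⊆ {3, 5, 7}) (y : ℝ) (hy : 0 ≤ y) :
    |(cS ⌊y⌋₊ S : ℝ) - dens S * y| ≤ bet S := by
  rcases base_cases S hS with rfl | rfl | rfl | rfl | rfl | rfl | rfl | rfl
  · exact base_aux _ (by decide) 105 105 (by decide +kernel) (by decide +kernel)
      (by decide +kernel) (by norm_num [dens]) (by norm_num [bet]) y hy
  · exact base_aux _ (by decide) 70 70 (by decide +kernel) (by decide +kernel)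
      (by decide +kernel) (by norm_num [dens]) (by norm_num [bet]) y hy
  · exact base_aux _ (by decide) 84 84 (by decide +kernel) (by decide +kernel)
      (by decide +kernel) (by norm_num [dens]) (by norm_num [bet]) y hy
  · exact base_aux _ (by decide) 90 90 (by decide +kernel) (by decide +kernel)
      (by decide +kernel) (by norm_num [dens]) (by norm_num [bet]) y hy
  · exact base_aux _ (by decide) 56 98 (by decide +kernel) (by decide +kernel)
      (by decide +kernel) (by norm_num [dens]) (by norm_num [bet]) y hy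
  · exact base_aux _ (by decide) 60 120 (by decide +kernel) (by decide +kernel)
      (by decide +kernel) (by norm_num [dens]) (by norm_num [bet]) y hy
  · exact base_aux _ (by decide) 72 132 (by decide +kernel) (by decide +kernel)
      (by decide +kernel) (by norm_num [dens]) (by norm_num [bet]) y hy
  · exact base_aux _ (by decide) 48 159 (by decide +kernel) (by decide +kernel)
      (by decide +kernel) (by norm_num [dens]) (by norm_num [bet]) y hy

theorem cS_insert (N p : ℕ) (hp : p.Prime) (T : Finset ℕ) (hT : ∀ s ∈ T, s.Prime) (hpT : p ∉ T) :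
    cS N (insert p T) + cS (N / p) T = cS N T := by
  have h1 : cS N T = (((Icc 1 N).filter (fun j => ∀ s ∈ T, ¬ s ∣ j)).filter (fun j => ¬ p ∣ j)).card +
      (((Icc 1 N).filter (fun j => ∀ s ∈ T, ¬ s ∣ j)).filter (fun j => ¬ ¬ p ∣ j)).card := by
    unfold cS
    exact (Finset.card_filter_add_card_filter_not (fun j => ¬ p ∣ j)).symm
  have h2 : ((Icc 1 N).filter (fun j => ∀ s ∈ T, ¬ s ∣ j)).filter (fun j => ¬ p ∣ j) =
      (Icc 1 N).filter (fun j => ∀ s ∈ insert p T, ¬ s ∣ j) := by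
    ext j
    simp only [Finset.mem_filter, Finset.mem_insert, forall_eq_or_imp]
    tauto
  have h3 : ((Icc 1 N).filter (fun j => ∀ s ∈ T, ¬ s ∣ j)).filter (fun j => ¬ ¬ p ∣ j) =
      ((Icc 1 (N / p)).filter (fun j => ∀ s ∈ T, ¬ s ∣ j)).image (fun i => p * i) := by
    ext j
    simp only [Finset.mem_filter, Finset.mem_image, Finset.mem_Icc, not_not]
    constructor
    · rintro ⟨⟨⟨a1, a2⟩, a3⟩, i, rfl⟩
      refine ⟨i, ⟨⟨?_, ?_⟩, ?_⟩, rfl⟩
      · rcases Nat.eq_zero_or_pos i with h | h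
        · rw [h, mul_zero] at a1
          omega
        · exact h
      · rw [Nat.le_div_iff_mul_le hp.pos, mul_comm]
        exact a2
      · intro s hs hd
        exact a3 s hs (hd.mul_left p)
    · rintro ⟨i, ⟨⟨b1, b2⟩, b3⟩, rfl⟩
      refine ⟨⟨⟨Nat.mul_pos hp.pos b1, ?_⟩, ?_⟩, dvd_mul_right p i⟩
      · rw [Nat.le_div_iff_mul_le hp.pos, mul_comm] at b2
        exact b2
      · intro s hs hd
        rcases (hT s hs).dvd_mul.1 hd with h | h
        · have := (Nat.prime_dvd_prime_iff_eq (hT s hs) hp).1 h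
          exact hpT (this ▸ hs)
        · exact b3 s hs h
  rw [h1, h2, h3, Finset.card_image_of_injective _ (fun a b hab => Nat.eq_of_mul_eq_mul_left hp.pos hab)]
  rfl

theorem cS_mono (N : ℕ) (S T : Finset ℕ) (h : S ⊆ T) : cS N T ≤ cS N S := by
  unfold cS
  refine Finset.card_le_card (fun j hj => ?_)
  rw [Finset.mem_filter] at hj ⊢
  exact ⟨hj.1, fun p hp => hj.2 p (h hp)⟩

/-- inclusion exclusion with error doubling at each step -/
theorem ie_gen (S : Finset ℕ) (b : ℝ) (hS : ∀ p ∈ S, p.Prime)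
    (hb : ∀ y : ℝ, 0 ≤ y → |(cS ⌊y⌋₊ S : ℝ) - dens S * y| ≤ b)
    (Q : Finset ℕ) (hQ : ∀ p ∈ Q, p.Prime) (hd : Disjoint S Q) :
    ∀ y : ℝ, 0 ≤ y → |(cS ⌊y⌋₊ (S ∪ Q) : ℝ) - dens S * dens Q * y| ≤ b * 2 ^ Q.card := by
  induction Q using Finset.induction_on with
  | empty =>
    intro y hy
    have := hb y hy
    simpa [dens] using this
  | insert p Q hpQ ih =>
    intro y hy
    have hp : p.Prime := hQ p (Finset.mem_insert_self p Q)
    have hQ' : ∀ s ∈ Q, s.Prime := fun s hs => hQ s (Finset.mem_insert_of_mem hs)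
    rw [Finset.disjoint_insert_right] at hd
    have ih' := ih hQ' hd.2
    have hpSQ : p ∉ S ∪ Q := by
      rw [Finset.mem_union, not_or]
      exact ⟨hd.1, hpQ⟩
    have hpr : ∀ s ∈ S ∪ Q, s.Prime := by
      intro s hs
      rcases Finset.mem_union.1 hs with h | h
      · exact hS s h
      · exact hQ' s h
    have hk := cS_insert ⌊y⌋₊ p hp (S ∪ Q) hpr hpSQ
    have hfl : ⌊y⌋₊ / p = ⌊y / (p : ℝ)⌋₊ := (Nat.floor_div_natCast y p).symm
    rw [hfl] at hk
    have hk' : (cS ⌊y⌋₊ (insert p (S ∪ Q)) : ℝ) + (cS ⌊y / (p : ℝ)⌋₊ (S ∪ Q) : ℝ) =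
        (cS ⌊y⌋₊ (S ∪ Q) : ℝ) := by exact_mod_cast hk
    have e1 := ih' y hy
    have e2 := ih' (y / p) (by positivity)
    have hdens : dens (insert p Q) = (1 - 1 / (p : ℝ)) * dens Q := by
      unfold dens
      rw [Finset.prod_insert hpQ]
    rw [Finset.union_insert, Finset.card_insert_of_notMem hpQ, hdens, pow_succ]
    have e3 : (cS ⌊y⌋₊ (insert p (S ∪ Q)) : ℝ) - dens S * ((1 - 1 / (p : ℝ)) * dens Q) * y =
        ((cS ⌊y⌋₊ (S ∪ Q) : ℝ) - dens S * dens Q * y) -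
        ((cS ⌊y / (p : ℝ)⌋₊ (S ∪ Q) : ℝ) - dens S * dens Q * (y / p)) := by
      rw [← hk']
      ring
    rw [e3]
    calc _ ≤ _ := abs_sub _ _
      _ ≤ b * 2 ^ Q.card + b * 2 ^ Q.card := add_le_add e1 e2
      _ = _ := by ring

theorem union_low (S : Finset ℕ) (hS : ∀ p ∈ S, p.Prime)
    (Q : Finset ℕ) (hQ : ∀ p ∈ Q, p.Prime) (hd : Disjoint S Q) (N : ℕ) :
    (cS N S : ℝ) ≤ (cS N (S ∪ Q) : ℝ) + ∑ p ∈ Q, (cS (N / p) S : ℝ) := by
  induction Q using Finset.induction_on with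
  | empty => simp
  | insert p Q hpQ ih =>
    have hp : p.Prime := hQ p (Finset.mem_insert_self p Q)
    have hQ' : ∀ s ∈ Q, s.Prime := fun s hs => hQ s (Finset.mem_insert_of_mem hs)
    rw [Finset.disjoint_insert_right] at hd
    have ih' := ih hQ' hd.2
    have hpSQ : p ∉ S ∪ Q := by
      rw [Finset.mem_union, not_or]
      exact ⟨hd.1, hpQ⟩
    have hpr : ∀ s ∈ S ∪ Q, s.Prime := by
      intro s hs
      rcases Finset.mem_union.1 hs with h | h
      · exact hS s h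
      · exact hQ' s h
    have hk := cS_insert N p hp (S ∪ Q) hpr hpSQ
    have hk' : (cS N (insert p (S ∪ Q)) : ℝ) + (cS (N / p) (S ∪ Q) : ℝ) = (cS N (S ∪ Q) : ℝ) := by
      exact_mod_cast hk
    have hm : (cS (N / p) (S ∪ Q) : ℝ) ≤ (cS (N / p) S : ℝ) := by
      exact_mod_cast cS_mono (N / p) S (S ∪ Q) Finset.subset_union_left
    rw [Finset.union_insert, Finset.sum_insert hpQ]
    linarith

/-- union bound -/
theorem union_bound (S : Finset ℕ) (b : ℝ) (hS : ∀ p ∈ S, p.Prime)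
    (hb : ∀ y : ℝ, 0 ≤ y → |(cS ⌊y⌋₊ S : ℝ) - dens S * y| ≤ b)
    (Q : Finset ℕ) (hQ : ∀ p ∈ Q, p.Prime) (hd : Disjoint S Q) (N : ℕ) :
    dens S * N * (1 - ∑ p ∈ Q, 1 / (p : ℝ)) - b * (1 + Q.card) ≤ (cS N (S ∪ Q) : ℝ) := by
  have h1 := union_low S hS Q hQ hd N
  have h2 := (abs_le.1 (hb N (Nat.cast_nonneg N))).1
  rw [Nat.floor_natCast] at h2
  have h3 : ∑ p ∈ Q, (cS (N / p) S : ℝ) ≤ ∑ p ∈ Q, (dens S * N * (1 / (p : ℝ)) + b) := by
    refine Finset.sum_le_sum (fun p _ => ?_)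
    have h4 := (abs_le.1 (hb ((N : ℝ) / p) (by positivity))).2
    rw [Nat.floor_div_natCast, Nat.floor_natCast] at h4
    have e : dens S * ((N : ℝ) / p) = dens S * N * (1 / (p : ℝ)) := by ring
    rw [e] at h4
    linarith
  rw [Finset.sum_add_distrib, ← Finset.mul_sum, Finset.sum_const, nsmul_eq_mul] at h3
  linarith

def piT : ℕ → ℕ
  | 0 => 1 | 1 => 11 | 2 => 143 | 3 => 2431 | 4 => 46189 | 5 => 1062347 | 6 => 30808063
  | _ => 955049953
noncomputable def psT : ℕ → ℝ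
  | 0 => 1 | 1 => 0.909 | 2 => 0.8391 | 3 => 0.78979 | 4 => 0.74822 | 5 => 0.71569 | 6 => 0.69101
  | _ => 0.66872

lemma primorial_step (q π P : ℕ) (D : ℝ) (hD : 0 ≤ D) (hπ : 11 ≤ π)
    (hcard : ((Ico 11 π).filter Nat.Prime).card = q)
    (ih : ∀ Q : Finset ℕ, (∀ p ∈ Q, p.Prime ∧ 11 ≤ p) → Q.card = q → P ≤ ∏ p ∈ Q, p ∧ D ≤ dens Q)
    (Q : Finset ℕ) (hQ : ∀ p ∈ Q, p.Prime ∧ 11 ≤ p) (hc : Q.card = q + 1) :
    π * P ≤ ∏ p ∈ Q, p ∧ (1 - 1 / (π : ℝ)) * D ≤ dens Q := by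
  have hex : ∃ p ∈ Q, π ≤ p := by
    by_contra hcon
    push Not at hcon
    have hsub : Q ⊆ (Ico 11 π).filter Nat.Prime := by
      intro p hp
      rw [mem_filter, mem_Ico]
      exact ⟨⟨(hQ p hp).2, hcon p hp⟩, (hQ p hp).1⟩
    have := card_le_card hsub
    omega
  obtain ⟨p, hp, hπp⟩ := hex
  have hce : (Q.erase p).card = q := by rw [card_erase_of_mem hp]; omega
  obtain ⟨h1, h2⟩ := ih (Q.erase p) (fun r hr => hQ r (mem_of_mem_erase hr)) hce
  refine ⟨?_, ?_⟩
  · rw [← mul_prod_erase Q (fun p => p) hp]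
    exact Nat.mul_le_mul hπp h1
  · unfold dens at h2 ⊢
    rw [← mul_prod_erase Q (fun p : ℕ => (1 - 1 / (p : ℝ))) hp]
    have hπr : (11 : ℝ) ≤ π := by exact_mod_cast hπ
    have hpr : (π : ℝ) ≤ p := by exact_mod_cast hπp
    have h3 : 1 / (p : ℝ) ≤ 1 / (π : ℝ) := one_div_le_one_div_of_le (by linarith) hpr
    have h4 : 1 / (π : ℝ) ≤ 1 := by
      rw [div_le_one (by linarith)]; linarith
    exact mul_le_mul (by linarith) h2 hD (by linarith)

theorem primorial (Q : Finset ℕ) (hQ : ∀ p ∈ Q, p.Prime ∧ 11 ≤ p) :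
    piT Q.card ≤ ∏ p ∈ Q, p ∧ (Q.card ≤ 7 → psT Q.card ≤ dens Q) := by
  have h0 : ∀ Q : Finset ℕ, (∀ p ∈ Q, p.Prime ∧ 11 ≤ p) → Q.card = 0 →
      1 ≤ ∏ p ∈ Q, p ∧ (1 : ℝ) ≤ dens Q := by
    intro Q _ hc
    rw [card_eq_zero] at hc
    subst hc
    simp [dens]
  have h1 := primorial_step 0 11 1 1 (by norm_num) (by norm_num) (by decide) h0
  have h2 := primorial_step 1 13 (11 * 1) ((1 - 1 / ((11 : ℕ) : ℝ)) * 1) (by norm_num) (by norm_num) (by decide) h1
  have h3 := primorial_step 2 17 _ _ (by norm_num) (by norm_num) (by decide) h2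
  have h4 := primorial_step 3 19 _ _ (by norm_num) (by norm_num) (by decide) h3
  have h5 := primorial_step 4 23 _ _ (by norm_num) (by norm_num) (by decide) h4
  have h6 := primorial_step 5 29 _ _ (by norm_num) (by norm_num) (by decide) h5
  have h7 := primorial_step 6 31 _ _ (by norm_num) (by norm_num) (by decide) h6
  rcases Nat.lt_or_ge Q.card 8 with hlt | hge
  · have hcases : Q.card = 0 ∨ Q.card = 1 ∨ Q.card = 2 ∨ Q.card = 3 ∨ Q.card = 4 ∨ Q.card = 5 ∨
        Q.card = 6 ∨ Q.card = 7 := by omega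
    rcases hcases with h | h | h | h | h | h | h | h
    · obtain ⟨a, b⟩ := h0 Q hQ h
      rw [h]; exact ⟨le_trans (by norm_num [piT]) a, fun _ => le_trans (by norm_num [psT]) b⟩
    · obtain ⟨a, b⟩ := h1 Q hQ h
      rw [h]; exact ⟨le_trans (by norm_num [piT]) a, fun _ => le_trans (by norm_num [psT]) b⟩
    · obtain ⟨a, b⟩ := h2 Q hQ h
      rw [h]; exact ⟨le_trans (by norm_num [piT]) a, fun _ => le_trans (by norm_num [psT]) b⟩
    · obtain ⟨a, b⟩ := h3 Q hQ h
      rw [h]; exact ⟨le_trans (by norm_num [piT]) a, fun _ => le_trans (by norm_num [psT]) b⟩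
    · obtain ⟨a, b⟩ := h4 Q hQ h
      rw [h]; exact ⟨le_trans (by norm_num [piT]) a, fun _ => le_trans (by norm_num [psT]) b⟩
    · obtain ⟨a, b⟩ := h5 Q hQ h
      rw [h]; exact ⟨le_trans (by norm_num [piT]) a, fun _ => le_trans (by norm_num [psT]) b⟩
    · obtain ⟨a, b⟩ := h6 Q hQ h
      rw [h]; exact ⟨le_trans (by norm_num [piT]) a, fun _ => le_trans (by norm_num [psT]) b⟩
    · obtain ⟨a, b⟩ := h7 Q hQ h
      rw [h]; exact ⟨le_trans (by norm_num [piT]) a, fun _ => le_trans (by norm_num [psT]) b⟩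
  · refine ⟨?_, fun h => absurd h (by omega)⟩
    have hpi : piT Q.card = 955049953 := by
      obtain ⟨k, hk⟩ : ∃ k, Q.card = k + 7 := ⟨Q.card - 7, by omega⟩
      rw [hk]; rfl
    rw [hpi]
    obtain ⟨S, hS, hSc⟩ := exists_subset_card_eq (show 7 ≤ Q.card by omega)
    obtain ⟨a, _⟩ := h7 S (fun p hp => hQ p (hS hp)) hSc
    have hle : ∏ p ∈ S, p ≤ ∏ p ∈ Q, p :=
      prod_le_prod_of_subset_of_one_le' hS (fun p hp _ => (hQ p hp).1.one_le)
    exact le_trans (by norm_num) (a.trans hle)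

end H134OC
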