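import Pool.Agent.Helper134.OCDefs

set_option autoImplicit false

namespace H134OC
open Finset

/-- no small factor -/
def s2_t (p : ℕ) : Bool :=
  (p % 2 != 0 || p == 2) && (p % 3 != 0 || p == 3) && (p % 5 != 0 || p == 5) &&
  (p % 7 != 0 || p == 7) && (p % 11 != 0 || p == 11) && (p % 13 != 0 || p == 13) &&
  (p % 17 != 0 || p == 17) && (p % 19 != 0 || p == 19) && (p % 23 != 0 || p == 23)

theorem s2_aux {p : ℕ} (hp : p.Prime) (d : ℕ) (hd : 2 ≤ d) : (p % d != 0 || p == d) = true := by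
  by_cases h : p % d = 0
  · have h1 : d ∣ p := Nat.dvd_of_mod_eq_zero h
    have h2 : d = p := (Nat.Prime.eq_one_or_self_of_dvd hp d h1).resolve_left (by omega)
    simp [h2]
  · simp [h]

theorem s2_tp {p : ℕ} (hp : p.Prime) : s2_t p = true := by
  unfold s2_t
  simp only [Bool.and_eq_true]
  refine ⟨⟨⟨⟨⟨⟨⟨⟨?_, ?_⟩, ?_⟩, ?_⟩, ?_⟩, ?_⟩, ?_⟩, ?_⟩, ?_⟩ <;> exact s2_aux hp _ (by norm_num)

theorem s2_nat : ∑ p ∈ (Icc 11 600).filter (fun p => s2_t p = true), (10 ^ 9 / p ^ 2 + 1) ≤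
    30530000 := by
  decide +kernel

theorem s2_base : ∑ p ∈ (Icc 11 600).filter Nat.Prime, 1 / (p : ℝ) ^ 2 ≤ 0.03053 := by
  have h1 : (Icc 11 600).filter Nat.Prime ⊆ (Icc 11 600).filter (fun p => s2_t p = true) := by
    intro p hp
    rw [mem_filter] at hp ⊢
    exact ⟨hp.1, s2_tp hp.2⟩
  refine (sum_le_sum_of_subset_of_nonneg h1 (fun _ _ _ => by positivity)).trans ?_
  have h2 : ∀ p ∈ (Icc 11 600).filter (fun p => s2_t p = true), 1 / (p : ℝ) ^ 2 ≤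
      ((10 ^ 9 / p ^ 2 + 1 : ℕ) : ℝ) / 10 ^ 9 := by
    intro p hp
    rw [mem_filter, mem_Icc] at hp
    have hp0 : 0 < p := by omega
    have hp2 : 0 < p ^ 2 := by positivity
    have h3 : 10 ^ 9 < p ^ 2 * (10 ^ 9 / p ^ 2 + 1) := Nat.lt_mul_div_succ _ hp2
    have h4 : (10 ^ 9 : ℝ) < (p : ℝ) ^ 2 * ((10 ^ 9 / p ^ 2 + 1 : ℕ) : ℝ) := by exact_mod_cast h3
    have hp0' : (0 : ℝ) < (p : ℝ) ^ 2 := by positivity
    rw [div_le_div_iff₀ hp0' (by norm_num)]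
    linarith
  refine (sum_le_sum h2).trans ?_
  rw [← sum_div, ← Nat.cast_sum, div_le_iff₀ (by norm_num)]
  have h5 : ((∑ p ∈ (Icc 11 600).filter (fun p => s2_t p = true), (10 ^ 9 / p ^ 2 + 1) : ℕ) : ℝ) ≤
      30530000 := by exact_mod_cast s2_nat
  refine h5.trans ?_
  norm_num

theorem s2_ind (k : ℕ) : ∑ p ∈ (Icc 11 (600 + 2 * k)).filter Nat.Prime, 1 / (p : ℝ) ^ 2 ≤
    0.03053 + (1 / 2) * (1 / 600 - 1 / (600 + 2 * (k : ℝ))) := by
  induction k with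
  | zero =>
    have := s2_base
    simpa using this
  | succ k ih =>
    rw [sum_filter] at ih ⊢
    rw [show 600 + 2 * (k + 1) = (600 + 2 * k + 1) + 1 by ring,
      sum_Icc_succ_top (by omega), sum_Icc_succ_top (by omega)]
    have h1 : ¬ (600 + 2 * k + 1 + 1).Prime := by
      intro h
      have h2 : 2 ∣ 600 + 2 * k + 1 + 1 := ⟨301 + k, by ring⟩
      have := (Nat.prime_dvd_prime_iff_eq Nat.prime_two h).1 h2
      omega
    rw [if_neg h1, add_zero]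
    have h3 : (if (600 + 2 * k + 1).Prime then 1 / ((600 + 2 * k + 1 : ℕ) : ℝ) ^ 2 else 0) ≤
        1 / ((600 + 2 * k + 1 : ℕ) : ℝ) ^ 2 := by
      split_ifs
      · exact le_rfl
      · positivity
    have hk : (0 : ℝ) ≤ k := Nat.cast_nonneg k
    have h4 : 1 / ((600 + 2 * k + 1 : ℕ) : ℝ) ^ 2 ≤
        (1 / 2) * (1 / (600 + 2 * (k : ℝ)) - 1 / (600 + 2 * ((k + 1 : ℕ) : ℝ))) := by
      push_cast
      have e : (1 / 2 : ℝ) * (1 / (600 + 2 * (k : ℝ)) - 1 / (600 + 2 * ((k : ℝ) + 1))) =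
          1 / ((600 + 2 * (k : ℝ)) * (600 + 2 * ((k : ℝ) + 1))) := by
        field_simp
        ring
      rw [e]
      apply one_div_le_one_div_of_le
      · positivity
      · nlinarith
    linarith

theorem s2 (n : ℕ) : ∑ p ∈ (Icc 11 n).filter Nat.Prime, 1 / (p : ℝ) ^ 2 ≤ 0.0314 := by
  have h1 : (Icc 11 n).filter Nat.Prime ⊆ (Icc 11 (600 + 2 * n)).filter Nat.Prime := by
    intro p hp
    rw [mem_filter, mem_Icc] at hp ⊢
    exact ⟨⟨hp.1.1, by omega⟩, hp.2⟩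
  refine (sum_le_sum_of_subset_of_nonneg h1 (fun _ _ _ => by positivity)).trans ?_
  refine (s2_ind n).trans ?_
  have : (0 : ℝ) ≤ 1 / (600 + 2 * (n : ℝ)) := by positivity
  have e : (0.03053 : ℝ) + (1 / 2) * (1 / 600 - 1 / (600 + 2 * (n : ℝ))) =
      (0.03053 + 1 / 1200) - (1 / 2) * (1 / (600 + 2 * (n : ℝ))) := by ring
  rw [e]
  have e2 : (0.03053 : ℝ) + 1 / 1200 ≤ 0.0314 := by norm_num
  linarith

end H134OC
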